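import Mathlib

open MeasureTheory Set
open scoped ENNReal Real

namespace MP087bf0

/-- uniform probability measure on `[-1,1]` -/
noncomputable def unif : Measure ℝ := (2 : ℝ≥0∞)⁻¹ • volume.restrict (Set.Icc (-1:ℝ) 1)

instance : IsProbabilityMeasure unif := by
  constructor
  rw [unif, Measure.smul_apply, Measure.restrict_apply MeasurableSet.univ, Set.univ_inter,
    Real.volume_Icc, smul_eq_mul]
  norm_num
  exact ENNReal.inv_mul_cancel (by norm_num) (by norm_num)

/-- uniform probability measure on the cube `[-1,1]^m` -/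
noncomputable def cube (m : ℕ) : Measure (Fin m → ℝ) := Measure.pi (fun _ => unif)

instance (m : ℕ) : IsProbabilityMeasure (cube m) := by
  unfold cube; infer_instance

lemma ae_unif : ∀ᵐ s ∂unif, s ∈ Icc (-1:ℝ) 1 := by
  unfold unif
  refine Measure.ae_smul_measure ?_ _
  exact ae_restrict_mem measurableSet_Icc

lemma ae_cube (m : ℕ) : ∀ᵐ s ∂cube m, ∀ j, s j ∈ Icc (-1:ℝ) 1 := by
  rw [ae_all_iff]
  intro j
  have h := (measurePreserving_eval (fun _ : Fin m => unif) j).quasiMeasurePreserving.ae ae_unif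
  exact h

lemma integrable_cube {m : ℕ} {H : (Fin m → ℝ) → ℝ} (hH : Continuous H) :
    Integrable H (cube m) := by
  have hK : IsCompact (Set.pi Set.univ (fun _ : Fin m => Icc (-1:ℝ) 1)) :=
    isCompact_univ_pi fun _ => isCompact_Icc
  obtain ⟨C, hC⟩ := (hK.image hH).isBounded.exists_norm_le
  refine Integrable.of_bound hH.aestronglyMeasurable C ?_
  filter_upwards [ae_cube m] with s hs
  exact hC _ ⟨s, fun j _ => hs j, rfl⟩

lemma integrable_unif {H : ℝ → ℝ} (hH : Continuous H) : Integrable H unif := by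
  obtain ⟨C, hC⟩ := ((isCompact_Icc (a := (-1:ℝ)) (b := 1)).image hH).isBounded.exists_norm_le
  refine Integrable.of_bound hH.aestronglyMeasurable C ?_
  filter_upwards [ae_unif] with s hs
  exact hC _ ⟨s, hs, rfl⟩

lemma integral_unif (g : ℝ → ℝ) : ∫ s, g s ∂unif = (1/2) * ∫ s in (-1:ℝ)..1, g s := by
  rw [unif, integral_smul_measure, intervalIntegral.integral_of_le (by norm_num),
    integral_Icc_eq_integral_Ioc]
  simp

lemma ftc_unif {g g' : ℝ → ℝ} (h : ∀ s, HasDerivAt g (g' s) s) (hc : Continuous g') :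
    ∫ s, g' s ∂unif = (g 1 - g (-1)) / 2 := by
  rw [integral_unif, intervalIntegral.integral_eq_sub_of_hasDerivAt (fun s _ => h s)
    (hc.intervalIntegrable _ _)]
  ring

lemma integral_cube_succ {m : ℕ} {H : (Fin (m+1) → ℝ) → ℝ} (hH : Continuous H) :
    ∫ s, H s ∂cube (m+1) =
      ∫ s, (∫ s0, H (Fin.cons s0 s : Fin (m+1) → ℝ) ∂unif) ∂cube m := by
  have hmp := measurePreserving_piFinSuccAbove (fun _ : Fin (m+1) => unif) 0
  have h1 := (hmp.symm).integral_comp' H
  unfold cube
  rw [← h1]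
  rw [integral_prod_symm]
  · congr 1
    funext s
    congr 1
    funext s0
    congr 1
    ext j
    refine Fin.cases ?_ (fun i => ?_) j
    · simp [MeasurableEquiv.piFinSuccAbove]
    · simp [MeasurableEquiv.piFinSuccAbove]
  · have := integrable_cube hH
    have h2 := (hmp.symm).integrable_comp_emb (MeasurableEquiv.measurableEmbedding _) (g := H)
    exact h2.2 this


lemma integral_cube_perm {m : ℕ} (σ : Equiv.Perm (Fin m)) (H : (Fin m → ℝ) → ℝ) :
    ∫ s, H (s ∘ σ) ∂cube m = ∫ s, H s ∂cube m := by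
  have h := measurePreserving_piCongrLeft (fun _ : Fin m => unif) σ.symm
  have h2 := h.integral_comp' H
  unfold cube
  rw [← h2]
  congr 1
  funext s
  congr 1
  ext j
  have := MeasurableEquiv.piCongrLeft_apply_apply (β := fun _ : Fin m => ℝ) σ.symm s (σ j)
  simpa using this.symm

lemma ftc_quad (a b c : ℝ) : ∫ s0, (a + 2 * s0 * b + s0 ^ 2 * c) ∂unif = a + (1/3) * c := by
  have h3 := ftc_unif (g := fun s0 => s0 * a + s0 ^ 2 * b + s0 ^ 3 / 3 * c)
          (g' := fun s0 => a + 2 * s0 * b + s0 ^ 2 * c) ?_ (by fun_prop)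
  · rw [h3]; ring
  · intro s0
    have e1 := (hasDerivAt_id s0).mul_const a
    have e2 := ((hasDerivAt_pow 2 s0)).mul_const b
    have e3 := (((hasDerivAt_pow 3 s0)).div_const 3).mul_const c
    refine ((e1.add e2).add e3).congr_deriv ?_
    norm_num

/-- second moment of a shifted random point of a zonotope -/
lemma integral_cube_norm_sq {F : Type*} [NormedAddCommGroup F] [InnerProductSpace ℝ F] :
    ∀ (m : ℕ) (w : Fin m → F) (y : F),
      ∫ s, ‖y + ∑ j, s j • w j‖ ^ 2 ∂cube m = ‖y‖ ^ 2 + (1/3) * ∑ j, ‖w j‖ ^ 2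
  | 0, w, y => by
      simp
  | m + 1, w, y => by
      rw [integral_cube_succ (by fun_prop)]
      have h1 : ∀ s : Fin m → ℝ, ∫ s0, ‖y + ∑ j, (Fin.cons s0 s : Fin (m+1) → ℝ) j • w j‖ ^ 2 ∂unif
          = ‖y + ∑ j, s j • w j.succ‖ ^ 2 + (1/3) * ‖w 0‖ ^ 2 := by
        intro s
        have h2 : ∀ s0 : ℝ, ‖y + ∑ j, (Fin.cons s0 s : Fin (m+1) → ℝ) j • w j‖ ^ 2
            = ‖y + ∑ j, s j • w j.succ‖ ^ 2 + 2 * s0 * inner ℝ (y + ∑ j, s j • w j.succ) (w 0)
              + s0 ^ 2 * ‖w 0‖ ^ 2 := by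
          intro s0
          rw [Fin.sum_univ_succ]
          simp only [Fin.cons_zero, Fin.cons_succ]
          have : y + (s0 • w 0 + ∑ x, s x • w x.succ) = (y + ∑ x, s x • w x.succ) + s0 • w 0 := by abel
          rw [this, norm_add_sq_real, inner_smul_right, norm_smul, mul_pow, Real.norm_eq_abs, sq_abs]
          ring
        simp_rw [h2]
        exact ftc_quad _ _ _
      simp_rw [h1]
      rw [integral_add (integrable_cube (by fun_prop)) (integrable_const _),
        integral_cube_norm_sq m (fun j => w j.succ) y, Fin.sum_univ_succ]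
      simp
      ring

end MP087bf0
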