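import Mathlib

/-!
Definitions for the problem on the critical small-ball constant `f_{d,√d}` of signed sums of unit
vectors (MP_087bf0_co).  All objects are those of the problem file.
-/

open scoped ENNReal

namespace MP087bf0

/-- The sign `+1` or `-1` encoded by a Boolean. -/
def sgn (b : Bool) : ℝ := if b then 1 else -1

/-- `Pr(‖ε₁ v₁ + ⋯ + εₙ vₙ‖₂ ≤ r)` for independent Rademacher signs `ε₁, …, εₙ`: the number of
sign patterns for which the signed sum has Euclidean norm at most `r`, divided by `2 ^ n`. -/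
noncomputable def prob {d n : ℕ} (V : Fin n → EuclideanSpace ℝ (Fin d)) (r : ℝ) : ℝ :=
  open Classical in
  ((Finset.univ.filter (fun ε : Fin n → Bool => ‖∑ i, sgn (ε i) • V i‖ ≤ r)).card : ℝ) / 2 ^ n

/-- `F_{d,r}(n)`: the infimum of `Pr(‖σ_V‖₂ ≤ r)` over all sequences `V` of `n` unit vectors
in `ℝ^d`. -/
noncomputable def F (d : ℕ) (r : ℝ) (n : ℕ) : ℝ :=
  ⨅ V : Fin n → Metric.sphere (0 : EuclideanSpace ℝ (Fin d)) 1,
    prob (fun i => (V i : EuclideanSpace ℝ (Fin d))) r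

/-- `f⁰_{d,r} = liminf n^{d/2} F_{d,r}(n)` over `n → ∞` with `n ≡ d (mod 2)`,
a number in `[0, ∞]`. -/
noncomputable def f0 (d : ℕ) (r : ℝ) : ℝ≥0∞ :=
  Filter.liminf (fun n : ℕ => ENNReal.ofReal ((n : ℝ) ^ ((d : ℝ) / 2) * F d r n))
    (Filter.atTop ⊓ Filter.principal {n : ℕ | n ≡ d [MOD 2]})

/-- `f¹_{d,r} = liminf n^{d/2} F_{d,r}(n)` over `n → ∞` with `n ≢ d (mod 2)`,
a number in `[0, ∞]`. -/
noncomputable def f1 (d : ℕ) (r : ℝ) : ℝ≥0∞ :=
  Filter.liminf (fun n : ℕ => ENNReal.ofReal ((n : ℝ) ^ ((d : ℝ) / 2) * F d r n))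
    (Filter.atTop ⊓ Filter.principal {n : ℕ | ¬ n ≡ d [MOD 2]})

/-- `f_{d,r} = min {f⁰_{d,r}, f¹_{d,r}}`. -/
noncomputable def f (d : ℕ) (r : ℝ) : ℝ≥0∞ := min (f0 d r) (f1 d r)

end MP087bf0
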