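import Mathlib
import Pool.Agent.Lib.MP_087bf0_co.Defs
import Pool.Agent.Lib.MP_087bf0_co.Cube
open MeasureTheory Set
open scoped ENNReal Real

namespace MP087bf0

lemma sgn_true : sgn true = 1 := by simp [sgn]
lemma sgn_false : sgn false = -1 := by simp [sgn]
lemma sgn_sq (b : Bool) : sgn b ^ 2 = 1 := by cases b <;> simp [sgn]
lemma sgn_not (b : Bool) : sgn (!b) = - sgn b := by cases b <;> simp [sgn]

variable {F : Type*} [NormedAddCommGroup F] [NormedSpace ℝ F]

/-- the part of the signed sum coming from indices outside the range of `κ` -/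
noncomputable def X {n m : ℕ} (u : Fin n → F) (κ : Fin m → Fin n) (ε : Fin n → Bool) : F :=
  open Classical in ∑ i, if i ∈ Set.range κ then 0 else sgn (ε i) • u i

/-- signed sum where the coordinates in the slots `κ` are replaced with `s` -/
noncomputable def T {n m : ℕ} (u : Fin n → F) (κ : Fin m → Fin n) (ε : Fin n → Bool)
    (s : Fin m → ℝ) : F := X u κ ε + ∑ j, s j • u (κ j)

lemma T_continuous {n m : ℕ} (u : Fin n → F) (κ : Fin m → Fin n) (ε : Fin n → Bool) :
    Continuous (T u κ ε) := by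
  unfold T; fun_prop

lemma X_eq_cons {n m : ℕ} (u : Fin n → F) (κ : Fin m → Fin n) (ε : Fin n → Bool) (i : Fin n)
    (hi : i ∉ Set.range κ) : X u κ ε = X u (Fin.cons i κ : Fin (m+1) → Fin n) ε + sgn (ε i) • u i := by
  classical
  unfold X
  rw [← Finset.add_sum_erase _ _ (Finset.mem_univ i), ← Finset.add_sum_erase (Finset.univ) (fun j => if j ∈ Set.range (Fin.cons i κ : Fin (m+1) → Fin n) then 0 else sgn (ε j) • u j) (Finset.mem_univ i)]
  rw [if_neg hi, if_pos ⟨0, rfl⟩, zero_add, add_comm]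
  congr 1
  refine Finset.sum_congr rfl fun j hj => ?_
  have hji : j ≠ i := Finset.ne_of_mem_erase hj
  have : (j ∈ Set.range (Fin.cons i κ : Fin (m+1) → Fin n)) ↔ j ∈ Set.range κ := by
    rw [Fin.range_cons]
    simp [hji]
  simp only [this]

lemma X_update {n m : ℕ} (u : Fin n → F) (κ : Fin m → Fin n) (ε : Fin n → Bool) (i : Fin n)
    (hi : i ∈ Set.range κ) (b : Bool) : X u κ (Function.update ε i b) = X u κ ε := by
  classical
  unfold X
  refine Finset.sum_congr rfl fun j _ => ?_
  by_cases hj : j ∈ Set.range κ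
  · simp [hj]
  · have : j ≠ i := fun h => hj (h ▸ hi)
    simp only [hj, if_false]
    rw [Function.update_of_ne this]

/-- flipping a coordinate -/
def flip {n : ℕ} (i : Fin n) (ε : Fin n → Bool) : Fin n → Bool := Function.update ε i (!(ε i))

lemma flip_flip {n : ℕ} (i : Fin n) (ε : Fin n → Bool) : flip i (flip i ε) = ε := by
  unfold flip
  ext j
  by_cases h : j = i
  · subst h; simp
  · simp [Function.update_of_ne h]

def flipEquiv {n : ℕ} (i : Fin n) : (Fin n → Bool) ≃ (Fin n → Bool) where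
  toFun := flip i
  invFun := flip i
  left_inv := flip_flip i
  right_inv := flip_flip i

/-- Rademacher integration by parts, summed over all signs -/
lemma sum_flip {n : ℕ} (i : Fin n) (A B : (Fin n → Bool) → ℝ)
    (hA : ∀ ε, A (flip i ε) = A ε) (hB : ∀ ε, B (flip i ε) = B ε) :
    ∑ ε, (if ε i then A ε else - B ε) = ∑ ε, (A ε - B ε) / 2 := by
  have h1 : ∑ ε, (if ε i then A ε else - B ε) = ∑ ε, (if ε i then - B ε else A ε) := by
    refine Fintype.sum_equiv (flipEquiv i) _ _ fun ε => ?_
    show _ = if (flip i ε) i then - B (flip i ε) else A (flip i ε)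
    rw [hA, hB]
    have : (flip i ε) i = !(ε i) := by simp [flip]
    rw [this]
    cases ε i <;> simp
  have h2 : ∑ ε, (if ε i then A ε else - B ε) + ∑ ε, (if ε i then - B ε else A ε)
      = ∑ ε, (A ε - B ε) := by
    rw [← Finset.sum_add_distrib]
    refine Finset.sum_congr rfl fun ε _ => ?_
    split_ifs <;> ring
  rw [← Finset.sum_div]
  linarith

/-- integration by parts: Rademacher variable to uniform variable -/
lemma ibp {n m : ℕ} (u : Fin n → F) (κ : Fin m → Fin n) (i : Fin n)
    (hi : i ∉ Set.range κ) (G : F → ℝ) (G' : F → F →L[ℝ] ℝ) (hG : ∀ x, HasFDerivAt G (G' x) x)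
    (hG' : Continuous G') :
    ∑ ε, ∫ s, sgn (ε i) * G (T u κ ε s) ∂cube m =
      ∑ ε, ∫ s, G' (T u (Fin.cons i κ : Fin (m+1) → Fin n) ε s) (u i) ∂cube (m+1) := by
  classical
  have hGc : Continuous G := by
    rw [continuous_iff_continuousAt]; exact fun x => (hG x).continuousAt
  set κ' : Fin (m+1) → Fin n := Fin.cons i κ with hκ'
  set X' := X u κ' with hX'
  have hT : ∀ ε s, T u κ ε s = X' ε + sgn (ε i) • u i + ∑ j, s j • u (κ j) := by
    intro ε s
    rw [T, X_eq_cons u κ ε i hi]
  have hT' : ∀ ε (s0 : ℝ) (s : Fin m → ℝ), T u κ' ε (Fin.cons s0 s : Fin (m+1) → ℝ)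
      = X' ε + s0 • u i + ∑ j, s j • u (κ j) := by
    intro ε s0 s
    rw [T, Fin.sum_univ_succ]
    simp only [Fin.cons_zero, Fin.cons_succ, hκ']
    rw [add_assoc]
  have hXflip : ∀ ε, X' (flip i ε) = X' ε := fun ε => X_update u κ' ε i ⟨0, by simp [hκ']⟩ _
  set A : (Fin n → Bool) → ℝ := fun ε => ∫ s, G (X' ε + u i + ∑ j, s j • u (κ j)) ∂cube m with hA
  set B : (Fin n → Bool) → ℝ := fun ε => ∫ s, G (X' ε - u i + ∑ j, s j • u (κ j)) ∂cube m with hB
  have hL : ∀ ε, ∫ s, sgn (ε i) * G (T u κ ε s) ∂cube m = if ε i then A ε else - B ε := by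
    intro ε
    simp_rw [hT]
    rw [integral_const_mul]
    cases h : ε i
    · simp [sgn_false, hB, sub_eq_add_neg]
    · simp [sgn_true, hA]
  have hR : ∀ ε, ∫ s, G' (T u κ' ε s) (u i) ∂cube (m+1) = (A ε - B ε) / 2 := by
    intro ε
    have hTc := T_continuous u κ' ε
    rw [integral_cube_succ (by fun_prop)]
    have h1 : ∀ s : Fin m → ℝ, ∫ s0, G' (T u κ' ε (Fin.cons s0 s : Fin (m+1) → ℝ)) (u i) ∂unif
        = (G (X' ε + u i + ∑ j, s j • u (κ j)) - G (X' ε - u i + ∑ j, s j • u (κ j))) / 2 := by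
      intro s
      simp_rw [hT']
      rw [ftc_unif (g := fun s0 => G (X' ε + s0 • u i + ∑ j, s j • u (κ j)))]
      · simp [sub_eq_add_neg]
      · intro s0
        have hline : HasDerivAt (fun s0 : ℝ => X' ε + s0 • u i + ∑ j, s j • u (κ j)) (u i) s0 := by
          have := (((hasDerivAt_id s0).smul_const (u i)).const_add (X' ε)).add_const
            (∑ j, s j • u (κ j))
          simpa using this
        exact (hG _).comp_hasDerivAt s0 hline
      · fun_prop
    simp_rw [h1]
    rw [integral_div, integral_sub (integrable_cube (by fun_prop)) (integrable_cube (by fun_prop))]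
  simp_rw [hL, hR]
  refine sum_flip i A B (fun ε => ?_) (fun ε => ?_)
  · simp only [hA, hXflip]
  · simp only [hB, hXflip]

end MP087bf0
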