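import Mathlib
import Pool.Agent.Lib.MP_087bf0_co.Signs
open Set Filter Topology
open scoped Real

namespace MP087bf0

/-- number of sign patterns of length `K` with sum `k` -/
noncomputable def cK (K : ℕ) (k : ℤ) : ℕ :=
  open Classical in (Finset.univ.filter (fun ρ : Fin K → Bool => ∑ i, sgn (ρ i) = (k:ℝ))).card

lemma sum_sgn_eq {K : ℕ} (ρ : Fin K → Bool) :
    ∑ i, sgn (ρ i) = 2 * ((Finset.univ.filter (fun i => ρ i = true)).card : ℝ) - K := by
  have h : ∀ i, sgn (ρ i) = 2 * (if ρ i = true then (1:ℝ) else 0) - 1 := by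
    intro i; cases ρ i <;> simp [sgn] <;> norm_num
  simp_rw [h]
  rw [Finset.sum_sub_distrib, ← Finset.mul_sum, Finset.sum_boole]
  simp

lemma cK_eq (K p : ℕ) : cK K (2 * p - K) = K.choose p := by
  classical
  unfold cK
  have h1 : ∀ ρ : Fin K → Bool, ∑ i, sgn (ρ i) = (((2 * p - K : ℤ)) : ℝ) ↔
      (Finset.univ.filter (fun i => ρ i = true)).card = p := by
    intro ρ
    rw [sum_sgn_eq]
    push_cast
    constructor
    · intro h
      have : ((Finset.univ.filter (fun i => ρ i = true)).card : ℝ) = p := by linarith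
      exact_mod_cast this
    · intro h; rw [h]
  simp_rw [h1]
  rw [← Finset.card_fin K, ← Finset.card_powersetCard, Finset.card_fin]
  refine Finset.card_bij (fun ρ _ => Finset.univ.filter (fun i => ρ i = true)) ?_ ?_ ?_
  · intro ρ hρ
    rw [Finset.mem_filter] at hρ
    rw [Finset.mem_powersetCard]
    exact ⟨Finset.subset_univ _, hρ.2⟩
  · intro ρ _ ρ' _ h
    ext i
    have := Finset.ext_iff.1 h i
    simpa using this
  · intro S hS
    rw [Finset.mem_powersetCard] at hS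
    refine ⟨fun i => decide (i ∈ S), ?_, ?_⟩
    · rw [Finset.mem_filter]
      refine ⟨Finset.mem_univ _, ?_⟩
      simp [hS.2]
    · ext i; simp

lemma cK_symm (K : ℕ) (k : ℤ) : cK K (-k) = cK K k := by
  classical
  unfold cK
  refine Finset.card_bij (fun ρ _ => fun i => !(ρ i)) ?_ ?_ ?_
  · intro ρ hρ
    rw [Finset.mem_filter] at hρ ⊢
    refine ⟨Finset.mem_univ _, ?_⟩
    simp_rw [sgn_not]
    rw [Finset.sum_neg_distrib, hρ.2]
    push_cast; ring
  · intro ρ _ ρ' _ h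
    ext i
    have := congrFun h i
    simpa using this
  · intro ρ hρ
    rw [Finset.mem_filter] at hρ
    refine ⟨fun i => !(ρ i), ?_, ?_⟩
    · rw [Finset.mem_filter]
      refine ⟨Finset.mem_univ _, ?_⟩
      simp_rw [sgn_not]
      rw [Finset.sum_neg_distrib, hρ.2]
      push_cast; ring
    · ext i; simp

/-- one step ratio -/
lemma cK_step {K : ℕ} {k : ℤ} (hpar : (k - K) % 2 = 0) {η : ℝ} (hη : 0 < η) (hη1 : η ≤ 1 / 3)
    (hK : 2 / η ≤ K) (hk : |(k:ℝ)| ≤ η * K) : (1 - 3 * η) * cK K k ≤ cK K (k + 2) := by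
  have hK0 : (0:ℝ) < K := lt_of_lt_of_le (by positivity) hK
  obtain ⟨h1, h2⟩ := abs_le.1 hk
  have hkK : (k:ℝ) ≤ K := by nlinarith
  have hkK' : -(K:ℝ) ≤ k := by nlinarith
  have hkZ : k ≤ K := by exact_mod_cast hkK
  have hkZ' : -(K:ℤ) ≤ k := by exact_mod_cast hkK'
  obtain ⟨p, hp⟩ : ∃ p : ℕ, k = 2 * p - K := ⟨((k + K) / 2).toNat, by omega⟩
  have e1 : k + 2 = 2 * ((p + 1 : ℕ) : ℤ) - K := by rw [hp]; push_cast; ring
  rw [e1, hp, cK_eq, cK_eq]
  have h3 := Nat.choose_succ_right_eq K p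
  have hpK : p ≤ K := by omega
  have h4 : ((K.choose (p+1) : ℕ) : ℝ) * (p + 1) = (K.choose p : ℝ) * (K - p) := by
    have := congrArg (Nat.cast : ℕ → ℝ) h3
    push_cast [Nat.cast_sub hpK] at this
    exact this
  have hkr : (k:ℝ) = 2 * p - K := by rw [hp]; push_cast; ring
  have h5 : (1 - 3 * η) * (p + 1) ≤ K - p := by
    have a1 : (p:ℝ) + 1 ≤ (1 + 2 * η) * K / 2 := by
      rw [div_le_iff₀ hη] at hK
      nlinarith
    have a2 : (1 - η) * K / 2 ≤ K - p := by nlinarith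
    have a3 : 0 ≤ 1 - 3 * η := by linarith
    have a4 := mul_le_mul_of_nonneg_left a1 a3
    nlinarith [mul_pos hη hK0, mul_pos hη hη]
  have hp1 : (0:ℝ) < p + 1 := by positivity
  have hc0 : (0:ℝ) ≤ K.choose p := by positivity
  have h6 : (1 - 3 * η) * (K.choose p : ℝ) * (p + 1) ≤ (K.choose (p+1) : ℝ) * (p + 1) := by
    rw [h4]
    nlinarith
  exact le_of_mul_le_mul_right h6 hp1

lemma cK_steps {K : ℕ} {k : ℤ} (hpar : (k - K) % 2 = 0) {η : ℝ} (hη : 0 < η) (hη1 : η ≤ 1 / 6)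
    (R : ℕ) (hK : 2 / η ≤ K) (hKR : 2 * R / η ≤ K) (hk : |(k:ℝ)| ≤ η * K) :
    ∀ j : ℕ, j ≤ R → (1 - 6 * η) ^ j * cK K k ≤ cK K (k + 2 * j) := by
  intro j
  induction j with
  | zero => intro _; simp
  | succ j ih =>
    intro hj
    have h1 := ih (by omega)
    have h2 : |((k + 2 * j : ℤ) : ℝ)| ≤ (2 * η) * K := by
      push_cast
      rw [div_le_iff₀ hη] at hKR
      have hj' : (j:ℝ) ≤ R := by
        have : j ≤ R := by omega
        exact_mod_cast this
      calc |(k:ℝ) + 2 * j| ≤ |(k:ℝ)| + |2 * (j:ℝ)| := abs_add_le _ _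
        _ = |(k:ℝ)| + 2 * j := by rw [abs_of_nonneg (by positivity : (0:ℝ) ≤ 2 * j)]
        _ ≤ _ := by linarith
    have h3 := cK_step (K := K) (k := k + 2 * j) (by omega) (η := 2 * η) (by positivity) (by linarith)
      (by
        refine le_trans ?_ hK
        apply div_le_div_of_nonneg_left (by norm_num) hη (by linarith)) h2
    have e : k + 2 * ((j + 1 : ℕ) : ℤ) = k + 2 * j + 2 := by push_cast; ring
    rw [e]
    refine le_trans ?_ h3
    rw [pow_succ]
    have e2 : (1 - 3 * (2 * η)) = 1 - 6 * η := by ring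
    rw [e2]
    have h4 : 0 ≤ 1 - 6 * η := by linarith
    nlinarith

lemma cK_compare {K : ℕ} {k : ℤ} (hpar : (k - K) % 2 = 0) {η : ℝ} (hη : 0 < η) (hη1 : η ≤ 1 / 6)
    (R : ℕ) (hK : 2 / η ≤ K) (hKR : 2 * R / η ≤ K) (hk : |(k:ℝ)| ≤ η * K) (j : ℤ) (hj : |j| ≤ R) :
    (1 - 6 * η * R) * cK K k ≤ cK K (k + 2 * j) := by
  have key : ∀ k : ℤ, (k - K) % 2 = 0 → |(k:ℝ)| ≤ η * K → ∀ j : ℕ, j ≤ R →
      (1 - 6 * η * R) * cK K k ≤ cK K (k + 2 * j) := by
    intro k hpar hk j hj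
    refine le_trans ?_ (cK_steps hpar hη hη1 R hK hKR hk j hj)
    refine mul_le_mul_of_nonneg_right ?_ (by positivity)
    have h1 := one_add_mul_le_pow (a := -(6 * η)) (by linarith) j
    have h2 : (j:ℝ) ≤ R := by exact_mod_cast hj
    have e : (1 + -(6 * η)) = 1 - 6 * η := by ring
    rw [e] at h1
    refine le_trans ?_ h1
    nlinarith
  rcases le_total 0 j with h | h
  · obtain ⟨n, rfl⟩ := Int.eq_ofNat_of_zero_le h
    refine key k hpar hk n ?_
    have : |((n:ℕ):ℤ)| = n := abs_of_nonneg (by positivity)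
    rw [this] at hj
    exact_mod_cast hj
  · obtain ⟨n, hn⟩ := Int.eq_ofNat_of_zero_le (show 0 ≤ -j by omega)
    have hj' : j = -(n:ℤ) := by omega
    subst hj'
    rw [abs_neg, abs_of_nonneg (by positivity : (0:ℤ) ≤ (n:ℤ))] at hj
    have h1 := key (-k) (by omega) (by push_cast; rwa [abs_neg]) n (by exact_mod_cast hj)
    rw [cK_symm] at h1
    refine h1.trans (le_of_eq ?_)
    rw [← cK_symm]
    congr 2
    ring

/-- the ratio identity -/
lemma cK_ratio {K : ℕ} {κ : ℤ} (hpar : (κ - K) % 2 = 1) (hκ : |κ| < K) :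
    (cK K (κ + 1) : ℝ) * (K + κ + 1) = cK K (κ - 1) * (K - κ + 1) := by
  obtain ⟨h1, h2⟩ := abs_lt.1 hκ
  obtain ⟨p, hp⟩ : ∃ p : ℕ, κ - 1 = 2 * p - K := ⟨((κ - 1 + K) / 2).toNat, by omega⟩
  have e1 : κ + 1 = 2 * ((p + 1 : ℕ) : ℤ) - K := by push_cast; omega
  have hpK : p ≤ K := by omega
  rw [e1, hp, cK_eq, cK_eq]
  have h3 := Nat.choose_succ_right_eq K p
  have h4 : ((K.choose (p+1) : ℕ) : ℝ) * (p + 1) = (K.choose p : ℝ) * (K - p) := by
    have := congrArg (Nat.cast : ℕ → ℝ) h3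
    push_cast [Nat.cast_sub hpK] at this
    exact this
  have hκr : (κ:ℝ) = 2 * p - K + 1 := by
    have : κ = 2 * p - K + 1 := by omega
    rw [this]; push_cast; ring
  rw [hκr]
  linarith

end MP087bf0
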