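import Mathlib
open Set Filter Topology
open scoped Real

namespace MP087bf0

lemma exp_upper3 {y : ℝ} (h0 : 0 ≤ y) (h1 : y ≤ 1) :
    Real.exp y ≤ 1 + y + y ^ 2 / 2 + y ^ 3 / 4 := by
  have h := Real.exp_bound' h0 h1 (n := 3) (by norm_num)
  simp only [Finset.sum_range_succ, Finset.sum_range_zero, Nat.factorial] at h
  norm_num at h
  have h3 : 0 ≤ y ^ 3 := by positivity
  nlinarith

lemma cosh_lower (x : ℝ) : 1 + x ^ 2 / 2 + x ^ 4 / 24 ≤ Real.cosh x := by
  have h := sum_le_hasSum (Finset.range 3) (fun n _ => by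
    have : (0:ℝ) ≤ x ^ (2 * n) := by rw [pow_mul]; positivity
    positivity) (Real.hasSum_cosh x)
  simp only [Finset.sum_range_succ, Finset.sum_range_zero, Nat.factorial] at h
  norm_num at h
  linarith

/-- `exp (x²/(4b)) ≤ cosh x` for `0 ≤ x ≤ 2 b`, `b ≥ 0.65`. -/
lemma two_term {b x : ℝ} (hb : 13 / 20 ≤ b) (hx0 : 0 ≤ x) (hx : x ≤ 2 * b) :
    Real.exp (x ^ 2 / (4 * b)) ≤ Real.cosh x := by
  rcases le_total x (13 / 10) with h | h
  · have h1 : x ^ 2 / (4 * b) ≤ x ^ 2 / (26 / 10) := by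
      apply div_le_div_of_nonneg_left (by positivity) (by norm_num) (by linarith)
    set y := x ^ 2 / (26 / 10) with hy
    have hx2 : x ^ 2 = (26 / 10) * y := by rw [hy]; field_simp
    have hy0 : 0 ≤ y := by positivity
    have hy1 : y ≤ 13 / 20 := by
      rw [hy, div_le_iff₀ (by norm_num)]; nlinarith
    have h2 := exp_upper3 hy0 (by linarith)
    have h3 := cosh_lower x
    have hx4 : x ^ 4 = (26 / 10) ^ 2 * y ^ 2 := by
      have : x ^ 4 = (x ^ 2) ^ 2 := by ring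
      rw [this, hx2]; ring
    refine (Real.exp_le_exp.2 h1).trans (h2.trans (le_trans ?_ h3))
    rw [hx2, hx4]
    have : 0 ≤ y * (3 / 10 - (131 / 600) * y - y ^ 2 / 4) := by
      apply mul_nonneg hy0
      nlinarith
    nlinarith
  · have h1 : x ^ 2 / (4 * b) ≤ x / 2 := by
      rw [div_le_div_iff₀ (by linarith) (by norm_num)]
      nlinarith
    refine (Real.exp_le_exp.2 h1).trans ?_
    set z := Real.exp (x / 2) with hz
    have hz1 : 37 / 20 ≤ z := by
      have h2 : (13:ℝ) / 20 ≤ x / 2 := by linarith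
      have h3 := Real.sum_le_exp_of_nonneg (x := 13 / 20) (by norm_num) 4
      simp only [Finset.sum_range_succ, Finset.sum_range_zero, Nat.factorial] at h3
      norm_num at h3
      have h4 := Real.exp_le_exp.2 h2
      rw [← hz] at h4
      linarith
    have hc : Real.cosh x = (z ^ 2 + 1 / z ^ 2) / 2 := by
      rw [Real.cosh_eq, hz, ← Real.exp_nat_mul, Real.exp_neg]
      have : ((2:ℕ):ℝ) * (x / 2) = x := by push_cast; ring
      rw [this, one_div]
    rw [hc]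
    have hz0 : 0 < z := by linarith
    have : 0 ≤ z ^ 4 - 2 * z ^ 3 + 1 := by
      have e : z ^ 4 - 2 * z ^ 3 + 1 = (z - 1) * (z ^ 3 - z ^ 2 - z - 1) := by ring
      rw [e]
      apply mul_nonneg (by linarith)
      have h5 : z ^ 3 - z ^ 2 - z - 1 = z * (z * (z - 1) - 1) - 1 := by ring
      rw [h5]
      have h6 : (37 / 20 : ℝ) * (17 / 20) - 1 ≤ z * (z - 1) - 1 := by nlinarith
      nlinarith
    rw [le_div_iff₀ (by norm_num), ← sub_nonneg]
    have e : z ^ 2 + 1 / z ^ 2 - z * 2 = (z ^ 4 - 2 * z ^ 3 + 1) / z ^ 2 := by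
      field_simp
      ring
    rw [e]
    positivity

lemma claimA {b u : ℝ} (hb : 1 / 2 ≤ b) (hu0 : 0 ≤ u) (hu1 : u ≤ 1) :
    2 ≤ Real.exp (2 * b * u - b * u ^ 2) + Real.exp (-(2 * b * u) - b * u ^ 2)
      + Real.exp (-(8 * b) + 6 * b * u - b * u ^ 2) := by
  have e1 : Real.exp (2 * b * u - b * u ^ 2) + Real.exp (-(2 * b * u) - b * u ^ 2)
      = 2 * Real.cosh (2 * b * u) * Real.exp (- (b * u ^ 2)) := by
    rw [Real.cosh_eq, sub_eq_add_neg, sub_eq_add_neg, Real.exp_add, Real.exp_add]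
    ring
  have e2 : Real.exp (-(8 * b) + 6 * b * u - b * u ^ 2)
      = Real.exp (-(8 * b) + 6 * b * u) * Real.exp (- (b * u ^ 2)) := by
    rw [sub_eq_add_neg, Real.exp_add]
  rw [e1, e2, ← add_mul]
  have hE : 0 < Real.exp (- (b * u ^ 2)) := Real.exp_pos _
  have hEE : Real.exp (b * u ^ 2) * Real.exp (- (b * u ^ 2)) = 1 := by
    rw [← Real.exp_add]; simp
  suffices h : 2 * Real.exp (b * u ^ 2) ≤ 2 * Real.cosh (2 * b * u) + Real.exp (-(8 * b) + 6 * b * u) by
    have := mul_le_mul_of_nonneg_right h hE.le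
    rw [mul_assoc, hEE] at this
    linarith
  rcases le_total (13 / 20) b with hb1 | hb1
  · have h1 := two_term (b := b) (x := 2 * b * u) hb1 (by positivity) (by nlinarith)
    have e : (2 * b * u) ^ 2 / (4 * b) = b * u ^ 2 := by
      field_simp
      ring
    rw [e] at h1
    have := Real.exp_pos (-(8 * b) + 6 * b * u)
    linarith
  · have h1 := cosh_lower (2 * b * u)
    have hy0 : 0 ≤ b * u ^ 2 := by positivity
    have hu2 : u ^ 2 ≤ 1 := by nlinarith
    have hy1 : b * u ^ 2 ≤ 1 := by nlinarith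
    have h2 := exp_upper3 hy0 hy1
    -- third exponential
    have h3 : Real.exp (-(2 * b)) * u ^ 4 ≤ Real.exp (-(8 * b) + 6 * b * u) := by
      rcases eq_or_lt_of_le hu0 with h0 | h0
      · rw [← h0]; simp; positivity
      · have e : Real.exp (-(8 * b) + 6 * b * u) = Real.exp (-(2 * b)) * Real.exp (-(6 * b * (1 - u))) := by
          rw [← Real.exp_add]; congr 1; ring
        rw [e]
        refine mul_le_mul_of_nonneg_left ?_ (Real.exp_pos _).le
        have h4 : u ≤ Real.exp (-(1 - u)) := by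
          have := Real.add_one_le_exp (-(1 - u))
          linarith
        calc u ^ 4 ≤ Real.exp (-(1 - u)) ^ 4 := pow_le_pow_left₀ hu0 h4 4
          _ = Real.exp (-(4 * (1 - u))) := by
              rw [← Real.exp_nat_mul]; congr 1; push_cast; ring
          _ ≤ _ := by
              apply Real.exp_le_exp.2
              nlinarith
    have h5 : (67 / 250 : ℝ) ≤ Real.exp (-(2 * b)) := by
      have h6 := exp_upper3 (y := 13 / 20) (by norm_num) (by norm_num)
      have h7 : Real.exp (13 / 10) ≤ 250 / 67 := by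
        have e : Real.exp (13 / 10) = Real.exp (13 / 20) ^ 2 := by
          rw [← Real.exp_nat_mul]; congr 1; push_cast; norm_num
        rw [e]
        have h8 : 0 ≤ Real.exp (13 / 20) := (Real.exp_pos _).le
        calc Real.exp (13 / 20) ^ 2 ≤ (1 + 13 / 20 + (13 / 20) ^ 2 / 2 + (13 / 20) ^ 3 / 4) ^ 2 :=
              pow_le_pow_left₀ h8 h6 2
          _ ≤ _ := by norm_num
      have h9 : Real.exp (-(13 / 10)) ≤ Real.exp (-(2 * b)) := Real.exp_le_exp.2 (by linarith)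
      refine le_trans ?_ h9
      rw [Real.exp_neg]
      rw [le_inv_comm₀ (by norm_num) (Real.exp_pos _)]
      refine h7.trans (by norm_num)
    have h6 : (67 / 250 : ℝ) * u ^ 4 ≤ Real.exp (-(8 * b) + 6 * b * u) :=
      le_trans (mul_le_mul_of_nonneg_right h5 (by positivity)) h3
    set v := u ^ 2 with hv
    have hv0 : 0 ≤ v := by positivity
    have e4 : u ^ 4 = v ^ 2 := by rw [hv]; ring
    rw [e4] at h6
    have e5 : (2 * b * u) ^ 2 = 4 * b ^ 2 * v := by rw [hv]; ring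
    have e6 : (2 * b * u) ^ 4 = 16 * b ^ 4 * v ^ 2 := by rw [hv]; ring
    rw [e5, e6] at h1
    have e7 : 0 ≤ (2 * (2 * b ^ 2 - b)) + (4 / 3 * b ^ 4 - b ^ 2 + 67 / 250) * v - b ^ 3 / 2 * v ^ 2 := by
      have hA : 0 ≤ 2 * (2 * b ^ 2 - b) := by nlinarith
      have hB : 0 ≤ 3 * b ^ 2 - 2 * b - b ^ 3 / 2 + 4 / 3 * b ^ 4 + 67 / 250 := by
        nlinarith [mul_nonneg (sub_nonneg.2 hb) (sub_nonneg.2 hb1), sq_nonneg (b - 1/2), sq_nonneg b, mul_nonneg (sq_nonneg b) (mul_nonneg (sub_nonneg.2 hb) (sub_nonneg.2 hb1))]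
      have hb3 : 0 ≤ b ^ 3 / 2 := by positivity
      have h8 : b ^ 3 / 2 * v ^ 2 ≤ b ^ 3 / 2 * v := by
        apply mul_le_mul_of_nonneg_left _ hb3
        nlinarith
      have h9 : 2 * (2 * b ^ 2 - b) * v ≤ 2 * (2 * b ^ 2 - b) := by nlinarith
      nlinarith
    have e8 := mul_nonneg hv0 e7
    have e9 : b * v + (b * v) ^ 2 / 2 + (b * v) ^ 3 / 4 = b * v + b ^ 2 * v ^ 2 / 2 + b ^ 3 * v ^ 3 / 4 := by ring
    nlinarith

lemma theta_caseA {l β t : ℝ} (hl : 0 < l) (hl1 : l ≤ 1) (hb : 1 / 2 ≤ β * l ^ 2) (ht0 : 0 ≤ t)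
    (htl : t ≤ l) :
    ∃ S : Finset ℤ, 2 < l * ∑ k ∈ S, Real.exp (-β * ((t + 2 * l * k) ^ 2 - 1)) := by
  set b := β * l ^ 2 with hbdef
  set u := 1 - t / l with hu
  have htu : t = l * (1 - u) := by rw [hu]; field_simp; ring
  have hu0 : 0 ≤ u := by rw [hu, sub_nonneg, div_le_one hl]; exact htl
  have hu1 : u ≤ 1 := by
    rw [hu]; have : 0 ≤ t / l := by positivity
    linarith
  have hA := claimA hb hu0 hu1
  have hl2 : 0 < l ^ 2 := by positivity
  have hβb : β - b = b * (1 / l ^ 2 - 1) := by rw [hbdef]; field_simp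
  have hE : 1 / l ≤ Real.exp (β - b) := by
    have h1 : (1:ℝ) ≤ 1 / l ^ 2 := by
      rw [le_div_iff₀ hl2]; nlinarith
    have h2 : Real.log (1 / l ^ 2) ≤ 1 / l ^ 2 - 1 := Real.log_le_sub_one_of_pos (by positivity)
    have h3 : Real.log (1 / l ^ 2) = 2 * Real.log (1 / l) := by
      rw [← Real.log_rpow (by positivity)]
      congr 1
      rw [Real.div_rpow (by norm_num) hl.le]
      norm_num
    have h4 : Real.log (1 / l) ≤ β - b := by
      rw [hβb]
      nlinarith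
    calc 1 / l = Real.exp (Real.log (1 / l)) := (Real.exp_log (by positivity)).symm
      _ ≤ _ := Real.exp_le_exp.2 h4
  refine ⟨{0, -1, 1, -2}, ?_⟩
  rw [Finset.sum_insert (by decide), Finset.sum_insert (by decide), Finset.sum_insert (by decide),
    Finset.sum_singleton]
  have e0 : Real.exp (-β * ((t + 2 * l * ((0:ℤ):ℝ)) ^ 2 - 1))
      = Real.exp (β - b) * Real.exp (2 * b * u - b * u ^ 2) := by
    rw [← Real.exp_add]; congr 1; rw [htu, hbdef]; push_cast; ring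
  have e1 : Real.exp (-β * ((t + 2 * l * ((-1:ℤ):ℝ)) ^ 2 - 1))
      = Real.exp (β - b) * Real.exp (-(2 * b * u) - b * u ^ 2) := by
    rw [← Real.exp_add]; congr 1; rw [htu, hbdef]; push_cast; ring
  have e2 : Real.exp (-β * ((t + 2 * l * ((1:ℤ):ℝ)) ^ 2 - 1))
      = Real.exp (β - b) * Real.exp (-(8 * b) + 6 * b * u - b * u ^ 2) := by
    rw [← Real.exp_add]; congr 1; rw [htu, hbdef]; push_cast; ring
  rw [e0, e1, e2]
  set r := Real.exp (-β * ((t + 2 * l * ((-2:ℤ):ℝ)) ^ 2 - 1)) with hr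
  have hr0 : 0 < r := Real.exp_pos _
  have h1 : 1 ≤ l * Real.exp (β - b) := by
    rw [div_le_iff₀ hl] at hE; linarith
  have h2 : 0 < l * r := by positivity
  have h3 : l * (Real.exp (β - b) * Real.exp (2 * b * u - b * u ^ 2) +
      (Real.exp (β - b) * Real.exp (-(2 * b * u) - b * u ^ 2) +
      (Real.exp (β - b) * Real.exp (-(8 * b) + 6 * b * u - b * u ^ 2) + r)))
      = (l * Real.exp (β - b)) * (Real.exp (2 * b * u - b * u ^ 2) +
        Real.exp (-(2 * b * u) - b * u ^ 2) + Real.exp (-(8 * b) + 6 * b * u - b * u ^ 2)) + l * r := by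
    ring
  rw [h3]
  have h4 : 2 ≤ (l * Real.exp (β - b)) * (Real.exp (2 * b * u - b * u ^ 2) +
        Real.exp (-(2 * b * u) - b * u ^ 2) + Real.exp (-(8 * b) + 6 * b * u - b * u ^ 2)) := by
    nlinarith
  linarith

lemma hasSum_pow_natAbs {q : ℝ} (hq0 : 0 ≤ q) (hq1 : q < 1) :
    HasSum (fun n : ℤ => q ^ n.natAbs) ((1 - q)⁻¹ + q * (1 - q)⁻¹) := by
  have h1 : HasSum (fun n : ℕ => q ^ n) (1 - q)⁻¹ := hasSum_geometric_of_lt_one hq0 hq1
  have h2 : HasSum (fun n : ℕ => q * q ^ n) (q * (1 - q)⁻¹) := h1.mul_left q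
  refine HasSum.of_nat_of_neg_add_one (f := fun n : ℤ => q ^ n.natAbs) ?_ ?_
  · simpa using h1
  · have : (fun n : ℕ => q ^ (-((n:ℤ) + 1)).natAbs) = fun n : ℕ => q * q ^ n := by
      ext n
      have : (-((n:ℤ) + 1)).natAbs = n + 1 := by omega
      rw [this, pow_succ]; ring
    rw [this]
    exact h2

lemma pow_sq_le_natAbs {q : ℝ} (hq0 : 0 ≤ q) (hq1 : q ≤ 1) (n : ℤ) :
    q ^ (n.natAbs ^ 2) ≤ q ^ n.natAbs := by
  apply pow_le_pow_of_le_one hq0 hq1
  exact Nat.le_self_pow (by norm_num) _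

lemma norm_tsum_ge {F : ℤ → ℂ} (hF : Summable fun n => ‖F n‖) :
    2 * ‖F 0‖ - ∑' n, ‖F n‖ ≤ ‖∑' n, F n‖ := by
  classical
  have h1 := hF.of_norm.tsum_eq_add_tsum_ite (0:ℤ)
  have h2 := hF.tsum_eq_add_tsum_ite (0:ℤ)
  have h3 : Summable fun n : ℤ => ‖(if n = 0 then 0 else F n : ℂ)‖ := by
    refine hF.of_nonneg_of_le (fun n => norm_nonneg _) fun n => ?_
    split_ifs <;> simp
  have h4 : ‖∑' n : ℤ, (if n = 0 then 0 else F n : ℂ)‖ ≤ ∑' n : ℤ, (if n = 0 then 0 else ‖F n‖) := by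
    refine (norm_tsum_le_tsum_norm h3).trans (le_of_eq ?_)
    congr 1
    ext n
    split_ifs <;> simp
  rw [h1, h2]
  have h5 : ‖F 0‖ ≤ ‖F 0 + ∑' n : ℤ, (if n = 0 then 0 else F n : ℂ)‖
      + ‖∑' n : ℤ, (if n = 0 then 0 else F n : ℂ)‖ := by
    have := norm_sub_le (F 0 + ∑' n : ℤ, (if n = 0 then 0 else F n : ℂ))
      (∑' n : ℤ, (if n = 0 then 0 else F n : ℂ))
    rwa [add_sub_cancel_right] at this
  linarith

lemma theta_poisson {l β t : ℝ} (hl : 0 < l) (hβ : 0 < β) :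
    Summable (fun n : ℤ => Real.exp (-β * (t + 2 * l * n) ^ 2)) ∧
    1 / (2 * l) * √(π / β) * (2 - ∑' n : ℤ, Real.exp (-(π ^ 2 / (4 * (β * l ^ 2)))) ^ (n.natAbs ^ 2))
      ≤ ∑' n : ℤ, Real.exp (-β * (t + 2 * l * n) ^ 2) := by
  have hπ := Real.pi_pos
  set b := β * l ^ 2 with hb
  have hb0 : 0 < b := by positivity
  set a : ℝ := 4 * b / π with ha
  have ha0 : 0 < a := by positivity
  set c : ℝ := -(2 * β * t * l / π) with hc
  have key := Complex.tsum_exp_neg_quadratic (a := (a:ℂ)) (by simpa using ha0) (c:ℂ)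
  -- LHS terms
  have hL : ∀ n : ℤ, Complex.exp (-π * (a:ℂ) * (n:ℂ) ^ 2 + 2 * π * (c:ℂ) * n)
      = ((Real.exp (β * t ^ 2) * Real.exp (-β * (t + 2 * l * n) ^ 2) : ℝ) : ℂ) := by
    intro n
    rw [← Real.exp_add, Complex.ofReal_exp]
    congr 1
    rw [ha, hc, hb]
    push_cast
    have : (π:ℂ) ≠ 0 := by exact_mod_cast hπ.ne'
    field_simp
    ring
  -- RHS terms norms
  have hR : ∀ n : ℤ, ‖Complex.exp (-π / (a:ℂ) * ((n:ℂ) + Complex.I * (c:ℂ)) ^ 2)‖
      = Real.exp (β * t ^ 2) * Real.exp (-(π ^ 2 / (4 * b))) ^ (n.natAbs ^ 2) := by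
    intro n
    rw [Complex.norm_exp, ← Real.exp_nat_mul, ← Real.exp_add]
    congr 1
    have e1 : -π / (a:ℂ) * ((n:ℂ) + Complex.I * (c:ℂ)) ^ 2
        = ((-(π / a) * ((n:ℝ) ^ 2 - c ^ 2) : ℝ) : ℂ) + ((-(π / a) * (2 * n * c) : ℝ) : ℂ) * Complex.I := by
      push_cast
      have : Complex.I ^ 2 = -1 := Complex.I_sq
      ring_nf
      rw [this]
      ring
    rw [e1]
    simp only [Complex.add_re, Complex.ofReal_re, Complex.mul_re, Complex.ofReal_im, Complex.I_re,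
      Complex.I_im, mul_zero, mul_one, sub_zero, add_zero]
    have e2 : (((n.natAbs ^ 2 : ℕ)) : ℝ) = (n:ℝ) ^ 2 := by
      have : ((n.natAbs ^ 2 : ℕ) : ℤ) = n ^ 2 := by push_cast; exact sq_abs n
      calc (((n.natAbs ^ 2 : ℕ)) : ℝ) = (((n.natAbs ^ 2 : ℕ) : ℤ) : ℝ) := by norm_cast
        _ = _ := by rw [this]; push_cast; ring
    rw [e2, ha, hc, hb]
    field_simp
    ring
  set q : ℝ := Real.exp (-(π ^ 2 / (4 * b))) with hq
  have hq0 : 0 < q := Real.exp_pos _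
  have hq1 : q < 1 := by
    rw [hq, Real.exp_lt_one_iff]
    have : 0 < π ^ 2 / (4 * b) := by positivity
    linarith
  have hqs : Summable fun n : ℤ => q ^ (n.natAbs ^ 2) :=
    (hasSum_pow_natAbs hq0.le hq1).summable.of_nonneg_of_le (fun n => by positivity)
      (fun n => pow_sq_le_natAbs hq0.le hq1.le n)
  have hGs : Summable (fun n : ℤ => Real.exp (-β * (t + 2 * l * n) ^ 2)) := by
    set q' : ℝ := Real.exp (-(2 * b)) with hq'
    have hq'0 : 0 < q' := Real.exp_pos _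
    have hq'1 : q' < 1 := by
      rw [hq', Real.exp_lt_one_iff]; linarith
    refine ((hasSum_pow_natAbs hq'0.le hq'1).summable.mul_left (Real.exp (β * t ^ 2))).of_nonneg_of_le
      (fun n => (Real.exp_pos _).le) (fun n => ?_)
    refine le_trans ?_ (mul_le_mul_of_nonneg_left (pow_sq_le_natAbs hq'0.le hq'1.le n)
      (Real.exp_pos _).le)
    rw [hq', ← Real.exp_nat_mul, ← Real.exp_add]
    apply Real.exp_le_exp.2
    have e2 : (((n.natAbs ^ 2 : ℕ)) : ℝ) = (n:ℝ) ^ 2 := by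
      have : ((n.natAbs ^ 2 : ℕ) : ℤ) = n ^ 2 := by push_cast; exact sq_abs n
      calc (((n.natAbs ^ 2 : ℕ)) : ℝ) = (((n.natAbs ^ 2 : ℕ) : ℤ) : ℝ) := by norm_cast
        _ = _ := by rw [this]; push_cast; ring
    rw [e2, hb]
    nlinarith [mul_nonneg hβ.le (sq_nonneg (2 * t + 2 * l * n))]
  refine ⟨hGs, ?_⟩
  have hFs : Summable fun n : ℤ => ‖Complex.exp (-π / (a:ℂ) * ((n:ℂ) + Complex.I * (c:ℂ)) ^ 2)‖ := by
    simp_rw [hR]
    exact hqs.mul_left _
  have h1 := norm_tsum_ge hFs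
  have h2 : ‖Complex.exp (-π / (a:ℂ) * (((0:ℤ):ℂ) + Complex.I * (c:ℂ)) ^ 2)‖ = Real.exp (β * t ^ 2) := by
    rw [hR 0]; simp
  rw [h2] at h1
  simp_rw [hR] at h1
  rw [tsum_mul_left] at h1
  have h3 := congrArg norm key
  simp_rw [hL] at h3
  rw [← Complex.ofReal_tsum, Complex.norm_real, tsum_mul_left,
    norm_mul ((1:ℂ) / (a:ℂ) ^ (1 / 2 : ℂ))] at h3
  have h4 : ‖(1:ℂ) / (a:ℂ) ^ (1 / 2 : ℂ)‖ = 1 / (2 * l) * √(π / β) := by
    rw [norm_div, norm_one, Complex.norm_cpow_eq_rpow_re_of_pos ha0]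
    have e3 : ((1:ℂ) / 2).re = 1 / 2 := by simp
    rw [e3, ← Real.sqrt_eq_rpow, ha, hb]
    have e4 : 4 * (β * l ^ 2) / π = (2 * l) ^ 2 * (β / π) := by ring
    rw [e4, Real.sqrt_mul (by positivity), Real.sqrt_sq (by positivity)]
    have e5 : √(π / β) = 1 / √(β / π) := by
      rw [one_div, ← Real.sqrt_inv, inv_div]
    rw [e5]
    field_simp
  rw [h4] at h3
  have hE : 0 < Real.exp (β * t ^ 2) := Real.exp_pos _
  have h5 : ‖Real.exp (β * t ^ 2) * ∑' n : ℤ, Real.exp (-β * (t + 2 * l * n) ^ 2)‖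
      = Real.exp (β * t ^ 2) * ∑' n : ℤ, Real.exp (-β * (t + 2 * l * n) ^ 2) := by
    rw [Real.norm_eq_abs, abs_of_nonneg]
    exact mul_nonneg hE.le (tsum_nonneg fun n => (Real.exp_pos _).le)
  rw [h5] at h3
  have h6 : 0 ≤ 1 / (2 * l) * √(π / β) := by positivity
  have h7 := mul_le_mul_of_nonneg_left h1 h6
  rw [← h3] at h7
  have h8 : 1 / (2 * l) * √(π / β) * (2 * Real.exp (β * t ^ 2) -
      Real.exp (β * t ^ 2) * ∑' n : ℤ, q ^ (n.natAbs ^ 2))
      = Real.exp (β * t ^ 2) * (1 / (2 * l) * √(π / β) * (2 - ∑' n : ℤ, q ^ (n.natAbs ^ 2))) := by ring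
  rw [h8] at h7
  exact le_of_mul_le_mul_left h7 hE

lemma exp_div_lower {β : ℝ} (hβ : 0 < β) : 413 / 100 ≤ Real.exp β * √(π / β) := by
  have hπ := Real.pi_gt_d4
  have he := Real.exp_one_gt_d9
  have h1 : 2 * β ≤ Real.exp (2 * β - 1) := by
    have := Real.add_one_le_exp (2 * β - 1); linarith
  have h2 : 2 * π * Real.exp 1 ≤ (Real.exp β * √(π / β)) ^ 2 := by
    rw [mul_pow, Real.sq_sqrt (by positivity)]
    have e : Real.exp β ^ 2 = Real.exp 1 * Real.exp (2 * β - 1) := by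
      rw [← Real.exp_nat_mul, ← Real.exp_add]; congr 1; push_cast; ring
    rw [e, mul_div_assoc', le_div_iff₀ hβ]
    have h3 : 0 < Real.exp 1 * π := by positivity
    nlinarith
  have h3 : (413 / 100 : ℝ) ^ 2 ≤ (Real.exp β * √(π / β)) ^ 2 := by
    refine le_trans ?_ h2
    nlinarith
  exact (pow_le_pow_iff_left₀ (by norm_num) (by positivity) (by norm_num)).1 h3

lemma theta_caseB {l β t : ℝ} (hl : 0 < l) (hβ : 0 < β) (hb : β * l ^ 2 < 1 / 2) :
    ∃ S : Finset ℤ, 2 < l * ∑ k ∈ S, Real.exp (-β * ((t + 2 * l * k) ^ 2 - 1)) := by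
  obtain ⟨hs, hlow⟩ := theta_poisson (t := t) hl hβ
  have hπ := Real.pi_gt_d4
  set b := β * l ^ 2 with hbdef
  have hb0 : 0 < b := by positivity
  set q : ℝ := Real.exp (-(π ^ 2 / (4 * b))) with hq
  have hq0 : 0 < q := Real.exp_pos _
  have hq1 : q ≤ 1 / 100 := by
    have h1 : (4.8:ℝ) ≤ π ^ 2 / (4 * b) := by
      rw [le_div_iff₀ (by positivity)]; nlinarith
    have h2 : q ≤ Real.exp (-4.8) := Real.exp_le_exp.2 (by linarith)
    have h3 : (100:ℝ) ≤ Real.exp 4.8 := by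
      have := Real.sum_le_exp_of_nonneg (x := 4.8) (by norm_num) 9
      simp only [Finset.sum_range_succ, Finset.sum_range_zero, Nat.factorial] at this
      norm_num at this
      linarith
    refine h2.trans ?_
    rw [Real.exp_neg, inv_le_comm₀ (Real.exp_pos _) (by norm_num)]
    simpa using h3
  have hq1' : q < 1 := by linarith
  have h1 : ∑' n : ℤ, q ^ (n.natAbs ^ 2) ≤ (1 - q)⁻¹ + q * (1 - q)⁻¹ := by
    have h2 := hasSum_pow_natAbs hq0.le hq1'
    rw [← h2.tsum_eq]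
    refine Summable.tsum_le_tsum (fun n => pow_sq_le_natAbs hq0.le hq1'.le n) ?_ h2.summable
    exact h2.summable.of_nonneg_of_le (fun n => by positivity)
      (fun n => pow_sq_le_natAbs hq0.le hq1'.le n)
  have h2 : (1 - q)⁻¹ + q * (1 - q)⁻¹ ≤ 103 / 100 := by
    have : (1 - q)⁻¹ + q * (1 - q)⁻¹ = (1 + q) / (1 - q) := by
      rw [div_eq_mul_inv]; ring
    rw [this, div_le_iff₀ (by linarith)]
    linarith
  have h3 := exp_div_lower hβ
  have h4 : 2 < l * (Real.exp β * ∑' n : ℤ, Real.exp (-β * (t + 2 * l * n) ^ 2)) := by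
    have h5 : 0 < √(π / β) := Real.sqrt_pos.2 (by positivity)
    have h6 : 97 / 100 ≤ 2 - ∑' n : ℤ, q ^ (n.natAbs ^ 2) := by linarith
    have h7 : 1 / (2 * l) * √(π / β) * (97 / 100) ≤ ∑' n : ℤ, Real.exp (-β * (t + 2 * l * n) ^ 2) :=
      le_trans (mul_le_mul_of_nonneg_left h6 (by positivity)) hlow
    have h8 : l * (Real.exp β * (1 / (2 * l) * √(π / β) * (97 / 100)))
        = (Real.exp β * √(π / β)) * (97 / 200) := by
      field_simp
      ring
    calc (2:ℝ) < 413 / 100 * (97 / 200) := by norm_num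
      _ ≤ (Real.exp β * √(π / β)) * (97 / 200) := by nlinarith
      _ = l * (Real.exp β * (1 / (2 * l) * √(π / β) * (97 / 100))) := h8.symm
      _ ≤ _ := mul_le_mul_of_nonneg_left (mul_le_mul_of_nonneg_left h7 (Real.exp_pos _).le) hl.le
  have h5 := ((hs.hasSum.mul_left (Real.exp β)).mul_left l)
  have h6 := h5.eventually (lt_mem_nhds h4)
  obtain ⟨S, hS⟩ := h6.exists
  refine ⟨S, ?_⟩
  refine lt_of_lt_of_eq hS ?_
  rw [Finset.mul_sum]
  refine Finset.sum_congr rfl fun n _ => ?_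
  show l * (Real.exp β * Real.exp (-β * (t + 2 * l * n) ^ 2)) = _
  rw [← Real.exp_add]
  congr 2
  ring

/-- the one-dimensional theta inequality -/
theorem theta_ineq {l β : ℝ} (t : ℝ) (hl : 0 < l) (hl1 : l ≤ 1) (hβ : 0 < β) :
    ∃ S : Finset ℤ, 2 < l * ∑ k ∈ S, Real.exp (-β * ((t + 2 * l * k) ^ 2 - 1)) := by
  rcases lt_or_ge (β * l ^ 2) (1 / 2) with hb | hb
  · exact theta_caseB hl hβ hb
  · -- reduce to `0 ≤ t ≤ l`
    set k0 : ℤ := round (t / (2 * l)) with hk0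
    set t' : ℝ := t - 2 * l * k0 with ht'
    have h1 : |t'| ≤ l := by
      have h2 := abs_sub_round (t / (2 * l))
      have e : t' = (t / (2 * l) - k0) * (2 * l) := by
        rw [ht']; field_simp
      rw [e, abs_mul, abs_of_pos (show (0:ℝ) < 2 * l by positivity)]
      nlinarith
    rcases le_total 0 t' with h0 | h0
    · obtain ⟨S, hS⟩ := theta_caseA hl hl1 hb h0 (by rwa [abs_of_nonneg h0] at h1)
      refine ⟨S.map (Equiv.subRight k0).toEmbedding, ?_⟩
      rw [Finset.sum_map]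
      convert hS using 6 with k
      simp only [Equiv.toEmbedding_apply, Equiv.subRight_apply]
      rw [ht']; push_cast; ring
    · obtain ⟨S, hS⟩ := theta_caseA (t := -t') hl hl1 hb (by linarith) (by
        rwa [abs_of_nonpos h0] at h1)
      refine ⟨S.map (Equiv.subLeft (-k0)).toEmbedding, ?_⟩
      rw [Finset.sum_map]
      convert hS using 5 with k
      simp only [Equiv.toEmbedding_apply, Equiv.subLeft_apply]
      rw [ht']; push_cast; ring

end MP087bf0
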