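import Mathlib
import Pool.Agent.Lib.MP_087bf0_co.Theta
open Set Filter Topology
open scoped Real

namespace MP087bf0

/-- uniform truncation of the theta inequality -/
lemma theta_trunc {l t : ℝ} (hl : 0 < l) (hl1 : l ≤ 1) (ht : t ^ 2 < 1) (R0 : ℕ) :
    ∃ R : ℕ, R0 ≤ R ∧ ∀ β : ℝ, 0 ≤ β →
      2 / l < ∑ k ∈ Finset.Icc (-(R:ℤ)) R, Real.exp (-β * ((t + 2 * l * k) ^ 2 - 1)) := by
  set f : ℕ → ℝ → ℝ := fun R β => ∑ k ∈ Finset.Icc (-(R:ℤ)) R, Real.exp (-β * ((t + 2 * l * k) ^ 2 - 1))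
    with hf
  have hmono : ∀ R R' : ℕ, R ≤ R' → ∀ β, f R β ≤ f R' β := by
    intro R R' h β
    refine Finset.sum_le_sum_of_subset_of_nonneg ?_ fun _ _ _ => (Real.exp_pos _).le
    apply Finset.Icc_subset_Icc <;> omega
  have hcont : ∀ R, Continuous (f R) := by
    intro R; simp only [hf]; fun_prop
  have hpt : ∀ β : ℝ, 0 ≤ β → ∃ R : ℕ, 2 / l < f R β := by
    intro β hβ
    rcases eq_or_lt_of_le hβ with h0 | h0
    · obtain ⟨R, hR⟩ := exists_nat_gt (2 / l)
      refine ⟨R, ?_⟩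
      rw [← h0]
      simp only [hf, neg_zero, zero_mul, Real.exp_zero, Finset.sum_const, Int.card_Icc,
        nsmul_eq_mul, mul_one]
      have : (((R:ℤ) + 1 - -(R:ℤ)).toNat : ℝ) = 2 * R + 1 := by
        have : ((R:ℤ) + 1 - -(R:ℤ)).toNat = 2 * R + 1 := by omega
        rw [this]; push_cast; ring
      rw [this]
      have : (0:ℝ) ≤ R := by positivity
      linarith
    · obtain ⟨S, hS⟩ := theta_ineq t hl hl1 h0
      obtain ⟨R, hR⟩ : ∃ R : ℕ, ∀ k ∈ S, k.natAbs ≤ R :=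
        ⟨S.sup Int.natAbs, fun k hk => Finset.le_sup (f := Int.natAbs) hk⟩
      refine ⟨R, ?_⟩
      rw [div_lt_iff₀' hl]
      refine hS.trans_le (mul_le_mul_of_nonneg_left ?_ hl.le)
      refine Finset.sum_le_sum_of_subset_of_nonneg ?_ fun _ _ _ => (Real.exp_pos _).le
      intro k hk
      have := hR k hk
      rw [Finset.mem_Icc]; omega
  set B : ℝ := (Real.log (2 / l) + 1) / (1 - t ^ 2) with hB
  have hcompact := isCompact_Icc (a := (0:ℝ)) (b := B)
  have hind : ∃ R : ℕ, ∀ β ∈ Icc (0:ℝ) B, 2 / l < f R β := by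
    refine hcompact.induction_on (p := fun s => ∃ R : ℕ, ∀ β ∈ s, 2 / l < f R β) ?_ ?_ ?_ ?_
    · exact ⟨0, fun β hβ => absurd hβ (Set.notMem_empty _)⟩
    · rintro s s' hss ⟨R, hR⟩; exact ⟨R, fun β hβ => hR β (hss hβ)⟩
    · rintro s s' ⟨R, hR⟩ ⟨R', hR'⟩
      refine ⟨max R R', fun β hβ => ?_⟩
      rcases hβ with h | h
      · exact (hR β h).trans_le (hmono _ _ (le_max_left _ _) β)
      · exact (hR' β h).trans_le (hmono _ _ (le_max_right _ _) β)
    · intro β hβ
      obtain ⟨R, hR⟩ := hpt β hβ.1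
      refine ⟨{β' | 2 / l < f R β'}, ?_, R, fun β' h => h⟩
      exact mem_nhdsWithin_of_mem_nhds ((hcont R).continuousAt.eventually (lt_mem_nhds hR))
  obtain ⟨R, hR⟩ := hind
  refine ⟨max R R0, le_max_right _ _, fun β hβ => ?_⟩
  rcases le_total β B with h | h
  · exact (hR β ⟨hβ, h⟩).trans_le (hmono _ _ (le_max_left _ _) β)
  · have h1 : Real.exp (-β * ((t + 2 * l * ((0:ℤ):ℝ)) ^ 2 - 1)) ≤ f (max R R0) β := by
      refine Finset.single_le_sum (f := fun k : ℤ => Real.exp (-β * ((t + 2 * l * k) ^ 2 - 1)))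
        (fun _ _ => (Real.exp_pos _).le) ?_
      rw [Finset.mem_Icc]; omega
    refine lt_of_lt_of_le ?_ h1
    have h2 : 0 < 1 - t ^ 2 := by linarith
    have h3 : Real.log (2 / l) + 1 ≤ β * (1 - t ^ 2) := by
      rw [← div_le_iff₀ h2]; exact h
    have e : -β * ((t + 2 * l * ((0:ℤ):ℝ)) ^ 2 - 1) = β * (1 - t ^ 2) := by push_cast; ring
    rw [e]
    calc 2 / l = Real.exp (Real.log (2 / l)) := (Real.exp_log (by positivity)).symm
      _ < _ := Real.exp_lt_exp.2 (by linarith)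

/-- pointwise existence of laws with variance `< 1` and entropy `> log (2/l)` -/
lemma gibbs_exists {l t : ℝ} (hl : 0 < l) (hl1 : l ≤ 1) (ht : t ^ 2 < 1) :
    ∃ (S : Finset ℤ) (p : ℤ → ℝ), (∀ k, 0 ≤ p k) ∧ ∑ k ∈ S, p k = 1 ∧
      ∑ k ∈ S, p k * (t + 2 * l * k) ^ 2 < 1 ∧
      Real.log (2 / l) < ∑ k ∈ S, Real.negMulLog (p k) := by
  obtain ⟨R, -, hZ⟩ := theta_trunc hl hl1 ht 0
  set S := Finset.Icc (-(R:ℤ)) R with hS
  set x : ℤ → ℝ := fun k => (t + 2 * l * k) ^ 2 - 1 with hx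
  set D : ℝ → ℝ := fun β => ∑ k ∈ S, x k * Real.exp (-β * x k) with hD
  have h0S : (0:ℤ) ∈ S := by rw [hS, Finset.mem_Icc]; omega
  have hx0 : x 0 < 0 := by simp only [hx]; push_cast; nlinarith
  have hDcont : Continuous D := by simp only [hD]; fun_prop
  obtain ⟨β, hβ, hDβ, hcomp⟩ : ∃ β : ℝ, 0 ≤ β ∧ D β ≤ 0 ∧ β * D β = 0 := by
    rcases le_or_gt (D 0) 0 with h | h
    · exact ⟨0, le_refl _, h, by simp⟩
    · set c : ℝ := (S.card : ℝ) with hc
      have hc0 : 0 < c := by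
        rw [hc]; exact_mod_cast Finset.card_pos.2 ⟨0, h0S⟩
      set β2 : ℝ := c / (- x 0) with hβ2
      have hβ2p : 0 < β2 := by
        rw [hβ2]; apply div_pos hc0; linarith
      have h1 : D β2 ≤ 0 := by
        have h2 : ∀ k ∈ S, x k * Real.exp (-β2 * x k) ≤ 1 / β2 + (if k = 0 then x 0 - 1 / β2 else 0) := by
          intro k _
          by_cases hk : k = 0
          · rw [if_pos hk, hk]
            have h3 : 1 ≤ Real.exp (-β2 * x 0) := Real.one_le_exp (by nlinarith)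
            nlinarith
          · rw [if_neg hk, add_zero, le_div_iff₀ hβ2p]
            have h3 : β2 * x k ≤ Real.exp (β2 * x k) := by
              have := Real.add_one_le_exp (β2 * x k); linarith
            have h4 : 0 < Real.exp (-β2 * x k) := Real.exp_pos _
            have h5 : Real.exp (β2 * x k) * Real.exp (-β2 * x k) = 1 := by
              rw [← Real.exp_add]; simp
            nlinarith [mul_le_mul_of_nonneg_right h3 h4.le]
        have h3 : D β2 ≤ ∑ k ∈ S, (1 / β2 + (if k = 0 then x 0 - 1 / β2 else 0)) :=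
          Finset.sum_le_sum h2
        rw [Finset.sum_add_distrib, Finset.sum_const, Finset.sum_ite_eq' S (0:ℤ), if_pos h0S,
          nsmul_eq_mul] at h3
        have h4 : c * (1 / β2) = - x 0 := by
          rw [hβ2]
          have : x 0 ≠ 0 := hx0.ne
          field_simp
        rw [← hc, h4] at h3
        have : 0 < 1 / β2 := by positivity
        linarith
      have h2 : (0:ℝ) ∈ D '' Icc 0 β2 :=
        intermediate_value_Icc' hβ2p.le hDcont.continuousOn ⟨h1, h.le⟩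
      obtain ⟨β, hβ, hβ0⟩ := h2
      exact ⟨β, hβ.1, hβ0.le, by rw [hβ0, mul_zero]⟩
  set Z : ℝ := ∑ k ∈ S, Real.exp (-β * x k) with hZdef
  have hZ' : 2 / l < Z := hZ β hβ
  have hZ0 : 0 < Z := lt_trans (by positivity) hZ'
  set p : ℤ → ℝ := fun k => Real.exp (-β * x k) / Z with hp
  have hp0 : ∀ k, 0 < p k := fun k => div_pos (Real.exp_pos _) hZ0
  have hp1 : ∑ k ∈ S, p k = 1 := by
    simp only [hp]; rw [← Finset.sum_div, ← hZdef, div_self hZ0.ne']
  have hpx : ∑ k ∈ S, p k * x k = D β / Z := by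
    simp only [hp, hD]; rw [Finset.sum_div]
    refine Finset.sum_congr rfl fun k _ => ?_
    ring
  have hent : ∑ k ∈ S, Real.negMulLog (p k) = Real.log Z := by
    have h1 : ∀ k, Real.negMulLog (p k) = p k * Real.log Z + β * (p k * x k) := by
      intro k
      rw [Real.negMulLog]
      have : Real.log (p k) = -β * x k - Real.log Z := by
        simp only [hp]; rw [Real.log_div (Real.exp_pos _).ne' hZ0.ne', Real.log_exp]
      rw [this]; ring
    simp_rw [h1]
    rw [Finset.sum_add_distrib, ← Finset.sum_mul, hp1, ← Finset.mul_sum, hpx, mul_div_assoc', hcomp]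
    simp
  -- perturb
  set P : ℝ → ℤ → ℝ := fun ε k => (1 - ε) * p k + (if k = 0 then ε else 0) with hP
  have hPcont : Continuous fun ε : ℝ => ∑ k ∈ S, Real.negMulLog (P ε k) := by
    refine continuous_finsetSum _ fun k _ => Real.continuous_negMulLog.comp ?_
    simp only [hP]
    split_ifs <;> fun_prop
  have hP0 : ∑ k ∈ S, Real.negMulLog (P 0 k) = Real.log Z := by
    rw [← hent]
    refine Finset.sum_congr rfl fun k _ => ?_
    simp [hP]
  have hlog : Real.log (2 / l) < ∑ k ∈ S, Real.negMulLog (P 0 k) := by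
    rw [hP0]; exact Real.log_lt_log (by positivity) hZ'
  have hev : ∀ᶠ ε in 𝓝[>] (0:ℝ), Real.log (2 / l) < ∑ k ∈ S, Real.negMulLog (P ε k) :=
    nhdsWithin_le_nhds (hPcont.continuousAt.eventually (lt_mem_nhds hlog))
  have hev2 : ∀ᶠ ε in 𝓝[>] (0:ℝ), ε < 1 :=
    nhdsWithin_le_nhds (gt_mem_nhds (by norm_num : (0:ℝ) < 1))
  obtain ⟨ε, h1, h2, h3⟩ := (hev.and (hev2.and self_mem_nhdsWithin)).exists
  have h3' : (0:ℝ) < ε := h3
  refine ⟨S, P ε, ?_, ?_, ?_, h1⟩
  · intro k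
    simp only [hP]
    have := (hp0 k).le
    have h4 : 0 ≤ (1 - ε) * p k := mul_nonneg (by linarith) this
    split_ifs <;> linarith
  · simp only [hP]
    rw [Finset.sum_add_distrib, ← Finset.mul_sum, hp1, Finset.sum_ite_eq' S (0:ℤ), if_pos h0S]
    ring
  · have h4 : ∀ k, P ε k * (t + 2 * l * k) ^ 2 = (1 - ε) * (p k * x k + p k)
        + (if k = 0 then ε * t ^ 2 else 0) := by
      intro k
      simp only [hP, hx]
      by_cases hk : k = 0
      · simp only [hk, if_true]; push_cast; ring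
      · simp only [hk, if_false]; ring
    simp_rw [h4]
    rw [Finset.sum_add_distrib, ← Finset.mul_sum, Finset.sum_add_distrib, hp1, hpx,
      Finset.sum_ite_eq' S (0:ℤ), if_pos h0S]
    have h5 : D β / Z ≤ 0 := div_nonpos_of_nonpos_of_nonneg hDβ hZ0.le
    nlinarith

end MP087bf0
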