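import Mathlib
import Pool.Agent.Lib.MP_087bf0_co.Gibbs
open Set Filter Topology
open scoped Real

namespace MP087bf0

/-- A finitely supported law on the progression `t + 2 l ℤ` with exponential moment of `r² - 1`
at most `exp (-c)` and `(1+θ)`-power sum at most `(l/2)^θ`. -/
def GoodLaw (t l lam θ c : ℝ) : Prop :=
  ∃ (ι : Type) (_ : Fintype ι) (κ : ι → ℤ) (P : ι → ℝ), Function.Injective κ ∧ (∀ i, 0 ≤ P i) ∧
    ∑ i, P i = 1 ∧ ∑ i, P i * Real.exp (lam * ((t + 2 * l * κ i) ^ 2 - 1)) ≤ Real.exp (-c) ∧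
    ∑ i, P i ^ (1 + θ) ≤ (l / 2) ^ θ

lemma exp_le_quad {y : ℝ} (hy : y ≤ 1) : Real.exp y ≤ 1 + y + y ^ 2 := by
  rcases le_total (-1) y with h | h
  · have h1 := Real.abs_exp_sub_one_sub_id_le (x := y) (abs_le.2 ⟨h, hy⟩)
    have := (abs_le.1 h1).2
    linarith
  · have h1 : Real.exp y ≤ 1 := Real.exp_le_one_iff.2 (by linarith)
    nlinarith

lemma pow_entropy {p θ : ℝ} (hp0 : 0 ≤ p) (hp1 : p ≤ 1) (hθ : 0 < θ) :
    p ^ (1 + θ) ≤ p - θ * Real.negMulLog p + 4 * θ ^ 2 := by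
  rcases eq_or_lt_of_le hp0 with h | h
  · rw [← h, Real.zero_rpow (by linarith)]
    simp; positivity
  · have e : p ^ (1 + θ) = p * Real.exp (θ * Real.log p) := by
      rw [Real.rpow_add h, Real.rpow_one, Real.rpow_def_of_pos h, mul_comm θ]
    have hlog : Real.log p ≤ 0 := Real.log_nonpos hp0 hp1
    have h1 := exp_le_quad (y := θ * Real.log p) (by nlinarith)
    have h2 : p * (Real.log p) ^ 2 ≤ 4 := by
      have hs : 0 < √p := Real.sqrt_pos.2 h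
      have h3 : Real.log (1 / √p) ≤ 1 / √p - 1 := Real.log_le_sub_one_of_pos (by positivity)
      have h4 : Real.log (1 / √p) = - (Real.log p / 2) := by
        rw [one_div, Real.log_inv, Real.log_sqrt hp0]
      rw [h4] at h3
      have h5 : - Real.log p ≤ 2 / √p := by
        have : 2 / √p = 2 * (1 / √p) := by ring
        rw [this]; linarith
      have h6 : (Real.log p) ^ 2 ≤ (2 / √p) ^ 2 := by
        have : (Real.log p) ^ 2 = (- Real.log p) ^ 2 := by ring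
        rw [this]
        exact pow_le_pow_left₀ (by linarith) h5 2
      rw [div_pow, Real.sq_sqrt hp0] at h6
      calc p * (Real.log p) ^ 2 ≤ p * (2 ^ 2 / p) := mul_le_mul_of_nonneg_left h6 hp0
        _ = 4 := by field_simp; norm_num
    rw [e, Real.negMulLog]
    have h3 := mul_le_mul_of_nonneg_left h1 hp0
    have h4 : p * (θ * Real.log p) ^ 2 = θ ^ 2 * (p * (Real.log p) ^ 2) := by ring
    nlinarith [mul_le_mul_of_nonneg_left h2 (sq_nonneg θ)]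

lemma law_of_margin {S : Finset ℤ} {p : ℤ → ℝ} (hp : ∀ k, 0 ≤ p k) (hp1 : ∑ k ∈ S, p k = 1)
    {η B : ℝ} (hη : 0 < η) (hB : 1 ≤ B) {t l lam θ : ℝ} (hl : 0 < l)
    (hx : ∀ k ∈ S, |(t + 2 * l * k) ^ 2 - 1| ≤ B)
    (hv : ∑ k ∈ S, p k * (t + 2 * l * k) ^ 2 ≤ 1 - η)
    (hH : Real.log (2 / l) + η ≤ ∑ k ∈ S, Real.negMulLog (p k))
    (hlam : 0 < lam) (hlam1 : lam ≤ 1 / B) (hlam2 : lam ≤ η / (2 * B ^ 2))
    (hθ : 0 < θ) (hθ1 : θ ≤ η / (4 * S.card + 1)) :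
    GoodLaw t l lam θ (η / 2 * lam) := by
  have hB0 : 0 < B := by linarith
  have hple : ∀ k ∈ S, p k ≤ 1 := by
    intro k hk
    rw [← hp1]; exact Finset.single_le_sum (fun i _ => hp i) hk
  refine ⟨S, inferInstance, fun k => k.1, fun k => p k.1, Subtype.val_injective, fun i => hp _, ?_, ?_, ?_⟩
  · rw [Finset.sum_coe_sort S]; exact hp1
  · rw [Finset.sum_coe_sort S (fun k : ℤ => p k * Real.exp (lam * ((t + 2 * l * k) ^ 2 - 1)))]
    have h1 : ∀ k ∈ S, p k * Real.exp (lam * ((t + 2 * l * k) ^ 2 - 1))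
        ≤ p k + lam * (p k * (t + 2 * l * k) ^ 2) - lam * p k + lam ^ 2 * B ^ 2 * p k := by
      intro k hk
      have hxk := hx k hk
      set x := (t + 2 * l * k) ^ 2 - 1 with hxdef
      have e : (t + 2 * l * k) ^ 2 = x + 1 := by rw [hxdef]; ring
      rw [e]
      have h2 : lam * x ≤ 1 := by
        have : lam * B ≤ 1 := by rwa [le_div_iff₀ hB0] at hlam1
        have := le_abs_self x
        nlinarith
      have h3 := exp_le_quad h2
      have h4 : x ^ 2 ≤ B ^ 2 := by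
        rw [← sq_abs]; exact pow_le_pow_left₀ (abs_nonneg _) hxk 2
      have h5 := mul_le_mul_of_nonneg_left h3 (hp k)
      have h6 : (lam * x) ^ 2 ≤ lam ^ 2 * B ^ 2 := by
        rw [mul_pow]; exact mul_le_mul_of_nonneg_left h4 (sq_nonneg _)
      have h7 := mul_le_mul_of_nonneg_left h6 (hp k)
      nlinarith
    refine (Finset.sum_le_sum h1).trans ?_
    rw [Finset.sum_add_distrib, Finset.sum_sub_distrib, Finset.sum_add_distrib, ← Finset.mul_sum,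
      ← Finset.mul_sum, ← Finset.mul_sum, hp1]
    have h2 : lam ^ 2 * B ^ 2 ≤ lam * η / 2 := by
      rw [le_div_iff₀ (by positivity)] at hlam2
      nlinarith
    have h3 := Real.add_one_le_exp (-(η / 2 * lam))
    have h4 := mul_le_mul_of_nonneg_left hv hlam.le
    nlinarith
  · rw [Finset.sum_coe_sort S (fun k : ℤ => p k ^ (1 + θ))]
    have h1 : ∀ k ∈ S, p k ^ (1 + θ) ≤ p k - θ * Real.negMulLog (p k) + 4 * θ ^ 2 :=
      fun k hk => pow_entropy (hp k) (hple k hk) hθ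
    refine (Finset.sum_le_sum h1).trans ?_
    rw [Finset.sum_add_distrib, Finset.sum_sub_distrib, ← Finset.mul_sum, hp1, Finset.sum_const,
      nsmul_eq_mul]
    have h2 : (S.card:ℝ) * (4 * θ ^ 2) ≤ θ * η := by
      rw [le_div_iff₀ (by positivity)] at hθ1
      nlinarith
    have h3 := mul_le_mul_of_nonneg_left hH hθ.le
    have h4 : (l / 2) ^ θ = Real.exp (-(θ * Real.log (2 / l))) := by
      rw [Real.rpow_def_of_pos (by positivity)]
      congr 1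
      have : Real.log (2 / l) = - Real.log (l / 2) := by
        rw [← Real.log_inv, inv_div]
      rw [this]; ring
    rw [h4]
    have h5 := Real.add_one_le_exp (-(θ * Real.log (2 / l)))
    linarith

/-- local existence of good laws -/
lemma law_local {t0 l0 : ℝ} (hl : 0 < l0) (hl1 : l0 ≤ 1) (ht : t0 ^ 2 < 1) :
    ∃ lam0 θ0 c0 : ℝ, 0 < lam0 ∧ 0 < θ0 ∧ 0 < c0 ∧ ∀ᶠ z : ℝ × ℝ in 𝓝 (t0, l0),
      ∀ lam θ : ℝ, 0 < lam → lam ≤ lam0 → 0 < θ → θ ≤ θ0 → GoodLaw z.1 z.2 lam θ (c0 * lam) := by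
  obtain ⟨S, p, hp, hp1, hv, hH⟩ := gibbs_exists hl hl1 ht
  set η : ℝ := min (1 - ∑ k ∈ S, p k * (t0 + 2 * l0 * k) ^ 2)
    (∑ k ∈ S, Real.negMulLog (p k) - Real.log (2 / l0)) / 2 with hη
  have hη0 : 0 < η := by
    rw [hη]; apply div_pos _ (by norm_num)
    apply lt_min <;> linarith
  have h1 : ∑ k ∈ S, p k * (t0 + 2 * l0 * k) ^ 2 < 1 - η := by
    have := min_le_left (1 - ∑ k ∈ S, p k * (t0 + 2 * l0 * k) ^ 2)
      (∑ k ∈ S, Real.negMulLog (p k) - Real.log (2 / l0))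
    rw [hη] at hη0 ⊢
    linarith
  have h2 : Real.log (2 / l0) + η < ∑ k ∈ S, Real.negMulLog (p k) := by
    have := min_le_right (1 - ∑ k ∈ S, p k * (t0 + 2 * l0 * k) ^ 2)
      (∑ k ∈ S, Real.negMulLog (p k) - Real.log (2 / l0))
    rw [hη] at hη0 ⊢
    linarith
  set B : ℝ := 1 + ∑ k ∈ S, |(t0 + 2 * l0 * k) ^ 2 - 1| + 1 with hB
  have hB1 : 1 ≤ B := by
    rw [hB]
    have : 0 ≤ ∑ k ∈ S, |(t0 + 2 * l0 * k) ^ 2 - 1| := Finset.sum_nonneg fun _ _ => abs_nonneg _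
    linarith
  have hB0 : 0 < B := by linarith
  refine ⟨min (1 / B) (η / (2 * B ^ 2)), η / (4 * S.card + 1), η / 2, ?_, by positivity, by positivity, ?_⟩
  · apply lt_min <;> positivity
  have e1 : ∀ᶠ z : ℝ × ℝ in 𝓝 (t0, l0), ∑ k ∈ S, p k * (z.1 + 2 * z.2 * k) ^ 2 < 1 - η := by
    have hc : Continuous fun z : ℝ × ℝ => ∑ k ∈ S, p k * (z.1 + 2 * z.2 * k) ^ 2 := by fun_prop
    exact hc.continuousAt.eventually (gt_mem_nhds h1)
  have e2 : ∀ᶠ z : ℝ × ℝ in 𝓝 (t0, l0), Real.log (2 / z.2) + η < ∑ k ∈ S, Real.negMulLog (p k) := by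
    have hc : ContinuousAt (fun z : ℝ × ℝ => Real.log (2 / z.2) + η) (t0, l0) := by
      refine ContinuousAt.add ?_ continuousAt_const
      refine ContinuousAt.log ?_ (by positivity)
      exact ContinuousAt.div continuousAt_const continuousAt_snd hl.ne'
    exact hc.eventually (gt_mem_nhds h2)
  have e3 : ∀ᶠ z : ℝ × ℝ in 𝓝 (t0, l0), ∀ k ∈ S, |(z.1 + 2 * z.2 * k) ^ 2 - 1| < B := by
    rw [Filter.eventually_all_finset]
    intro k hk
    have hc : Continuous fun z : ℝ × ℝ => |(z.1 + 2 * z.2 * k) ^ 2 - 1| := by fun_prop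
    refine hc.continuousAt.eventually (gt_mem_nhds ?_)
    show |(t0 + 2 * l0 * k) ^ 2 - 1| < B
    have := Finset.single_le_sum (f := fun k : ℤ => |(t0 + 2 * l0 * k) ^ 2 - 1|)
      (fun _ _ => abs_nonneg _) hk
    rw [hB]
    linarith
  have e4 : ∀ᶠ z : ℝ × ℝ in 𝓝 (t0, l0), 0 < z.2 :=
    continuousAt_snd.eventually (lt_mem_nhds hl)
  filter_upwards [e1, e2, e3, e4] with z h1 h2 h3 h4 lam θ hlam hlam0 hθ hθ0
  exact law_of_margin hp hp1 hη0 hB1 h4 (fun k hk => (h3 k hk).le) h1.le h2.le hlam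
    (hlam0.trans (min_le_left _ _)) (hlam0.trans (min_le_right _ _)) hθ hθ0

/-- uniform good laws away from the odd points -/
lemma law_compact {δ0 : ℝ} (hδ0 : 0 < δ0) :
    ∃ lam0 θ0 c0 : ℝ, 0 < lam0 ∧ 0 < θ0 ∧ 0 < c0 ∧ ∀ t l : ℝ, 3 / 8 ≤ l → l ≤ 1 → |t| ≤ l →
      δ0 ≤ 1 - l ^ 2 + (l - |t|) ^ 2 →
      ∀ lam θ : ℝ, 0 < lam → lam ≤ lam0 → 0 < θ → θ ≤ θ0 → GoodLaw t l lam θ (c0 * lam) := by
  set C : Set (ℝ × ℝ) := {z | 3 / 8 ≤ z.2 ∧ z.2 ≤ 1 ∧ |z.1| ≤ z.2 ∧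
    δ0 ≤ 1 - z.2 ^ 2 + (z.2 - |z.1|) ^ 2} with hC
  have hCc : IsCompact C := by
    have hsub : C ⊆ Icc (-1:ℝ) 1 ×ˢ Icc (3/8:ℝ) 1 := by
      rintro ⟨t, l⟩ ⟨h1, h2, h3, -⟩
      have := abs_le.1 h3
      simp only at h1 h2 h3 this
      exact ⟨⟨by simp only; linarith, by simp only; linarith⟩, h1, h2⟩
    refine (isCompact_Icc.prod isCompact_Icc).of_isClosed_subset ?_ hsub
    have c1 : IsClosed {z : ℝ × ℝ | 3 / 8 ≤ z.2} := isClosed_le continuous_const continuous_snd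
    have c2 : IsClosed {z : ℝ × ℝ | z.2 ≤ 1} := isClosed_le continuous_snd continuous_const
    have c3 : IsClosed {z : ℝ × ℝ | |z.1| ≤ z.2} := isClosed_le (by fun_prop) (by fun_prop)
    have c4 : IsClosed {z : ℝ × ℝ | δ0 ≤ 1 - z.2 ^ 2 + (z.2 - |z.1|) ^ 2} :=
      isClosed_le (by fun_prop) (by fun_prop)
    exact c1.inter (c2.inter (c3.inter c4))
  have key := hCc.induction_on (p := fun s => ∃ lam0 θ0 c0 : ℝ, 0 < lam0 ∧ 0 < θ0 ∧ 0 < c0 ∧
      ∀ z ∈ s, ∀ lam θ : ℝ, 0 < lam → lam ≤ lam0 → 0 < θ → θ ≤ θ0 →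
        GoodLaw z.1 z.2 lam θ (c0 * lam)) ?_ ?_ ?_ ?_
  · obtain ⟨lam0, θ0, c0, h1, h2, h3, h4⟩ := key
    exact ⟨lam0, θ0, c0, h1, h2, h3, fun t l a b c d => h4 (t, l) ⟨a, b, c, d⟩⟩
  · exact ⟨1, 1, 1, one_pos, one_pos, one_pos, fun z hz => absurd hz (Set.notMem_empty _)⟩
  · rintro s s' hss ⟨lam0, θ0, c0, h1, h2, h3, h4⟩
    exact ⟨lam0, θ0, c0, h1, h2, h3, fun z hz => h4 z (hss hz)⟩
  · rintro s s' ⟨lam0, θ0, c0, h1, h2, h3, h4⟩ ⟨lam0', θ0', c0', h1', h2', h3', h4'⟩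
    refine ⟨min lam0 lam0', min θ0 θ0', min c0 c0', lt_min h1 h1', lt_min h2 h2', lt_min h3 h3', ?_⟩
    have hmono : ∀ {t l lam θ c c' : ℝ}, c' ≤ c → GoodLaw t l lam θ c → GoodLaw t l lam θ c' := by
      rintro t l lam θ c c' hcc ⟨ι, hι, κ, P, a, b, c1, d, e⟩
      exact ⟨ι, hι, κ, P, a, b, c1, d.trans (Real.exp_le_exp.2 (by linarith)), e⟩
    rintro z (hz | hz) lam θ hlam hlam0 hθ hθ0
    · exact hmono (mul_le_mul_of_nonneg_right (min_le_left _ _) hlam.le)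
        (h4 z hz lam θ hlam (hlam0.trans (min_le_left _ _)) hθ (hθ0.trans (min_le_left _ _)))
    · exact hmono (mul_le_mul_of_nonneg_right (min_le_right _ _) hlam.le)
        (h4' z hz lam θ hlam (hlam0.trans (min_le_right _ _)) hθ (hθ0.trans (min_le_right _ _)))
  · rintro ⟨t, l⟩ ⟨h1, h2, h3, h4⟩
    simp only at h1 h2 h3 h4
    have ht : t ^ 2 < 1 := by
      have h5 : t ^ 2 = |t| ^ 2 := (sq_abs t).symm
      rw [h5]
      have h6 := abs_nonneg t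
      rcases eq_or_lt_of_le h2 with h | h
      · rw [h] at h4 h3
        nlinarith
      · nlinarith
    obtain ⟨lam0, θ0, c0, a1, a2, a3, a4⟩ := law_local (by linarith : (0:ℝ) < l) h2 ht
    exact ⟨_, mem_nhdsWithin_of_mem_nhds a4, lam0, θ0, c0, a1, a2, a3, fun z hz => hz⟩

end MP087bf0
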