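import Mathlib
import Pool.Agent.Lib.MP_087bf0_co.Law
open Set Filter Topology
open scoped Real

namespace MP087bf0

lemma two_rpow_mul {P θ : ℝ} (hP : 0 ≤ P) (hθ : 0 ≤ θ) :
    (2:ℝ) ^ θ * P ^ (1 + θ) = P * (2 * P) ^ θ := by
  rw [Real.rpow_add_of_nonneg hP zero_le_one hθ, Real.rpow_one, Real.mul_rpow (by norm_num) hP]
  ring

lemma bern {P θ : ℝ} (hP : 0 ≤ P) (hθ : 0 ≤ θ) (hθ1 : θ ≤ 1) :
    P * (2 * P) ^ θ ≤ P * (1 + θ * (2 * P - 1)) := by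
  refine mul_le_mul_of_nonneg_left ?_ hP
  have := rpow_one_add_le_one_add_mul_self (s := 2 * P - 1) (by linarith) hθ hθ1
  simpa using this

/-- the `(1+θ)`-power sum of the near-odd law -/
lemma near_power {u ρ θ : ℝ} (hu0 : 0 ≤ u) (hu1 : u ≤ 1) (hρ0 : 0 ≤ ρ) (hρ : 2 * ρ ≤ Real.exp (-40))
    (hθ : 0 < θ) (hθ1 : θ ≤ 1 / 80) (hPa : 0 ≤ (1 + u) / 2 - 2 * ρ) :
    (2:ℝ) ^ θ * (((1 + u) / 2 - 2 * ρ) ^ (1 + θ) + ((1 - u) / 2 + ρ) ^ (1 + θ) + ρ ^ (1 + θ))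
      ≤ 1 + θ * (u ^ 2 + 10 * ρ ^ 2 - 21 * ρ) := by
  have hPb : 0 ≤ (1 - u) / 2 + ρ := by linarith
  rw [mul_add, mul_add, two_rpow_mul hPa hθ.le, two_rpow_mul hPb hθ.le, two_rpow_mul hρ0 hθ.le]
  have h1 := bern hPa hθ.le (by linarith)
  have h2 := bern hPb hθ.le (by linarith)
  have h3 : ρ * (2 * ρ) ^ θ ≤ ρ * (1 - 20 * θ) := by
    rcases eq_or_lt_of_le hρ0 with h | h
    · rw [← h]; simp
    · refine mul_le_mul_of_nonneg_left ?_ hρ0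
      rw [Real.rpow_def_of_pos (by positivity)]
      have h4 : Real.log (2 * ρ) ≤ -40 := by
        rw [← Real.log_exp (-40)]
        exact Real.log_le_log (by positivity) hρ
      have h5 : Real.exp (Real.log (2 * ρ) * θ) ≤ Real.exp (-40 * θ) :=
        Real.exp_le_exp.2 (by nlinarith)
      have h6 := exp_le_quad (y := -40 * θ) (by nlinarith)
      nlinarith
  nlinarith [mul_nonneg hθ.le (mul_nonneg hρ0 hu0)]

lemma near_power' {u ρ θ l : ℝ} (hl : 0 < l) (hl1 : l ≤ 1) (hu0 : 0 ≤ u) (hu1 : u ≤ 1)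
    (hρ : 9 * ρ = 1 - l ^ 2 + (l * u) ^ 2) (hρe : 2 * ρ ≤ Real.exp (-40))
    (hθ : 0 < θ) (hθ1 : θ ≤ 1 / 80) :
    (((1 + u) / 2 - 2 * ρ) ^ (1 + θ) + ((1 - u) / 2 + ρ) ^ (1 + θ) + ρ ^ (1 + θ)) ≤ (l / 2) ^ θ := by
  have hρ0 : 0 ≤ ρ := by nlinarith [sq_nonneg (l * u)]
  have hρs : ρ ≤ 1 / 9000 := by
    have h1 : Real.exp (-40) ≤ 1 / 4500 := by
      rw [Real.exp_neg]
      rw [inv_le_comm₀ (Real.exp_pos _) (by norm_num)]
      have := Real.sum_le_exp_of_nonneg (x := 40) (by norm_num) 4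
      simp only [Finset.sum_range_succ, Finset.sum_range_zero, Nat.factorial] at this
      norm_num at this
      norm_num
      linarith
    linarith
  have hl2 : 999 / 1000 ≤ l ^ 2 := by nlinarith [sq_nonneg (l * u)]
  have hu2 : u ^ 2 ≤ 10 * ρ := by
    have h1 : l ^ 2 * u ^ 2 ≤ 9 * ρ := by
      rw [hρ]; nlinarith
    nlinarith [sq_nonneg u]
  have h1 := near_power hu0 hu1 hρ0 hρe hθ hθ1 (by linarith)
  have h2 : 1 + θ * (u ^ 2 + 10 * ρ ^ 2 - 21 * ρ) ≤ l ^ θ := by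
    have h3 := Real.one_sub_inv_le_log_of_pos (x := l ^ 2) (by positivity)
    rw [Real.log_pow] at h3
    have h4 : (l ^ 2)⁻¹ ≤ 1 + 10 * ρ := by
      rw [inv_le_comm₀ (by positivity) (by positivity), inv_le_iff_one_le_mul₀ (by positivity)]
      nlinarith [sq_nonneg (l * u)]
    have h5 : -(5 * ρ) ≤ Real.log l := by push_cast at h3; linarith
    rw [Real.rpow_def_of_pos hl]
    have h6 := Real.add_one_le_exp (Real.log l * θ)
    have h7 : u ^ 2 + 10 * ρ ^ 2 - 21 * ρ ≤ Real.log l := by nlinarith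
    nlinarith
  have h3 : (l / 2) ^ θ = l ^ θ / 2 ^ θ := Real.div_rpow hl.le (by norm_num) θ
  rw [h3, le_div_iff₀' (by positivity)]
  exact h1.trans h2

lemma near_odd_moment {l v e u ρ δ lam : ℝ} (hl0 : 0 ≤ l) (hl1 : l ≤ 1) (hv0 : 0 ≤ v) (hv1 : v ≤ 1)
    (hvl : v ≤ l) (hvu : v = l * u) (he : e = 1 - l ^ 2) (he0 : 0 ≤ e) (he1 : e ≤ 1) (hδ : δ = e + v ^ 2) (hδ0 : 0 ≤ δ)
    (hρ : ρ = δ / 9) (hρ0 : 0 ≤ ρ) (hPa : 0 ≤ (1 + u) / 2 - 2 * ρ) (hPb : 0 ≤ (1 - u) / 2 + ρ)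
    (hlam : 0 < lam) (hlam1 : lam ≤ 1 / 594) :
    ((1 + u) / 2 - 2 * ρ) * Real.exp (lam * (-e - 2 * l * v + v ^ 2))
      + ((1 - u) / 2 + ρ) * Real.exp (lam * (-e + 2 * l * v + v ^ 2))
      + ρ * Real.exp (lam * ((3 * l - v) ^ 2 - 1)) ≤ 1 - lam * δ / 18 := by
  have hlv : l * v ≤ v := by
    have := mul_le_mul_of_nonneg_right hl1 hv0
    linarith
  have hlv0 : 0 ≤ l * v := by positivity
  have hvv : v ^ 2 ≤ v := by
    have := mul_le_mul_of_nonneg_right hv1 hv0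
    linarith
  have hv20 : 0 ≤ v ^ 2 := sq_nonneg v
  have hXa1 : -(e + 2 * v) ≤ -e - 2 * l * v + v ^ 2 := by linarith
  have hXa2 : -e - 2 * l * v + v ^ 2 ≤ e + 2 * v := by linarith
  have hXb1 : -(e + 3 * v) ≤ -e + 2 * l * v + v ^ 2 := by linarith
  have hXb2 : -e + 2 * l * v + v ^ 2 ≤ e + 3 * v := by linarith
  have hXc1 : -1 ≤ (3 * l - v) ^ 2 - 1 := by linarith [sq_nonneg (3 * l - v)]
  have hXc2 : (3 * l - v) ^ 2 - 1 ≤ 8 := by
    have h1 : 0 ≤ 3 * l - v := by linarith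
    have h2 : 3 * l - v ≤ 3 := by linarith
    have := pow_le_pow_left₀ h1 h2 2
    linarith
  have hee : e ^ 2 ≤ e := by
    have := mul_le_mul_of_nonneg_right he1 he0
    linarith
  have sqa : (-e - 2 * l * v + v ^ 2) ^ 2 ≤ 18 * δ := by
    have h1 : (-e - 2 * l * v + v ^ 2) ^ 2 ≤ (e + 2 * v) ^ 2 := sq_le_sq' hXa1 hXa2
    have h2 := sq_nonneg (e - 2 * v)
    linarith
  have sqb : (-e + 2 * l * v + v ^ 2) ^ 2 ≤ 18 * δ := by
    have h1 : (-e + 2 * l * v + v ^ 2) ^ 2 ≤ (e + 3 * v) ^ 2 := sq_le_sq' hXb1 hXb2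
    have h2 := sq_nonneg (e - 3 * v)
    linarith
  have sqc : ((3 * l - v) ^ 2 - 1) ^ 2 ≤ 64 := by
    have := sq_le_sq' (show -8 ≤ (3 * l - v) ^ 2 - 1 by linarith) hXc2
    linarith
  have hle1 : ∀ X : ℝ, X ≤ 8 → lam * X ≤ 1 := by
    intro X hX
    have : lam * X ≤ lam * 8 := mul_le_mul_of_nonneg_left hX hlam.le
    linarith
  have ha' := mul_le_mul_of_nonneg_left
    (exp_le_quad (y := lam * (-e - 2 * l * v + v ^ 2)) (hle1 _ (by linarith))) hPa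
  have hb' := mul_le_mul_of_nonneg_left
    (exp_le_quad (y := lam * (-e + 2 * l * v + v ^ 2)) (hle1 _ (by linarith))) hPb
  have hc' := mul_le_mul_of_nonneg_left
    (exp_le_quad (y := lam * ((3 * l - v) ^ 2 - 1)) (hle1 _ hXc2)) hρ0
  refine (add_le_add (add_le_add ha' hb') hc').trans ?_
  have hmean : ((1 + u) / 2 - 2 * ρ) * (-e - 2 * l * v + v ^ 2)
      + ((1 - u) / 2 + ρ) * (-e + 2 * l * v + v ^ 2) + ρ * ((3 * l - v) ^ 2 - 1)
      = -δ + 8 * l ^ 2 * ρ := by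
    rw [hδ, hvu, he]; ring
  have hmean2 : -δ + 8 * l ^ 2 * ρ ≤ -δ / 9 := by
    have h1 : l ^ 2 ≤ 1 := by
      have := pow_le_pow_left₀ hl0 hl1 2
      linarith
    have h2 : l ^ 2 * ρ ≤ 1 * ρ := mul_le_mul_of_nonneg_right h1 hρ0
    rw [hρ] at h2 ⊢
    linarith
  have hsecond : ((1 + u) / 2 - 2 * ρ) * (-e - 2 * l * v + v ^ 2) ^ 2
      + ((1 - u) / 2 + ρ) * (-e + 2 * l * v + v ^ 2) ^ 2 + ρ * ((3 * l - v) ^ 2 - 1) ^ 2
      ≤ 33 * δ := by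
    have h1 := mul_le_mul_of_nonneg_left sqa hPa
    have h2 := mul_le_mul_of_nonneg_left sqb hPb
    have h3 := mul_le_mul_of_nonneg_left sqc hρ0
    have h5 : 0 ≤ ρ * δ := by positivity
    have h6 : ρ * 64 ≤ 15 * δ := by rw [hρ]; linarith
    have h7 : ((1 + u) / 2 - 2 * ρ) * (18 * δ) + ((1 - u) / 2 + ρ) * (18 * δ) = 18 * δ - 18 * (ρ * δ) := by
      ring
    linarith
  have hm := mul_le_mul_of_nonneg_left (hmean.le.trans hmean2) hlam.le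
  have hs := mul_le_mul_of_nonneg_left hsecond (sq_nonneg lam)
  have h2 : lam ^ 2 * (33 * δ) ≤ lam * δ / 18 := by
    have h3 : lam * δ * lam ≤ lam * δ * (1 / 594) := mul_le_mul_of_nonneg_left hlam1 (by positivity)
    linarith
  have e1 : ((1 + u) / 2 - 2 * ρ) * (1 + lam * (-e - 2 * l * v + v ^ 2) + (lam * (-e - 2 * l * v + v ^ 2)) ^ 2)
      + ((1 - u) / 2 + ρ) * (1 + lam * (-e + 2 * l * v + v ^ 2) + (lam * (-e + 2 * l * v + v ^ 2)) ^ 2)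
      + ρ * (1 + lam * ((3 * l - v) ^ 2 - 1) + (lam * ((3 * l - v) ^ 2 - 1)) ^ 2)
      = 1 + lam * (((1 + u) / 2 - 2 * ρ) * (-e - 2 * l * v + v ^ 2)
      + ((1 - u) / 2 + ρ) * (-e + 2 * l * v + v ^ 2) + ρ * ((3 * l - v) ^ 2 - 1))
      + lam ^ 2 * (((1 + u) / 2 - 2 * ρ) * (-e - 2 * l * v + v ^ 2) ^ 2
      + ((1 - u) / 2 + ρ) * (-e + 2 * l * v + v ^ 2) ^ 2 + ρ * ((3 * l - v) ^ 2 - 1) ^ 2) := by
    ring
  rw [e1]
  linarith

lemma exp_neg40 : Real.exp (-40) ≤ 1 / 4500 := by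
  rw [Real.exp_neg]
  rw [inv_le_comm₀ (Real.exp_pos _) (by norm_num)]
  have := Real.sum_le_exp_of_nonneg (x := 40) (by norm_num) 4
  simp only [Finset.sum_range_succ, Finset.sum_range_zero, Nat.factorial] at this
  norm_num at this
  norm_num
  linarith

lemma near_odd {t l lam θ : ℝ} (hl : 0 < l) (hl1 : l ≤ 1) (ht0 : 0 ≤ t) (htl : t ≤ l)
    (hδ : 1 - l ^ 2 + (l - t) ^ 2 ≤ (9 / 2) * Real.exp (-40)) (hlam : 0 < lam) (hlam1 : lam ≤ 1 / 594)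
    (hθ : 0 < θ) (hθ1 : θ ≤ 1 / 80) : GoodLaw t l lam θ ((1 - l) / 18 * lam) := by
  set u := 1 - t / l with hu
  have htu : t = l * (1 - u) := by rw [hu]; field_simp; ring
  have hu0 : 0 ≤ u := by rw [hu, sub_nonneg, div_le_one hl]; exact htl
  have hu1 : u ≤ 1 := by
    rw [hu]; have : 0 ≤ t / l := by positivity
    linarith
  set v := l * u with hv
  have hv0 : 0 ≤ v := by positivity
  have hv1 : v ≤ 1 := by nlinarith
  have hvl : v ≤ l := by nlinarith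
  have hlt : l - t = v := by rw [htu]; ring
  rw [hlt] at hδ
  set δ := 1 - l ^ 2 + v ^ 2 with hδdef
  have hl2 : l ^ 2 ≤ 1 := by nlinarith
  have hδ0 : 0 ≤ δ := by rw [hδdef]; nlinarith [sq_nonneg v]
  set ρ := δ / 9 with hρ
  have hρ0 : 0 ≤ ρ := by positivity
  have hρe : 2 * ρ ≤ Real.exp (-40) := by rw [hρ]; linarith
  have hρs : ρ ≤ 1 / 9000 := by linarith [exp_neg40]
  have hpow := near_power' (u := u) (ρ := ρ) (θ := θ) hl hl1 hu0 hu1 (by rw [hρ]; ring) hρe hθ hθ1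
  have hPa : 0 ≤ (1 + u) / 2 - 2 * ρ := by linarith
  have hPb : 0 ≤ (1 - u) / 2 + ρ := by linarith
  refine ⟨Fin 3, inferInstance, ![0, -1, 1], ![(1 + u) / 2 - 2 * ρ, (1 - u) / 2 + ρ, ρ], ?_, ?_, ?_, ?_, ?_⟩
  · decide
  · intro i
    fin_cases i
    · simpa using hPa
    · simpa using hPb
    · simpa using hρ0
  · rw [Fin.sum_univ_three]
    simp only [Matrix.cons_val_zero, Matrix.cons_val_one, Matrix.cons_val]
    ring
  · rw [Fin.sum_univ_three]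
    simp only [Matrix.cons_val_zero, Matrix.cons_val_one, Matrix.cons_val]
    have ea : (t + 2 * l * ((0:ℤ):ℝ)) ^ 2 - 1 = -(1 - l ^ 2) - 2 * l * v + v ^ 2 := by
      rw [htu, hv]; push_cast; ring
    have eb : (t + 2 * l * ((-1:ℤ):ℝ)) ^ 2 - 1 = -(1 - l ^ 2) + 2 * l * v + v ^ 2 := by
      rw [htu, hv]; push_cast; ring
    have ec : (t + 2 * l * ((1:ℤ):ℝ)) ^ 2 - 1 = (3 * l - v) ^ 2 - 1 := by
      rw [htu, hv]; push_cast; ring
    rw [ea, eb, ec]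
    refine (near_odd_moment hl.le hl1 hv0 hv1 hvl hv rfl (by linarith) (by nlinarith) hδdef hδ0
      hρ hρ0 hPa hPb hlam hlam1).trans ?_
    have h1 := Real.add_one_le_exp (-((1 - l) / 18 * lam))
    have h3 : 1 - l ≤ δ := by
      rw [hδdef]; nlinarith [sq_nonneg v]
    have := mul_le_mul_of_nonneg_left h3 hlam.le
    linarith
  · rw [Fin.sum_univ_three]
    simp only [Matrix.cons_val_zero, Matrix.cons_val_one, Matrix.cons_val]
    exact hpow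

end MP087bf0
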