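import Mathlib
import Pool.Agent.Lib.MP_087bf0_co.NearOdd
open Set Filter Topology
open scoped Real

namespace MP087bf0

noncomputable def chi (t : ℝ) : ℝ :=
  -Real.negMulLog (1 + t) + Real.negMulLog (1 - t) - t * Real.log (6 - 2 * t ^ 2)

noncomputable def chi' (t : ℝ) : ℝ :=
  2 + Real.log (1 + t) + Real.log (1 - t) - Real.log (6 - 2 * t ^ 2) + 4 * t ^ 2 / (6 - 2 * t ^ 2)

lemma deriv_aux1 (t : ℝ) : HasDerivAt (fun t : ℝ => 6 - 2 * t ^ 2) (-(4 * t)) t := by
  have := ((hasDerivAt_pow 2 t).const_mul 2).const_sub 6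
  refine this.congr_deriv ?_
  push_cast; ring

lemma chi_hasDeriv {t : ℝ} (h0 : 0 < t) (h1 : t < 1) : HasDerivAt chi (chi' t) t := by
  have hs : 0 < 6 - 2 * t ^ 2 := by nlinarith
  have d1 : HasDerivAt (fun t : ℝ => 1 + t) 1 t := by simpa using (hasDerivAt_id t).const_add 1
  have d2 : HasDerivAt (fun t : ℝ => 1 - t) (-1) t := by simpa using (hasDerivAt_id t).const_sub 1
  have d3 := deriv_aux1 t
  have e1 := (Real.hasDerivAt_negMulLog (x := 1 + t) (by linarith)).comp t d1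
  have e2 := (Real.hasDerivAt_negMulLog (x := 1 - t) (by linarith)).comp t d2
  have e3 := (hasDerivAt_id t).mul (d3.log hs.ne')
  have e := (e1.neg.add e2).sub e3
  refine HasDerivAt.congr_deriv (f := chi) e ?_
  unfold chi'
  simp only [id]
  field_simp
  ring

lemma chi'_hasDeriv {t : ℝ} (h0 : 0 < t) (h1 : t < 1) :
    HasDerivAt chi' (-(8 * t ^ 3) / ((1 - t ^ 2) * (3 - t ^ 2) ^ 2)) t := by
  have hs : 0 < 6 - 2 * t ^ 2 := by nlinarith
  have hs2 : 0 < 1 - t ^ 2 := by nlinarith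
  have hs3 : 0 < 3 - t ^ 2 := by nlinarith
  have d1 : HasDerivAt (fun t : ℝ => 1 + t) 1 t := by simpa using (hasDerivAt_id t).const_add 1
  have d2 : HasDerivAt (fun t : ℝ => 1 - t) (-1) t := by simpa using (hasDerivAt_id t).const_sub 1
  have d3 := deriv_aux1 t
  have d4 : HasDerivAt (fun t : ℝ => 4 * t ^ 2) (8 * t) t := by
    have := ((hasDerivAt_pow 2 t).const_mul 4)
    refine this.congr_deriv ?_
    push_cast; ring
  have e := ((((d1.log (by linarith : (1 + t) ≠ 0)).const_add 2).add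
    (d2.log (by linarith : (1 - t) ≠ 0))).sub (d3.log hs.ne')).add (d4.div d3 hs.ne')
  refine HasDerivAt.congr_deriv (f := chi') e ?_
  have h2 : (1 + t) ≠ 0 := by linarith
  have h3 : (1 - t) ≠ 0 := by linarith
  have h4 : 1 - t ^ 2 = (1 - t) * (1 + t) := by ring
  have h5 : 6 - 2 * t ^ 2 = 2 * (3 - t ^ 2) := by ring
  rw [h4, h5]
  field_simp
  ring

lemma chi_pos {t : ℝ} (h0 : 0 < t) (h1 : t < 1) : 0 < chi t := by
  have hcont : ContinuousOn chi (Icc 0 1) := by
    unfold chi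
    have c1 : Continuous fun t : ℝ => Real.negMulLog (1 + t) := by fun_prop
    have c2 : Continuous fun t : ℝ => Real.negMulLog (1 - t) := by fun_prop
    refine (c1.neg.add c2).continuousOn.sub (continuousOn_id.mul ?_)
    refine ContinuousOn.log (by fun_prop) ?_
    intro x hx
    have := hx.2
    have := hx.1
    simp only [ne_eq]
    nlinarith
  have hanti : StrictAntiOn (deriv chi) (interior (Icc 0 1)) := by
    rw [interior_Icc]
    have h2 : StrictAntiOn chi' (Ioo 0 1) := by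
      apply strictAntiOn_of_deriv_neg (convex_Ioo 0 1)
      · exact fun x hx => (chi'_hasDeriv hx.1 hx.2).continuousAt.continuousWithinAt
      · intro x hx
        rw [interior_Ioo] at hx
        rw [(chi'_hasDeriv hx.1 hx.2).deriv]
        have a1 : 0 < x ^ 3 := pow_pos hx.1 3
        have a2 : 0 < 1 - x ^ 2 := by nlinarith [hx.1, hx.2]
        have a3 : 0 < 3 - x ^ 2 := by linarith
        apply div_neg_of_neg_of_pos
        · linarith
        · positivity
    intro x hx y hy hxy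
    rw [(chi_hasDeriv hx.1 hx.2).deriv, (chi_hasDeriv hy.1 hy.2).deriv]
    exact h2 hx hy hxy
  have hconc := hanti.strictConcaveOn_of_deriv (convex_Icc 0 1) hcont
  have hc0 : chi 0 = 0 := by simp [chi]
  have hc1 : chi 1 = 0 := by
    unfold chi
    have e4 : Real.log 4 = 2 * Real.log 2 := by
      rw [show (4:ℝ) = 2 ^ 2 by norm_num, Real.log_pow]; push_cast; ring
    have e : (6:ℝ) - 2 * 1 ^ 2 = 4 := by norm_num
    rw [e, e4, Real.negMulLog]
    norm_num
  have := hconc.2 (left_mem_Icc.2 zero_le_one) (right_mem_Icc.2 zero_le_one) (by norm_num)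
    (show 0 < 1 - t by linarith) h0 (by ring)
  simp only [hc0, hc1, smul_eq_mul, mul_zero, mul_one, add_zero, zero_add] at this
  exact this

noncomputable def Hent (t : ℝ) : ℝ :=
  Real.negMulLog ((1 + t) ^ 2 / 8) + Real.negMulLog ((1 - t) ^ 2 / 8) + Real.negMulLog ((3 - t ^ 2) / 4)

lemma Hent_hasDeriv {t : ℝ} (h0 : 0 < t) (h1 : t < 1) : HasDerivAt Hent (-(chi t) / 2) t := by
  have hs : 0 < 3 - t ^ 2 := by nlinarith
  have p1 : 0 < 1 + t := by linarith
  have p2 : 0 < 1 - t := by linarith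
  have d1 : HasDerivAt (fun t : ℝ => (1 + t) ^ 2 / 8) ((1 + t) / 4) t := by
    have := ((((hasDerivAt_id t).const_add 1).pow 2).div_const 8)
    refine this.congr_deriv ?_
    simp; ring
  have d2 : HasDerivAt (fun t : ℝ => (1 - t) ^ 2 / 8) (-(1 - t) / 4) t := by
    have := ((((hasDerivAt_id t).const_sub 1).pow 2).div_const 8)
    refine this.congr_deriv ?_
    simp; ring
  have d3 : HasDerivAt (fun t : ℝ => (3 - t ^ 2) / 4) (-t / 2) t := by
    have := (((hasDerivAt_pow 2 t).const_sub 3).div_const 4)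
    refine this.congr_deriv ?_
    simp; ring
  have e1 := (Real.hasDerivAt_negMulLog (x := (1 + t) ^ 2 / 8) (by positivity)).comp t d1
  have e2 := (Real.hasDerivAt_negMulLog (x := (1 - t) ^ 2 / 8) (by positivity)).comp t d2
  have e3 := (Real.hasDerivAt_negMulLog (x := (3 - t ^ 2) / 4) (by positivity)).comp t d3
  have e := (e1.add e2).add e3
  refine HasDerivAt.congr_deriv (f := Hent) e ?_
  unfold chi
  have l1 : Real.log ((1 + t) ^ 2 / 8) = 2 * Real.log (1 + t) - Real.log 8 := by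
    rw [Real.log_div (by positivity) (by norm_num), Real.log_pow]; push_cast; ring
  have l2 : Real.log ((1 - t) ^ 2 / 8) = 2 * Real.log (1 - t) - Real.log 8 := by
    rw [Real.log_div (by positivity) (by norm_num), Real.log_pow]; push_cast; ring
  have l3 : Real.log ((3 - t ^ 2) / 4) = Real.log (6 - 2 * t ^ 2) - Real.log 8 := by
    rw [← Real.log_div (by linarith) (by norm_num)]; congr 1; ring
  rw [l1, l2, l3, Real.negMulLog, Real.negMulLog]
  ring

lemma Hent_gt {t : ℝ} (h0 : 0 ≤ t) (h1 : t < 1) : Real.log 2 < Hent t := by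
  have hanti : StrictAntiOn Hent (Icc 0 1) := by
    apply strictAntiOn_of_deriv_neg (convex_Icc 0 1)
    · unfold Hent; fun_prop
    · intro x hx
      rw [interior_Icc] at hx
      rw [(Hent_hasDeriv hx.1 hx.2).deriv]
      have := chi_pos hx.1 hx.2
      linarith
  have h2 := hanti ⟨h0, h1.le⟩ (right_mem_Icc.2 zero_le_one) h1
  have e : Hent 1 = Real.log 2 := by
    unfold Hent Real.negMulLog
    norm_num
    rw [show (1:ℝ) / 2 = 2⁻¹ by norm_num, Real.log_inv]
    ring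
  rwa [e] at h2

/-- centred law of an odd integer minus `x` -/
def CLaw (x θ c2 C2 : ℝ) : Prop :=
  ∃ (κ : Fin 3 → ℤ) (P : Fin 3 → ℝ), Function.Injective κ ∧ (∀ i, Odd (κ i)) ∧ (∀ i, 0 ≤ P i) ∧
    ∑ i, P i = 1 ∧ ∑ i, P i * (κ i - x) = 0 ∧ ∑ i, P i * (κ i - x) ^ 2 ≤ 1 - c2 * x ^ 2 ∧
    ∑ i, P i * ((κ i - x) ^ 2 - 1) ^ 2 ≤ C2 * x ^ 2 ∧ ∑ i, P i ^ (1 + θ) ≤ (1 / 2) ^ θ

lemma CLaw.neg {x θ c2 C2 : ℝ} (h : CLaw (-x) θ c2 C2) : CLaw x θ c2 C2 := by
  obtain ⟨κ, P, a, b, c, d, e, f, g, h⟩ := h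
  refine ⟨fun i => -κ i, P, ?_, ?_, c, d, ?_, ?_, ?_, h⟩
  · intro i j hij; exact a (by simpa using hij)
  · intro i; exact (b i).neg
  · rw [← neg_eq_zero, ← Finset.sum_neg_distrib, ← e]
    refine Finset.sum_congr rfl fun i _ => ?_
    push_cast; ring
  · rw [neg_sq] at f
    convert f using 3 with i
    push_cast; ring
  · rw [neg_sq] at g
    convert g using 4 with i
    push_cast; ring

lemma CLaw.of_family {u ρ θ k : ℝ} (hu0 : 0 ≤ u) (hu1 : u ≤ 1) (hρ : ρ = k * u ^ 2) (hk0 : 0 ≤ k)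
    (hk : k ≤ 1 / 8)
    (hpow : (((1 + u) / 2 - 2 * ρ) ^ (1 + θ) + ((1 - u) / 2 + ρ) ^ (1 + θ) + ρ ^ (1 + θ)) ≤ (1 / 2) ^ θ) :
    CLaw u θ (1 - 8 * k) 17 := by
  have hu2 : u ^ 2 ≤ u := by nlinarith
  have hu20 : 0 ≤ u ^ 2 := sq_nonneg u
  have hρ0 : 0 ≤ ρ := by rw [hρ]; positivity
  have hρ1 : ρ ≤ u ^ 2 / 8 := by rw [hρ]; nlinarith
  have hPa : 0 ≤ (1 + u) / 2 - 2 * ρ := by linarith
  have hPb : 0 ≤ (1 - u) / 2 + ρ := by linarith
  refine ⟨![1, -1, 3], ![(1 + u) / 2 - 2 * ρ, (1 - u) / 2 + ρ, ρ], ?_, ?_, ?_, ?_, ?_, ?_, ?_, ?_⟩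
  · decide
  · decide
  · intro i
    fin_cases i
    · simpa using hPa
    · simpa using hPb
    · simpa using hρ0
  · rw [Fin.sum_univ_three]
    simp only [Matrix.cons_val_zero, Matrix.cons_val_one, Matrix.cons_val]
    ring
  · rw [Fin.sum_univ_three]
    simp only [Matrix.cons_val_zero, Matrix.cons_val_one, Matrix.cons_val]
    push_cast; ring
  · rw [Fin.sum_univ_three]
    simp only [Matrix.cons_val_zero, Matrix.cons_val_one, Matrix.cons_val]
    refine le_of_eq ?_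
    rw [hρ]
    push_cast; ring
  · rw [Fin.sum_univ_three]
    simp only [Matrix.cons_val_zero, Matrix.cons_val_one, Matrix.cons_val]
    have h1 : ((((1:ℤ):ℝ) - u) ^ 2 - 1) ^ 2 ≤ 9 * u ^ 2 := by
      have e : ((((1:ℤ):ℝ) - u) ^ 2 - 1) ^ 2 = u ^ 2 * (2 - u) ^ 2 := by push_cast; ring
      rw [e]
      have : (2 - u) ^ 2 ≤ 9 := by nlinarith
      nlinarith
    have h2 : ((((-1:ℤ):ℝ) - u) ^ 2 - 1) ^ 2 ≤ 9 * u ^ 2 := by
      have e : ((((-1:ℤ):ℝ) - u) ^ 2 - 1) ^ 2 = u ^ 2 * (2 + u) ^ 2 := by push_cast; ring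
      rw [e]
      have : (2 + u) ^ 2 ≤ 9 := by nlinarith
      nlinarith
    have h3 : ((((3:ℤ):ℝ) - u) ^ 2 - 1) ^ 2 ≤ 64 := by
      have a1 : (((3:ℤ):ℝ) - u) ^ 2 - 1 ≤ 8 := by push_cast; nlinarith
      have a2 : -8 ≤ (((3:ℤ):ℝ) - u) ^ 2 - 1 := by nlinarith [sq_nonneg (((3:ℤ):ℝ) - u)]
      have := sq_le_sq' a2 a1
      linarith
    have h1' := mul_le_mul_of_nonneg_left h1 hPa
    have h2' := mul_le_mul_of_nonneg_left h2 hPb
    have h3' := mul_le_mul_of_nonneg_left h3 hρ0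
    have h4 : ((1 + u) / 2 - 2 * ρ) * (9 * u ^ 2) + ((1 - u) / 2 + ρ) * (9 * u ^ 2) = 9 * u ^ 2 - 9 * (ρ * u ^ 2) := by
      ring
    have h5 : 0 ≤ ρ * u ^ 2 := by positivity
    refine (add_le_add (add_le_add h1' h2') h3').trans ?_
    linarith
  · rw [Fin.sum_univ_three]
    simp only [Matrix.cons_val_zero, Matrix.cons_val_one, Matrix.cons_val]
    exact hpow

lemma CLaw.mono {x θ c2 C2 c2' : ℝ} (hc : c2' ≤ c2) (h : CLaw x θ c2 C2) : CLaw x θ c2' C2 := by
  obtain ⟨κ, P, a, b, c, d, e, f, g, h⟩ := h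
  refine ⟨κ, P, a, b, c, d, e, f.trans ?_, g, h⟩
  have := mul_le_mul_of_nonneg_right hc (sq_nonneg x)
  linarith

/-- the entropy of the three point family -/
noncomputable def Fent (k u : ℝ) : ℝ :=
  Real.negMulLog ((1 + u) / 2 - 2 * (k * u ^ 2)) + Real.negMulLog ((1 - u) / 2 + k * u ^ 2)
    + Real.negMulLog (k * u ^ 2)

lemma Fent_cont : Continuous fun z : ℝ × ℝ => Fent z.1 z.2 := by
  unfold Fent; fun_prop

lemma Fent_eighth {u : ℝ} : Fent (1 / 8) u = Hent (1 - u) := by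
  unfold Fent Hent
  have e1 : (1 + u) / 2 - 2 * (1 / 8 * u ^ 2) = (3 - (1 - u) ^ 2) / 4 := by ring
  have e2 : (1 - u) / 2 + 1 / 8 * u ^ 2 = (1 + (1 - u)) ^ 2 / 8 := by ring
  have e3 : 1 / 8 * u ^ 2 = (1 - (1 - u)) ^ 2 / 8 := by ring
  rw [e1, e2, e3]; ring

theorem L1ind : ∃ θ c2 : ℝ, 0 < θ ∧ θ ≤ 1 ∧ 0 < c2 ∧ ∀ x : ℝ, |x| ≤ 1 → CLaw x θ c2 17 := by
  -- near threshold
  set u0 : ℝ := Real.exp (-20) with hu0
  have hu00 : 0 < u0 := Real.exp_pos _
  have hu0sq : u0 ^ 2 = Real.exp (-40) := by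
    rw [hu0, ← Real.exp_nat_mul]; congr 1; push_cast; norm_num
  -- choose k
  have hev := (isCompact_Icc (a := u0) (b := (1:ℝ))).eventually_forall_of_forall_eventually
    (x₀ := (1/8 : ℝ)) (P := fun k u => Real.log 2 < Fent k u) (by
      intro u hu
      refine Fent_cont.continuousAt.eventually (lt_mem_nhds ?_)
      show Real.log 2 < Fent (1 / 8) u
      rw [Fent_eighth]
      exact Hent_gt (by linarith [hu.2]) (by linarith [hu.1]))
  have hev2 : ∀ᶠ k in 𝓝[<] (1/8 : ℝ), (1/9 : ℝ) < k :=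
    nhdsWithin_le_nhds (lt_mem_nhds (by norm_num))
  obtain ⟨k, h1, h2, h3⟩ := ((hev.filter_mono nhdsWithin_le_nhds).and
    (hev2.and (self_mem_nhdsWithin : ∀ᶠ k in 𝓝[<] (1/8 : ℝ), k ∈ Iio (1/8:ℝ)))).exists
  have h3' : k < 1 / 8 := h3
  by_cases hne : u0 ≤ 1
  swap
  · exfalso
    have : u0 ≤ 1 := by rw [hu0]; exact Real.exp_le_one_iff.2 (by norm_num)
    exact hne this
  obtain ⟨um, hum, hmin⟩ := (isCompact_Icc (a := u0) (b := (1:ℝ))).exists_isMinOn
    ⟨1, hne, le_refl _⟩ (f := fun u => Fent k u) ((Fent_cont.comp (by fun_prop : Continuous fun u : ℝ => (k, u))).continuousOn)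
  set η := Fent k um - Real.log 2 with hη
  have hη0 : 0 < η := by rw [hη]; linarith [h1 um hum]
  set θ := min (η / 12) (1 / 80) with hθ
  have hθ0 : 0 < θ := lt_min (by positivity) (by norm_num)
  have hθ1 : θ ≤ 1 / 80 := min_le_right _ _
  refine ⟨θ, 1 - 8 * k, hθ0, by linarith, by linarith, ?_⟩
  have main : ∀ u : ℝ, 0 ≤ u → u ≤ 1 → CLaw u θ (1 - 8 * k) 17 := by
    intro u hu hu1
    rcases le_total u u0 with hn | hf
    · -- near
      have hpow := near_power' (u := u) (ρ := (1/9) * u ^ 2) (θ := θ) (l := 1) one_pos le_rfl hu hu1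
        (by ring) (by
          have : u ^ 2 ≤ u0 ^ 2 := pow_le_pow_left₀ hu hn 2
          rw [hu0sq] at this
          have := Real.exp_pos (-40)
          linarith) hθ0 hθ1
      exact (CLaw.of_family hu hu1 rfl (by norm_num) (by norm_num) hpow).mono (by linarith)
    · -- far
      refine CLaw.of_family hu hu1 rfl (by linarith) h3'.le ?_
      have hρ0 : 0 ≤ k * u ^ 2 := by
        have : 0 < k := by linarith
        positivity
      have hu2 : u ^ 2 ≤ u := by nlinarith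
      have hρ1 : k * u ^ 2 ≤ u ^ 2 / 8 := by nlinarith [sq_nonneg u]
      have hPa : 0 ≤ (1 + u) / 2 - 2 * (k * u ^ 2) := by linarith
      have hPb : 0 ≤ (1 - u) / 2 + k * u ^ 2 := by linarith
      have e1 := pow_entropy (p := (1 + u) / 2 - 2 * (k * u ^ 2)) hPa (by linarith) hθ0
      have e2 := pow_entropy (p := (1 - u) / 2 + k * u ^ 2) hPb (by linarith) hθ0
      have e3 := pow_entropy (p := k * u ^ 2) hρ0 (by nlinarith) hθ0
      have hF : Real.log 2 + η ≤ Fent k u := by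
        have := hmin ⟨hf, hu1⟩
        rw [hη]
        have h5 : Fent k um ≤ Fent k u := this
        linarith
      unfold Fent at hF
      have h6 : 12 * θ ^ 2 ≤ θ * η := by
        have : θ ≤ η / 12 := min_le_left _ _
        nlinarith
      have h7 : (1 / 2 : ℝ) ^ θ = Real.exp (-(θ * Real.log 2)) := by
        rw [Real.rpow_def_of_pos (by norm_num)]
        congr 1
        rw [one_div, Real.log_inv]; ring
      rw [h7]
      have h8 := Real.add_one_le_exp (-(θ * Real.log 2))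
      have h9 := mul_le_mul_of_nonneg_left hF hθ0.le
      nlinarith
  intro x hx
  rcases le_total 0 x with h | h
  · rw [abs_of_nonneg h] at hx
    exact main x h hx
  · rw [abs_of_nonpos h] at hx
    exact (main (-x) (by linarith) hx).neg

end MP087bf0
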