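import Mathlib
import Pool.Agent.Lib.MP_087bf0_co.NearOdd
open Set Filter Topology
open scoped Real

namespace MP087bf0

lemma GoodLaw.mono {t l lam θ c c' : ℝ} (hcc : c' ≤ c) (h : GoodLaw t l lam θ c) :
    GoodLaw t l lam θ c' := by
  obtain ⟨ι, hι, κ, P, a, b, c1, d, e⟩ := h
  exact ⟨ι, hι, κ, P, a, b, c1, d.trans (Real.exp_le_exp.2 (by linarith)), e⟩

lemma GoodLaw.shift {t l lam θ c : ℝ} (k0 : ℤ) (h : GoodLaw (t + 2 * l * k0) l lam θ c) :
    GoodLaw t l lam θ c := by
  obtain ⟨ι, hι, κ, P, a, b, c1, d, e⟩ := h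
  refine ⟨ι, hι, fun i => κ i + k0, P, ?_, b, c1, ?_, e⟩
  · intro i j hij
    exact a (by simpa using hij)
  · convert d using 6 with i
    push_cast; ring

lemma GoodLaw.neg {t l lam θ c : ℝ} (h : GoodLaw (-t) l lam θ c) :
    GoodLaw t l lam θ c := by
  obtain ⟨ι, hι, κ, P, a, b, c1, d, e⟩ := h
  refine ⟨ι, hι, fun i => - κ i, P, ?_, b, c1, ?_, e⟩
  · intro i j hij
    exact a (by simpa using hij)
  · convert d using 5 with i
    push_cast; ring

lemma exists_shift {l : ℝ} (hl : 0 < l) (t : ℝ) : ∃ k0 : ℤ, |t + 2 * l * k0| ≤ l := by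
  refine ⟨-round (t / (2 * l)), ?_⟩
  have h2 := abs_sub_round (t / (2 * l))
  have e : t + 2 * l * ((-round (t / (2 * l)) : ℤ) : ℝ) = (t / (2 * l) - round (t / (2 * l))) * (2 * l) := by
    push_cast; field_simp; ring
  rw [e, abs_mul, abs_of_pos (show (0:ℝ) < 2 * l by positivity)]
  nlinarith

lemma GoodLaw.refine {t l lam θ c : ℝ} {m : ℕ} (hm : 0 < m) (hl : 0 < l) (hθ : 0 < θ)
    (h : ∀ r : Fin m, GoodLaw (t + 2 * l * (r:ℕ)) (m * l) lam θ c) : GoodLaw t l lam θ c := by
  choose ι hι κ P a b c1 d e using h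
  have hm0 : (0:ℝ) < m := by exact_mod_cast hm
  have hmZ : (0:ℤ) < m := by exact_mod_cast hm
  refine ⟨Σ r : Fin m, ι r, inferInstance, fun x => (x.1.val : ℤ) + m * κ x.1 x.2,
    fun x => (1 / m) * P x.1 x.2, ?_, ?_, ?_, ?_, ?_⟩
  · rintro ⟨r, i⟩ ⟨r', i'⟩ h
    simp only at h
    have h1 : (r.val : ℤ) = r'.val := by
      have h2 := congrArg (· % (m:ℤ)) h
      simp only [Int.add_mul_emod_self_left] at h2
      rwa [Int.emod_eq_of_lt (by omega) (by exact_mod_cast r.isLt),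
        Int.emod_eq_of_lt (by omega) (by exact_mod_cast r'.isLt)] at h2
    have h2 : r = r' := Fin.ext (by exact_mod_cast h1)
    subst h2
    have h3 : κ r i = κ r i' := by
      have : (m:ℤ) * κ r i = m * κ r i' := by linarith
      exact mul_left_cancel₀ hmZ.ne' this
    rw [a r h3]
  · rintro ⟨r, i⟩
    have := b r i
    positivity
  · rw [Fintype.sum_sigma]
    simp_rw [← Finset.mul_sum, c1]
    simp
    field_simp
  · rw [Fintype.sum_sigma]
    have h1 : ∀ r : Fin m, ∑ i, (1 / (m:ℝ)) * P r i * Real.exp (lam * ((t + 2 * l *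
        (((r.val : ℤ) + m * κ r i : ℤ) : ℝ)) ^ 2 - 1)) ≤ 1 / m * Real.exp (-c) := by
      intro r
      refine le_trans (le_of_eq ?_) (mul_le_mul_of_nonneg_left (d r) (by positivity))
      rw [Finset.mul_sum]
      refine Finset.sum_congr rfl fun i _ => ?_
      rw [mul_assoc]
      congr 5
      push_cast; ring
    refine (Finset.sum_le_sum fun r _ => h1 r).trans (le_of_eq ?_)
    rw [Finset.sum_const, Finset.card_univ, Fintype.card_fin, nsmul_eq_mul]
    field_simp
  · rw [Fintype.sum_sigma]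
    have h1 : ∀ r : Fin m, ∑ i, ((1 / (m:ℝ)) * P r i) ^ (1 + θ) ≤ (1 / m) ^ (1 + θ) * (m * l / 2) ^ θ := by
      intro r
      refine le_trans (le_of_eq ?_) (mul_le_mul_of_nonneg_left (e r) (by positivity))
      rw [Finset.mul_sum]
      refine Finset.sum_congr rfl fun i _ => ?_
      rw [Real.mul_rpow (by positivity) (b r i)]
    refine (Finset.sum_le_sum fun r _ => h1 r).trans (le_of_eq ?_)
    rw [Finset.sum_const, Finset.card_univ, Fintype.card_fin, nsmul_eq_mul]
    rw [Real.rpow_add (by positivity), Real.rpow_one, mul_div_assoc, Real.mul_rpow (by positivity) (by positivity)]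
    rw [Real.div_rpow (by norm_num) (by positivity), Real.one_rpow]
    have : (m:ℝ) ^ θ ≠ 0 := by positivity
    field_simp

/-- L1-seq -/
theorem L1seq : ∃ lam θ c1 : ℝ, 0 < lam ∧ 0 < θ ∧ θ ≤ 1 ∧ 0 < c1 ∧ ∀ l t : ℝ, 0 < l → l ≤ 1 →
    GoodLaw t l lam θ (c1 * (1 - l)) := by
  have hδ0 : (0:ℝ) < (9 / 2) * Real.exp (-40) := by positivity
  obtain ⟨lam0, θ0, c0, h1, h2, h3, h4⟩ := law_compact hδ0
  set lam := min lam0 (1 / 594) with hlam
  set θ := min θ0 (1 / 80) with hθ
  have hlam0 : 0 < lam := lt_min h1 (by norm_num)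
  have hθ0 : 0 < θ := lt_min h2 (by norm_num)
  set c1 := min c0 (1 / 18) * lam with hc1
  have hc10 : 0 < c1 := mul_pos (lt_min h3 (by norm_num)) hlam0
  have key : ∀ l t : ℝ, 3 / 8 ≤ l → l ≤ 1 → GoodLaw t l lam θ (c1 * (1 - l)) := by
    intro l t hl hl1
    have hl0 : 0 < l := by linarith
    obtain ⟨k0, hk0⟩ := exists_shift hl0 t
    apply GoodLaw.shift k0
    set t' := t + 2 * l * k0
    by_cases hd : (9 / 2) * Real.exp (-40) ≤ 1 - l ^ 2 + (l - |t'|) ^ 2
    · refine (h4 t' l hl hl1 hk0 hd lam θ hlam0 (min_le_left _ _) hθ0 (min_le_left _ _)).mono ?_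
      rw [hc1]
      have : min c0 (1 / 18) * (1 - l) ≤ c0 := by
        have h5 := min_le_left c0 (1 / 18)
        have h6 : 0 < min c0 (1 / 18) := lt_min h3 (by norm_num)
        nlinarith
      nlinarith
    · push Not at hd
      have hmain : ∀ s : ℝ, 0 ≤ s → s ≤ l → 1 - l ^ 2 + (l - s) ^ 2 ≤ (9 / 2) * Real.exp (-40) →
          GoodLaw s l lam θ (c1 * (1 - l)) := by
        intro s hs0 hsl hs
        refine (near_odd hl0 hl1 hs0 hsl hs hlam0 (min_le_right _ _) hθ0 (min_le_right _ _)).mono ?_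
        rw [hc1]
        have h5 := min_le_right c0 (1 / 18)
        have h6 : min c0 (1 / 18) * (1 - l) ≤ 1 / 18 * (1 - l) :=
          mul_le_mul_of_nonneg_right h5 (by linarith)
        nlinarith
      rcases le_total 0 t' with h | h
      · rw [abs_of_nonneg h] at hd hk0
        exact hmain t' h hk0 hd.le
      · rw [abs_of_nonpos h] at hd hk0
        exact (hmain (-t') (by linarith) hk0 hd.le).neg
  refine ⟨lam, θ, c1 / 4, hlam0, hθ0, (min_le_right _ _).trans (by norm_num), by positivity, ?_⟩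
  intro l t hl hl1
  rcases le_total (3 / 8) l with h | h
  · refine (key l t h hl1).mono ?_
    have : 0 ≤ 1 - l := by linarith
    nlinarith
  · -- refinement
    obtain ⟨m, hm, hm1, hm2⟩ : ∃ m : ℕ, 0 < m ∧ 3 / 8 ≤ m * l ∧ m * l ≤ 3 / 4 := by
      refine ⟨⌈(3 / 8) / l⌉₊, Nat.ceil_pos.2 (by positivity), ?_, ?_⟩
      · have := Nat.le_ceil ((3 / 8) / l)
        rwa [div_le_iff₀ hl] at this
      · have := Nat.ceil_lt_add_one (a := (3 / 8) / l) (by positivity)
        have h5 : (⌈(3 / 8) / l⌉₊ : ℝ) * l ≤ ((3 / 8) / l + 1) * l :=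
          mul_le_mul_of_nonneg_right this.le hl.le
        have h6 : ((3 / 8) / l + 1) * l = 3 / 8 + l := by field_simp
        linarith
    refine GoodLaw.refine hm hl hθ0 fun r => ?_
    refine (key (m * l) _ hm1 (by linarith)).mono ?_
    have h5 : 1 / 4 ≤ 1 - m * l := by linarith
    have h6 : 1 - l ≤ 1 := by linarith
    nlinarith

end MP087bf0
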