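import Mathlib
import Pool.Agent.Lib.MP_087bf0_co.SeqLaw
open Set Filter Topology
open scoped Real

namespace MP087bf0

/-- squared length of `y + 2 ∑ kᵢ wᵢ` where the rows of `W` are the vectors `wᵢ` -/
def En {m : ℕ} (W : Fin m → Fin m → ℝ) (y : Fin m → ℝ) (k : Fin m → ℤ) : ℝ :=
  ∑ j, (y j + 2 * ∑ i, (k i : ℝ) * W i j) ^ 2

lemma En_cons {m : ℕ} (W : Fin (m+1) → Fin (m+1) → ℝ) (hW : ∀ i j, j < i → W i j = 0)
    (y : Fin (m+1) → ℝ) (k0 : ℤ) (k : Fin m → ℤ) :
    En W y (Fin.cons k0 k) = (y 0 + 2 * W 0 0 * k0) ^ 2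
      + En (fun i j => W i.succ j.succ) (fun j => y j.succ + 2 * (k0 * W 0 j.succ)) k := by
  unfold En
  rw [Fin.sum_univ_succ]
  congr 1
  · rw [Fin.sum_univ_succ]
    have : ∀ i : Fin m, W i.succ 0 = 0 := fun i => hW _ _ (Fin.succ_pos i)
    simp only [Fin.cons_zero, Fin.cons_succ, this, mul_zero, Finset.sum_const_zero, add_zero]
    ring
  · refine Finset.sum_congr rfl fun j _ => ?_
    rw [Fin.sum_univ_succ]
    simp only [Fin.cons_zero, Fin.cons_succ]
    ring

lemma seq_law {lam θ c1 : ℝ} (hθ : 0 < θ)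
    (H : ∀ l t : ℝ, 0 < l → l ≤ 1 → GoodLaw t l lam θ (c1 * (1 - l))) :
    ∀ (m : ℕ) (W : Fin m → Fin m → ℝ) (_ : ∀ i j, j < i → W i j = 0)
      (_ : ∀ i, 0 < W i i ∧ W i i ≤ 1) (y : Fin m → ℝ),
      ∃ (ι : Type) (_ : Fintype ι) (κ : ι → Fin m → ℤ) (P : ι → ℝ), Function.Injective κ ∧
        (∀ i, 0 ≤ P i) ∧ ∑ i, P i = 1 ∧
        ∑ i, P i * Real.exp (lam * (En W y (κ i) - m)) ≤ Real.exp (-(c1 * ∑ i, (1 - W i i))) ∧
        ∑ i, P i ^ (1 + θ) ≤ (∏ i, (W i i / 2)) ^ θ
  | 0, W, _, _, y => by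
      refine ⟨Unit, inferInstance, fun _ => Fin.elim0, fun _ => 1, ?_, ?_, ?_, ?_, ?_⟩
      · intro i j _; rfl
      · intro _; norm_num
      · simp
      · simp [En]
      · simp
  | m + 1, W, hW, hl, y => by
      obtain ⟨ι0, hι0, κ0, P0, a0, b0, c0, d0, e0⟩ := H (W 0 0) (y 0) (hl 0).1 (hl 0).2
      have ih := fun a : ι0 => seq_law hθ H m (fun i j => W i.succ j.succ)
        (fun i j hij => hW _ _ (Fin.succ_lt_succ_iff.2 hij)) (fun i => hl i.succ)
        (fun j => y j.succ + 2 * (κ0 a * W 0 j.succ))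
      choose ι hι κ P a b c d e using ih
      refine ⟨Σ x : ι0, ι x, inferInstance, fun x => Fin.cons (κ0 x.1) (κ x.1 x.2),
        fun x => P0 x.1 * P x.1 x.2, ?_, ?_, ?_, ?_, ?_⟩
      · rintro ⟨r, i⟩ ⟨r', i'⟩ h
        simp only at h
        rw [Fin.cons_inj] at h
        obtain ⟨h1, h2⟩ := h
        have h3 := a0 h1
        subst h3
        have h4 := a r h2
        rw [h4]
      · rintro ⟨r, i⟩
        exact mul_nonneg (b0 r) (b r i)
      · rw [Fintype.sum_sigma]
        simp_rw [← Finset.mul_sum, c, mul_one]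
        exact c0
      · rw [Fintype.sum_sigma]
        have h1 : ∀ r : ι0, ∑ i, P0 r * P r i * Real.exp (lam * (En W y (Fin.cons (κ0 r) (κ r i))
            - ((m+1 : ℕ):ℝ))) ≤ P0 r * Real.exp (lam * ((y 0 + 2 * W 0 0 * κ0 r) ^ 2 - 1))
              * Real.exp (-(c1 * ∑ i : Fin m, (1 - W i.succ i.succ))) := by
          intro r
          refine le_trans (le_of_eq ?_) (mul_le_mul_of_nonneg_left (d r)
            (mul_nonneg (b0 r) (Real.exp_pos _).le))
          rw [Finset.mul_sum]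
          refine Finset.sum_congr rfl fun i _ => ?_
          rw [En_cons W hW]
          set E' := En (fun i j => W i.succ j.succ) (fun j => y j.succ + 2 * (κ0 r * W 0 j.succ)) (κ r i)
          set Q := (y 0 + 2 * W 0 0 * κ0 r) ^ 2
          have h2 : Real.exp (lam * (Q + E' - ((m+1 : ℕ):ℝ)))
              = Real.exp (lam * (Q - 1)) * Real.exp (lam * (E' - m)) := by
            rw [← Real.exp_add]; congr 1; push_cast; ring
          rw [h2]; ring
        refine (Finset.sum_le_sum fun r _ => h1 r).trans ?_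
        rw [← Finset.sum_mul, Fin.sum_univ_succ (fun i => 1 - W i i), mul_add, neg_add, Real.exp_add]
        exact mul_le_mul_of_nonneg_right d0 (Real.exp_pos _).le
      · rw [Fintype.sum_sigma]
        have hprod0 : 0 ≤ ∏ i : Fin m, (W i.succ i.succ / 2) :=
          Finset.prod_nonneg fun i _ => by have := (hl i.succ).1; positivity
        have h1 : ∀ r : ι0, ∑ i, (P0 r * P r i) ^ (1 + θ)
            ≤ P0 r ^ (1 + θ) * (∏ i : Fin m, (W i.succ i.succ / 2)) ^ θ := by
          intro r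
          refine le_trans (le_of_eq ?_) (mul_le_mul_of_nonneg_left (e r)
            (Real.rpow_nonneg (b0 r) _))
          rw [Finset.mul_sum]
          refine Finset.sum_congr rfl fun i _ => ?_
          rw [Real.mul_rpow (b0 r) (b r i)]
        refine (Finset.sum_le_sum fun r _ => h1 r).trans ?_
        rw [← Finset.sum_mul, Fin.prod_univ_succ, Real.mul_rpow (by have := (hl 0).1; positivity) hprod0]
        exact mul_le_mul_of_nonneg_right e0 (Real.rpow_nonneg hprod0 _)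

/-- Hölder: a set of large probability under a law with small power sum is large. -/
lemma card_ge_of_power {ι : Type*} [Fintype ι] (P : ι → ℝ) (hP : ∀ i, 0 ≤ P i) {θ A a : ℝ}
    (hθ : 0 < θ) (hA : 0 < A) (hpow : ∑ i, P i ^ (1 + θ) ≤ A ^ θ) (G : Finset ι) (ha : 0 ≤ a)
    (hG : a ≤ ∑ i ∈ G, P i) : a ^ ((1 + θ) / θ) / A ≤ G.card := by
  have h1 := Real.rpow_sum_le_const_mul_sum_rpow_of_nonneg G (f := P) (p := 1 + θ) (by linarith)
    (fun i _ => hP i)
  have h2 : ∑ i ∈ G, P i ^ (1 + θ) ≤ A ^ θ :=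
    (Finset.sum_le_univ_sum_of_nonneg fun i => Real.rpow_nonneg (hP i) _).trans hpow
  have h3 : a ^ (1 + θ) ≤ (G.card : ℝ) ^ θ * A ^ θ := by
    refine (Real.rpow_le_rpow ha hG (by linarith)).trans (h1.trans ?_)
    have : 1 + θ - 1 = θ := by ring
    rw [this]
    exact mul_le_mul_of_nonneg_left h2 (by positivity)
  rw [← Real.mul_rpow (by positivity) hA.le] at h3
  have h4 := Real.rpow_le_rpow (Real.rpow_nonneg ha _) h3 (show 0 ≤ 1 / θ by positivity)
  rw [← Real.rpow_mul ha, ← Real.rpow_mul (by positivity)] at h4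
  have e1 : (1 + θ) * (1 / θ) = (1 + θ) / θ := by ring
  have e2 : θ * (1 / θ) = 1 := by field_simp
  rw [e1, e2, Real.rpow_one] at h4
  rwa [div_le_iff₀ hA]

/-- Seq lemma -/
theorem seq_count : ∃ K1 c : ℝ, 0 < K1 ∧ 0 < c ∧ ∀ (m : ℕ) (W : Fin m → Fin m → ℝ)
    (_ : ∀ i j, j < i → W i j = 0) (_ : ∀ i, 0 < W i i ∧ W i i ≤ 1) (y : Fin m → ℝ),
    K1 ≤ ∑ i, (1 - W i i) →
    ∃ M : Finset (Fin m → ℤ), (∀ k ∈ M, En W y k ≤ m - 1) ∧ c * ∏ i, (2 / W i i) ≤ M.card := by
  classical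
  obtain ⟨lam, θ, c1, hlam, hθ, hθ1, hc1, H⟩ := L1seq
  refine ⟨(lam + Real.log 2) / c1, (1/2) ^ ((1 + θ) / θ), ?_, by positivity, ?_⟩
  · have := Real.log_pos (by norm_num : (1:ℝ) < 2)
    positivity
  intro m W hW hl y hK
  obtain ⟨ι, hι, κ, P, a, b, c, d, e⟩ := seq_law hθ H m W hW hl y
  set G := Finset.univ.filter (fun i => En W y (κ i) ≤ m - 1) with hG
  have hbad : ∑ i ∈ Finset.univ.filter (fun i => ¬ En W y (κ i) ≤ m - 1), P i ≤ 1 / 2 := by
    have h1 : ∀ i ∈ Finset.univ.filter (fun i => ¬ En W y (κ i) ≤ m - 1),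
        P i ≤ Real.exp lam * (P i * Real.exp (lam * (En W y (κ i) - m))) := by
      intro i hi
      simp only [Finset.mem_filter, Finset.mem_univ, true_and, not_le] at hi
      have h2 : 1 ≤ Real.exp lam * Real.exp (lam * (En W y (κ i) - m)) := by
        rw [← Real.exp_add]
        apply Real.one_le_exp
        nlinarith
      calc P i = P i * 1 := (mul_one _).symm
        _ ≤ P i * (Real.exp lam * Real.exp (lam * (En W y (κ i) - m))) :=
            mul_le_mul_of_nonneg_left h2 (b i)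
        _ = _ := by ring
    refine (Finset.sum_le_sum h1).trans ?_
    rw [← Finset.mul_sum]
    have h2 : ∑ i ∈ Finset.univ.filter (fun i => ¬ En W y (κ i) ≤ m - 1),
        (P i * Real.exp (lam * (En W y (κ i) - m))) ≤ Real.exp (-(c1 * ∑ i, (1 - W i i))) :=
      (Finset.sum_le_univ_sum_of_nonneg fun i => mul_nonneg (b i) (Real.exp_pos _).le).trans d
    refine (mul_le_mul_of_nonneg_left h2 (Real.exp_pos _).le).trans ?_
    rw [← Real.exp_add]
    have h3 : lam + -(c1 * ∑ i, (1 - W i i)) ≤ - Real.log 2 := by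
      rw [div_le_iff₀ hc1] at hK
      linarith
    refine (Real.exp_le_exp.2 h3).trans ?_
    rw [Real.exp_neg, Real.exp_log (by norm_num)]
    norm_num
  have hgood : 1 / 2 ≤ ∑ i ∈ G, P i := by
    have := Finset.sum_filter_add_sum_filter_not Finset.univ (fun i => En W y (κ i) ≤ m - 1) P
    rw [c] at this
    rw [hG]; linarith
  have hprod : 0 < ∏ i, (W i i / 2) := Finset.prod_pos fun i _ => by have := (hl i).1; positivity
  have hcard := card_ge_of_power P b hθ hprod e G (by norm_num) hgood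
  refine ⟨G.map ⟨κ, a⟩, ?_, ?_⟩
  · intro k hk
    rw [Finset.mem_map] at hk
    obtain ⟨i, hi, rfl⟩ := hk
    rw [hG, Finset.mem_filter] at hi
    exact hi.2
  · rw [Finset.card_map]
    refine le_trans (le_of_eq ?_) hcard
    have h5 : ∏ i, (2 / W i i) = (∏ i, (W i i / 2))⁻¹ := by
      rw [← Finset.prod_inv_distrib]
      refine Finset.prod_congr rfl fun i _ => ?_
      rw [inv_div]
    rw [h5, ← div_eq_mul_inv]

end MP087bf0
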