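import Mathlib
import Pool.Agent.Lib.MP_087bf0_co.IndLaw
import Pool.Agent.Lib.MP_087bf0_co.Seq
open Set Filter Topology
open scoped Real

namespace MP087bf0

/-- expectation under a product of laws on `Fin 3` -/
noncomputable def Ex {m : ℕ} (P : Fin m → Fin 3 → ℝ) (F : (Fin m → Fin 3) → ℝ) : ℝ :=
  ∑ s, (∏ i, P i (s i)) * F s

lemma Ex_succ {m : ℕ} (P : Fin (m+1) → Fin 3 → ℝ) (F : (Fin (m+1) → Fin 3) → ℝ) :
    Ex P F = ∑ a, P 0 a * Ex (fun i => P i.succ) (fun s => F (Fin.cons a s)) := by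
  unfold Ex
  have h : ∀ a : Fin 3, P 0 a * ∑ s : Fin m → Fin 3, (∏ i, P i.succ (s i)) * F (Fin.cons a s)
      = ∑ s : Fin m → Fin 3, (P 0 a * (∏ i, P i.succ (s i))) * F (Fin.cons a s) := by
    intro a; rw [Finset.mul_sum]
    refine Finset.sum_congr rfl fun s _ => ?_
    ring
  simp_rw [h]
  rw [← Fintype.sum_prod_type']
  symm
  refine Fintype.sum_equiv (Fin.consEquiv (fun _ => Fin 3)) _ _ fun x => ?_
  obtain ⟨a, s⟩ := x
  simp only [Fin.consEquiv_apply]
  rw [Fin.prod_univ_succ]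
  simp only [Fin.cons_zero, Fin.cons_succ]
  rfl

lemma Ex_add {m : ℕ} (P : Fin m → Fin 3 → ℝ) (F G : (Fin m → Fin 3) → ℝ) :
    Ex P (fun s => F s + G s) = Ex P F + Ex P G := by
  unfold Ex; rw [← Finset.sum_add_distrib]
  refine Finset.sum_congr rfl fun s _ => ?_
  ring

lemma Ex_mul {m : ℕ} (P : Fin m → Fin 3 → ℝ) (c : ℝ) (F : (Fin m → Fin 3) → ℝ) :
    Ex P (fun s => c * F s) = c * Ex P F := by
  unfold Ex; rw [Finset.mul_sum]
  refine Finset.sum_congr rfl fun s _ => ?_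
  ring

lemma Ex_mono {m : ℕ} {P : Fin m → Fin 3 → ℝ} (hP : ∀ i a, 0 ≤ P i a) {F G : (Fin m → Fin 3) → ℝ}
    (h : ∀ s, F s ≤ G s) : Ex P F ≤ Ex P G := by
  unfold Ex
  exact Finset.sum_le_sum fun s _ => mul_le_mul_of_nonneg_left (h s)
    (Finset.prod_nonneg fun i _ => hP i _)

lemma Ex_const {m : ℕ} {P : Fin m → Fin 3 → ℝ} (hP1 : ∀ i, ∑ a, P i a = 1) (c : ℝ) :
    Ex P (fun _ => c) = c := by
  induction m with
  | zero => simp [Ex]
  | succ m ih =>
    rw [Ex_succ]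
    rw [ih (fun i => hP1 i.succ), ← Finset.sum_mul, hP1 0, one_mul]

lemma Ex_sq : ∀ {m : ℕ} {P : Fin m → Fin 3 → ℝ} (_ : ∀ i, ∑ a, P i a = 1) (f : Fin m → Fin 3 → ℝ)
    (_ : ∀ i, ∑ a, P i a * f i a = 0) (b : ℝ),
    Ex P (fun s => (b + ∑ i, f i (s i)) ^ 2) = b ^ 2 + ∑ i, ∑ a, P i a * f i a ^ 2
  | 0, P, hP1, f, hf, b => by simp [Ex]
  | m + 1, P, hP1, f, hf, b => by
      rw [Ex_succ]
      have h1 : ∀ a, Ex (fun i => P i.succ) (fun s => (b + ∑ i, f i ((Fin.cons a s : Fin (m+1) → Fin 3) i)) ^ 2)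
          = (b + f 0 a) ^ 2 + ∑ i : Fin m, ∑ a, P i.succ a * f i.succ a ^ 2 := by
        intro a
        rw [← Ex_sq (fun i => hP1 i.succ) (fun i => f i.succ) (fun i => hf i.succ)]
        congr 1
        ext s
        rw [Fin.sum_univ_succ]
        simp only [Fin.cons_zero, Fin.cons_succ]
        ring
      simp_rw [h1]
      rw [Fin.sum_univ_succ (fun i => ∑ a, P i a * f i a ^ 2)]
      set R := ∑ i : Fin m, ∑ a, P i.succ a * f i.succ a ^ 2
      have h2 : ∀ a, P 0 a * ((b + f 0 a) ^ 2 + R) = (b ^ 2 + R) * P 0 a + 2 * b * (P 0 a * f 0 a)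
          + P 0 a * f 0 a ^ 2 := by intro a; ring
      simp_rw [h2]
      rw [Finset.sum_add_distrib, Finset.sum_add_distrib, ← Finset.mul_sum, ← Finset.mul_sum, hP1 0,
        hf 0]
      ring

variable {F : Type*} [NormedAddCommGroup F] [InnerProductSpace ℝ F]

/-- sum of squared inner products over pairs -/
noncomputable def G2 : {m : ℕ} → (Fin m → F) → ℝ
  | 0, _ => 0
  | _ + 1, w => ∑ j, (inner ℝ (w 0) (w (Fin.succ j))) ^ 2 + G2 (fun i => w i.succ)

lemma Ex_T : ∀ {m : ℕ} {P : Fin m → Fin 3 → ℝ} (_ : ∀ i a, 0 ≤ P i a) (_ : ∀ i, ∑ a, P i a = 1)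
    (r : Fin m → Fin 3 → ℝ) (_ : ∀ i, ∑ a, P i a * r i a = 0) (_ : ∀ i, ∑ a, P i a * r i a ^ 2 ≤ 1)
    (w : Fin m → F) (_ : ∀ i, ‖w i‖ = 1),
    Ex P (fun s => (‖∑ i, r i (s i) • w i‖ ^ 2 - ∑ i, r i (s i) ^ 2) ^ 2) ≤ 4 * G2 w
  | 0, P, hP, hP1, r, hr, hr2, w, hw => by simp [Ex, G2]
  | m + 1, P, hP, hP1, r, hr, hr2, w, hw => by
      rw [Ex_succ]
      have ih := Ex_T (P := fun i => P i.succ) (fun i => hP _) (fun i => hP1 _)
        (fun i => r i.succ) (fun i => hr _) (fun i => hr2 _) (fun i => w i.succ) (fun i => hw _)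
      set A : (Fin m → Fin 3) → ℝ := fun s => ‖∑ i, r i.succ (s i) • w i.succ‖ ^ 2 - ∑ i, r i.succ (s i) ^ 2
      set B : (Fin m → Fin 3) → ℝ := fun s => inner ℝ (w 0) (∑ i, r i.succ (s i) • w i.succ)
      have h1 : ∀ a, Ex (fun i => P i.succ) (fun s => (‖∑ i, r i ((Fin.cons a s : Fin (m+1) → Fin 3) i) • w i‖ ^ 2
          - ∑ i, r i ((Fin.cons a s : Fin (m+1) → Fin 3) i) ^ 2) ^ 2)
          = Ex (fun i => P i.succ) (fun s => A s ^ 2) + (4 * r 0 a) * Ex (fun i => P i.succ) (fun s => A s * B s)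
            + (4 * r 0 a ^ 2) * Ex (fun i => P i.succ) (fun s => B s ^ 2) := by
        intro a
        rw [← Ex_mul, ← Ex_mul, ← Ex_add, ← Ex_add]
        congr 1
        ext s
        rw [Fin.sum_univ_succ, Fin.sum_univ_succ]
        simp only [Fin.cons_zero, Fin.cons_succ]
        rw [norm_add_sq_real, norm_smul, mul_pow, hw 0, inner_smul_left, Real.norm_eq_abs, sq_abs]
        simp only [conj_trivial, A, B]
        ring
      simp_rw [h1]
      have hB : Ex (fun i => P i.succ) (fun s => B s ^ 2) ≤ ∑ j : Fin m, (inner ℝ (w 0) (w j.succ)) ^ 2 := by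
        have h2 := Ex_sq (P := fun i => P i.succ) (fun i => hP1 _)
          (fun i a => r i.succ a * inner ℝ (w 0) (w i.succ)) (fun i => by
            have := hr i.succ
            simp_rw [← mul_assoc]
            rw [← Finset.sum_mul, this, zero_mul]) 0
        have h3 : Ex (fun i => P i.succ) (fun s => B s ^ 2) = ∑ i : Fin m, ∑ a, P i.succ a *
            (r i.succ a * inner ℝ (w 0) (w i.succ)) ^ 2 := by
          rw [show (0:ℝ) ^ 2 + _ = _ from by rw [zero_pow two_ne_zero, zero_add]] at h2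
          rw [← h2]
          congr 1
          ext s
          simp only [B, inner_sum, inner_smul_right, zero_add]
        rw [h3]
        refine Finset.sum_le_sum fun i _ => ?_
        have h4 : ∑ a, P i.succ a * (r i.succ a * inner ℝ (w 0) (w i.succ)) ^ 2
            = (∑ a, P i.succ a * r i.succ a ^ 2) * (inner ℝ (w 0) (w i.succ)) ^ 2 := by
          rw [Finset.sum_mul]
          refine Finset.sum_congr rfl fun a _ => ?_
          ring
        rw [h4]
        have := mul_le_mul_of_nonneg_right (hr2 i.succ) (sq_nonneg (inner ℝ (w 0) (w i.succ)))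
        linarith
      have hB0 : 0 ≤ Ex (fun i => P i.succ) (fun s => B s ^ 2) := by
        unfold Ex
        exact Finset.sum_nonneg fun s _ => mul_nonneg (Finset.prod_nonneg fun i _ => hP _ _) (sq_nonneg _)
      set EA := Ex (fun i => P i.succ) (fun s => A s ^ 2)
      set EAB := Ex (fun i => P i.succ) (fun s => A s * B s)
      set EB := Ex (fun i => P i.succ) (fun s => B s ^ 2)
      have h2 : ∀ a, P 0 a * (EA + (4 * r 0 a) * EAB + (4 * r 0 a ^ 2) * EB)
          = EA * P 0 a + (4 * EAB) * (P 0 a * r 0 a) + (4 * EB) * (P 0 a * r 0 a ^ 2) := by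
        intro a; ring
      simp_rw [h2]
      rw [Finset.sum_add_distrib, Finset.sum_add_distrib, ← Finset.mul_sum, ← Finset.mul_sum,
        ← Finset.mul_sum, hP1 0, hr 0, G2]
      have h3 := hr2 0
      have h4 : 4 * EB * ∑ a, P 0 a * r 0 a ^ 2 ≤ 4 * EB := by nlinarith
      linarith

lemma Ex_markov {m : ℕ} {P : Fin m → Fin 3 → ℝ} (hP : ∀ i a, 0 ≤ P i a)
    (Z : (Fin m → Fin 3) → ℝ) {τ B : ℝ} (hτ : 0 < τ) (hB : Ex P (fun s => Z s ^ 2) ≤ B)
    (S : Finset (Fin m → Fin 3)) (hS : ∀ s ∈ S, τ ≤ |Z s|) :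
    ∑ s ∈ S, ∏ i, P i (s i) ≤ B / τ ^ 2 := by
  rw [le_div_iff₀ (by positivity), Finset.sum_mul]
  refine le_trans ?_ hB
  unfold Ex
  refine le_trans (Finset.sum_le_sum (g := fun s => (∏ i, P i (s i)) * Z s ^ 2) fun s hs => ?_)
    (Finset.sum_le_univ_sum_of_nonneg fun s => mul_nonneg (Finset.prod_nonneg fun i _ => hP _ _)
      (sq_nonneg _))
  refine mul_le_mul_of_nonneg_left ?_ (Finset.prod_nonneg fun i _ => hP _ _)
  rw [← sq_abs (Z s)]
  exact pow_le_pow_left₀ hτ.le (hS s hs) 2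

/-- Ind lemma -/
theorem ind_count {C1 : ℝ} (hC1 : 0 ≤ C1) : ∃ K2 c : ℝ, 0 < K2 ∧ 0 < c ∧
    ∀ (E : Type) [NormedAddCommGroup E] [InnerProductSpace ℝ E] (m : ℕ) (w : Fin m → E),
    (∀ i, ‖w i‖ = 1) → G2 w ≤ C1 → ∀ x : Fin m → ℝ, (∀ i, |x i| ≤ 1) → K2 ≤ ∑ i, x i ^ 2 →
    ∃ M : Finset (Fin m → ℤ), (∀ η ∈ M, (∀ i, Odd (η i)) ∧ ‖∑ i, ((η i : ℝ) - x i) • w i‖ ^ 2 ≤ m - 1) ∧
      c * 2 ^ m ≤ M.card := by
  classical
  obtain ⟨θ, c2, hθ, hθ1, hc2, H⟩ := L1ind
  set τ : ℝ := 4 * (C1 + 1) with hτ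
  have hτ0 : 0 < τ := by rw [hτ]; positivity
  refine ⟨max (16 * 17 / c2 ^ 2) (2 * (τ + 1) / c2), (1/2) ^ ((1 + θ) / θ), ?_, by positivity, ?_⟩
  · exact lt_max_of_lt_left (by positivity)
  intro E _ _ m w hw hG x hx hU
  have hCL := fun i => H (x i) (hx i)
  choose κ P ha hb hc hd he hf hg hh using hCL
  set U := ∑ i, x i ^ 2 with hUdef
  have hU1 : 16 * 17 / c2 ^ 2 ≤ U := (le_max_left _ _).trans hU
  have hU2 : 2 * (τ + 1) / c2 ≤ U := (le_max_right _ _).trans hU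
  have hU0 : 0 < U := lt_of_lt_of_le (by positivity) hU1
  set r : Fin m → Fin 3 → ℝ := fun i a => (κ i a : ℝ) - x i with hr
  set v : Fin m → ℝ := fun i => ∑ a, P i a * r i a ^ 2 with hv
  set T : (Fin m → Fin 3) → ℝ := fun s => ‖∑ i, r i (s i) • w i‖ ^ 2 - ∑ i, r i (s i) ^ 2 with hT
  set V : (Fin m → Fin 3) → ℝ := fun s => ∑ i, (r i (s i) ^ 2 - v i) with hV
  have hvle : ∀ i, v i ≤ 1 - c2 * x i ^ 2 := fun i => hf i
  have hET : Ex P (fun s => T s ^ 2) ≤ 4 * C1 := by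
    refine (Ex_T hc hd r he (fun i => (hvle i).trans ?_) w hw).trans (by linarith)
    have := sq_nonneg (x i)
    nlinarith
  have hEV : Ex P (fun s => V s ^ 2) ≤ 17 * U := by
    have h1 := Ex_sq (P := P) hd (fun i a => r i a ^ 2 - v i) (fun i => by
      simp_rw [mul_sub]
      rw [Finset.sum_sub_distrib, ← Finset.sum_mul, hd i, one_mul, hv, sub_self]) 0
    rw [zero_pow two_ne_zero, zero_add] at h1
    simp only [zero_add] at h1
    rw [hV, h1, hUdef, Finset.mul_sum]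
    refine Finset.sum_le_sum fun i _ => ?_
    refine le_trans ?_ (hg i)
    have h2 : ∑ a, P i a * ((r i a) ^ 2 - 1) ^ 2 = ∑ a, P i a * (r i a ^ 2 - v i) ^ 2 + (v i - 1) ^ 2 := by
      have e1 : ∀ a, P i a * ((r i a) ^ 2 - 1) ^ 2 = P i a * (r i a ^ 2 - v i) ^ 2
          + 2 * (v i - 1) * (P i a * r i a ^ 2) - 2 * (v i - 1) * v i * P i a + (v i - 1) ^ 2 * P i a := by
        intro a; ring
      simp_rw [e1]
      rw [Finset.sum_add_distrib, Finset.sum_sub_distrib, Finset.sum_add_distrib, ← Finset.mul_sum,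
        ← Finset.mul_sum, ← Finset.mul_sum, hd i]
      have e2 : ∑ a, P i a * r i a ^ 2 = v i := rfl
      rw [e2]; ring
    have h3 : ∑ a, P i a * (((κ i a : ℝ) - x i) ^ 2 - 1) ^ 2 = ∑ a, P i a * ((r i a) ^ 2 - 1) ^ 2 := rfl
    rw [h3, h2]
    have := sq_nonneg (v i - 1)
    linarith
  set good := Finset.univ.filter (fun s : Fin m → Fin 3 => ‖∑ i, r i (s i) • w i‖ ^ 2 ≤ m - 1) with hgood
  set bad1 := Finset.univ.filter (fun s : Fin m → Fin 3 => τ ≤ |T s|) with hbad1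
  set bad2 := Finset.univ.filter (fun s : Fin m → Fin 3 => c2 * U / 2 ≤ |V s|) with hbad2
  set Q : (Fin m → Fin 3) → ℝ := fun s => ∏ i, P i (s i) with hQ
  have hQ0 : ∀ s, 0 ≤ Q s := fun s => Finset.prod_nonneg fun i _ => hc _ _
  have hb1 : ∑ s ∈ bad1, Q s ≤ 1 / 4 := by
    refine (Ex_markov hc T hτ0 hET bad1 fun s hs => (Finset.mem_filter.1 hs).2).trans ?_
    rw [div_le_iff₀ (by positivity), hτ]
    nlinarith
  have hb2 : ∑ s ∈ bad2, Q s ≤ 1 / 4 := by
    refine (Ex_markov hc V (τ := c2 * U / 2) (by positivity) hEV bad2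
      fun s hs => (Finset.mem_filter.1 hs).2).trans ?_
    rw [div_le_iff₀ (by positivity)]
    rw [div_le_iff₀ (by positivity)] at hU1
    have : 1 / 4 * (c2 * U / 2) ^ 2 = (U * c2 ^ 2) * U / 16 := by ring
    rw [this]
    have := mul_le_mul_of_nonneg_right hU1 hU0.le
    linarith
  have hcover : ∀ s, s ∉ bad1 → s ∉ bad2 → s ∈ good := by
    intro s h1 h2
    rw [hbad1, Finset.mem_filter] at h1
    rw [hbad2, Finset.mem_filter] at h2
    rw [hgood, Finset.mem_filter]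
    simp only [Finset.mem_univ, true_and, not_le] at h1 h2 ⊢
    have e1 : ‖∑ i, r i (s i) • w i‖ ^ 2 = ∑ i, v i + V s + T s := by
      simp only [hT, hV]
      rw [Finset.sum_sub_distrib]; ring
    rw [e1]
    have e2 : ∑ i, v i ≤ m - c2 * U := by
      calc ∑ i, v i ≤ ∑ i, (1 - c2 * x i ^ 2) := Finset.sum_le_sum fun i _ => hvle i
        _ = m - c2 * U := by
          rw [Finset.sum_sub_distrib, ← Finset.mul_sum]; simp [hUdef]
    have e3 := (abs_lt.1 h1).2
    have e4 := (abs_lt.1 h2).2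
    rw [div_le_iff₀ hc2] at hU2
    linarith
  have htot : ∑ s, Q s = 1 := by
    have := Ex_const (P := P) hd 1
    unfold Ex at this
    simpa using this
  have hgoodsum : 1 / 2 ≤ ∑ s ∈ good, Q s := by
    have h1 : (1:ℝ) ≤ ∑ s ∈ good, Q s + (∑ s ∈ bad1, Q s + ∑ s ∈ bad2, Q s) := by
      rw [← htot]
      have h2 : (Finset.univ : Finset (Fin m → Fin 3)) ⊆ good ∪ (bad1 ∪ bad2) := by
        intro s _
        by_cases a1 : s ∈ bad1
        · exact Finset.mem_union_right _ (Finset.mem_union_left _ a1)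
        · by_cases a2 : s ∈ bad2
          · exact Finset.mem_union_right _ (Finset.mem_union_right _ a2)
          · exact Finset.mem_union_left _ (hcover s a1 a2)
      have h3 : ∀ A B : Finset (Fin m → Fin 3), ∑ s ∈ A ∪ B, Q s ≤ ∑ s ∈ A, Q s + ∑ s ∈ B, Q s := by
        intro A B
        have := Finset.sum_union_inter (s₁ := A) (s₂ := B) (f := Q)
        have h4 : 0 ≤ ∑ s ∈ A ∩ B, Q s := Finset.sum_nonneg fun s _ => hQ0 s
        linarith
      calc ∑ s, Q s ≤ ∑ s ∈ good ∪ (bad1 ∪ bad2), Q s :=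
            Finset.sum_le_sum_of_subset_of_nonneg h2 fun s _ _ => hQ0 s
        _ ≤ ∑ s ∈ good, Q s + ∑ s ∈ bad1 ∪ bad2, Q s := h3 _ _
        _ ≤ _ := by
          have := h3 bad1 bad2
          linarith
    linarith
  have hpow : ∑ s, Q s ^ (1 + θ) ≤ ((1/2 : ℝ) ^ m) ^ θ := by
    have h1 : ∀ s : Fin m → Fin 3, Q s ^ (1 + θ) = ∏ i, (P i (s i)) ^ (1 + θ) := by
      intro s
      rw [hQ, Real.finsetProd_rpow _ _ fun i _ => hc _ _]
    simp_rw [h1]
    have h2 := (Finset.prod_univ_sum (fun _ : Fin m => (Finset.univ : Finset (Fin 3)))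
      (fun i a => P i a ^ (1 + θ)))
    rw [Fintype.piFinset_univ] at h2
    rw [← h2]
    calc ∏ i, ∑ a, P i a ^ (1 + θ) ≤ ∏ i : Fin m, (1/2 : ℝ) ^ θ :=
          Finset.prod_le_prod (fun i _ => Finset.sum_nonneg fun a _ => Real.rpow_nonneg (hc _ _) _)
            (fun i _ => hh i)
      _ = ((1/2 : ℝ) ^ m) ^ θ := by
          rw [Finset.prod_const, Finset.card_univ, Fintype.card_fin, ← Real.rpow_natCast,
            ← Real.rpow_natCast, ← Real.rpow_mul (by norm_num), ← Real.rpow_mul (by norm_num), mul_comm]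
  have hcard := card_ge_of_power Q hQ0 hθ (by positivity) hpow good (by norm_num) hgoodsum
  have hinj : Function.Injective (fun s : Fin m → Fin 3 => fun i => κ i (s i)) := by
    intro s s' h
    ext i
    rw [ha i (congrFun h i)]
  refine ⟨good.map ⟨_, hinj⟩, ?_, ?_⟩
  · intro η hη
    rw [Finset.mem_map] at hη
    obtain ⟨s, hs, rfl⟩ := hη
    refine ⟨fun i => hb i (s i), ?_⟩
    rw [hgood, Finset.mem_filter] at hs
    exact hs.2
  · rw [Finset.card_map]
    refine le_trans (le_of_eq ?_) hcard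
    rw [div_eq_mul_inv]
    congr 1
    rw [← inv_pow]; norm_num

end MP087bf0
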