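import Mathlib
import Pool.Agent.Lib.MP_087bf0_co.Defs
import Pool.Agent.Lib.MP_087bf0_co.Cube
import Pool.Agent.Lib.MP_087bf0_co.Signs
open MeasureTheory Set
open scoped ENNReal Real

namespace MP087bf0

variable {F : Type*} [NormedAddCommGroup F] [InnerProductSpace ℝ F]

/-- regularised Riesz-type kernel -/
noncomputable def om (δ p : ℝ) (x : F) : ℝ := (‖x‖ ^ 2 + δ) ^ (-p)

omit [InnerProductSpace ℝ F] in
lemma om_pos {δ : ℝ} (hδ : 0 < δ) (p : ℝ) (x : F) : 0 < om δ p x :=
  Real.rpow_pos_of_pos (by positivity) _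

omit [InnerProductSpace ℝ F] in
lemma om_continuous {δ : ℝ} (hδ : 0 < δ) (p : ℝ) : Continuous (om δ p : F → ℝ) := by
  unfold om
  refine Continuous.rpow_const (by fun_prop) fun x => Or.inl ?_
  have : 0 < ‖x‖ ^ 2 + δ := by positivity
  exact this.ne'

lemma om_hasFDerivAt {δ : ℝ} (hδ : 0 < δ) (p : ℝ) (x : F) :
    HasFDerivAt (om δ p : F → ℝ) ((-2 * p * om δ (p+1) x) • innerSL ℝ x) x := by
  have h1 : HasFDerivAt (fun x : F => ‖x‖ ^ 2 + δ) (2 • innerSL ℝ x) x :=
    ((hasStrictFDerivAt_norm_sq x).hasFDerivAt).add_const δ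
  have h0 : ‖x‖ ^ 2 + δ ≠ 0 := by positivity
  have h2 := h1.rpow_const (p := -p) (Or.inl h0)
  refine h2.congr_fderiv ?_
  ext h
  simp only [om, _root_.smul_apply, innerSL_apply_apply, smul_eq_mul, nsmul_eq_mul]
  have : -(p+1) = -p - 1 := by ring
  rw [this]
  push_cast
  ring

/-- rank-one trace formula for a nondegenerate alternating form evaluated at a basis -/
lemma trace_rank_one {m : ℕ} [FiniteDimensional ℝ F] (hF : Module.finrank ℝ F = m + 1)
    (D : F [⋀^Fin (m+1)]→ₗ[ℝ] ℝ) (v : Fin (m+1) → F) (hv : D v ≠ 0) (x : F) :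
    ∑ j, inner ℝ x (v j) * D (Function.update v j x) = ‖x‖ ^ 2 * D v := by
  have hli : LinearIndependent ℝ v := by
    by_contra h
    exact hv (D.map_linearDependent v h)
  let b := basisOfLinearIndependentOfCardEqFinrank hli (by simp [hF])
  have hb : ∀ j, b j = v j := fun j => by simp [b]
  have hx : x = ∑ k, b.repr x k • v k := by
    conv_lhs => rw [← b.sum_repr x]
    simp [hb]
  have hD : ∀ j, D (Function.update v j x) = b.repr x j * D v := by
    intro j
    conv_lhs => rw [hx]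
    rw [AlternatingMap.map_update_sum, Finset.sum_eq_single j]
    · rw [AlternatingMap.map_update_smul, Function.update_eq_self, smul_eq_mul]
    · intro k _ hk
      rw [AlternatingMap.map_update_smul, AlternatingMap.map_update_self _ _ hk.symm, smul_zero]
    · simp
  simp_rw [hD]
  have : ‖x‖ ^ 2 = ∑ j, inner ℝ x (v j) * b.repr x j := by
    rw [← real_inner_self_eq_norm_sq]
    conv_lhs => arg 3; rw [hx]
    rw [inner_sum]
    refine Finset.sum_congr rfl fun j _ => ?_
    rw [inner_smul_right]; ring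
  rw [this, Finset.sum_mul]
  refine Finset.sum_congr rfl fun j _ => ?_
  ring

/-- `x ↦ D(x, v₁, …, v_m)` as a linear functional -/
noncomputable def Lf {m : ℕ} (D : F [⋀^Fin (m+1)]→ₗ[ℝ] ℝ) (v : Fin m → F) : F →ₗ[ℝ] ℝ where
  toFun x := D (Fin.cons x v : Fin (m+1) → F)
  map_add' x y := D.toMultilinearMap.cons_add v x y
  map_smul' c x := D.toMultilinearMap.cons_smul v c x

lemma Lf_apply {m : ℕ} (D : F [⋀^Fin (m+1)]→ₗ[ℝ] ℝ) (v : Fin m → F) (x : F) :
    Lf D v x = D (Fin.cons x v : Fin (m+1) → F) := rfl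

lemma Lf_self {m : ℕ} (D : F [⋀^Fin (m+1)]→ₗ[ℝ] ℝ) (v : Fin m → F) (j : Fin m) :
    Lf D v (v j) = 0 := by
  rw [Lf_apply]
  exact D.map_eq_zero_of_eq _ (i := 0) (j := j.succ) (by simp) (Fin.succ_ne_zero j).symm

lemma Lf_T {m n : ℕ} (D : F [⋀^Fin (m+1)]→ₗ[ℝ] ℝ) (u : Fin n → F) (κ : Fin m → Fin n)
    (ε : Fin n → Bool) (s : Fin m → ℝ) :
    Lf D (u ∘ κ) (T u κ ε s) = ∑ i, sgn (ε i) * Lf D (u ∘ κ) (u i) := by
  classical
  have h0 : ∀ j, Lf D (u ∘ κ) (u (κ j)) = 0 := fun j => Lf_self D (u ∘ κ) j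
  rw [T, map_add, map_sum, X, map_sum]
  have : ∑ x, (Lf D (u ∘ κ)) (s x • u (κ x)) = 0 := by
    refine Finset.sum_eq_zero fun j _ => ?_
    rw [map_smul, h0, smul_zero]
  rw [this, add_zero]
  refine Finset.sum_congr rfl fun i _ => ?_
  by_cases hi : i ∈ Set.range κ
  · obtain ⟨j, rfl⟩ := hi
    simp [h0]
  · rw [if_neg hi, map_smul, smul_eq_mul]

lemma T_perm {m n : ℕ} (u : Fin n → F) (ι : Fin m → Fin n) (σ : Equiv.Perm (Fin m))
    (ε : Fin n → Bool) (s : Fin m → ℝ) : T u (ι ∘ σ) ε (s ∘ σ) = T u ι ε s := by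
  classical
  unfold T X
  congr 1
  · refine Finset.sum_congr rfl fun i _ => ?_
    have : (i ∈ Set.range (ι ∘ σ)) ↔ (i ∈ Set.range ι) := by
      rw [EquivLike.range_comp]
    simp only [this]
  · exact Fintype.sum_equiv σ _ _ fun j => rfl

/-- the key identity -/
theorem key_identity {m n : ℕ} [FiniteDimensional ℝ F] (hF : Module.finrank ℝ F = m + 1)
    (D : F [⋀^Fin (m+1)]→ₗ[ℝ] ℝ) (u : Fin n → F) {δ : ℝ} (hδ : 0 < δ) :
    ∑ κ : Fin m → Fin n, ∑ ε, ∫ s, om δ (((m:ℝ)+1)/2) (T u κ ε s) *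
        Lf D (u ∘ κ) (T u κ ε s) ^ 2 ∂cube m
      = ∑ ι : Fin (m+1) → Fin n, D (u ∘ ι) ^ 2 *
          ∑ ε, ∫ s, δ * om δ (((m:ℝ)+1)/2 + 1) (T u ι ε s) ∂cube (m+1) := by
  classical
  set p : ℝ := ((m:ℝ)+1)/2 with hp
  have hcp := om_continuous (F := F) hδ p
  have hcp1 := om_continuous (F := F) hδ (p+1)
  -- Step 1: expand one factor and integrate by parts
  have h1 : ∀ κ : Fin m → Fin n, ∑ ε, ∫ s, om δ p (T u κ ε s) * Lf D (u ∘ κ) (T u κ ε s) ^ 2 ∂cube m
      = ∑ i, Lf D (u ∘ κ) (u i) * ∑ ε, ∫ s, (om δ p (T u (Fin.cons i κ : Fin (m+1) → Fin n) ε s) *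
          Lf D (u ∘ κ) (u i) - 2 * p * (om δ (p+1) (T u (Fin.cons i κ : Fin (m+1) → Fin n) ε s) *
          inner ℝ (T u (Fin.cons i κ : Fin (m+1) → Fin n) ε s) (u i) *
          Lf D (u ∘ κ) (T u (Fin.cons i κ : Fin (m+1) → Fin n) ε s))) ∂cube (m+1) := by
    intro κ
    set L : F →L[ℝ] ℝ := LinearMap.toContinuousLinearMap (Lf D (u ∘ κ)) with hL
    have hLL : ∀ x, Lf D (u ∘ κ) x = L x := fun x => rfl
    simp_rw [hLL]
    have hTc := fun ε => T_continuous u κ ε
    calc ∑ ε, ∫ s, om δ p (T u κ ε s) * L (T u κ ε s) ^ 2 ∂cube m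
        = ∑ ε, ∫ s, ∑ i, L (u i) * (sgn (ε i) * (om δ p (T u κ ε s) * L (T u κ ε s))) ∂cube m := by
          refine Finset.sum_congr rfl fun ε _ => ?_
          congr 1
          funext s
          have := Lf_T D u κ ε s
          simp_rw [hLL] at this
          calc om δ p (T u κ ε s) * L (T u κ ε s) ^ 2
              = L (T u κ ε s) * (om δ p (T u κ ε s) * L (T u κ ε s)) := by ring
            _ = (∑ i, sgn (ε i) * L (u i)) * (om δ p (T u κ ε s) * L (T u κ ε s)) := by
                rw [← this]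
            _ = _ := by
                rw [Finset.sum_mul]
                refine Finset.sum_congr rfl fun i _ => ?_
                ring
      _ = ∑ ε, ∑ i, L (u i) * ∫ s, (sgn (ε i) * (om δ p (T u κ ε s) * L (T u κ ε s))) ∂cube m := by
          refine Finset.sum_congr rfl fun ε _ => ?_
          have := hTc ε
          rw [integral_finsetSum _ (fun i _ => integrable_cube (by fun_prop))]
          refine Finset.sum_congr rfl fun i _ => ?_
          rw [integral_const_mul]
      _ = ∑ i, L (u i) * ∑ ε, ∫ s, (sgn (ε i) * (om δ p (T u κ ε s) * L (T u κ ε s))) ∂cube m := by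
          rw [Finset.sum_comm]
          simp_rw [Finset.mul_sum]
      _ = _ := by
          refine Finset.sum_congr rfl fun i _ => ?_
          by_cases hi : i ∈ Set.range κ
          · obtain ⟨j, rfl⟩ := hi
            have : L (u (κ j)) = 0 := Lf_self D (u ∘ κ) j
            rw [this, zero_mul, zero_mul]
          · congr 1
            have := ibp u κ i hi (fun x => om δ p x * L x)
              (fun x => om δ p x • L + L x • ((-2 * p * om δ (p+1) x) • innerSL ℝ x))
              (fun x => (om_hasFDerivAt hδ p x).mul L.hasFDerivAt) (by fun_prop)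
            rw [this]
            refine Finset.sum_congr rfl fun ε _ => ?_
            congr 1
            funext s
            simp only [_root_.add_apply, _root_.smul_apply,
              innerSL_apply_apply, smul_eq_mul]
            ring
  -- Step 2: rewrite as a sum over `ι`
  set R : (Fin (m+1) → Fin n) → Fin (m+1) → ℝ := fun ι j =>
    ∑ ε, ∫ s, (om δ (p+1) (T u ι ε s) * inner ℝ (T u ι ε s) (u (ι j)) *
      D (Function.update (u ∘ ι) j (T u ι ε s))) * D (u ∘ ι) ∂cube (m+1) with hR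
  have hDc : ∀ (ι : Fin (m+1) → Fin n) (j : Fin (m+1)),
      Continuous (fun x : F => D (Function.update (u ∘ ι) j x)) := by
    intro ι j
    let L : F →ₗ[ℝ] ℝ :=
      { toFun := fun x => D (Function.update (u ∘ ι) j x)
        map_add' := fun x y => D.map_update_add _ _ _ _
        map_smul' := fun c x => D.map_update_smul _ _ _ _ }
    exact L.continuous_of_finiteDimensional
  have h2 : ∑ κ : Fin m → Fin n, ∑ ε, ∫ s, om δ p (T u κ ε s) *
        Lf D (u ∘ κ) (T u κ ε s) ^ 2 ∂cube m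
      = ∑ ι : Fin (m+1) → Fin n, (D (u ∘ ι) ^ 2 * ∑ ε, ∫ s, om δ p (T u ι ε s) ∂cube (m+1)
          - 2 * p * R ι 0) := by
    simp_rw [h1]
    rw [← Fintype.sum_prod_type', ← Fintype.sum_equiv (Equiv.prodComm _ _) (fun x : Fin n × (Fin m → Fin n) => _) _ (fun x => rfl)]
    refine Fintype.sum_equiv (Fin.consEquiv (fun _ => Fin n)) _ _ fun x => ?_
    obtain ⟨i, κ⟩ := x
    have hce : (Fin.consEquiv fun _ : Fin (m+1) => Fin n) (i, κ) = (Fin.cons i κ : Fin (m+1) → Fin n) := rfl
    rw [hce]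
    simp only [Equiv.prodComm_apply, Prod.swap_prod_mk]
    have hDi : Lf D (u ∘ κ) (u i) = D (u ∘ (Fin.cons i κ : Fin (m+1) → Fin n)) := by
      rw [Lf_apply]
      congr 1
      ext j
      refine Fin.cases ?_ (fun k => ?_) j <;> simp
    have hDT : ∀ x, Lf D (u ∘ κ) x
        = D (Function.update (u ∘ (Fin.cons i κ : Fin (m+1) → Fin n)) 0 x) := by
      intro x
      rw [Lf_apply]
      congr 1
      ext j
      refine Fin.cases ?_ (fun k => ?_) j
      · simp
      · simp
    set ι : Fin (m+1) → Fin n := Fin.cons i κ with hι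
    have hι0 : ι 0 = i := by simp [hι]
    simp_rw [hDi, hDT, hR, hι0]
    rw [Finset.mul_sum, Finset.mul_sum, Finset.mul_sum, ← Finset.sum_sub_distrib]
    refine Finset.sum_congr rfl fun ε _ => ?_
    have hTc := T_continuous u ι ε
    have hDc0 := (hDc ι 0).comp hTc
    have hI1 : Integrable (fun s => om δ p (T u ι ε s) * D (u ∘ ι)) (cube (m+1)) :=
      integrable_cube (by fun_prop)
    have hI2 : Integrable (fun s => 2 * p * (om δ (p + 1) (T u ι ε s) * inner ℝ (T u ι ε s) (u i) *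
        D (Function.update (u ∘ ι) 0 (T u ι ε s)))) (cube (m+1)) := integrable_cube
      (continuous_const.mul (((hcp1.comp hTc).mul (hTc.inner continuous_const)).mul hDc0))
    rw [integral_sub hI1 hI2,
      integral_mul_const, integral_const_mul, integral_mul_const]
    ring
  -- Step 3: symmetrise
  have h3 : ∀ j, ∑ ι : Fin (m+1) → Fin n, R ι 0 = ∑ ι : Fin (m+1) → Fin n, R ι j := by
    intro j
    let σ : Equiv.Perm (Fin (m+1)) := Equiv.swap 0 j
    symm
    refine Fintype.sum_equiv (Equiv.arrowCongr σ (Equiv.refl _)) _ _ fun ι => ?_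
    have hσι : (Equiv.arrowCongr σ (Equiv.refl (Fin n))) ι = ι ∘ σ := by
      ext k
      simp [σ, Equiv.arrowCongr]
    rw [hσι]
    simp only [hR]
    refine Finset.sum_congr rfl fun ε _ => ?_
    rw [← integral_cube_perm σ (fun s => om δ (p + 1) (T u (ι ∘ σ) ε s) *
      inner ℝ (T u (ι ∘ σ) ε s) (u ((ι ∘ σ) 0)) *
      D (Function.update (u ∘ (ι ∘ σ)) 0 (T u (ι ∘ σ) ε s)) * D (u ∘ (ι ∘ σ)))]
    congr 1
    funext s
    rw [T_perm]
    have e1 : (ι ∘ σ) 0 = ι j := by simp [σ]
    have e2 : Function.update (u ∘ (ι ∘ σ)) 0 (T u ι ε s)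
        = (Function.update (u ∘ ι) j (T u ι ε s)) ∘ σ := by
      ext k
      by_cases hk : k = 0
      · subst hk; simp [σ]
      · have hk' : σ k ≠ j := by
          intro h
          apply hk
          have : σ k = σ 0 := by simp [h, σ]
          exact σ.injective this
        simp [Function.update_of_ne hk, Function.update_of_ne hk']
    have e3 : u ∘ (ι ∘ σ) = (u ∘ ι) ∘ σ := rfl
    rw [e1, e2, e3, D.map_perm, D.map_perm]
    rcases Int.units_eq_one_or (Equiv.Perm.sign σ) with h | h <;> rw [h] <;> simp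
  -- Step 4: trace formula
  have h4 : ∀ ι : Fin (m+1) → Fin n, ∑ j, R ι j =
      D (u ∘ ι) ^ 2 * ∑ ε, ∫ s, om δ (p+1) (T u ι ε s) * ‖T u ι ε s‖ ^ 2 ∂cube (m+1) := by
    intro ι
    by_cases hD : D (u ∘ ι) = 0
    · simp [hR, hD]
    · simp only [hR]
      rw [Finset.sum_comm, Finset.mul_sum]
      refine Finset.sum_congr rfl fun ε _ => ?_
      have hTc := T_continuous u ι ε
      have hDcj := fun j => hDc ι j
      rw [← integral_finsetSum _ (fun j _ => integrable_cube (by
        exact (((hcp1.comp hTc).mul (hTc.inner continuous_const)).mul ((hDcj j).comp hTc)).mul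
          continuous_const)), ← integral_const_mul]
      congr 1
      funext s
      have := trace_rank_one hF D (u ∘ ι) hD (T u ι ε s)
      calc ∑ j, om δ (p + 1) (T u ι ε s) * inner ℝ (T u ι ε s) (u (ι j)) *
              D (Function.update (u ∘ ι) j (T u ι ε s)) * D (u ∘ ι)
          = om δ (p + 1) (T u ι ε s) * D (u ∘ ι) * ∑ j, inner ℝ (T u ι ε s) ((u ∘ ι) j) *
              D (Function.update (u ∘ ι) j (T u ι ε s)) := by
            rw [Finset.mul_sum]
            refine Finset.sum_congr rfl fun j _ => ?_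
            simp only [Function.comp]
            ring
        _ = _ := by rw [this]; ring
  -- conclusion
  have h5 : ∑ ι : Fin (m+1) → Fin n, ((m:ℝ)+1) * R ι 0 = ∑ ι : Fin (m+1) → Fin n, ∑ j, R ι j := by
    rw [← Finset.mul_sum]
    have h6 : ∑ ι : Fin (m+1) → Fin n, ∑ j, R ι j = ∑ j : Fin (m+1), ∑ ι : Fin (m+1) → Fin n, R ι 0 := by
      rw [Finset.sum_comm]
      exact Finset.sum_congr rfl (fun j _ => (h3 j).symm)
    rw [h6]
    simp
  have h2p : 2 * p = (m:ℝ) + 1 := by rw [hp]; ring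
  rw [h2, Finset.sum_sub_distrib, h2p, h5, ← Finset.sum_sub_distrib]
  refine Finset.sum_congr rfl fun ι _ => ?_
  rw [h4, ← mul_sub, ← Finset.sum_sub_distrib]
  congr 1
  refine Finset.sum_congr rfl fun ε _ => ?_
  have hTc := T_continuous u ι ε
  rw [← integral_sub (integrable_cube (by fun_prop)) (integrable_cube (by fun_prop))]
  congr 1
  funext s
  simp only [om]
  have hpos : 0 < ‖T u ι ε s‖ ^ 2 + δ := by positivity
  have : (‖T u ι ε s‖ ^ 2 + δ) ^ (-p) = (‖T u ι ε s‖ ^ 2 + δ) ^ (-(p+1)) * (‖T u ι ε s‖ ^ 2 + δ) := by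
    conv_rhs => rw [← Real.rpow_add_one hpos.ne']
    congr 1
    ring
  rw [this]
  ring

end MP087bf0
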