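import Mathlib
import Pool.Agent.Lib.MP_087bf0_co.Ident
open MeasureTheory Set
open scoped ENNReal Real

namespace MP087bf0

variable {F : Type*} [NormedAddCommGroup F] [InnerProductSpace ℝ F]

/-- Parseval frame -/
def IsParseval {ι : Type*} [Fintype ι] (u : ι → F) : Prop :=
  ∀ x : F, ∑ i, inner ℝ (u i) x ^ 2 = ‖x‖ ^ 2

lemma parseval_basis {ι : Type*} [Fintype ι] (b : OrthonormalBasis ι ℝ F) : IsParseval (⇑b) :=
  fun x => b.sum_sq_inner_right x

lemma parseval_linear [FiniteDimensional ℝ F] {ι ι' : Type*} [Fintype ι] [Fintype ι']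
    {u : ι → F} {e : ι' → F} (hu : IsParseval u) (he : IsParseval e) (L : F →ₗ[ℝ] ℝ) :
    ∑ i, L (u i) ^ 2 = ∑ j, L (e j) ^ 2 := by
  have : CompleteSpace F := FiniteDimensional.complete ℝ F
  let g : F := (InnerProductSpace.toDual ℝ F).symm (LinearMap.toContinuousLinearMap L)
  have hg : ∀ x, L x = inner ℝ x g := by
    intro x
    have := InnerProductSpace.toDual_symm_apply (x := x) (y := LinearMap.toContinuousLinearMap L)
    rw [real_inner_comm]
    exact this.symm
  simp_rw [hg, hu g, he g]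

lemma parseval_multilinear [FiniteDimensional ℝ F] {ι ι' : Type*} [Fintype ι] [Fintype ι']
    {u : ι → F} {e : ι' → F} (hu : IsParseval u) (he : IsParseval e) :
    ∀ (m : ℕ) (M : MultilinearMap ℝ (fun _ : Fin m => F) ℝ),
      ∑ κ : Fin m → ι, M (u ∘ κ) ^ 2 = ∑ l : Fin m → ι', M (e ∘ l) ^ 2
  | 0, M => by
      have h1 : ∀ κ : Fin 0 → ι, u ∘ κ = (fun i => i.elim0) := fun κ => by
        ext i; exact i.elim0
      have h2 : ∀ κ : Fin 0 → ι', e ∘ κ = (fun i => i.elim0) := fun κ => by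
        ext i; exact i.elim0
      simp [h1, h2]
  | m + 1, M => by
      have key : ∀ {α : Type _} [Fintype α] (w : α → F), ∑ κ : Fin (m+1) → α, M (w ∘ κ) ^ 2
          = ∑ i, ∑ κ : Fin m → α, (M.curryLeft (w i) (w ∘ κ)) ^ 2 := by
        intro α _ w
        rw [← Fintype.sum_prod_type']
        symm
        refine Fintype.sum_equiv (Fin.consEquiv (fun _ => α)) _ _ fun x => ?_
        obtain ⟨i, κ⟩ := x
        have : M.curryLeft (w i) (w ∘ κ) = M (w ∘ (Fin.consEquiv fun _ : Fin (m+1) => α) (i, κ)) := by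
          rw [MultilinearMap.curryLeft_apply]
          congr 1
          ext j
          refine Fin.cases ?_ (fun k => ?_) j <;> simp [Fin.consEquiv]
        rw [← this]
      have key2 : ∀ {α : Type _} [Fintype α] (w : α → F), ∑ κ : Fin (m+1) → α, M (w ∘ κ) ^ 2
          = ∑ i, ∑ κ : Fin m → α, (M.curryLeft (w i) (w ∘ κ)) ^ 2 := by
        intro α _ w
        rw [← Fintype.sum_prod_type']
        symm
        refine Fintype.sum_equiv (Fin.consEquiv (fun _ => α)) _ _ fun x => ?_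
        obtain ⟨i, κ⟩ := x
        have : M.curryLeft (w i) (w ∘ κ) = M (w ∘ (Fin.consEquiv fun _ : Fin (m+1) => α) (i, κ)) := by
          rw [MultilinearMap.curryLeft_apply]
          congr 1
          ext j
          refine Fin.cases ?_ (fun k => ?_) j <;> simp [Fin.consEquiv]
        rw [← this]
      rw [key u, key2 e]
      have h1 : ∀ i, ∑ κ : Fin m → ι, (M.curryLeft (u i) (u ∘ κ)) ^ 2
          = ∑ l : Fin m → ι', (M.curryLeft (u i) (e ∘ l)) ^ 2 :=
        fun i => parseval_multilinear hu he m (M.curryLeft (u i))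
      simp_rw [h1]
      rw [Finset.sum_comm, Finset.sum_comm (s := (Finset.univ : Finset ι'))]
      refine Finset.sum_congr rfl fun l _ => ?_
      let L : F →ₗ[ℝ] ℝ :=
        { toFun := fun x => M.curryLeft x (e ∘ l)
          map_add' := fun x y => by simp
          map_smul' := fun c x => by simp }
      exact parseval_linear hu he L

lemma sum_det_basis {m : ℕ} (b : OrthonormalBasis (Fin m) ℝ F) :
    ∑ l : Fin m → Fin m, b.toBasis.det (b ∘ l) ^ 2 = (m.factorial : ℝ) := by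
  classical
  let emb : Equiv.Perm (Fin m) ↪ (Fin m → Fin m) := ⟨fun σ => ⇑σ, DFunLike.coe_injective⟩
  have h1 : ∑ l : Fin m → Fin m, b.toBasis.det (b ∘ l) ^ 2
      = ∑ l ∈ (Finset.univ : Finset (Equiv.Perm (Fin m))).map emb, b.toBasis.det (b ∘ l) ^ 2 := by
    symm
    refine Finset.sum_subset (Finset.subset_univ _) fun l _ hl => ?_
    have hni : ¬ Function.Injective l := by
      intro hinj
      apply hl
      rw [Finset.mem_map]
      exact ⟨Equiv.ofBijective l (Finite.injective_iff_bijective.1 hinj), Finset.mem_univ _, rfl⟩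
    rw [AlternatingMap.map_eq_zero_of_not_injective]
    · simp
    · intro h; exact hni h.of_comp
  rw [h1, Finset.sum_map]
  have h2 : ∀ σ : Equiv.Perm (Fin m), b.toBasis.det (b ∘ σ) ^ 2 = 1 := by
    intro σ
    rw [AlternatingMap.map_perm]
    have : b.toBasis.det ⇑b = 1 := by
      have := b.toBasis.det_self
      simpa using this
    rw [this]
    rcases Int.units_eq_one_or (Equiv.Perm.sign σ) with h | h <;> rw [h] <;> simp
  have h3 : ∀ σ : Equiv.Perm (Fin m), b.toBasis.det (b ∘ (emb σ)) ^ 2 = 1 := h2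
  simp_rw [h3]
  simp [Fintype.card_perm]

lemma sum_det_parseval {m n : ℕ} (b : OrthonormalBasis (Fin m) ℝ F) {u : Fin n → F}
    (hu : IsParseval u) : ∑ ι : Fin m → Fin n, b.toBasis.det (u ∘ ι) ^ 2 = (m.factorial : ℝ) := by
  have : FiniteDimensional ℝ F := b.toBasis.finiteDimensional_of_finite
  rw [← sum_det_basis b]
  exact parseval_multilinear hu (parseval_basis b) m b.toBasis.det.toMultilinearMap

lemma sum_norm_sq_parseval {m n : ℕ} (b : OrthonormalBasis (Fin m) ℝ F) {u : Fin n → F}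
    (hu : IsParseval u) : ∑ i, ‖u i‖ ^ 2 = m := by
  have h1 : ∀ i, ‖u i‖ ^ 2 = ∑ j, inner ℝ (u i) (b j) ^ 2 := by
    intro i
    rw [← parseval_basis b (u i)]
    refine Finset.sum_congr rfl fun j _ => ?_
    rw [real_inner_comm]
  simp_rw [h1]
  rw [Finset.sum_comm]
  simp_rw [hu _]
  simp

lemma norm_sum_le_parseval {n : ℕ} {u : Fin n → F} (hu : IsParseval u) (a : Fin n → ℝ) :
    ‖∑ i, a i • u i‖ ^ 2 ≤ ∑ i, a i ^ 2 := by
  set z := ∑ i, a i • u i with hz
  have h1 : ‖z‖ ^ 2 = ∑ i, a i * inner ℝ (u i) z := by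
    rw [← real_inner_self_eq_norm_sq]
    conv_lhs => arg 2; rw [hz]
    rw [sum_inner]
    refine Finset.sum_congr rfl fun i _ => ?_
    rw [inner_smul_left]; simp
  have h2 := Finset.sum_mul_sq_le_sq_mul_sq Finset.univ a (fun i => inner ℝ (u i) z)
  rw [← h1, hu z] at h2
  by_cases h0 : ‖z‖ ^ 2 = 0
  · rw [h0]; positivity
  · have hpos : 0 < ‖z‖ ^ 2 := lt_of_le_of_ne (by positivity) (Ne.symm h0)
    have : ‖z‖ ^ 2 * ‖z‖ ^ 2 ≤ (∑ i, a i ^ 2) * ‖z‖ ^ 2 := by nlinarith
    exact le_of_mul_le_mul_right this hpos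

lemma sum_signs_succ {n : ℕ} (f : (Fin (n+1) → Bool) → ℝ) :
    ∑ ε, f ε = ∑ ε : Fin n → Bool, (f (Fin.cons true ε) + f (Fin.cons false ε)) := by
  rw [Finset.sum_add_distrib, ← Fintype.sum_bool (fun b => ∑ ε : Fin n → Bool, f (Fin.cons b ε)),
    ← Fintype.sum_prod_type']
  symm
  exact Fintype.sum_equiv (Fin.consEquiv (fun _ => Bool)) _ _ fun x => rfl

lemma rademacher_two : ∀ (n : ℕ) (a : Fin n → ℝ) (b : ℝ),
    ∑ ε : Fin n → Bool, (b + ∑ i, sgn (ε i) * a i) ^ 2 = 2 ^ n * (b ^ 2 + ∑ i, a i ^ 2)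
  | 0, a, b => by simp
  | n + 1, a, b => by
      rw [sum_signs_succ, Finset.sum_add_distrib]
      have h1 : ∀ ε : Fin n → Bool,
          b + ∑ i, sgn ((Fin.cons true ε : Fin (n+1) → Bool) i) * a i
            = (b + a 0) + ∑ i, sgn (ε i) * a i.succ := by
        intro ε; rw [Fin.sum_univ_succ]; simp [sgn_true]; ring
      have h2 : ∀ ε : Fin n → Bool,
          b + ∑ i, sgn ((Fin.cons false ε : Fin (n+1) → Bool) i) * a i
            = (b - a 0) + ∑ i, sgn (ε i) * a i.succ := by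
        intro ε; rw [Fin.sum_univ_succ]; simp [sgn_false]; ring
      simp_rw [h1, h2]
      rw [rademacher_two n (fun i => a i.succ), rademacher_two n (fun i => a i.succ),
        Fin.sum_univ_succ (fun i => a i ^ 2)]
      ring

lemma rademacher_four : ∀ (n : ℕ) (a : Fin n → ℝ) (x : Fin n → F) (b : ℝ) (y : F),
    ∑ ε : Fin n → Bool, (b + ∑ i, sgn (ε i) * a i) ^ 2 * ‖y + ∑ i, sgn (ε i) • x i‖ ^ 2
      = 2 ^ n * (b ^ 2 * ‖y‖ ^ 2 + b ^ 2 * ∑ i, ‖x i‖ ^ 2 + (∑ i, a i ^ 2) * ‖y‖ ^ 2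
        + 4 * b * inner ℝ y (∑ i, a i • x i) + (∑ i, a i ^ 2) * ∑ i, ‖x i‖ ^ 2
        + 2 * ‖∑ i, a i • x i‖ ^ 2 - 2 * ∑ i, a i ^ 2 * ‖x i‖ ^ 2)
  | 0, a, x, b, y => by simp
  | n + 1, a, x, b, y => by
      rw [sum_signs_succ, Finset.sum_add_distrib]
      have h1 : ∀ ε : Fin n → Bool,
          b + ∑ i, sgn ((Fin.cons true ε : Fin (n+1) → Bool) i) * a i
            = (b + a 0) + ∑ i, sgn (ε i) * a i.succ := by
        intro ε; rw [Fin.sum_univ_succ]; simp [sgn_true]; ring
      have h2 : ∀ ε : Fin n → Bool,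
          b + ∑ i, sgn ((Fin.cons false ε : Fin (n+1) → Bool) i) * a i
            = (b - a 0) + ∑ i, sgn (ε i) * a i.succ := by
        intro ε; rw [Fin.sum_univ_succ]; simp [sgn_false]; ring
      have h3 : ∀ ε : Fin n → Bool,
          y + ∑ i, sgn ((Fin.cons true ε : Fin (n+1) → Bool) i) • x i
            = (y + x 0) + ∑ i, sgn (ε i) • x i.succ := by
        intro ε; rw [Fin.sum_univ_succ]; simp [sgn_true]; abel
      have h4 : ∀ ε : Fin n → Bool,
          y + ∑ i, sgn ((Fin.cons false ε : Fin (n+1) → Bool) i) • x i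
            = (y - x 0) + ∑ i, sgn (ε i) • x i.succ := by
        intro ε; rw [Fin.sum_univ_succ]; simp [sgn_false]; abel
      simp_rw [h1, h2, h3, h4]
      rw [rademacher_four n (fun i => a i.succ) (fun i => x i.succ),
        rademacher_four n (fun i => a i.succ) (fun i => x i.succ),
        Fin.sum_univ_succ (fun i => a i ^ 2), Fin.sum_univ_succ (fun i => ‖x i‖ ^ 2),
        Fin.sum_univ_succ (fun i => a i • x i), Fin.sum_univ_succ (fun i => a i ^ 2 * ‖x i‖ ^ 2)]
      set z := ∑ i : Fin n, a i.succ • x i.succ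
      rw [norm_add_sq_real, norm_sub_sq_real, norm_add_sq_real (a 0 • x 0) z, inner_add_left,
        inner_sub_left, inner_add_right, inner_smul_left, inner_smul_right, norm_smul, mul_pow,
        Real.norm_eq_abs, sq_abs]
      simp only [conj_trivial]
      ring

end MP087bf0
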