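import Mathlib
import Pool.Agent.Lib.MP_087bf0_co.Signs
import Pool.Agent.Lib.MP_087bf0_co.Frame
open Set Filter Topology
open scoped Real

namespace MP087bf0

/-- expectation under a product of laws on `Bool` -/
noncomputable def EB {m : ℕ} (q : Fin m → Bool → ℝ) (F : (Fin m → Bool) → ℝ) : ℝ :=
  ∑ ε, (∏ i, q i (ε i)) * F ε

lemma EB_succ {m : ℕ} (q : Fin (m+1) → Bool → ℝ) (F : (Fin (m+1) → Bool) → ℝ) :
    EB q F = q 0 true * EB (fun i => q i.succ) (fun ε => F (Fin.cons true ε))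
      + q 0 false * EB (fun i => q i.succ) (fun ε => F (Fin.cons false ε)) := by
  unfold EB
  rw [sum_signs_succ, Finset.sum_add_distrib, Finset.mul_sum, Finset.mul_sum]
  congr 1
  · refine Finset.sum_congr rfl fun ε _ => ?_
    rw [Fin.prod_univ_succ]; simp only [Fin.cons_zero, Fin.cons_succ]; ring
  · refine Finset.sum_congr rfl fun ε _ => ?_
    rw [Fin.prod_univ_succ]; simp only [Fin.cons_zero, Fin.cons_succ]; ring

lemma EB_add {m : ℕ} (q : Fin m → Bool → ℝ) (F G : (Fin m → Bool) → ℝ) :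
    EB q (fun s => F s + G s) = EB q F + EB q G := by
  unfold EB; rw [← Finset.sum_add_distrib]
  refine Finset.sum_congr rfl fun s _ => ?_
  ring

lemma EB_mul {m : ℕ} (q : Fin m → Bool → ℝ) (c : ℝ) (F : (Fin m → Bool) → ℝ) :
    EB q (fun s => c * F s) = c * EB q F := by
  unfold EB; rw [Finset.mul_sum]
  refine Finset.sum_congr rfl fun s _ => ?_
  ring

lemma EB_mono {m : ℕ} {q : Fin m → Bool → ℝ} (hq : ∀ i a, 0 ≤ q i a) {F G : (Fin m → Bool) → ℝ}
    (h : ∀ s, F s ≤ G s) : EB q F ≤ EB q G := by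
  unfold EB
  exact Finset.sum_le_sum fun s _ => mul_le_mul_of_nonneg_left (h s)
    (Finset.prod_nonneg fun i _ => hq i _)

lemma EB_nonneg {m : ℕ} {q : Fin m → Bool → ℝ} (hq : ∀ i a, 0 ≤ q i a) {F : (Fin m → Bool) → ℝ}
    (h : ∀ s, 0 ≤ F s) : 0 ≤ EB q F := by
  unfold EB
  exact Finset.sum_nonneg fun s _ => mul_nonneg (Finset.prod_nonneg fun i _ => hq i _) (h s)

lemma EB_const {m : ℕ} {q : Fin m → Bool → ℝ} (hq1 : ∀ i, q i true + q i false = 1) (c : ℝ) :
    EB q (fun _ => c) = c := by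
  induction m with
  | zero => simp [EB]
  | succ m ih =>
    rw [EB_succ]
    rw [ih (fun i => hq1 i.succ), ← add_mul, hq1 0, one_mul]

lemma EB_cs {m : ℕ} {q : Fin m → Bool → ℝ} (hq : ∀ i a, 0 ≤ q i a) (F G : (Fin m → Bool) → ℝ) :
    (EB q (fun s => F s * G s)) ^ 2 ≤ EB q (fun s => F s ^ 2) * EB q (fun s => G s ^ 2) := by
  have h := Finset.sum_mul_sq_le_sq_mul_sq Finset.univ
    (fun s : Fin m → Bool => √(∏ i, q i (s i)) * F s) (fun s => √(∏ i, q i (s i)) * G s)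
  have hp : ∀ s : Fin m → Bool, 0 ≤ ∏ i, q i (s i) := fun s => Finset.prod_nonneg fun i _ => hq i _
  have e1 : EB q (fun s => F s * G s)
      = ∑ s : Fin m → Bool, √(∏ i, q i (s i)) * F s * (√(∏ i, q i (s i)) * G s) := by
    unfold EB
    refine Finset.sum_congr rfl fun s _ => ?_
    have := Real.mul_self_sqrt (hp s)
    calc (∏ i, q i (s i)) * (F s * G s) = (√(∏ i, q i (s i)) * √(∏ i, q i (s i))) * (F s * G s) := by
          rw [this]
      _ = _ := by ring
  have e2 : ∀ H : (Fin m → Bool) → ℝ, EB q (fun s => H s ^ 2)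
      = ∑ s : Fin m → Bool, (√(∏ i, q i (s i)) * H s) ^ 2 := by
    intro H
    unfold EB
    refine Finset.sum_congr rfl fun s _ => ?_
    rw [mul_pow, Real.sq_sqrt (hp s)]
  rw [e1, e2, e2]
  exact h

/-- polynomials of degree at most `k` in the variables `ζ i (ε i)` -/
def IsPoly : {m : ℕ} → ℕ → (Fin m → Bool → ℝ) → ((Fin m → Bool) → ℝ) → Prop
  | 0, _, _, _ => True
  | _ + 1, 0, ζ, f => ∃ h, IsPoly 0 (fun i => ζ i.succ) h ∧ ∀ b ε, f (Fin.cons b ε) = h ε
  | _ + 1, k + 1, ζ, f => ∃ g h, IsPoly k (fun i => ζ i.succ) g ∧ IsPoly (k + 1) (fun i => ζ i.succ) h ∧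
      ∀ b ε, f (Fin.cons b ε) = h ε + ζ 0 b * g ε

lemma isPoly_const {m : ℕ} (ζ : Fin m → Bool → ℝ) (c : ℝ) : IsPoly 0 ζ (fun _ => c) := by
  induction m with
  | zero => simp [IsPoly]
  | succ m ih =>
    rw [IsPoly]
    exact ⟨fun _ => c, ih _, fun _ _ => rfl⟩

lemma isPoly_lin {m : ℕ} (ζ : Fin m → Bool → ℝ) (a : Fin m → ℝ) (c : ℝ) :
    IsPoly 1 ζ (fun ε => c + ∑ i, ζ i (ε i) * a i) := by
  induction m with
  | zero => simp [IsPoly]
  | succ m ih =>
    rw [IsPoly]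
    refine ⟨fun _ => a 0, fun ε => c + ∑ i, ζ i.succ (ε i) * a i.succ, isPoly_const _ _, ih _ _, ?_⟩
    intro b ε
    rw [Fin.sum_univ_succ]
    simp only [Fin.cons_zero, Fin.cons_succ]
    ring

variable {E : Type*} [NormedAddCommGroup E] [InnerProductSpace ℝ E]

lemma isPoly_quad {m : ℕ} (ζ : Fin m → Bool → ℝ) (v τ : Fin m → ℝ)
    (hζ : ∀ i b, ζ i b ^ 2 = v i + τ i * ζ i b) (w : Fin m → E) (y : E) (c : ℝ) :
    IsPoly 2 ζ (fun ε => c + ‖y + ∑ i, ζ i (ε i) • w i‖ ^ 2) := by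
  induction m generalizing c with
  | zero => simp [IsPoly]
  | succ m ih =>
    rw [IsPoly]
    refine ⟨fun ε => (2 * inner ℝ (w 0) y + τ 0 * ‖w 0‖ ^ 2) +
        ∑ i, ζ i.succ (ε i) * (2 * inner ℝ (w 0) (w i.succ)),
      fun ε => (c + v 0 * ‖w 0‖ ^ 2) + ‖y + ∑ i, ζ i.succ (ε i) • w i.succ‖ ^ 2,
      isPoly_lin _ _ _, ih (fun i => ζ i.succ) (fun i => v i.succ) (fun i => τ i.succ)
        (fun i b => hζ _ _) (fun i => w i.succ) _, ?_⟩
    intro b ε
    rw [Fin.sum_univ_succ]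
    simp only [Fin.cons_zero, Fin.cons_succ]
    set z := ∑ i : Fin m, ζ i.succ (ε i) • w i.succ with hz
    have h1 : y + (ζ 0 b • w 0 + z) = ζ 0 b • w 0 + (y + z) := by abel
    rw [h1, norm_add_sq_real, norm_smul, mul_pow, inner_smul_left, Real.norm_eq_abs, sq_abs, hζ]
    have h2 : ∑ i : Fin m, ζ i.succ (ε i) * (2 * inner ℝ (w 0) (w i.succ)) = 2 * inner ℝ (w 0) z := by
      rw [hz, inner_sum, Finset.mul_sum]
      refine Finset.sum_congr rfl fun i _ => ?_
      rw [inner_smul_right]; ring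
    rw [h2, inner_add_right]
    simp only [conj_trivial]
    ring

/-- moment conditions for the one-dimensional laws -/
structure MomentOK (q ζ : Bool → ℝ) : Prop where
  nonneg : ∀ b, 0 ≤ q b
  one : q true + q false = 1
  mean : q true * ζ true + q false * ζ false = 0
  third : |q true * ζ true ^ 3 + q false * ζ false ^ 3| ≤ q true * ζ true ^ 2 + q false * ζ false ^ 2
  fourth : q true * ζ true ^ 4 + q false * ζ false ^ 4 ≤
    7 / 4 * (q true * ζ true ^ 2 + q false * ζ false ^ 2)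
  vbd : 15 / 4 * (q true * ζ true ^ 2 + q false * ζ false ^ 2) ≤
    16 * (q true * ζ true ^ 2 + q false * ζ false ^ 2) ^ 2

theorem hyper : ∀ {m : ℕ} (k : ℕ) {q ζ : Fin m → Bool → ℝ} (_ : ∀ i, MomentOK (q i) (ζ i))
    {f : (Fin m → Bool) → ℝ} (_ : IsPoly k ζ f),
    EB q (fun ε => f ε ^ 4) ≤ 16 ^ k * (EB q (fun ε => f ε ^ 2)) ^ 2
  | 0, k, q, ζ, hq, f, hf => by
      have h1 : (1:ℝ) ≤ 16 ^ k := one_le_pow₀ (by norm_num)
      simp only [EB, Finset.univ_unique, Finset.sum_singleton, Finset.univ_eq_empty, Finset.prod_empty,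
        one_mul]
      have h2 : ∀ z : ℝ, z ^ 4 ≤ 16 ^ k * (z ^ 2) ^ 2 := by
        intro z
        have h3 : 0 ≤ (z ^ 2) ^ 2 := by positivity
        nlinarith
      exact h2 _
  | m + 1, 0, q, ζ, hq, f, hf => by
      rw [IsPoly] at hf
      obtain ⟨h, hh, hfh⟩ := hf
      rw [EB_succ, EB_succ]
      simp_rw [hfh]
      rw [← add_mul, ← add_mul, (hq 0).one, one_mul, one_mul]
      exact hyper 0 (fun i => hq i.succ) hh
  | m + 1, k + 1, q, ζ, hq, f, hf => by
      rw [IsPoly] at hf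
      obtain ⟨g, h, hg, hh, hfh⟩ := hf
      have ihg := hyper k (fun i => hq i.succ) hg
      have ihh := hyper (k+1) (fun i => hq i.succ) hh
      rw [EB_succ, EB_succ]
      simp_rw [hfh]
      set q' : Fin m → Bool → ℝ := fun i => q i.succ
      have hq'0 : ∀ i a, 0 ≤ q' i a := fun i a => (hq i.succ).nonneg a
      set A := EB q' (fun ε => h ε ^ 2) with hA
      set B := EB q' (fun ε => g ε ^ 2) with hB
      set H4 := EB q' (fun ε => h ε ^ 4) with hH4
      set G4 := EB q' (fun ε => g ε ^ 4) with hG4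
      set H3G := EB q' (fun ε => h ε ^ 3 * g ε) with hH3G
      set HG := EB q' (fun ε => h ε * g ε) with hHG
      set H2G2 := EB q' (fun ε => h ε ^ 2 * g ε ^ 2) with hH2G2
      set HG3 := EB q' (fun ε => h ε * g ε ^ 3) with hHG3
      have e4 : ∀ z : ℝ, EB q' (fun ε => (h ε + z * g ε) ^ 4)
          = H4 + (4 * z) * H3G + (6 * z ^ 2) * H2G2 + (4 * z ^ 3) * HG3 + z ^ 4 * G4 := by
        intro z
        rw [hH4, hG4, hH3G, hH2G2, hHG3, ← EB_mul, ← EB_mul, ← EB_mul, ← EB_mul, ← EB_add, ← EB_add,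
          ← EB_add, ← EB_add]
        congr 1; ext ε; ring
      have e2 : ∀ z : ℝ, EB q' (fun ε => (h ε + z * g ε) ^ 2) = A + (2 * z) * HG + z ^ 2 * B := by
        intro z
        rw [hA, hB, hHG, ← EB_mul, ← EB_mul, ← EB_add, ← EB_add]
        congr 1; ext ε; ring
      rw [e4, e4, e2, e2]
      obtain ⟨c0, c1, c2, c3, c4, c5⟩ := hq 0
      set p := q 0 true
      set r := q 0 false
      set a := ζ 0 true
      set b := ζ 0 false
      set v := p * a ^ 2 + r * b ^ 2 with hv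
      have hA0 : 0 ≤ A := EB_nonneg hq'0 fun s => sq_nonneg _
      have hB0 : 0 ≤ B := EB_nonneg hq'0 fun s => sq_nonneg _
      have hG40 : 0 ≤ G4 := EB_nonneg hq'0 fun s => by positivity
      have hH2G20 : 0 ≤ H2G2 := EB_nonneg hq'0 fun s => by positivity
      have hv0 : 0 ≤ v := by
        have h1 := c0 true
        have h2 := c0 false
        rw [hv]; positivity
      have l4 : p * (H4 + (4 * a) * H3G + (6 * a ^ 2) * H2G2 + (4 * a ^ 3) * HG3 + a ^ 4 * G4)
          + r * (H4 + (4 * b) * H3G + (6 * b ^ 2) * H2G2 + (4 * b ^ 3) * HG3 + b ^ 4 * G4)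
          = H4 + 6 * v * H2G2 + 4 * (p * a ^ 3 + r * b ^ 3) * HG3 + (p * a ^ 4 + r * b ^ 4) * G4 := by
        have : p * (H4 + (4 * a) * H3G + (6 * a ^ 2) * H2G2 + (4 * a ^ 3) * HG3 + a ^ 4 * G4)
          + r * (H4 + (4 * b) * H3G + (6 * b ^ 2) * H2G2 + (4 * b ^ 3) * HG3 + b ^ 4 * G4)
          = (p + r) * H4 + 4 * (p * a + r * b) * H3G + 6 * (p * a ^ 2 + r * b ^ 2) * H2G2
            + 4 * (p * a ^ 3 + r * b ^ 3) * HG3 + (p * a ^ 4 + r * b ^ 4) * G4 := by ring
        rw [this, c1, c2, ← hv]; ring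
      have l2 : p * (A + (2 * a) * HG + a ^ 2 * B) + r * (A + (2 * b) * HG + b ^ 2 * B) = A + v * B := by
        have : p * (A + (2 * a) * HG + a ^ 2 * B) + r * (A + (2 * b) * HG + b ^ 2 * B)
          = (p + r) * A + 2 * (p * a + r * b) * HG + (p * a ^ 2 + r * b ^ 2) * B := by ring
        rw [this, c1, c2, ← hv]; ring
      rw [l4, l2]
      -- bounds
      have b1 : 4 * (p * a ^ 3 + r * b ^ 3) * HG3 ≤ 2 * v * (H2G2 + G4) := by
        have h1 : |HG3| ≤ (H2G2 + G4) / 2 := by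
          rw [abs_le]
          constructor
          · have : EB q' (fun ε => (-1/2) * (h ε ^ 2 * g ε ^ 2 + g ε ^ 4)) ≤ HG3 := by
              refine EB_mono hq'0 fun ε => ?_
              nlinarith [sq_nonneg (h ε * g ε + g ε ^ 2)]
            rw [EB_mul, EB_add] at this
            linarith
          · have : HG3 ≤ EB q' (fun ε => (1/2) * (h ε ^ 2 * g ε ^ 2 + g ε ^ 4)) := by
              refine EB_mono hq'0 fun ε => ?_
              nlinarith [sq_nonneg (h ε * g ε - g ε ^ 2)]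
            rw [EB_mul, EB_add] at this
            linarith
        have h2 : (p * a ^ 3 + r * b ^ 3) * HG3 ≤ |p * a ^ 3 + r * b ^ 3| * |HG3| := by
          rw [← abs_mul]; exact le_abs_self _
        have h3 : |p * a ^ 3 + r * b ^ 3| * |HG3| ≤ v * ((H2G2 + G4) / 2) :=
          mul_le_mul c3 h1 (abs_nonneg _) hv0
        linarith
      have b2 : (p * a ^ 4 + r * b ^ 4) * G4 ≤ 7 / 4 * v * G4 := mul_le_mul_of_nonneg_right c4 hG40
      have b3 : H2G2 ≤ 4 * 16 ^ k * A * B := by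
        have h1 := EB_cs hq'0 (fun ε => h ε ^ 2) (fun ε => g ε ^ 2)
        have h2 : EB q' (fun s => (h s ^ 2) ^ 2) = H4 := by
          rw [hH4]; congr 1; ext s; ring
        have h3 : EB q' (fun s => (g s ^ 2) ^ 2) = G4 := by
          rw [hG4]; congr 1; ext s; ring
        rw [h2, h3] at h1
        have h4 : H4 * G4 ≤ (16 ^ (k+1) * A ^ 2) * (16 ^ k * B ^ 2) :=
          mul_le_mul ihh ihg hG40 (by positivity)
        have h5 : (16 ^ (k+1) * A ^ 2) * (16 ^ k * B ^ 2) = (4 * 16 ^ k * A * B) ^ 2 := by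
          rw [pow_succ]; ring
        rw [h5] at h4
        exact (pow_le_pow_iff_left₀ hH2G20 (by positivity) two_ne_zero).1 (h1.trans h4)
      have e5 : (16:ℝ) ^ (k + 1) = 16 * 16 ^ k := by rw [pow_succ]; ring
      rw [e5] at ihh ⊢
      set K := (16:ℝ) ^ k
      have hK : 0 < K := by positivity
      have b4 : 8 * v * H2G2 ≤ 8 * v * (4 * K * A * B) := mul_le_mul_of_nonneg_left b3 (by positivity)
      have b5 : 15 / 4 * v * G4 ≤ 15 / 4 * v * (K * B ^ 2) := mul_le_mul_of_nonneg_left ihg (by positivity)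
      have b6 : 15 / 4 * v * (K * B ^ 2) ≤ 16 * v ^ 2 * (K * B ^ 2) :=
        mul_le_mul_of_nonneg_right c5 (by positivity)
      calc H4 + 6 * v * H2G2 + 4 * (p * a ^ 3 + r * b ^ 3) * HG3 + (p * a ^ 4 + r * b ^ 4) * G4
          ≤ H4 + 8 * v * H2G2 + 15 / 4 * v * G4 := by linarith
        _ ≤ 16 * K * A ^ 2 + 8 * v * (4 * K * A * B) + 16 * v ^ 2 * (K * B ^ 2) := by linarith
        _ = 16 * K * (A + v * B) ^ 2 := by ring

lemma poly_ineq_pos {s : ℝ} (hs : 0 < s) : -4460 * s + 512 * s ^ 2 - s ^ 4 ≤ 0 := by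
  have h : 0 ≤ s ^ 3 - 512 * s + 4460 := by
    nlinarith [mul_nonneg (sq_nonneg (s - 13)) (show 0 ≤ s + 26 by linarith), sq_nonneg (s - 13),
      mul_nonneg hs.le (sq_nonneg (s - 13))]
  nlinarith

lemma poly_ineq_neg (s : ℝ) : -4460 * s + 512 * s ^ 2 - s ^ 4 ≤ 150000 := by
  nlinarith [sq_nonneg (s ^ 2 - 400), sq_nonneg (s + 20), sq_nonneg (s ^ 2 - 300)]

open Classical in
/-- anticoncentration for centred polynomials of degree two -/
lemma anticonc {m : ℕ} {q ζ : Fin m → Bool → ℝ} (hq : ∀ i, MomentOK (q i) (ζ i))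
    {f : (Fin m → Bool) → ℝ} (hf : IsPoly 2 ζ f) (hmean : EB q f = 0) :
    1 / 600 ≤ EB q (fun ε => if f ε ≤ 0 then 1 else 0) := by
  have hq0 : ∀ i a, 0 ≤ q i a := fun i a => (hq i).nonneg a
  have h4 := hyper 2 hq hf
  set σ2 := EB q (fun ε => f ε ^ 2) with hσ
  have hσ0 : 0 ≤ σ2 := EB_nonneg hq0 fun s => sq_nonneg _
  rcases eq_or_lt_of_le hσ0 with h | h
  · -- degenerate case
    have h1 : EB q (fun _ => (1:ℝ)) = 1 := EB_const (fun i => (hq i).one) 1
    have h2 : EB q (fun ε => if f ε ≤ 0 then (1:ℝ) else 0) = EB q (fun _ => (1:ℝ)) := by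
      unfold EB
      refine Finset.sum_congr rfl fun ε _ => ?_
      beta_reduce
      by_cases hε : f ε ≤ 0
      · rw [if_pos hε]
      · rw [if_neg hε]
        have h3 : (∏ i, q i (ε i)) * f ε ^ 2 = 0 := by
          have h4 : ∑ ε, (∏ i, q i (ε i)) * f ε ^ 2 = 0 := by rw [h]; rfl
          exact (Finset.sum_eq_zero_iff_of_nonneg (fun ε _ => mul_nonneg
            (Finset.prod_nonneg fun i _ => hq0 i _) (sq_nonneg _))).1 h4 ε (Finset.mem_univ _)
        have h5 : f ε ^ 2 ≠ 0 := by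
          push Not at hε
          positivity
        have h6 : (∏ i, q i (ε i)) = 0 := by
          rcases mul_eq_zero.1 h3 with h7 | h7
          · exact h7
          · exact absurd h7 h5
        rw [h6]; simp
    rw [h2, h1]; norm_num
  · set σ := √σ2 with hσd
    have hσp : 0 < σ := Real.sqrt_pos.2 h
    have hσσ : σ ^ 2 = σ2 := Real.sq_sqrt hσ0
    have h1 : EB q (fun ε => (1/150000) * (-4460 / σ * f ε + (512 / σ ^ 2 * f ε ^ 2 + -1 / σ ^ 4 * f ε ^ 4)))
        ≤ EB q (fun ε => if f ε ≤ 0 then 1 else 0) := by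
      refine EB_mono hq0 fun ε => ?_
      have e : -4460 / σ * f ε + (512 / σ ^ 2 * f ε ^ 2 + -1 / σ ^ 4 * f ε ^ 4)
          = -4460 * (f ε / σ) + 512 * (f ε / σ) ^ 2 - (f ε / σ) ^ 4 := by
        field_simp
        ring
      rw [e]
      split_ifs with hε
      · have := poly_ineq_neg (f ε / σ)
        linarith
      · push Not at hε
        have := poly_ineq_pos (div_pos hε hσp)
        linarith
    rw [EB_mul, EB_add, EB_add, EB_mul, EB_mul, EB_mul, hmean, ← hσ] at h1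
    refine le_trans ?_ h1
    have h2 : EB q (fun ε => f ε ^ 4) ≤ 256 * σ ^ 4 := by
      refine h4.trans (le_of_eq ?_)
      rw [← hσσ]; ring
    have h3 : -256 ≤ -1 / σ ^ 4 * EB q (fun ε => f ε ^ 4) := by
      have h5 : -1 / σ ^ 4 * EB q (fun ε => f ε ^ 4) = - (EB q (fun ε => f ε ^ 4) / σ ^ 4) := by ring
      rw [h5, neg_le_neg_iff, div_le_iff₀ (by positivity)]
      exact h2
    have h5 : 512 / σ ^ 2 * σ2 = 512 := by rw [hσσ]; field_simp
    rw [h5]
    linarith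

end MP087bf0
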