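import Mathlib
import Pool.Agent.Lib.MP_087bf0_co.Hyper
open Set Filter Topology
open scoped Real

namespace MP087bf0

variable {E : Type*} [NormedAddCommGroup E] [InnerProductSpace ℝ E]

/-- second moment of a centred vector sum -/
lemma EB_norm_sq : ∀ {m : ℕ} {q ζ : Fin m → Bool → ℝ} (_ : ∀ i, MomentOK (q i) (ζ i)) (w : Fin m → E)
    (_ : ∀ i, ‖w i‖ = 1) (y : E),
    EB q (fun ε => ‖y + ∑ i, ζ i (ε i) • w i‖ ^ 2)
      = ‖y‖ ^ 2 + ∑ i, (q i true * ζ i true ^ 2 + q i false * ζ i false ^ 2)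
  | 0, q, ζ, hq, w, hw, y => by simp [EB]
  | m + 1, q, ζ, hq, w, hw, y => by
      rw [EB_succ]
      have h1 : ∀ b, EB (fun i => q i.succ) (fun ε => ‖y + ∑ i, ζ i ((Fin.cons b ε : Fin (m+1) → Bool) i) • w i‖ ^ 2)
          = ‖y + ζ 0 b • w 0‖ ^ 2 + ∑ i : Fin m, (q i.succ true * ζ i.succ true ^ 2
            + q i.succ false * ζ i.succ false ^ 2) := by
        intro b
        rw [← EB_norm_sq (q := fun i => q i.succ) (ζ := fun i => ζ i.succ) (fun i => hq i.succ)
          (fun i => w i.succ) (fun i => hw _)]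
        congr 1; ext ε
        rw [Fin.sum_univ_succ]
        simp only [Fin.cons_zero, Fin.cons_succ]
        rw [add_assoc]
      rw [h1, h1, Fin.sum_univ_succ (fun i => q i true * ζ i true ^ 2 + q i false * ζ i false ^ 2)]
      have h2 : ∀ b, ‖y + ζ 0 b • w 0‖ ^ 2 = ‖y‖ ^ 2 + 2 * ζ 0 b * inner ℝ y (w 0) + ζ 0 b ^ 2 := by
        intro b
        rw [norm_add_sq_real, norm_smul, mul_pow, hw 0, inner_smul_right, Real.norm_eq_abs, sq_abs]
        ring
      rw [h2, h2]
      have c1 := (hq 0).one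
      have c2 := (hq 0).mean
      set S := ∑ i : Fin m, (q i.succ true * ζ i.succ true ^ 2 + q i.succ false * ζ i.succ false ^ 2)
      have : q 0 true * (‖y‖ ^ 2 + 2 * ζ 0 true * inner ℝ y (w 0) + ζ 0 true ^ 2 + S)
          + q 0 false * (‖y‖ ^ 2 + 2 * ζ 0 false * inner ℝ y (w 0) + ζ 0 false ^ 2 + S)
          = (q 0 true + q 0 false) * (‖y‖ ^ 2 + S) + 2 * inner ℝ y (w 0) * (q 0 true * ζ 0 true + q 0 false * ζ 0 false)
            + (q 0 true * ζ 0 true ^ 2 + q 0 false * ζ 0 false ^ 2) := by ring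
      rw [this, c1, c2]; ring

/-- rounding of the coordinates in `B`, with the exact gain -/
lemma rounding_big (B : ℝ → Prop) [DecidablePred B] : ∀ (m : ℕ) (w : Fin m → E) (_ : ∀ j, ‖w j‖ = 1)
    (x : Fin m → ℝ) (_ : ∀ j, |x j| ≤ 1) (y : E),
    ∃ β : Fin m → Bool, ‖y + ∑ j, (if B (x j) then sgn (β j) - x j else 0) • w j‖ ^ 2
      ≤ ‖y‖ ^ 2 + ∑ j, (if B (x j) then 1 - x j ^ 2 else 0)
  | 0, w, _, x, _, y => ⟨fun _ => true, by simp⟩
  | m + 1, w, hw, x, hx, y => by
      have key : ∃ b : Bool, ‖y + (if B (x 0) then sgn b - x 0 else 0) • w 0‖ ^ 2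
          ≤ ‖y‖ ^ 2 + (if B (x 0) then 1 - x 0 ^ 2 else 0) := by
        by_cases hB : B (x 0)
        · simp only [hB, if_true]
          by_contra hcon
          push Not at hcon
          have h1 := hcon true
          have h2 := hcon false
          rw [sgn_true, norm_add_sq_real, inner_smul_right, norm_smul, mul_pow, Real.norm_eq_abs,
            sq_abs, hw 0] at h1
          rw [sgn_false, norm_add_sq_real, inner_smul_right, norm_smul, mul_pow, Real.norm_eq_abs,
            sq_abs, hw 0] at h2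
          obtain ⟨hs1, hs2⟩ := abs_le.1 (hx 0)
          set s := x 0
          set i := inner ℝ y (w 0)
          have e1 : 1 - s ^ 2 < 2 * ((1 - s) * i) + (1 - s) ^ 2 := by linarith
          have e2 : 1 - s ^ 2 < 2 * ((-1 - s) * i) + (-1 - s) ^ 2 := by linarith
          rcases eq_or_lt_of_le hs1 with h | h
          · rw [← h] at e2; norm_num at e2
          · have e3 : (1 + s) * (1 - s ^ 2) < (1 + s) * (2 * ((1 - s) * i) + (1 - s) ^ 2) :=
              mul_lt_mul_of_pos_left e1 (by linarith)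
            have e4 : (1 - s) * (1 - s ^ 2) ≤ (1 - s) * (2 * ((-1 - s) * i) + (-1 - s) ^ 2) :=
              mul_le_mul_of_nonneg_left e2.le (by linarith)
            nlinarith
        · exact ⟨true, by simp [hB]⟩
      obtain ⟨b, hb⟩ := key
      obtain ⟨β, hβ⟩ := rounding_big B m (fun j => w j.succ) (fun j => hw _) (fun j => x j.succ)
        (fun j => hx _) (y + (if B (x 0) then sgn b - x 0 else 0) • w 0)
      refine ⟨Fin.cons b β, ?_⟩
      rw [Fin.sum_univ_succ, Fin.sum_univ_succ (fun j => if B (x j) then 1 - x j ^ 2 else 0)]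
      simp only [Fin.cons_zero, Fin.cons_succ]
      rw [← add_assoc]
      linarith

lemma sum_prod_bool {m : ℕ} (q : Fin m → Bool → ℝ) :
    ∑ ε : Fin m → Bool, (∏ i, q i (ε i)) ^ 2 = ∏ i, (q i true ^ 2 + q i false ^ 2) := by
  have h2 := (Finset.prod_univ_sum (fun _ : Fin m => (Finset.univ : Finset Bool))
    (fun i a => q i a ^ 2))
  rw [Fintype.piFinset_univ] at h2
  have h3 : ∀ i : Fin m, ∑ a, q i a ^ 2 = q i true ^ 2 + q i false ^ 2 := fun i => Fintype.sum_bool _
  simp_rw [h3] at h2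
  rw [h2]
  refine Finset.sum_congr rfl fun ε _ => ?_
  rw [Finset.prod_pow]

/-- constant of Lemma R -/
noncomputable def cR (U : ℝ) : ℝ := (1 / 600) ^ 2 * Real.exp (-(4 * U))

lemma cR_pos (U : ℝ) : 0 < cR U := by unfold cR; positivity

lemma cR_anti {U U' : ℝ} (h : U ≤ U') : cR U' ≤ cR U := by
  unfold cR
  exact mul_le_mul_of_nonneg_left (Real.exp_le_exp.2 (by linarith)) (by positivity)

open Classical in
/-- Lemma R -/
theorem lemmaR {m : ℕ} (w : Fin m → E) (hw : ∀ i, ‖w i‖ = 1) (x : Fin m → ℝ) (hx : ∀ i, |x i| ≤ 1) :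
    cR (∑ i, x i ^ 2) * 2 ^ m ≤ ((Finset.univ.filter (fun ε : Fin m → Bool =>
      ‖∑ i, (sgn (ε i) - x i) • w i‖ ^ 2 ≤ m - ∑ i, x i ^ 2)).card : ℝ) := by
  set U := ∑ i, x i ^ 2 with hU
  let B : ℝ → Prop := fun z => 1 / 2 < |z|
  obtain ⟨β, hβ⟩ := rounding_big B m w hw x hx 0
  set y0 : E := ∑ j, (if B (x j) then sgn (β j) - x j else 0) • w j with hy0
  rw [zero_add, norm_zero, zero_pow two_ne_zero, zero_add] at hβ
  set q : Fin m → Bool → ℝ := fun i b => if B (x i) then (if b = β i then 1 else 0)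
    else (1 + sgn b * x i) / 2 with hqd
  set ζ : Fin m → Bool → ℝ := fun i b => if B (x i) then 0 else sgn b - x i with hζd
  have hM : ∀ i, MomentOK (q i) (ζ i) := by
    intro i
    by_cases hB : B (x i)
    · have e1 : ζ i true = 0 := by simp [hζd, hB]
      have e2 : ζ i false = 0 := by simp [hζd, hB]
      refine ⟨?_, ?_, ?_, ?_, ?_, ?_⟩
      · intro b; simp only [hqd, hB, if_true]; split_ifs <;> norm_num
      · simp only [hqd, hB, if_true]
        cases β i <;> simp
      · rw [e1, e2]; simp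
      · rw [e1, e2]; simp
      · rw [e1, e2]; simp
      · rw [e1, e2]; simp
    · have hxs : |x i| ≤ 1 / 2 := not_lt.1 hB
      obtain ⟨h1, h2⟩ := abs_le.1 hxs
      have e1 : ζ i true = 1 - x i := by simp [hζd, hB, sgn_true]
      have e2 : ζ i false = -1 - x i := by simp [hζd, hB, sgn_false]
      have e3 : q i true = (1 + x i) / 2 := by simp [hqd, hB, sgn_true]
      have e4 : q i false = (1 - x i) / 2 := by simp [hqd, hB, sgn_false]; ring
      have hx2 : x i ^ 2 ≤ 1 / 4 := by nlinarith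
      have hv : q i true * ζ i true ^ 2 + q i false * ζ i false ^ 2 = 1 - x i ^ 2 := by
        rw [e1, e2, e3, e4]; ring
      refine ⟨?_, ?_, ?_, ?_, ?_, ?_⟩
      · intro b; cases b
        · rw [e4]; linarith
        · rw [e3]; linarith
      · rw [e3, e4]; ring
      · rw [e1, e2, e3, e4]; ring
      · rw [hv]
        have : q i true * ζ i true ^ 3 + q i false * ζ i false ^ 3 = -(2 * x i) * (1 - x i ^ 2) := by
          rw [e1, e2, e3, e4]; ring
        rw [this, abs_mul, abs_of_nonneg (show 0 ≤ 1 - x i ^ 2 by linarith), abs_neg, abs_mul]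
        have h3 : |(2:ℝ)| * |x i| ≤ 1 := by rw [abs_of_pos (by norm_num : (0:ℝ) < 2)]; linarith
        have h4 : 0 ≤ 1 - x i ^ 2 := by linarith
        nlinarith
      · rw [hv]
        have : q i true * ζ i true ^ 4 + q i false * ζ i false ^ 4 = (1 - x i ^ 2) * (1 + 3 * x i ^ 2) := by
          rw [e1, e2, e3, e4]; ring
        rw [this]
        have h4 : 0 ≤ 1 - x i ^ 2 := by linarith
        nlinarith
      · rw [hv]
        nlinarith
  have hq0 : ∀ i a, 0 ≤ q i a := fun i a => (hM i).nonneg a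
  -- the quadratic polynomial
  set V : ℝ := ∑ i, (q i true * ζ i true ^ 2 + q i false * ζ i false ^ 2) with hV
  set f : (Fin m → Bool) → ℝ := fun ε => -(‖y0‖ ^ 2 + V) + ‖y0 + ∑ i, ζ i (ε i) • w i‖ ^ 2 with hf
  have hfp : IsPoly 2 ζ f := by
    refine isPoly_quad ζ (fun i => if B (x i) then 0 else 1 - x i ^ 2)
      (fun i => if B (x i) then 0 else - (2 * x i)) ?_ w y0 _
    intro i b
    by_cases hB : B (x i)
    · simp [hζd, hB]
    · simp only [hζd, hB, if_false]
      have := sgn_sq b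
      nlinarith
  have hmean : EB q f = 0 := by
    have h1 := EB_add q (fun _ => -(‖y0‖ ^ 2 + V)) (fun ε => ‖y0 + ∑ i, ζ i (ε i) • w i‖ ^ 2)
    rw [EB_const (fun i => (hM i).one), EB_norm_sq hM w hw] at h1
    rw [hf, h1]; ring
  have hanti := anticonc hM hfp hmean
  -- good signs
  set G := Finset.univ.filter (fun ε : Fin m → Bool =>
      ‖∑ i, (sgn (ε i) - x i) • w i‖ ^ 2 ≤ m - U) with hG
  have hVval : ∑ j, (if B (x j) then 1 - x j ^ 2 else 0) + V = m - U := by
    rw [hV, ← Finset.sum_add_distrib, hU]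
    have : ∀ i, (if B (x i) then 1 - x i ^ 2 else 0) + (q i true * ζ i true ^ 2 + q i false * ζ i false ^ 2)
        = 1 - x i ^ 2 := by
      intro i
      by_cases hB : B (x i)
      · simp [hζd, hB]
      · simp only [hζd, hqd, hB, if_false, sgn_true, sgn_false]
        ring
    rw [Finset.sum_congr rfl fun i _ => this i, Finset.sum_sub_distrib]
    simp
  have hmu : 1 / 600 ≤ ∑ ε ∈ G, ∏ i, q i (ε i) := by
    refine hanti.trans ?_
    unfold EB
    rw [hG, Finset.sum_filter]
    refine Finset.sum_le_sum fun ε _ => ?_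
    beta_reduce
    by_cases hsupp : ∀ i, B (x i) → ε i = β i
    · have hprod0 : 0 ≤ ∏ i, q i (ε i) := Finset.prod_nonneg fun i _ => hq0 i _
      by_cases hfε : f ε ≤ 0
      · rw [if_pos hfε, mul_one, if_pos]
        have e1 : ∑ i, (sgn (ε i) - x i) • w i = y0 + ∑ i, ζ i (ε i) • w i := by
          rw [hy0, ← Finset.sum_add_distrib]
          refine Finset.sum_congr rfl fun i _ => ?_
          by_cases hB : B (x i)
          · simp [hζd, hB, hsupp i hB]
          · simp [hζd, hB]
        rw [e1]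
        simp only [hf] at hfε
        linarith
      · rw [if_neg hfε, mul_zero]
        split_ifs
        · exact hprod0
        · exact le_refl _
    · push Not at hsupp
      obtain ⟨i, hB, hi⟩ := hsupp
      have h0 : ∏ i, q i (ε i) = 0 := by
        refine Finset.prod_eq_zero (Finset.mem_univ i) ?_
        simp [hqd, hB, hi]
      rw [h0]; simp
  -- Cauchy-Schwarz
  have hcs := Finset.sum_mul_sq_le_sq_mul_sq G (fun ε => ∏ i, q i (ε i)) (fun _ => (1:ℝ))
  simp only [mul_one, one_pow, Finset.sum_const, nsmul_eq_mul] at hcs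
  have hsq : ∑ ε ∈ G, (∏ i, q i (ε i)) ^ 2 ≤ Real.exp (4 * U) / 2 ^ m := by
    refine (Finset.sum_le_univ_sum_of_nonneg fun ε => sq_nonneg _).trans ?_
    rw [sum_prod_bool]
    have h1 : ∀ i ∈ (Finset.univ : Finset (Fin m)), q i true ^ 2 + q i false ^ 2
        ≤ Real.exp (4 * x i ^ 2) / 2 := by
      intro i _
      by_cases hB : B (x i)
      · have e1 : q i true ^ 2 + q i false ^ 2 = 1 := by
          simp only [hqd, hB, if_true]
          cases β i <;> simp
        rw [e1, le_div_iff₀ (by norm_num)]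
        have h2 : (1:ℝ) / 4 < x i ^ 2 := by
          have h3 : (1:ℝ) / 2 < |x i| := hB
          rw [← sq_abs]; nlinarith
        have h3 := Real.add_one_le_exp (4 * x i ^ 2)
        linarith
      · have e1 : q i true ^ 2 + q i false ^ 2 = (1 + x i ^ 2) / 2 := by
          simp only [hqd, hB, if_false, sgn_true, sgn_false]
          ring
        rw [e1]
        have h3 := Real.add_one_le_exp (4 * x i ^ 2)
        have := sq_nonneg (x i)
        linarith
    refine (Finset.prod_le_prod (fun i _ => by positivity) h1).trans (le_of_eq ?_)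
    rw [Finset.prod_div_distrib, Finset.prod_const, Finset.card_univ, Fintype.card_fin,
      ← Real.exp_sum, hU, Finset.mul_sum]
  have h1 : ((1:ℝ) / 600) ^ 2 ≤ Real.exp (4 * U) / 2 ^ m * G.card := by
    calc ((1:ℝ) / 600) ^ 2 ≤ (∑ ε ∈ G, ∏ i, q i (ε i)) ^ 2 :=
          pow_le_pow_left₀ (by norm_num) hmu 2
      _ ≤ (∑ ε ∈ G, (∏ i, q i (ε i)) ^ 2) * G.card := hcs
      _ ≤ _ := mul_le_mul_of_nonneg_right hsq (by positivity)
  unfold cR
  rw [Real.exp_neg]
  have h2m : (0:ℝ) < 2 ^ m := by positivity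
  have hE : 0 < Real.exp (4 * U) := Real.exp_pos _
  have h3 := mul_le_mul_of_nonneg_right h1 (show 0 ≤ (Real.exp (4 * U))⁻¹ * 2 ^ m by positivity)
  calc (1 / 600) ^ 2 * (Real.exp (4 * U))⁻¹ * 2 ^ m = (1 / 600) ^ 2 * ((Real.exp (4 * U))⁻¹ * 2 ^ m) := by ring
    _ ≤ _ := h3
    _ = G.card := by field_simp

end MP087bf0
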