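import Mathlib
import Pool.Agent.Lib.MP_087bf0_co.IndCount
import Pool.Agent.Lib.MP_087bf0_co.LemmaR
open Set Filter Topology
open scoped Real

namespace MP087bf0

/-- rows are unit vectors in echelon form with monotone positive diagonal -/
structure UT {m : ℕ} (W : Fin m → Fin m → ℝ) : Prop where
  tri : ∀ i j, j < i → W i j = 0
  pos : ∀ i, 0 < W i i
  unit : ∀ i, ∑ j, W i j ^ 2 = 1
  mono : ∀ i j, i ≤ j → W i i ≤ W j j

lemma UT.le_one {m : ℕ} {W : Fin m → Fin m → ℝ} (h : UT W) (i : Fin m) : W i i ≤ 1 := by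
  have h1 : W i i ^ 2 ≤ 1 := by
    rw [← h.unit i]
    exact Finset.single_le_sum (f := fun j => W i j ^ 2) (fun j _ => sq_nonneg _) (Finset.mem_univ i)
  nlinarith [h.pos i]

lemma UT.tail {m : ℕ} {W : Fin (m+1) → Fin (m+1) → ℝ} (h : UT W) :
    UT (fun i j : Fin m => W i.succ j.succ) where
  tri := fun i j hij => h.tri _ _ (Fin.succ_lt_succ_iff.2 hij)
  pos := fun i => h.pos _
  unit := fun i => by
    have h1 := h.unit i.succ
    rw [Fin.sum_univ_succ, h.tri _ _ (Fin.succ_pos i)] at h1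
    simpa using h1
  mono := fun i j hij => h.mono _ _ (Fin.succ_le_succ_iff.2 hij)

/-- rows as Euclidean vectors -/
noncomputable def row {m n : ℕ} (W : Fin m → Fin n → ℝ) (i : Fin m) : EuclideanSpace ℝ (Fin n) :=
  WithLp.toLp 2 (W i)

lemma row_inner {m n : ℕ} (W : Fin m → Fin n → ℝ) (i j : Fin m) :
    inner ℝ (row W i) (row W j) = ∑ k, W i k * W j k := by
  unfold row
  rw [PiLp.inner_apply]
  refine Finset.sum_congr rfl fun k _ => ?_
  simp
  ring

lemma row_norm {m n : ℕ} (W : Fin m → Fin n → ℝ) (i : Fin m) (h : ∑ j, W i j ^ 2 = 1) :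
    ‖row W i‖ = 1 := by
  have h1 : ‖row W i‖ ^ 2 = 1 := by
    rw [← real_inner_self_eq_norm_sq, row_inner, ← h]
    refine Finset.sum_congr rfl fun k _ => ?_
    ring
  have h2 := norm_nonneg (row W i)
  nlinarith

lemma row_comb {m n : ℕ} (W : Fin m → Fin n → ℝ) (a : Fin m → ℝ) :
    ‖∑ i, a i • row W i‖ ^ 2 = ∑ j, (∑ i, a i * W i j) ^ 2 := by
  rw [EuclideanSpace.norm_sq_eq]
  refine Finset.sum_congr rfl fun j _ => ?_
  rw [Real.norm_eq_abs, sq_abs]
  congr 1
  simp [row]

lemma G2_congr {E E' : Type*} [NormedAddCommGroup E] [InnerProductSpace ℝ E] [NormedAddCommGroup E']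
    [InnerProductSpace ℝ E'] : ∀ {m : ℕ} (w : Fin m → E) (w' : Fin m → E')
    (_ : ∀ i j, inner ℝ (w i) (w j) = inner ℝ (w' i) (w' j)), G2 w = G2 w'
  | 0, _, _, _ => by simp [G2]
  | m + 1, w, w', h => by
      rw [G2, G2, G2_congr (fun i => w i.succ) (fun i => w' i.succ) (fun i j => h _ _)]
      congr 1
      refine Finset.sum_congr rfl fun j _ => ?_
      rw [h]

lemma G2_bound : ∀ {m : ℕ} {W : Fin m → Fin m → ℝ} (_ : UT W),
    G2 (row W) ≤ 2 * ∑ i, (1 - W i i ^ 2) + 2 * (∑ i, (1 - W i i ^ 2)) ^ 2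
  | 0, W, h => by simp [G2]
  | m + 1, W, h => by
      have ih := G2_bound h.tail
      have hoff : ∀ i, 0 ≤ 1 - W i i ^ 2 := fun i => by
        have h1 := h.le_one i
        have h2 := h.pos i
        nlinarith
      have e1 : G2 (fun i : Fin m => row W i.succ) = G2 (row (fun i j : Fin m => W i.succ j.succ)) := by
        refine G2_congr _ _ fun i j => ?_
        rw [row_inner, row_inner, Fin.sum_univ_succ, h.tri _ _ (Fin.succ_pos i)]
        simp
      rw [G2, e1]
      -- bound of the new row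
      have hnew : ∀ j : Fin m, (inner ℝ (row W 0) (row W j.succ)) ^ 2
          ≤ 2 * W 0 j.succ ^ 2 + 2 * ((1 - W 0 0 ^ 2) * (1 - W j.succ j.succ ^ 2)) := by
        intro j
        rw [row_inner]
        have hsplit : ∑ k, W 0 k * W j.succ k = W 0 j.succ * W j.succ j.succ
            + ∑ k ∈ Finset.univ.erase j.succ, W 0 k * W j.succ k :=
          (Finset.add_sum_erase _ _ (Finset.mem_univ _)).symm
        rw [hsplit]
        set R := ∑ k ∈ Finset.univ.erase j.succ, W 0 k * W j.succ k with hR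
        have hR1 : R = ∑ k ∈ (Finset.univ.erase j.succ).erase 0, W 0 k * W j.succ k := by
          rw [hR, ← Finset.add_sum_erase _ _ (show (0 : Fin (m+1)) ∈ Finset.univ.erase j.succ from
            Finset.mem_erase.2 ⟨(Fin.succ_ne_zero j).symm, Finset.mem_univ _⟩),
            h.tri _ _ (Fin.succ_pos j)]
          ring
        have hRsq : R ^ 2 ≤ (1 - W 0 0 ^ 2) * (1 - W j.succ j.succ ^ 2) := by
          rw [hR1]
          refine (Finset.sum_mul_sq_le_sq_mul_sq _ _ _).trans ?_
          refine mul_le_mul ?_ ?_ (Finset.sum_nonneg fun _ _ => sq_nonneg _) (hoff 0)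
          · have h1 := h.unit 0
            rw [← Finset.add_sum_erase _ _ (Finset.mem_univ (0 : Fin (m+1)))] at h1
            have h2 : ∑ k ∈ (Finset.univ.erase j.succ).erase 0, W 0 k ^ 2
                ≤ ∑ k ∈ Finset.univ.erase (0 : Fin (m+1)), W 0 k ^ 2 := by
              refine Finset.sum_le_sum_of_subset_of_nonneg ?_ fun _ _ _ => sq_nonneg _
              intro k hk
              simp only [Finset.mem_erase, Finset.mem_univ, and_true] at hk ⊢
              exact hk.1
            linarith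
          · have h1 := h.unit j.succ
            rw [← Finset.add_sum_erase _ _ (Finset.mem_univ j.succ)] at h1
            have h2 : ∑ k ∈ (Finset.univ.erase j.succ).erase 0, W j.succ k ^ 2
                ≤ ∑ k ∈ Finset.univ.erase j.succ, W j.succ k ^ 2 := by
              refine Finset.sum_le_sum_of_subset_of_nonneg (Finset.erase_subset _ _) fun _ _ _ => sq_nonneg _
            linarith
        have h3 : (W 0 j.succ * W j.succ j.succ) ^ 2 ≤ W 0 j.succ ^ 2 := by
          have h4 := hoff j.succ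
          have h5 := sq_nonneg (W 0 j.succ)
          nlinarith
        nlinarith [sq_nonneg (W 0 j.succ * W j.succ j.succ - R)]
      have hsum : ∑ j : Fin m, (inner ℝ (row W 0) (row W j.succ)) ^ 2
          ≤ 2 * (1 - W 0 0 ^ 2) + 2 * ((1 - W 0 0 ^ 2) * ∑ j : Fin m, (1 - W j.succ j.succ ^ 2)) := by
        refine (Finset.sum_le_sum fun j _ => hnew j).trans (le_of_eq ?_)
        rw [Finset.sum_add_distrib, ← Finset.mul_sum, ← Finset.mul_sum, ← Finset.mul_sum]
        have h1 := h.unit 0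
        rw [Fin.sum_univ_succ] at h1
        have : ∑ j : Fin m, W 0 j.succ ^ 2 = 1 - W 0 0 ^ 2 := by linarith
        rw [this]
      rw [Fin.sum_univ_succ (fun i => 1 - W i i ^ 2)]
      set A := 1 - W 0 0 ^ 2
      set S := ∑ j : Fin m, (1 - W j.succ j.succ ^ 2) with hS
      have hA := hoff 0
      have hS0 : 0 ≤ S := Finset.sum_nonneg fun j _ => hoff _
      nlinarith [mul_nonneg hA hS0, mul_nonneg hA hA]

/-- solving the triangular system -/
lemma UT.solve : ∀ {m : ℕ} {W : Fin m → Fin m → ℝ} (_ : UT W) (y : Fin m → ℝ),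
    ∃ β : Fin m → ℝ, ∀ j, y j = ∑ i, β i * W i j
  | 0, W, h, y => ⟨fun _ => 0, fun j => j.elim0⟩
  | m + 1, W, h, y => by
      obtain ⟨β, hβ⟩ := h.tail.solve (fun j => y j.succ - y 0 / W 0 0 * W 0 j.succ)
      refine ⟨Fin.cons (y 0 / W 0 0) β, fun j => ?_⟩
      rw [Fin.sum_univ_succ]
      simp only [Fin.cons_zero, Fin.cons_succ]
      refine Fin.cases ?_ (fun j => ?_) j
      · have : ∀ i : Fin m, W i.succ 0 = 0 := fun i => h.tri _ _ (Fin.succ_pos i)
        simp only [this, mul_zero, Finset.sum_const_zero, add_zero]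
        have := (h.pos 0).ne'
        field_simp
      · rw [← hβ j]; ring

lemma En_eq_norm {m : ℕ} (W : Fin m → Fin m → ℝ) (a : Fin m → ℝ) (k : Fin m → ℤ) :
    En W (fun j => ∑ i, a i * W i j) k = ‖∑ i, (a i + 2 * k i) • row W i‖ ^ 2 := by
  rw [row_comb, En]
  refine Finset.sum_congr rfl fun j _ => ?_
  congr 1
  rw [Finset.mul_sum, ← Finset.sum_add_distrib]
  refine Finset.sum_congr rfl fun i _ => ?_
  ring

/-- counting for near-orthonormal systems -/
lemma x_count {K1 : ℝ} (hK1 : 0 ≤ K1) : ∃ c : ℝ, 0 < c ∧ ∀ (m : ℕ) (W : Fin m → Fin m → ℝ), UT W →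
    ∑ i, (1 - W i i) ≤ K1 → ∀ x : Fin m → ℝ, (∀ i, |x i| ≤ 1) →
    ∃ M : Finset (Fin m → ℤ), (∀ k ∈ M, En W (fun j => ∑ i, (1 - x i) * W i j) k
      ≤ m - min (∑ i, x i ^ 2) 1) ∧ c * 2 ^ m ≤ M.card := by
  classical
  obtain ⟨K2, ci, hK2, hci, H⟩ := ind_count (C1 := 4 * K1 + 8 * K1 ^ 2) (by positivity)
  refine ⟨min ci (cR K2), lt_min hci (cR_pos _), ?_⟩
  intro m W hW hS x hx
  have hrow : ∀ i, ‖row W i‖ = 1 := fun i => row_norm W i (hW.unit i)
  have h2m : (0:ℝ) < 2 ^ m := by positivity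
  rcases le_total K2 (∑ i, x i ^ 2) with hU | hU
  · have hG : G2 (row W) ≤ 4 * K1 + 8 * K1 ^ 2 := by
      refine (G2_bound hW).trans ?_
      have h1 : ∑ i, (1 - W i i ^ 2) ≤ 2 * K1 := by
        have : ∑ i, (1 - W i i ^ 2) ≤ ∑ i, 2 * (1 - W i i) := by
          refine Finset.sum_le_sum fun i _ => ?_
          nlinarith [sq_nonneg (1 - W i i)]
        rw [← Finset.mul_sum] at this
        linarith
      have h0 : 0 ≤ ∑ i, (1 - W i i ^ 2) := Finset.sum_nonneg fun i _ => by
        have h1 := hW.le_one i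
        have h2 := hW.pos i
        nlinarith
      nlinarith
    obtain ⟨M, hM, hc⟩ := H (EuclideanSpace ℝ (Fin m)) m (row W) hrow hG x hx hU
    have hinj : Set.InjOn (fun η : Fin m → ℤ => fun i => (η i - 1) / 2) M := by
      intro η hη η' hη' h
      ext i
      have h1 := congrFun h i
      have h2 := (hM η hη).1 i
      have h3 := (hM η' hη').1 i
      simp only at h1
      obtain ⟨a, ha⟩ := h2
      obtain ⟨b, hb⟩ := h3
      omega
    refine ⟨M.image (fun η i => (η i - 1) / 2), ?_, ?_⟩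
    · intro k hk
      rw [Finset.mem_image] at hk
      obtain ⟨η, hη, rfl⟩ := hk
      rw [En_eq_norm]
      have h1 : ∑ i, ((1 - x i) + 2 * (((η i - 1) / 2 : ℤ) : ℝ)) • row W i = ∑ i, ((η i : ℝ) - x i) • row W i := by
        refine Finset.sum_congr rfl fun i _ => ?_
        congr 1
        obtain ⟨a, ha⟩ := (hM η hη).1 i
        have : (η i - 1) / 2 = a := by omega
        rw [this, ha]; push_cast; ring
      rw [h1]
      refine (hM η hη).2.trans ?_
      have := min_le_right (∑ i, x i ^ 2) 1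
      linarith
    · rw [Finset.card_image_of_injOn hinj]
      refine le_trans ?_ hc
      exact mul_le_mul_of_nonneg_right (min_le_left _ _) h2m.le
  · have h := lemmaR (row W) hrow x hx
    set G := Finset.univ.filter (fun ε : Fin m → Bool =>
      ‖∑ i, (sgn (ε i) - x i) • row W i‖ ^ 2 ≤ m - ∑ i, x i ^ 2) with hG
    have hinj : Function.Injective (fun ε : Fin m → Bool => fun i => (if ε i then (0:ℤ) else -1)) := by
      intro ε ε' h
      ext i
      have h1 := congrFun h i
      simp only at h1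
      cases h2 : ε i <;> cases h3 : ε' i <;> simp [h2, h3] at h1 ⊢
    refine ⟨G.image (fun ε i => (if ε i then (0:ℤ) else -1)), ?_, ?_⟩
    · intro k hk
      rw [Finset.mem_image] at hk
      obtain ⟨ε, hε, rfl⟩ := hk
      rw [En_eq_norm]
      have h1 : ∑ i, ((1 - x i) + 2 * (((if ε i then (0:ℤ) else -1) : ℤ) : ℝ)) • row W i
          = ∑ i, (sgn (ε i) - x i) • row W i := by
        refine Finset.sum_congr rfl fun i _ => ?_
        congr 1
        cases ε i
        · simp [sgn]; ring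
        · simp [sgn]
      rw [h1]
      rw [hG, Finset.mem_filter] at hε
      refine hε.2.trans ?_
      have := min_le_left (∑ i, x i ^ 2) 1
      linarith
    · rw [Finset.card_image_of_injective _ hinj]
      refine le_trans ?_ h
      refine mul_le_mul_of_nonneg_right ((min_le_right _ _).trans (cR_anti hU)) h2m.le

/-- arbitrary centre -/
lemma base_count {K1 : ℝ} (hK1 : 0 ≤ K1) : ∃ c : ℝ, 0 < c ∧ ∀ (m : ℕ) (W : Fin m → Fin m → ℝ), UT W →
    ∑ i, (1 - W i i) ≤ K1 → ∀ y : Fin m → ℝ,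
    ∃ M : Finset (Fin m → ℤ), (∀ k ∈ M, En W y k ≤ m) ∧ c * 2 ^ m ≤ M.card := by
  classical
  obtain ⟨c, hc, H⟩ := x_count hK1
  refine ⟨c, hc, fun m W hW hS y => ?_⟩
  obtain ⟨β, hβ⟩ := hW.solve y
  set n : Fin m → ℤ := fun i => round ((1 - β i) / 2) with hn
  set x : Fin m → ℝ := fun i => 1 - β i - 2 * n i with hx
  have hx1 : ∀ i, |x i| ≤ 1 := by
    intro i
    have h1 := abs_sub_round ((1 - β i) / 2)
    have e : x i = 2 * ((1 - β i) / 2 - round ((1 - β i) / 2)) := by
      simp only [hx, hn]; ring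
    rw [e, abs_mul, abs_of_pos (by norm_num : (0:ℝ) < 2)]
    linarith
  obtain ⟨M, hM, hcard⟩ := H m W hW hS x hx1
  have hEn : ∀ k : Fin m → ℤ, En W y (fun i => k i + n i) = En W (fun j => ∑ i, (1 - x i) * W i j) k := by
    intro k
    unfold En
    refine Finset.sum_congr rfl fun j _ => ?_
    congr 1
    rw [hβ j, Finset.mul_sum, Finset.mul_sum, ← Finset.sum_add_distrib, ← Finset.sum_add_distrib]
    refine Finset.sum_congr rfl fun i _ => ?_
    simp only [hx]
    push_cast; ring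
  have hinj : Function.Injective (fun k : Fin m → ℤ => fun i => k i + n i) := by
    intro k k' h
    ext i
    have := congrFun h i
    simpa using this
  refine ⟨M.image (fun k i => k i + n i), ?_, ?_⟩
  · intro k hk
    rw [Finset.mem_image] at hk
    obtain ⟨k', hk', rfl⟩ := hk
    rw [hEn]
    refine (hM k' hk').trans ?_
    have : 0 ≤ min (∑ i, x i ^ 2) 1 := le_min (Finset.sum_nonneg fun i _ => sq_nonneg _) zero_le_one
    linarith
  · rw [Finset.card_image_of_injective _ hinj]
    exact hcard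

/-- number of integers `k` with `|z + 2 l k| ≤ 1/2` -/
lemma interval_count {l : ℝ} (hl : 0 < l) (hl2 : l < 1 / 2) (z : ℝ) :
    ∃ S : Finset ℤ, (∀ k ∈ S, |z + 2 * l * k| ≤ 1 / 2) ∧ 1 / (4 * l) ≤ S.card := by
  -- the integers in `[(-1/2 - z)/(2l), (1/2 - z)/(2l)]`
  set a := (-(1/2) - z) / (2 * l) with ha
  set b := (1/2 - z) / (2 * l) with hb
  refine ⟨Finset.Icc ⌈a⌉ ⌊b⌋, ?_, ?_⟩
  · intro k hk
    rw [Finset.mem_Icc] at hk
    have h1 : a ≤ k := (Int.le_ceil a).trans (by exact_mod_cast hk.1)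
    have h2 : (k:ℝ) ≤ b := le_trans (by exact_mod_cast hk.2) (Int.floor_le b)
    rw [ha, div_le_iff₀ (by positivity)] at h1
    rw [hb, le_div_iff₀ (by positivity)] at h2
    rw [abs_le]
    constructor <;> linarith
  · rw [Int.card_Icc]
    have hab : b - a = 1 / (2 * l) := by
      rw [ha, hb]; field_simp; ring
    have h1 : (⌈a⌉ : ℝ) < a + 1 := Int.ceil_lt_add_one a
    have h2 : b - 1 < (⌊b⌋ : ℝ) := Int.sub_one_lt_floor b
    have h3 : (1:ℝ) < 1 / (2 * l) := by
      rw [lt_div_iff₀ (by positivity)]; linarith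
    have h4 : (1:ℝ) / (4 * l) = 1 / (2 * l) / 2 := by field_simp; ring
    -- the count is an integer larger than `1/(2l) - 1 > 0`, so at least `max 1 (1/(2l) - 1)`
    have h5 : ((⌊b⌋ + 1 - ⌈a⌉ : ℤ) : ℝ) ≤ ((⌊b⌋ + 1 - ⌈a⌉).toNat : ℝ) := by
      have := Int.self_le_toNat (⌊b⌋ + 1 - ⌈a⌉)
      exact_mod_cast this
    have h6 : 1 / (2 * l) - 1 < ((⌊b⌋ + 1 - ⌈a⌉ : ℤ) : ℝ) := by push_cast; linarith
    have h7 : (1:ℝ) ≤ ((⌊b⌋ + 1 - ⌈a⌉ : ℤ) : ℝ) := by
      have : (0:ℝ) < ((⌊b⌋ + 1 - ⌈a⌉ : ℤ) : ℝ) := by linarith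
      have : 0 < ⌊b⌋ + 1 - ⌈a⌉ := by exact_mod_cast this
      exact_mod_cast this
    refine le_trans ?_ h5
    rw [h4]
    linarith

/-- counting with peeling of the short coordinates -/
lemma peel_count {K1 : ℝ} (hK1 : 0 ≤ K1) : ∃ c : ℝ, 0 < c ∧ ∀ (m : ℕ) (W : Fin m → Fin m → ℝ), UT W →
    ∑ i, (1 - W i i) ≤ K1 → ∀ y : Fin m → ℝ,
    ∃ M : Finset (Fin m → ℤ), (∀ k ∈ M, En W y k ≤ m) ∧
      ((∃ i, W i i < 1 / 2) → ∀ k ∈ M, En W y k ≤ m - 3 / 4) ∧
      c * Real.exp (-(5 * ∑ i, (1 - W i i))) * ∏ i, (2 / W i i) ≤ M.card := by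
  classical
  obtain ⟨c, hc, H⟩ := base_count hK1
  refine ⟨c, hc, fun m => ?_⟩
  -- the case where all `l` are at least `1/2`
  have hbase : ∀ (m : ℕ) (W : Fin m → Fin m → ℝ), UT W → ∑ i, (1 - W i i) ≤ K1 → (∀ i, 1 / 2 ≤ W i i) →
      ∀ y : Fin m → ℝ, ∃ M : Finset (Fin m → ℤ), (∀ k ∈ M, En W y k ≤ m) ∧
      ((∃ i, W i i < 1 / 2) → ∀ k ∈ M, En W y k ≤ m - 3 / 4) ∧
      c * Real.exp (-(5 * ∑ i, (1 - W i i))) * ∏ i, (2 / W i i) ≤ M.card := by
    intro m W hW hS hl y
    obtain ⟨M, hM, hcard⟩ := H m W hW hS y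
    refine ⟨M, hM, fun ⟨i, hi⟩ => absurd hi (not_lt.2 (hl i)), le_trans ?_ hcard⟩
    rw [mul_assoc]
    refine mul_le_mul_of_nonneg_left ?_ hc.le
    rw [Finset.mul_sum, ← Finset.sum_neg_distrib, Real.exp_sum, ← Finset.prod_mul_distrib]
    have e : (2:ℝ) ^ m = ∏ _i : Fin m, (2:ℝ) := by simp
    rw [e]
    refine Finset.prod_le_prod (fun i _ => by have := hW.pos i; positivity) fun i _ => ?_
    have h1 := hl i
    have h2 := hW.le_one i
    have h3 := hW.pos i
    rw [mul_div_assoc', div_le_iff₀ h3]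
    have h4 : Real.exp (-(5 * (1 - W i i))) ≤ W i i := by
      have h5 := Real.one_sub_inv_le_log_of_pos h3
      have h6 : -(5 * (1 - W i i)) ≤ Real.log (W i i) := by
        refine le_trans ?_ h5
        have h7 : (W i i)⁻¹ ≤ 2 := by
          rw [inv_le_comm₀ h3 (by norm_num)]; linarith
        have h8 : 1 - (W i i)⁻¹ = -((1 - W i i) * (W i i)⁻¹) := by field_simp; ring
        rw [h8]
        have h9 : 0 ≤ 1 - W i i := by linarith
        nlinarith
      calc Real.exp (-(5 * (1 - W i i))) ≤ Real.exp (Real.log (W i i)) := Real.exp_le_exp.2 h6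
        _ = W i i := Real.exp_log h3
    linarith
  induction m with
  | zero =>
    intro W hW hS y
    exact hbase 0 W hW hS (fun i => i.elim0) y
  | succ m ih =>
    intro W hW hS y
    rcases le_or_gt (1 / 2) (W 0 0) with hl | hl
    · exact hbase (m+1) W hW hS (fun i => hl.trans (hW.mono 0 i (Fin.zero_le i))) y
    · have hl0 := hW.pos 0
      have hS' : ∑ i : Fin m, (1 - W i.succ i.succ) ≤ K1 := by
        rw [Fin.sum_univ_succ] at hS
        have := hW.le_one 0
        linarith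
      obtain ⟨S, hSk, hSc⟩ := interval_count hl0 hl (y 0)
      have ih' := fun k0 : ℤ => ih (fun i j => W i.succ j.succ) hW.tail hS'
        (fun j => y j.succ + 2 * (k0 * W 0 j.succ))
      choose M hM _ hcard using ih'
      have hEnle : ∀ k0 ∈ S, ∀ k ∈ M k0, En W y (Fin.cons k0 k) ≤ ((m+1 : ℕ):ℝ) - 3 / 4 := by
        intro k0 hk0 k hk
        rw [En_cons W hW.tri]
        have h1 := hM k0 k hk
        have h2 := hSk k0 hk0
        have h3 : (y 0 + 2 * W 0 0 * k0) ^ 2 ≤ (1 / 2) ^ 2 := by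
          rw [← sq_abs]; exact pow_le_pow_left₀ (abs_nonneg _) h2 2
        push_cast
        linarith
      set A : Finset (Fin (m+1) → ℤ) := S.biUnion (fun k0 => (M k0).image (fun k => (Fin.cons k0 k : Fin (m+1) → ℤ)))
        with hA
      have hmem : ∀ k ∈ A, En W y k ≤ ((m+1 : ℕ):ℝ) - 3 / 4 := by
        intro k hk
        rw [hA, Finset.mem_biUnion] at hk
        obtain ⟨k0, hk0, hk⟩ := hk
        rw [Finset.mem_image] at hk
        obtain ⟨k', hk', rfl⟩ := hk
        exact hEnle k0 hk0 k' hk'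
      refine ⟨A, fun k hk => (hmem k hk).trans (by linarith), fun _ => hmem, ?_⟩
      have hcardA : A.card = ∑ k0 ∈ S, (M k0).card := by
        rw [hA, Finset.card_biUnion]
        · refine Finset.sum_congr rfl fun k0 _ => ?_
          rw [Finset.card_image_of_injective]
          intro k k' h
          exact (Fin.cons_inj.1 h).2
        · intro k0 _ k0' _ hne
          show Disjoint _ _
          rw [Finset.disjoint_left]
          intro k hk hk'
          rw [Finset.mem_image] at hk hk'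
          obtain ⟨a, _, rfl⟩ := hk
          obtain ⟨b, _, hb⟩ := hk'
          exact hne (Fin.cons_inj.1 hb).1.symm
      rw [hcardA]
      push_cast
      rw [Fin.sum_univ_succ, Fin.prod_univ_succ]
      set P := c * Real.exp (-(5 * ∑ i : Fin m, (1 - W i.succ i.succ))) * ∏ i : Fin m, (2 / W i.succ i.succ)
        with hP
      have hP0 : 0 ≤ P := by
        rw [hP]
        refine mul_nonneg (by positivity) (Finset.prod_nonneg fun i _ => ?_)
        have := hW.pos i.succ
        positivity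
      have h1 : (S.card : ℝ) * P ≤ ∑ k0 ∈ S, ((M k0).card : ℝ) := by
        rw [← nsmul_eq_mul, ← Finset.sum_const]
        exact Finset.sum_le_sum fun k0 _ => hcard k0
      refine le_trans ?_ h1
      have h2 : 1 / (4 * W 0 0) * P ≤ S.card * P := mul_le_mul_of_nonneg_right hSc hP0
      refine le_trans ?_ h2
      have h3 : Real.exp (-(5 * (1 - W 0 0))) ≤ 1 / 8 := by
        have h4 : Real.exp (-(5 * (1 - W 0 0))) ≤ Real.exp (-(5 / 2)) := Real.exp_le_exp.2 (by linarith)
        refine h4.trans ?_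
        rw [Real.exp_neg, inv_le_comm₀ (Real.exp_pos _) (by norm_num)]
        have := Real.sum_le_exp_of_nonneg (x := 5 / 2) (by norm_num) 5
        simp only [Finset.sum_range_succ, Finset.sum_range_zero, Nat.factorial] at this
        norm_num at this
        norm_num
        linarith
      have e1 : c * Real.exp (-(5 * (1 - W 0 0 + ∑ i : Fin m, (1 - W i.succ i.succ)))) *
          (2 / W 0 0 * ∏ i : Fin m, (2 / W i.succ i.succ)) = (Real.exp (-(5 * (1 - W 0 0))) * (2 / W 0 0)) * P := by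
        rw [hP, mul_add, neg_add, Real.exp_add]; ring
      rw [e1]
      refine mul_le_mul_of_nonneg_right ?_ hP0
      have h5 : 1 / (4 * W 0 0) = 1 / 8 * (2 / W 0 0) := by field_simp; norm_num
      rw [h5]
      exact mul_le_mul_of_nonneg_right h3 (by positivity)

/-- Core counting theorem -/
theorem core : ∃ c cb : ℝ, 0 < c ∧ 0 < cb ∧ ∀ (d : ℕ) (W : Fin d → Fin d → ℝ), UT W →
    ∀ x : Fin d → ℝ, (∀ i, |x i| ≤ 1) →
    (∃ M : Finset (Fin d → ℤ), (∀ k ∈ M, En W (fun j => ∑ i, (1 - x i) * W i j) k ≤ d - 1 / 2) ∧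
      c * ∏ i, (2 / W i i) ≤ M.card) ∨
    (cb ≤ ∏ i, W i i ∧ ∑ i, x i ^ 2 < 1 / 2) := by
  obtain ⟨K1, cs, hK1, hcs, HS⟩ := seq_count
  obtain ⟨cx, hcx, HX⟩ := x_count hK1.le
  obtain ⟨cp, hcp, HP⟩ := peel_count hK1.le
  refine ⟨min cs (min (cx * Real.exp (-(2 * K1))) (cp * Real.exp (-(5 * K1)))), Real.exp (-(2 * K1)),
    lt_min hcs (lt_min (by positivity) (by positivity)), by positivity, ?_⟩
  intro d W hW x hx
  have hprod : 0 < ∏ i, (2 / W i i) := Finset.prod_pos fun i _ => by have := hW.pos i; positivity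
  rcases le_total K1 (∑ i, (1 - W i i)) with hS | hS
  · left
    obtain ⟨M, hM, hcard⟩ := HS d W hW.tri (fun i => ⟨hW.pos i, hW.le_one i⟩)
      (fun j => ∑ i, (1 - x i) * W i j) hS
    refine ⟨M, fun k hk => (hM k hk).trans (by linarith), le_trans ?_ hcard⟩
    exact mul_le_mul_of_nonneg_right (min_le_left _ _) hprod.le
  · by_cases hsmall : ∃ i, W i i < 1 / 2
    · left
      obtain ⟨M, _, hM, hcard⟩ := HP d W hW hS (fun j => ∑ i, (1 - x i) * W i j)
      refine ⟨M, fun k hk => (hM hsmall k hk).trans (by linarith), le_trans ?_ hcard⟩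
      refine mul_le_mul_of_nonneg_right ?_ hprod.le
      refine ((min_le_right _ _).trans (min_le_right _ _)).trans ?_
      exact mul_le_mul_of_nonneg_left (Real.exp_le_exp.2 (by linarith)) hcp.le
    · push Not at hsmall
      have hprodl : Real.exp (-(2 * K1)) ≤ ∏ i, W i i := by
        have h1 : Real.exp (-(2 * K1)) ≤ Real.exp (∑ i, -(2 * (1 - W i i))) := by
          apply Real.exp_le_exp.2
          rw [Finset.sum_neg_distrib, ← Finset.mul_sum]
          linarith
        refine h1.trans ?_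
        rw [Real.exp_sum]
        refine Finset.prod_le_prod (fun i _ => (Real.exp_pos _).le) fun i _ => ?_
        have h2 := hsmall i
        have h3 := hW.pos i
        have h4 := hW.le_one i
        have h5 := Real.one_sub_inv_le_log_of_pos h3
        have h6 : -(2 * (1 - W i i)) ≤ Real.log (W i i) := by
          refine le_trans ?_ h5
          have h7 : (W i i)⁻¹ ≤ 2 := by
            rw [inv_le_comm₀ h3 (by norm_num)]; linarith
          have h8 : 1 - (W i i)⁻¹ = -((1 - W i i) * (W i i)⁻¹) := by field_simp; ring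
          rw [h8]
          have h9 : 0 ≤ 1 - W i i := by linarith
          nlinarith
        calc Real.exp (-(2 * (1 - W i i))) ≤ Real.exp (Real.log (W i i)) := Real.exp_le_exp.2 h6
          _ = W i i := Real.exp_log h3
      rcases lt_or_ge (∑ i, x i ^ 2) (1 / 2) with hU | hU
      · exact Or.inr ⟨hprodl, hU⟩
      · left
        obtain ⟨M, hM, hcard⟩ := HX d W hW hS x hx
        refine ⟨M, fun k hk => (hM k hk).trans ?_, le_trans ?_ hcard⟩
        · have : (1:ℝ) / 2 ≤ min (∑ i, x i ^ 2) 1 := le_min hU (by norm_num)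
          linarith
        · have h1 : (∏ i, (2 / W i i)) * Real.exp (-(2 * K1)) ≤ 2 ^ d := by
            have h2 : (∏ i, (2 / W i i)) * ∏ i, W i i = 2 ^ d := by
              rw [← Finset.prod_mul_distrib]
              have : ∀ i, 2 / W i i * W i i = 2 := fun i => div_mul_cancel₀ _ (hW.pos i).ne'
              simp [this]
            rw [← h2]
            exact mul_le_mul_of_nonneg_left hprodl hprod.le
          calc min cs (min (cx * Real.exp (-(2 * K1))) (cp * Real.exp (-(5 * K1)))) * ∏ i, (2 / W i i)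
              ≤ (cx * Real.exp (-(2 * K1))) * ∏ i, (2 / W i i) :=
                mul_le_mul_of_nonneg_right ((min_le_right _ _).trans (min_le_left _ _)) hprod.le
            _ = cx * ((∏ i, (2 / W i i)) * Real.exp (-(2 * K1))) := by ring
            _ ≤ cx * 2 ^ d := mul_le_mul_of_nonneg_left h1 hcx.le

end MP087bf0
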