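import Mathlib
import Pool.Agent.Lib.MP_087bf0_co.Frame
open MeasureTheory Set
open scoped ENNReal Real

namespace MP087bf0

variable {F : Type*} [NormedAddCommGroup F] [InnerProductSpace ℝ F]

lemma moment_two {m n : ℕ} (D : F [⋀^Fin (m+1)]→ₗ[ℝ] ℝ) (u : Fin n → F) (κ : Fin m → Fin n) :
    ∑ ε, ∫ s, Lf D (u ∘ κ) (T u κ ε s) ^ 2 ∂cube m = 2 ^ n * ∑ i, Lf D (u ∘ κ) (u i) ^ 2 := by
  simp_rw [Lf_T]
  simp only [integral_const, probReal_univ, one_smul]
  have := rademacher_two n (fun i => Lf D (u ∘ κ) (u i)) 0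
  simpa using this

lemma moment_four {m n : ℕ} (b : OrthonormalBasis (Fin (m+1)) ℝ F) (u : Fin n → F)
    (hu : IsParseval u) (κ : Fin m → Fin n) :
    ∑ ε, ∫ s, Lf b.toBasis.det (u ∘ κ) (T u κ ε s) ^ 2 * ‖T u κ ε s‖ ^ 2 ∂cube m
      ≤ 2 ^ n * (((m:ℝ) + 3) * ∑ i, Lf b.toBasis.det (u ∘ κ) (u i) ^ 2) := by
  classical
  set D := b.toBasis.det with hD
  set a : Fin n → ℝ := fun i => Lf D (u ∘ κ) (u i) with ha
  set A := ∑ i, a i ^ 2 with hA
  have hA0 : 0 ≤ A := by positivity
  by_cases hκ : Function.Injective κ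
  · set x : Fin n → F := fun i => if i ∈ Set.range κ then 0 else u i with hx
    have hX : ∀ ε, X u κ ε = ∑ i, sgn (ε i) • x i := by
      intro ε
      unfold X
      refine Finset.sum_congr rfl fun i _ => ?_
      simp only [hx]
      split_ifs <;> simp
    have hak : ∀ j, a (κ j) = 0 := fun j => Lf_self D (u ∘ κ) j
    have hz : ∑ i, a i • x i = ∑ i, a i • u i := by
      refine Finset.sum_congr rfl fun i _ => ?_
      simp only [hx]
      split_ifs with h
      · obtain ⟨j, rfl⟩ := h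
        simp [hak]
      · rfl
    have hT : ∀ ε s, T u κ ε s = (∑ j, s j • u (κ j)) + ∑ i, sgn (ε i) • x i := by
      intro ε s; rw [T, hX, add_comm]
    have hyc : Continuous fun s : Fin m → ℝ => (∑ j, s j • u (κ j)) := by fun_prop
    calc ∑ ε, ∫ s, Lf D (u ∘ κ) (T u κ ε s) ^ 2 * ‖T u κ ε s‖ ^ 2 ∂cube m
        = ∑ ε : Fin n → Bool, ∫ s, (∑ i, sgn (ε i) * a i) ^ 2 *
            ‖(∑ j, s j • u (κ j)) + ∑ i, sgn (ε i) • x i‖ ^ 2 ∂cube m := by
          refine Finset.sum_congr rfl fun ε _ => ?_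
          congr 1
          funext s
          rw [Lf_T, hT]
      _ = ∫ s, ∑ ε : Fin n → Bool, (∑ i, sgn (ε i) * a i) ^ 2 *
            ‖(∑ j, s j • u (κ j)) + ∑ i, sgn (ε i) • x i‖ ^ 2 ∂cube m := by
          rw [integral_finsetSum _ (fun ε _ => integrable_cube (by fun_prop))]
      _ ≤ ∫ s, (2 ^ n * (A * ‖∑ j, s j • u (κ j)‖ ^ 2 + (A * ∑ i, ‖x i‖ ^ 2 + 2 * A))) ∂cube m := by
          refine integral_mono (integrable_cube (by fun_prop)) (integrable_cube (by fun_prop)) ?_
          intro s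
          have h := rademacher_four n a x 0 (∑ j, s j • u (κ j))
          simp only [zero_add] at h
          show ∑ ε : Fin n → Bool, (∑ i, sgn (ε i) * a i) ^ 2 *
            ‖(∑ j, s j • u (κ j)) + ∑ i, sgn (ε i) • x i‖ ^ 2 ≤ _
          rw [h, hz]
          have h1 := norm_sum_le_parseval hu a
          have h2 : 0 ≤ ∑ i, a i ^ 2 * ‖x i‖ ^ 2 := by positivity
          refine mul_le_mul_of_nonneg_left ?_ (by positivity)
          simp only [← hA] at h1 ⊢
          nlinarith
      _ = 2 ^ n * (A * ((1/3) * ∑ j, ‖u (κ j)‖ ^ 2) + (A * ∑ i, ‖x i‖ ^ 2 + 2 * A)) := by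
          rw [integral_const_mul, integral_add (integrable_cube (by fun_prop)) (integrable_const _),
            integral_const_mul]
          have := integral_cube_norm_sq m (fun j => u (κ j)) 0
          simp only [zero_add, norm_zero] at this
          rw [this]
          simp
      _ ≤ 2 ^ n * (((m:ℝ) + 3) * A) := by
          refine mul_le_mul_of_nonneg_left ?_ (by positivity)
          have h1 := sum_norm_sq_parseval b hu
          have h2 : ∑ i, ‖u i‖ ^ 2 = ∑ j, ‖u (κ j)‖ ^ 2 + ∑ i, ‖x i‖ ^ 2 := by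
            have e1 : ∑ j, ‖u (κ j)‖ ^ 2 = ∑ i, (if i ∈ Set.range κ then ‖u i‖ ^ 2 else 0) := by
              rw [← Finset.sum_filter]
              have : (Finset.univ.filter (fun i => i ∈ Set.range κ)) = Finset.univ.image κ := by
                ext i; simp
              rw [this, Finset.sum_image (fun x _ y _ h => hκ h)]
            rw [e1, ← Finset.sum_add_distrib]
            refine Finset.sum_congr rfl fun i _ => ?_
            simp only [hx]
            split_ifs <;> simp
          have h3 : 0 ≤ ∑ j, ‖u (κ j)‖ ^ 2 := by positivity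
          have h4 : (1/3) * ∑ j, ‖u (κ j)‖ ^ 2 + ∑ i, ‖x i‖ ^ 2 ≤ (m:ℝ) + 1 := by
            push_cast at h1
            linarith
          nlinarith
  · have h0 : ∀ y, Lf D (u ∘ κ) y = 0 := by
      intro y
      rw [Lf_apply]
      refine D.map_eq_zero_of_not_injective _ fun hinj => hκ ?_
      have h1 : Function.Injective (u ∘ κ) := by
        intro i j hij
        have := @hinj i.succ j.succ (by simpa using hij)
        exact Fin.succ_injective _ this
      exact h1.of_comp
    simp only [h0]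
    simp
    positivity

lemma tangent_line {a x p : ℝ} (ha : 0 < a) (hx : 0 < x) (hp : 0 ≤ p) :
    a ^ (-p) * (1 + p - p * x / a) ≤ x ^ (-p) := by
  have h1 : x = a * (x / a) := by field_simp
  have h2 : x ^ (-p) = a ^ (-p) * (x / a) ^ (-p) := by
    conv_lhs => rw [h1]
    rw [Real.mul_rpow ha.le (by positivity)]
  rw [h2]
  refine mul_le_mul_of_nonneg_left ?_ (by positivity)
  have hxa : 0 < x / a := by positivity
  rw [Real.rpow_def_of_pos hxa]
  have h3 := Real.add_one_le_exp (Real.log (x / a) * -p)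
  have h4 := Real.log_le_sub_one_of_pos hxa
  have h5 : p * Real.log (x / a) ≤ p * (x / a - 1) := mul_le_mul_of_nonneg_left h4 hp
  have h6 : p * x / a = p * (x / a) := by ring
  rw [h6]
  nlinarith

/-- lower bound for the left-hand side of the key identity -/
lemma lower_lhs {m n : ℕ} (b : OrthonormalBasis (Fin (m+1)) ℝ F) (u : Fin n → F)
    (hu : IsParseval u) {δ : ℝ} (hδ : 0 < δ) :
    2 ^ n * ((m+1).factorial : ℝ) * ((m:ℝ) + 3 + δ) ^ (-(((m:ℝ)+1)/2))
      ≤ ∑ κ : Fin m → Fin n, ∑ ε, ∫ s, om δ (((m:ℝ)+1)/2) (T u κ ε s) *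
        Lf b.toBasis.det (u ∘ κ) (T u κ ε s) ^ 2 ∂cube m := by
  classical
  have hfd : FiniteDimensional ℝ F := b.toBasis.finiteDimensional_of_finite
  set D := b.toBasis.det with hD
  set p : ℝ := ((m:ℝ)+1)/2 with hp
  set a : ℝ := (m:ℝ) + 3 + δ with ha
  have ha0 : 0 < a := by positivity
  have hp0 : 0 ≤ p := by positivity
  have hcp := om_continuous (F := F) hδ p
  have hsum : ∑ κ : Fin m → Fin n, ∑ i, Lf D (u ∘ κ) (u i) ^ 2 = ((m+1).factorial : ℝ) := by
    rw [← sum_det_parseval b hu, Finset.sum_comm, ← Fintype.sum_prod_type']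
    refine Fintype.sum_equiv (Fin.consEquiv (fun _ => Fin n)) _ _ fun x => ?_
    obtain ⟨i, κ⟩ := x
    have : Lf D (u ∘ κ) (u i) = D (u ∘ (Fin.consEquiv fun _ : Fin (m+1) => Fin n) (i, κ)) := by
      rw [Lf_apply]
      congr 1
      ext j
      refine Fin.cases ?_ (fun k => ?_) j <;> simp [Fin.consEquiv]
    rw [← this]
  have hκ : ∀ κ : Fin m → Fin n, a ^ (-p) * (2 ^ n * ∑ i, Lf D (u ∘ κ) (u i) ^ 2)
      ≤ ∑ ε, ∫ s, om δ p (T u κ ε s) * Lf D (u ∘ κ) (T u κ ε s) ^ 2 ∂cube m := by
    intro κ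
    set L : F →L[ℝ] ℝ := LinearMap.toContinuousLinearMap (Lf D (u ∘ κ)) with hL
    have hLL : ∀ x, Lf D (u ∘ κ) x = L x := fun x => rfl
    have m2 := moment_two D u κ
    have m4 := moment_four b u hu κ
    simp_rw [← hD] at m4
    simp_rw [hLL] at m2 m4 ⊢
    set A := ∑ i, L (u i) ^ 2 with hA
    have hTc := fun ε => T_continuous u κ ε
    calc a ^ (-p) * (2 ^ n * A)
        ≤ a ^ (-p) * ((1 + p - p * δ / a) * (2 ^ n * A) - p / a * (2 ^ n * (((m:ℝ) + 3) * A))) := by
          refine le_of_eq ?_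
          congr 1
          have : (m:ℝ) + 3 = a - δ := by rw [ha]; ring
          rw [this]
          field_simp
          ring
      _ ≤ a ^ (-p) * ((1 + p - p * δ / a) * (∑ ε, ∫ s, L (T u κ ε s) ^ 2 ∂cube m)
            - p / a * (∑ ε, ∫ s, L (T u κ ε s) ^ 2 * ‖T u κ ε s‖ ^ 2 ∂cube m)) := by
          refine mul_le_mul_of_nonneg_left ?_ (by positivity)
          rw [m2]
          have : 0 ≤ p / a := by positivity
          have := mul_le_mul_of_nonneg_left m4 this
          linarith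
      _ = ∑ ε, ∫ s, (a ^ (-p) * (1 + p - p * (‖T u κ ε s‖ ^ 2 + δ) / a)) * L (T u κ ε s) ^ 2 ∂cube m := by
          have h1 : ∀ ε, ∫ s, (a ^ (-p) * (1 + p - p * (‖T u κ ε s‖ ^ 2 + δ) / a)) *
              L (T u κ ε s) ^ 2 ∂cube m = a ^ (-p) * ((1 + p - p * δ / a) *
                (∫ s, L (T u κ ε s) ^ 2 ∂cube m) - p / a *
                (∫ s, L (T u κ ε s) ^ 2 * ‖T u κ ε s‖ ^ 2 ∂cube m)) := by
            intro ε
            have hTe := hTc ε
            rw [← integral_const_mul, ← integral_const_mul, ← integral_sub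
              (integrable_cube (by fun_prop)) (integrable_cube (by fun_prop)), ← integral_const_mul]
            congr 1
            funext s
            ring
          simp_rw [h1]
          rw [← Finset.mul_sum, Finset.sum_sub_distrib, ← Finset.mul_sum, ← Finset.mul_sum]
      _ ≤ ∑ ε, ∫ s, om δ p (T u κ ε s) * L (T u κ ε s) ^ 2 ∂cube m := by
          refine Finset.sum_le_sum fun ε _ => ?_
          have hTe := hTc ε
          refine integral_mono (integrable_cube (by fun_prop)) (integrable_cube (by fun_prop)) ?_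
          intro s
          refine mul_le_mul_of_nonneg_right ?_ (by positivity)
          exact tangent_line ha0 (by positivity) hp0
  calc 2 ^ n * ((m+1).factorial : ℝ) * a ^ (-p)
      = ∑ κ : Fin m → Fin n, a ^ (-p) * (2 ^ n * ∑ i, Lf D (u ∘ κ) (u i) ^ 2) := by
        rw [← Finset.mul_sum, ← Finset.mul_sum, hsum]; ring
    _ ≤ _ := Finset.sum_le_sum fun κ _ => hκ κ

end MP087bf0
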