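import Mathlib
import Pool.Agent.Lib.MP_087bf0_co.Lower
open MeasureTheory Set Filter Topology
open scoped ENNReal Real

namespace MP087bf0

lemma cube_eq (m : ℕ) :
    cube m = ((2 : ℝ≥0∞)⁻¹) ^ m • volume.restrict (Set.univ.pi (fun _ : Fin m => Icc (-1:ℝ) 1)) := by
  unfold cube
  refine Measure.pi_eq fun s hs => ?_
  rw [Measure.smul_apply, Measure.restrict_apply (MeasurableSet.univ_pi hs), ← Set.pi_inter_distrib,
    volume_pi_pi, smul_eq_mul]
  have : ∀ i, unif (s i) = (2 : ℝ≥0∞)⁻¹ * volume (s i ∩ Icc (-1:ℝ) 1) := by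
    intro i
    rw [unif, Measure.smul_apply, Measure.restrict_apply (hs i), smul_eq_mul]
  simp_rw [this]
  rw [Finset.prod_mul_distrib]
  simp

lemma integral_cube_le {m : ℕ} {H : (Fin m → ℝ) → ℝ} (hH : Integrable H) (h0 : ∀ s, 0 ≤ H s) :
    ∫ s, H s ∂cube m ≤ (1/2) ^ m * ∫ s, H s := by
  rw [cube_eq, integral_smul_measure]
  have h1 : (((2 : ℝ≥0∞)⁻¹) ^ m).toReal = (1/2 : ℝ) ^ m := by
    simp [ENNReal.toReal_pow, ENNReal.toReal_inv]
  rw [h1, smul_eq_mul]
  refine mul_le_mul_of_nonneg_left ?_ (by positivity)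
  exact setIntegral_le_integral hH (Filter.Eventually.of_forall h0)

abbrev EE (m : ℕ) := EuclideanSpace ℝ (Fin m)

/-- the standard basis of Euclidean space -/
noncomputable abbrev sb (m : ℕ) : OrthonormalBasis (Fin m) ℝ (EE m) := EuclideanSpace.basisFun (Fin m) ℝ

/-- change of variables -/
lemma change_var {m : ℕ} (w : Fin m → EE m) (hw : (sb m).toBasis.det w ≠ 0) (x : EE m)
    {G : EE m → ℝ} (hG : Integrable G) (hGc : Continuous G) :
    Integrable (fun s : Fin m → ℝ => G (x + ∑ j, s j • w j)) ∧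
    ∫ s : Fin m → ℝ, G (x + ∑ j, s j • w j) = |(sb m).toBasis.det w|⁻¹ * ∫ y, G y := by
  classical
  set b := (sb m).toBasis with hb
  let B : EE m →ₗ[ℝ] EE m := Matrix.toLin b b (b.toMatrix w)
  have hdet : LinearMap.det B = b.det w := by
    rw [LinearMap.det_toLin, Module.Basis.det_apply]
  have hB : ∀ s : Fin m → ℝ, B (WithLp.toLp 2 s) = ∑ j, s j • w j := by
    intro s
    have h1 : (WithLp.toLp 2 s : EE m) = ∑ j, s j • b j := by
      have := (sb m).sum_repr (WithLp.toLp 2 s : EE m)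
      rw [← this]
      simp [hb]
    rw [h1, map_sum]
    refine Finset.sum_congr rfl fun j _ => ?_
    rw [map_smul]
    congr 1
    simp only [B]
    rw [Matrix.toLin_self]
    exact b.sum_toMatrix_smul_self w j
  have hBc : Continuous B := B.continuous_of_finiteDimensional
  have hmap := Measure.map_linearMap_addHaar_eq_smul_addHaar (volume : Measure (EE m)) (f := B)
    (by rw [hdet]; exact hw)
  rw [hdet] at hmap
  have hmp := PiLp.volume_preserving_toLp (Fin m)
  have hGx : Integrable (fun y => G (x + y)) := hG.comp_add_left x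
  have hemb : MeasurableEmbedding (WithLp.toLp 2 : (Fin m → ℝ) → EE m) :=
    (MeasurableEquiv.toLp 2 (Fin m → ℝ)).measurableEmbedding
  have hcompI : Integrable (fun y => G (x + B y)) := by
    have h2 : Integrable (fun y => G (x + y)) (Measure.map B volume) := by
      rw [hmap]
      exact hGx.smul_measure (by simp)
    exact (integrable_map_measure (by
      have : Continuous (fun y => G (x + y)) := by fun_prop
      exact this.aestronglyMeasurable) hBc.measurable.aemeasurable).1 h2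
  have e1 : (fun s : Fin m → ℝ => G (x + ∑ j, s j • w j))
      = (fun y => G (x + B y)) ∘ (WithLp.toLp 2 : (Fin m → ℝ) → EE m) := by
    funext s
    simp [hB]
  constructor
  · rw [e1]
    exact (hmp.integrable_comp_emb hemb).2 hcompI
  · have h3 : ∫ s : Fin m → ℝ, G (x + ∑ j, s j • w j) = ∫ y, G (x + B y) := by
      rw [← hmp.integral_comp hemb (fun y => G (x + B y))]
      simp_rw [hB]
    rw [h3]
    have h4 : ∫ y, G (x + B y) = ∫ y, G (x + y) ∂(Measure.map B volume) := by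
      rw [integral_map hBc.measurable.aemeasurable]
      have : Continuous (fun y => G (x + y)) := by fun_prop
      exact this.aestronglyMeasurable
    rw [h4, hmap, integral_smul_measure, integral_add_left_eq_self]
    rw [ENNReal.toReal_ofReal (abs_nonneg _), smul_eq_mul, abs_inv]

/-- volume of the unit ball -/
noncomputable def omega (m : ℕ) : ℝ := (volume : Measure (EE m)).real (Metric.ball 0 1)

lemma hasDerivAt_aux {δ : ℝ} (hδ : 0 < δ) (m : ℕ) (y : ℝ) :
    HasDerivAt (fun y : ℝ => (1/((m:ℝ)+1)) * (y ^ (m+1) * (y ^ 2 + δ) ^ (-(((m:ℝ)+1)/2))))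
      (y ^ m * (δ * (y ^ 2 + δ) ^ (-(((m:ℝ)+1)/2 + 1)))) y := by
  have hpos : 0 < y ^ 2 + δ := by positivity
  have h1 : HasDerivAt (fun y : ℝ => y ^ 2 + δ) (2 * y) y := by
    simpa using (hasDerivAt_pow 2 y).add_const δ
  have h2 := h1.rpow_const (p := -(((m:ℝ)+1)/2)) (Or.inl hpos.ne')
  have h3 := ((hasDerivAt_pow (m+1) y).mul h2).const_mul (1/((m:ℝ)+1))
  refine h3.congr_deriv ?_
  have e1 : -(((m:ℝ)+1)/2) - 1 = -(((m:ℝ)+1)/2 + 1) := by ring
  have e2 : (y ^ 2 + δ) ^ (-(((m:ℝ)+1)/2)) = (y ^ 2 + δ) ^ (-(((m:ℝ)+1)/2 + 1)) * (y ^ 2 + δ) := by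
    conv_rhs => rw [← Real.rpow_add_one hpos.ne']
    congr 1
    ring
  rw [e1, e2]
  have hm : (m:ℝ) + 1 ≠ 0 := by positivity
  push_cast
  field_simp
  ring

lemma tendsto_aux {δ : ℝ} (hδ : 0 < δ) (m : ℕ) :
    Tendsto (fun y : ℝ => (1/((m:ℝ)+1)) * (y ^ (m+1) * (y ^ 2 + δ) ^ (-(((m:ℝ)+1)/2)))) atTop
      (𝓝 (1/((m:ℝ)+1))) := by
  have h1 : Tendsto (fun y : ℝ => δ / (y ^ 2 + δ)) atTop (𝓝 0) := by
    refine Tendsto.div_atTop tendsto_const_nhds ?_
    exact tendsto_atTop_add_const_right _ _ (tendsto_pow_atTop two_ne_zero)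
  have h2 : Tendsto (fun y : ℝ => (1 - δ / (y ^ 2 + δ)) ^ (((m:ℝ)+1)/2)) atTop (𝓝 1) := by
    have h3 : Tendsto (fun y : ℝ => 1 - δ / (y ^ 2 + δ)) atTop (𝓝 (1 - 0)) := h1.const_sub 1
    have h4 := h3.rpow_const (p := ((m:ℝ)+1)/2) (Or.inl (by norm_num))
    simpa using h4
  have h5 : Tendsto (fun y : ℝ => (1/((m:ℝ)+1)) * (1 - δ / (y ^ 2 + δ)) ^ (((m:ℝ)+1)/2)) atTop
      (𝓝 (1/((m:ℝ)+1))) := by
    simpa using h2.const_mul (1/((m:ℝ)+1))
  refine h5.congr' ?_
  filter_upwards [eventually_gt_atTop 0] with y hy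
  have hpos : 0 < y ^ 2 + δ := by positivity
  congr 1
  have e1 : 1 - δ / (y ^ 2 + δ) = y ^ 2 / (y ^ 2 + δ) := by field_simp; ring
  rw [e1, Real.div_rpow (by positivity) hpos.le, Real.rpow_neg hpos.le, div_eq_mul_inv]
  congr 1
  have e2 : y ^ (m+1) = y ^ ((m:ℝ)+1) := by
    rw [← Nat.cast_succ, Real.rpow_natCast]
  rw [e2, ← Real.rpow_natCast y 2, ← Real.rpow_mul hy.le]
  congr 1
  push_cast
  ring

lemma kernel_integral {δ : ℝ} (hδ : 0 < δ) (m : ℕ) :
    Integrable (fun x : EE (m+1) => δ * om δ (((m:ℝ)+1)/2 + 1) x) ∧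
    ∫ x : EE (m+1), δ * om δ (((m:ℝ)+1)/2 + 1) x = omega (m+1) := by
  set G : ℝ → ℝ := fun y => (1/((m:ℝ)+1)) * (y ^ (m+1) * (y ^ 2 + δ) ^ (-(((m:ℝ)+1)/2))) with hG
  set f : ℝ → ℝ := fun y => δ * (y ^ 2 + δ) ^ (-(((m:ℝ)+1)/2 + 1)) with hf
  have hder : ∀ y ∈ Ioi (0:ℝ), HasDerivAt G (y ^ m * f y) y := fun y _ => hasDerivAt_aux hδ m y
  have hcont : ContinuousWithinAt G (Ici 0) 0 :=
    (hasDerivAt_aux hδ m 0).continuousAt.continuousWithinAt
  have hnn : ∀ y ∈ Ioi (0:ℝ), 0 ≤ y ^ m * f y := by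
    intro y hy
    have : (0:ℝ) < y := hy
    positivity
  have hlim := tendsto_aux hδ m
  have hint := integrableOn_Ioi_deriv_of_nonneg hcont hder hnn hlim
  have hval := integral_Ioi_of_hasDerivAt_of_nonneg hcont hder hnn hlim
  have hfr : Module.finrank ℝ (EE (m+1)) = m + 1 := by simp
  constructor
  · have := (integrable_fun_norm_addHaar (volume : Measure (EE (m+1))) (f := f)).2 (by
      rw [hfr]
      simpa using hint)
    exact this
  · have := integral_fun_norm_addHaar (volume : Measure (EE (m+1))) f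
    rw [hfr] at this
    simp only [Nat.add_sub_cancel, smul_eq_mul] at this
    rw [hval] at this
    have e : ∀ x : EE (m+1), δ * om δ (((m:ℝ)+1)/2 + 1) x = f ‖x‖ := fun x => rfl
    simp_rw [e]
    rw [this]
    simp only [hG, omega]
    have hm : (m:ℝ) + 1 ≠ 0 := by positivity
    simp
    field_simp

end MP087bf0
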