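import Mathlib
import Pool.Agent.Lib.MP_087bf0_co.Kernel
open MeasureTheory Set Filter Topology
open scoped ENNReal Real

namespace MP087bf0

/-- The sum of the fixed signed vectors outside `ι` can be cancelled by a point of the zonotope
spanned by the vectors in the slots `ι`. -/
def Hit {F : Type*} [NormedAddCommGroup F] [NormedSpace ℝ F] {n m : ℕ} (u : Fin n → F)
    (ι : Fin m → Fin n) (ε : Fin n → Bool) : Prop :=
  ∃ s : Fin m → ℝ, (∀ j, s j ∈ Icc (-1:ℝ) 1) ∧ T u ι ε s = 0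

lemma g_le {m n : ℕ} (u : Fin n → EE (m+1)) (ι : Fin (m+1) → Fin n) (ε : Fin n → Bool)
    (hD : (sb (m+1)).toBasis.det (u ∘ ι) ≠ 0) {δ : ℝ} (hδ : 0 < δ) :
    ∫ s, δ * om δ (((m:ℝ)+1)/2 + 1) (T u ι ε s) ∂cube (m+1)
      ≤ (1/2) ^ (m+1) * (|(sb (m+1)).toBasis.det (u ∘ ι)|⁻¹ * omega (m+1)) := by
  have hk := kernel_integral hδ m
  have hc : Continuous (fun x : EE (m+1) => δ * om δ (((m:ℝ)+1)/2 + 1) x) := by
    have := om_continuous (F := EE (m+1)) hδ (((m:ℝ)+1)/2 + 1)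
    fun_prop
  have hv := change_var (u ∘ ι) hD (X u ι ε) hk.1 hc
  have h1 := integral_cube_le hv.1 (fun s => mul_nonneg hδ.le (om_pos hδ _ _).le)
  rw [hv.2, hk.2] at h1
  exact h1

lemma g_nonneg {m n : ℕ} {F : Type*} [NormedAddCommGroup F] [NormedSpace ℝ F] (u : Fin n → F)
    (ι : Fin m → Fin n) (ε : Fin n → Bool) (q : ℝ) {δ : ℝ} (hδ : 0 < δ) :
    0 ≤ ∫ s, δ * om δ q (T u ι ε s) ∂cube m :=
  integral_nonneg fun s => mul_nonneg hδ.le (om_pos hδ _ _).le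

lemma g_tendsto {m n : ℕ} {F : Type*} [NormedAddCommGroup F] [NormedSpace ℝ F] (u : Fin n → F)
    (ι : Fin m → Fin n) (ε : Fin n → Bool) {q : ℝ} (hq : 0 ≤ q) (hh : ¬ Hit u ι ε) :
    Tendsto (fun δ : ℝ => ∫ s, δ * om δ q (T u ι ε s) ∂cube m) (𝓝[>] 0) (𝓝 0) := by
  have hK : IsCompact (Set.pi Set.univ (fun _ : Fin m => Icc (-1:ℝ) 1)) :=
    isCompact_univ_pi fun _ => isCompact_Icc
  have hne : (Set.pi Set.univ (fun _ : Fin m => Icc (-1:ℝ) 1)).Nonempty :=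
    ⟨fun _ => 0, fun _ _ => by norm_num⟩
  have hTc := T_continuous u ι ε
  obtain ⟨s0, hs0, hmin⟩ := hK.exists_isMinOn hne (hTc.norm.continuousOn)
  have hc0 : 0 < ‖T u ι ε s0‖ := by
    rw [norm_pos_iff]
    intro h
    exact hh ⟨s0, fun j => hs0 j (Set.mem_univ _), h⟩
  set c := ‖T u ι ε s0‖ with hc
  have hub : ∀ δ : ℝ, 0 < δ → ∫ s, δ * om δ q (T u ι ε s) ∂cube m ≤ δ * (c ^ 2) ^ (-q) := by
    intro δ hδ
    have hoc := om_continuous (F := F) hδ q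
    have h1 : ∫ s, δ * om δ q (T u ι ε s) ∂cube m ≤ ∫ _, δ * (c ^ 2) ^ (-q) ∂cube m := by
      refine integral_mono_ae (integrable_cube (by fun_prop)) (integrable_const _) ?_
      filter_upwards [ae_cube m] with s hs
      refine mul_le_mul_of_nonneg_left ?_ hδ.le
      have h2 : c ≤ ‖T u ι ε s‖ := hmin (fun j _ => hs j)
      unfold om
      refine Real.rpow_le_rpow_of_nonpos (by positivity) ?_ (by linarith)
      nlinarith
    simpa using h1
  refine tendsto_of_tendsto_of_tendsto_of_le_of_le' tendsto_const_nhds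
    (h := fun δ : ℝ => δ * (c ^ 2) ^ (-q)) ?_ ?_ ?_
  · have : Tendsto (fun δ : ℝ => δ * (c ^ 2) ^ (-q)) (𝓝[>] 0) (𝓝 (0 * (c ^ 2) ^ (-q))) :=
      (tendsto_nhdsWithin_of_tendsto_nhds tendsto_id).mul_const _
    simpa using this
  · filter_upwards [self_mem_nhdsWithin] with δ hδ
    exact g_nonneg u ι ε q hδ
  · filter_upwards [self_mem_nhdsWithin] with δ hδ
    exact hub δ hδ

open Classical in
theorem frame_bound {m n : ℕ} (u : Fin n → EE (m+1)) (hu : IsParseval u) :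
    2 ^ n * ((m+1).factorial : ℝ) * ((m:ℝ) + 3) ^ (-(((m:ℝ)+1)/2))
      ≤ (1/2) ^ (m+1) * omega (m+1) * ∑ ι : Fin (m+1) → Fin n,
          |(sb (m+1)).toBasis.det (u ∘ ι)| * ((Finset.univ.filter (fun ε => Hit u ι ε)).card : ℝ) := by
  set D := (sb (m+1)).toBasis.det with hD
  have hfr : Module.finrank ℝ (EE (m+1)) = m + 1 := by simp
  -- upper bound for every `δ`
  have hub : ∀ δ : ℝ, 0 < δ → 2 ^ n * ((m+1).factorial : ℝ) * ((m:ℝ) + 3 + δ) ^ (-(((m:ℝ)+1)/2))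
      ≤ ∑ ι : Fin (m+1) → Fin n, ∑ ε : Fin n → Bool, (if Hit u ι ε then
          (1/2) ^ (m+1) * omega (m+1) * |D (u ∘ ι)| else
          D (u ∘ ι) ^ 2 * ∫ s, δ * om δ (((m:ℝ)+1)/2 + 1) (T u ι ε s) ∂cube (m+1)) := by
    intro δ hδ
    have h1 := lower_lhs (sb (m+1)) u hu hδ
    rw [key_identity hfr _ u hδ] at h1
    refine h1.trans ?_
    refine Finset.sum_le_sum fun ι _ => ?_
    rw [Finset.mul_sum]
    refine Finset.sum_le_sum fun ε _ => ?_
    split_ifs with hh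
    · by_cases h0 : (sb (m+1)).toBasis.det (u ∘ ι) = 0
      · rw [hD, h0]; simp
      · have h2 := g_le u ι ε h0 hδ
        calc (sb (m+1)).toBasis.det (u ∘ ι) ^ 2 *
              ∫ s, δ * om δ (((m:ℝ)+1)/2 + 1) (T u ι ε s) ∂cube (m+1)
            ≤ (sb (m+1)).toBasis.det (u ∘ ι) ^ 2 *
              ((1/2) ^ (m+1) * (|(sb (m+1)).toBasis.det (u ∘ ι)|⁻¹ * omega (m+1))) :=
              mul_le_mul_of_nonneg_left h2 (by positivity)
          _ = _ := by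
              have h3 : |(sb (m+1)).toBasis.det (u ∘ ι)| ≠ 0 := abs_ne_zero.2 h0
              rw [← sq_abs, hD]
              field_simp
    · exact le_refl _
  have hlimL : Tendsto (fun δ : ℝ => 2 ^ n * ((m+1).factorial : ℝ) *
      ((m:ℝ) + 3 + δ) ^ (-(((m:ℝ)+1)/2))) (𝓝[>] 0)
      (𝓝 (2 ^ n * ((m+1).factorial : ℝ) * ((m:ℝ) + 3) ^ (-(((m:ℝ)+1)/2)))) := by
    have h1 : Tendsto (fun δ : ℝ => (m:ℝ) + 3 + δ) (𝓝[>] 0) (𝓝 ((m:ℝ) + 3 + 0)) :=
      (tendsto_nhdsWithin_of_tendsto_nhds tendsto_id).const_add _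
    rw [add_zero] at h1
    exact (h1.rpow_const (Or.inl (by positivity))).const_mul _
  have hlimR : Tendsto (fun δ : ℝ => ∑ ι : Fin (m+1) → Fin n, ∑ ε : Fin n → Bool, (if Hit u ι ε then
          (1/2) ^ (m+1) * omega (m+1) * |D (u ∘ ι)| else
          D (u ∘ ι) ^ 2 * ∫ s, δ * om δ (((m:ℝ)+1)/2 + 1) (T u ι ε s) ∂cube (m+1))) (𝓝[>] 0)
      (𝓝 (∑ ι : Fin (m+1) → Fin n, ∑ ε : Fin n → Bool, (if Hit u ι ε then
          (1/2) ^ (m+1) * omega (m+1) * |D (u ∘ ι)| else 0))) := by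
    refine tendsto_finsetSum _ fun ι _ => tendsto_finsetSum _ fun ε _ => ?_
    by_cases hh : Hit u ι ε
    · simp only [hh, if_true]
      exact tendsto_const_nhds
    · simp only [hh, if_false]
      have := (g_tendsto u ι ε (q := ((m:ℝ)+1)/2 + 1) (by positivity) hh).const_mul (D (u ∘ ι) ^ 2)
      simpa using this
  have hfin := le_of_tendsto_of_tendsto hlimL hlimR (by
    filter_upwards [self_mem_nhdsWithin] with δ hδ
    exact hub δ hδ)
  refine hfin.trans (le_of_eq ?_)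
  rw [Finset.mul_sum]
  refine Finset.sum_congr rfl fun ι _ => ?_
  rw [← Finset.sum_filter, Finset.sum_const, nsmul_eq_mul]
  ring

end MP087bf0
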