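import Mathlib
import Pool.Agent.Lib.MP_087bf0_co.FrameBound
open MeasureTheory Set Filter Topology
open scoped ENNReal Real

namespace MP087bf0

lemma rounding_one {F : Type*} [NormedAddCommGroup F] [InnerProductSpace ℝ F] (w y : F)
    (hw : ‖w‖ ≤ 1) {s : ℝ} (hs : s ∈ Icc (-1:ℝ) 1) :
    ∃ b : Bool, ‖y + (sgn b - s) • w‖ ^ 2 ≤ ‖y‖ ^ 2 + 1 := by
  by_contra hcon
  push Not at hcon
  have h1 := hcon true
  have h2 := hcon false
  rw [sgn_true, norm_add_sq_real, inner_smul_right, norm_smul, mul_pow, Real.norm_eq_abs,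
    sq_abs] at h1
  rw [sgn_false, norm_add_sq_real, inner_smul_right, norm_smul, mul_pow, Real.norm_eq_abs,
    sq_abs] at h2
  obtain ⟨hs1, hs2⟩ := hs
  have hw2 : ‖w‖ ^ 2 ≤ 1 := by nlinarith [norm_nonneg w]
  set i := inner ℝ y w
  have e1 : 1 < 2 * ((1 - s) * i) + (1 - s) ^ 2 * ‖w‖ ^ 2 := by linarith
  have e2 : 1 < 2 * ((-1 - s) * i) + (-1 - s) ^ 2 * ‖w‖ ^ 2 := by linarith
  have e3 : (1 + s) * 1 + (1 - s) * 1 ≤ (1 + s) * (2 * ((1 - s) * i) + (1 - s) ^ 2 * ‖w‖ ^ 2)
      + (1 - s) * (2 * ((-1 - s) * i) + (-1 - s) ^ 2 * ‖w‖ ^ 2) :=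
    add_le_add (mul_le_mul_of_nonneg_left e1.le (by linarith))
      (mul_le_mul_of_nonneg_left e2.le (by linarith))
  have e4 : (1 + s) * (2 * ((1 - s) * i) + (1 - s) ^ 2 * ‖w‖ ^ 2)
      + (1 - s) * (2 * ((-1 - s) * i) + (-1 - s) ^ 2 * ‖w‖ ^ 2) = 2 * (1 - s ^ 2) * ‖w‖ ^ 2 := by
    ring
  rw [e4] at e3
  have h1s : 0 ≤ 1 - s ^ 2 := by nlinarith
  have e5 : 2 * (1 - s ^ 2) * ‖w‖ ^ 2 ≤ 2 * (1 - s ^ 2) := by nlinarith
  have e6 : s ^ 2 ≤ 0 := by linarith
  have e7 : s = 0 := by nlinarith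
  subst e7
  have : ‖w‖ ^ 2 = 1 := by nlinarith
  nlinarith

lemma rounding {F : Type*} [NormedAddCommGroup F] [InnerProductSpace ℝ F] :
    ∀ (m : ℕ) (w : Fin m → F) (_ : ∀ j, ‖w j‖ ≤ 1) (s : Fin m → ℝ)
      (_ : ∀ j, s j ∈ Icc (-1:ℝ) 1) (y : F),
      ∃ η : Fin m → Bool, ‖y + ∑ j, (sgn (η j) - s j) • w j‖ ^ 2 ≤ ‖y‖ ^ 2 + m
  | 0, w, _, s, _, y => ⟨fun _ => true, by simp⟩
  | m + 1, w, hw, s, hs, y => by
      obtain ⟨b, hb⟩ := rounding_one (w 0) y (hw 0) (hs 0)
      obtain ⟨η, hη⟩ := rounding m (fun j => w j.succ) (fun j => hw _) (fun j => s j.succ)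
        (fun j => hs _) (y + (sgn b - s 0) • w 0)
      refine ⟨Fin.cons b η, ?_⟩
      rw [Fin.sum_univ_succ]
      simp only [Fin.cons_zero, Fin.cons_succ]
      rw [← add_assoc]
      push_cast
      linarith

lemma sigma_extend {F : Type*} [NormedAddCommGroup F] [NormedSpace ℝ F] {n m : ℕ} (v : Fin n → F)
    (ι : Fin m → Fin n) (hι : Function.Injective ι) (ε : Fin n → Bool) (η : Fin m → Bool) :
    ∑ i, sgn (Function.extend ι η ε i) • v i = X v ι ε + ∑ j, sgn (η j) • v (ι j) := by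
  classical
  have e1 : ∑ j, sgn (η j) • v (ι j)
      = ∑ i, (if i ∈ Set.range ι then sgn (Function.extend ι η ε i) • v i else 0) := by
    rw [← Finset.sum_filter]
    have : (Finset.univ.filter (fun i => i ∈ Set.range ι)) = Finset.univ.image ι := by
      ext i; simp
    rw [this, Finset.sum_image (fun x _ y _ h => hι h)]
    refine Finset.sum_congr rfl fun j _ => ?_
    rw [hι.extend_apply]
  rw [e1, X, ← Finset.sum_add_distrib]
  refine Finset.sum_congr rfl fun i _ => ?_
  by_cases hi : i ∈ Set.range ι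
  · simp [hi]
  · simp only [hi, if_false, add_zero]
    rw [Function.extend_apply']
    simpa using hi

open Classical in
lemma hit_card {F : Type*} [NormedAddCommGroup F] [InnerProductSpace ℝ F] {n m : ℕ}
    (v : Fin n → F) (hv : ∀ i, ‖v i‖ ≤ 1) (ι : Fin m → Fin n) (hι : Function.Injective ι) :
    (Finset.univ.filter (fun ε => Hit v ι ε)).card
      ≤ 2 ^ m * (Finset.univ.filter
          (fun ε : Fin n → Bool => ‖∑ i, sgn (ε i) • v i‖ ≤ √(m:ℝ))).card := by
  have hround : ∀ ε, Hit v ι ε → ∃ η : Fin m → Bool,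
      ‖∑ i, sgn (Function.extend ι η ε i) • v i‖ ≤ √(m:ℝ) := by
    rintro ε ⟨s, hs, hT⟩
    obtain ⟨η, hη⟩ := rounding m (fun j => v (ι j)) (fun j => hv _) s hs 0
    refine ⟨η, ?_⟩
    rw [sigma_extend v ι hι]
    have : X v ι ε = - ∑ j, s j • v (ι j) := by
      rw [T] at hT
      exact eq_neg_of_add_eq_zero_left hT
    rw [this]
    have e : - ∑ j, s j • v (ι j) + ∑ j, sgn (η j) • v (ι j)
        = 0 + ∑ j, (sgn (η j) - s j) • v (ι j) := by
      rw [zero_add]
      simp_rw [sub_smul]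
      rw [Finset.sum_sub_distrib]
      abel
    rw [e]
    apply Real.le_sqrt_of_sq_le
    simpa using hη
  choose! η hη using hround
  have hcard : (Finset.univ.filter (fun ε => Hit v ι ε)).card
      ≤ ((Finset.univ : Finset (Fin m → Bool)) ×ˢ (Finset.univ.filter
          (fun ε : Fin n → Bool => ‖∑ i, sgn (ε i) • v i‖ ≤ √(m:ℝ)))).card := by
    refine Finset.card_le_card_of_injOn (fun ε => (ε ∘ ι, Function.extend ι (η ε) ε)) ?_ ?_
    · intro ε hε
      simp only [Finset.coe_filter, Finset.mem_univ, true_and, Set.mem_ofPred_eq] at hε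
      simp only [Finset.coe_product, Finset.coe_univ, Finset.coe_filter, Finset.mem_univ, true_and,
        Set.mem_prod, Set.mem_univ, Set.mem_ofPred_eq]
      exact hη ε hε
    · intro ε _ ε' _ h
      simp only [Prod.mk.injEq] at h
      obtain ⟨h1, h2⟩ := h
      ext i
      by_cases hi : ∃ j, ι j = i
      · obtain ⟨j, rfl⟩ := hi
        exact congrArg (fun b : Bool => b = true) (congrFun h1 j) |> iff_of_eq |>.trans Iff.rfl |> fun h => by simpa using h
      · have := congrFun h2 i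
        rw [Function.extend_apply' _ _ _ hi, Function.extend_apply' _ _ _ hi] at this
        rw [this]
  refine hcard.trans (le_of_eq ?_)
  rw [Finset.card_product]
  simp

/-- isotropic position -/
lemma exists_parseval {d n : ℕ} (v : Fin n → EE d) (hv : Submodule.span ℝ (Set.range v) = ⊤) :
    ∃ Q : EE d →ₗ[ℝ] EE d, Function.Injective Q ∧ IsParseval (fun i => Q (v i)) := by
  let A : EE d →ₗ[ℝ] EE n :=
    { toFun := fun x => WithLp.toLp 2 (fun i => inner ℝ (v i) x)
      map_add' := fun x y => by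
        ext i; simp [inner_add_right]
      map_smul' := fun c x => by
        ext i; simp [inner_smul_right] }
  have hA : ∀ x, ‖A x‖ ^ 2 = ∑ i, inner ℝ (v i) x ^ 2 := by
    intro x
    rw [EuclideanSpace.norm_sq_eq]
    refine Finset.sum_congr rfl fun i _ => ?_
    simp [A]
  have hAinj : Function.Injective A := by
    rw [injective_iff_map_eq_zero]
    intro x hx
    have h1 : ∀ i, inner ℝ (v i) x = 0 := by
      intro i
      have h2 := hA x
      rw [hx, norm_zero, zero_pow two_ne_zero] at h2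
      have h3 := (Finset.sum_eq_zero_iff_of_nonneg (fun i _ => sq_nonneg (inner ℝ (v i) x))).1 h2.symm i
        (Finset.mem_univ i)
      exact pow_eq_zero_iff two_ne_zero |>.1 h3
    have h4 : ∀ y ∈ Submodule.span ℝ (Set.range v), inner ℝ y x = 0 := by
      intro y hy
      induction hy using Submodule.span_induction with
      | mem y hy => obtain ⟨i, rfl⟩ := hy; exact h1 i
      | zero => simp
      | add y z _ _ hy hz => rw [inner_add_left, hy, hz, add_zero]
      | smul c y _ hy => rw [inner_smul_left, hy, mul_zero]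
    have h5 := h4 x (by rw [hv]; trivial)
    exact inner_self_eq_zero.1 h5
  let V := LinearMap.range A
  let A' : EE d ≃ₗ[ℝ] V := LinearEquiv.ofInjective A hAinj
  have hfr : Module.finrank ℝ V = d := by
    rw [← A'.finrank_eq]; simp
  let bV : OrthonormalBasis (Fin d) ℝ V := (stdOrthonormalBasis ℝ V).reindex (finCongr hfr)
  let R : EE d ≃ₗ[ℝ] EE d := bV.repr.symm.toLinearEquiv.trans A'.symm
  have hR : ∀ x, ‖A (R x)‖ = ‖x‖ := by
    intro x
    have : A (R x) = (bV.repr.symm x : V) := by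
      have h1 : A (R x) = (A' (R x) : EE n) := rfl
      rw [h1]
      simp [R]
    rw [this]
    have h2 : ‖((bV.repr.symm x : V) : EE n)‖ = ‖bV.repr.symm x‖ := rfl
    rw [h2]
    exact bV.repr.symm.norm_map x
  refine ⟨LinearMap.adjoint (R : EE d →ₗ[ℝ] EE d), ?_, ?_⟩
  · rw [injective_iff_map_eq_zero]
    intro y hy
    have h1 : ∀ x, inner ℝ y x = 0 := by
      intro x
      have h2 := LinearMap.adjoint_inner_left (R : EE d →ₗ[ℝ] EE d) (R.symm x) y
      rw [hy, inner_zero_left] at h2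
      simpa using h2.symm
    exact inner_self_eq_zero.1 (h1 y)
  · intro x
    have h1 : ∀ i, inner ℝ (LinearMap.adjoint (R : EE d →ₗ[ℝ] EE d) (v i)) x = inner ℝ (v i) (R x) :=
      fun i => LinearMap.adjoint_inner_left (R : EE d →ₗ[ℝ] EE d) x (v i)
    simp_rw [h1]
    rw [← hA, hR]

end MP087bf0
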