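import Mathlib
import Pool.Agent.Lib.MP_087bf0_co.Rounding
open MeasureTheory Set Filter Topology
open scoped ENNReal Real

namespace MP087bf0

lemma omega_pos (m : ℕ) : 0 < omega m := by
  unfold omega
  rw [Measure.real, ENNReal.toReal_pos_iff]
  exact ⟨Metric.measure_ball_pos _ _ one_pos, measure_ball_lt_top⟩

/-- the constant in the non-asymptotic lower bound -/
noncomputable def lowC (d : ℕ) : ℝ :=
  √(d.factorial : ℝ) * ((d:ℝ) + 2) ^ (-((d:ℝ)/2)) / omega d

lemma prob_eq {d n : ℕ} (V : Fin n → EuclideanSpace ℝ (Fin d)) (r : ℝ) :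
    open Classical in
    prob V r = ((Finset.univ.filter (fun ε : Fin n → Bool => ‖∑ i, sgn (ε i) • V i‖ ≤ r)).card : ℝ)
      / 2 ^ n := rfl

lemma hit_map {F : Type*} [NormedAddCommGroup F] [NormedSpace ℝ F] {n m : ℕ} (v : Fin n → F)
    (Q : F →ₗ[ℝ] F) (hQ : Function.Injective Q) (ι : Fin m → Fin n) (ε : Fin n → Bool)
    (h : Hit (fun i => Q (v i)) ι ε) : Hit v ι ε := by
  classical
  obtain ⟨s, hs, hT⟩ := h
  refine ⟨s, hs, ?_⟩
  have : T (fun i => Q (v i)) ι ε s = Q (T v ι ε s) := by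
    unfold T X
    rw [map_add, map_sum, map_sum]
    congr 1
    · refine Finset.sum_congr rfl fun i _ => ?_
      split_ifs <;> simp
    · refine Finset.sum_congr rfl fun i _ => ?_
      simp
  rw [this] at hT
  exact hQ (by rw [hT, map_zero])

theorem spanning_bound {m n : ℕ} (v : Fin n → EE (m+1)) (hv : ∀ i, ‖v i‖ ≤ 1)
    (hspan : Submodule.span ℝ (Set.range v) = ⊤) :
    lowC (m+1) ≤ prob v (√((m+1 : ℕ):ℝ)) * (n:ℝ) ^ (((m+1 : ℕ):ℝ)/2) := by
  classical
  obtain ⟨Q, hQ, hu⟩ := exists_parseval v hspan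
  have h1 := frame_bound (fun i => Q (v i)) hu
  set u : Fin n → EE (m+1) := fun i => Q (v i) with hudef
  set D := (sb (m+1)).toBasis.det with hD
  set good : ℕ := (Finset.univ.filter
          (fun ε : Fin n → Bool => ‖∑ i, sgn (ε i) • v i‖ ≤ √((m+1 : ℕ):ℝ))).card with hgood
  have hω := omega_pos (m+1)
  have h2 : ∀ ι : Fin (m+1) → Fin n,
      |D (u ∘ ι)| * ((Finset.univ.filter (fun ε => Hit u ι ε)).card : ℝ)
        ≤ |D (u ∘ ι)| * (2 ^ (m+1) * (good : ℝ)) := by
    intro ι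
    by_cases h0 : D (u ∘ ι) = 0
    · rw [h0]; simp
    · have hinj : Function.Injective ι := by
        by_contra hni
        apply h0
        refine D.map_eq_zero_of_not_injective _ fun h => hni h.of_comp
      refine mul_le_mul_of_nonneg_left ?_ (abs_nonneg _)
      have h3 := hit_card v hv ι hinj
      have h4 : (Finset.univ.filter (fun ε => Hit u ι ε)).card
          ≤ (Finset.univ.filter (fun ε => Hit v ι ε)).card := by
        refine Finset.card_le_card fun ε => ?_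
        simp only [Finset.mem_filter, Finset.mem_univ, true_and]
        exact hit_map v Q hQ ι ε
      have h5 := h4.trans h3
      rw [← hgood] at h5
      exact_mod_cast h5
  have h3 : ∑ ι : Fin (m+1) → Fin n, |D (u ∘ ι)| ≤ √(((m+1).factorial : ℝ) * (n:ℝ) ^ (m+1)) := by
    apply Real.le_sqrt_of_sq_le
    have := Finset.sum_mul_sq_le_sq_mul_sq Finset.univ (fun ι : Fin (m+1) → Fin n => |D (u ∘ ι)|)
      (fun _ => 1)
    simp only [mul_one, one_pow, Finset.sum_const, Finset.card_univ, Fintype.card_fun,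
      Fintype.card_fin, sq_abs, nsmul_eq_mul] at this
    rw [sum_det_parseval (sb (m+1)) hu] at this
    push_cast at this
    exact this
  have h4 : 2 ^ n * ((m+1).factorial : ℝ) * ((m:ℝ) + 3) ^ (-(((m:ℝ)+1)/2))
      ≤ omega (m+1) * (good:ℝ) * √(((m+1).factorial : ℝ) * (n:ℝ) ^ (m+1)) := by
    refine h1.trans ?_
    calc (1/2) ^ (m+1) * omega (m+1) * ∑ ι : Fin (m+1) → Fin n,
          |D (u ∘ ι)| * ((Finset.univ.filter (fun ε => Hit u ι ε)).card : ℝ)
        ≤ (1/2) ^ (m+1) * omega (m+1) * ∑ ι : Fin (m+1) → Fin n,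
          |D (u ∘ ι)| * (2 ^ (m+1) * (good : ℝ)) := by
          refine mul_le_mul_of_nonneg_left (Finset.sum_le_sum fun ι _ => h2 ι) (by positivity)
      _ = omega (m+1) * (good:ℝ) * ∑ ι : Fin (m+1) → Fin n, |D (u ∘ ι)| := by
          rw [← Finset.sum_mul]
          have : ((1:ℝ)/2) ^ (m+1) * 2 ^ (m+1) = 1 := by
            rw [← mul_pow]; norm_num
          calc (1/2) ^ (m+1) * omega (m+1) * ((∑ ι : Fin (m+1) → Fin n, |D (u ∘ ι)|) *
                (2 ^ (m+1) * (good : ℝ)))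
              = ((1/2) ^ (m+1) * 2 ^ (m+1)) * (omega (m+1) * (good:ℝ) *
                ∑ ι : Fin (m+1) → Fin n, |D (u ∘ ι)|) := by ring
            _ = _ := by rw [this, one_mul]
      _ ≤ _ := mul_le_mul_of_nonneg_left h3 (by positivity)
  have hf0 : (0:ℝ) < ((m+1).factorial : ℝ) := by exact_mod_cast Nat.factorial_pos _
  set f := ((m+1).factorial : ℝ) with hf
  have h5 : √(f * (n:ℝ) ^ (m+1)) = √f * (n:ℝ) ^ (((m+1 : ℕ):ℝ)/2) := by
    rw [Real.sqrt_mul hf0.le]
    congr 1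
    rw [Real.sqrt_eq_rpow, ← Real.rpow_natCast, ← Real.rpow_mul (by positivity)]
    congr 1
    ring
  rw [h5] at h4
  have e1 : (m:ℝ) + 3 = ((m+1 : ℕ):ℝ) + 2 := by push_cast; ring
  have e2 : ((m:ℝ)+1)/2 = ((m+1 : ℕ):ℝ)/2 := by push_cast; ring
  rw [e1, e2] at h4
  rw [lowC, prob_eq, ← hf]
  rw [div_le_iff₀ hω]
  have hs : √f * √f = f := Real.mul_self_sqrt hf0.le
  have hsp : 0 < √f := Real.sqrt_pos.2 hf0
  have h2n : (0:ℝ) < 2 ^ n := by positivity
  rw [← mul_le_mul_iff_right₀ hsp, ← mul_le_mul_iff_right₀ h2n]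
  calc 2 ^ n * (√f * (√f * (((m+1 : ℕ):ℝ) + 2) ^ (-(((m+1 : ℕ):ℝ)/2))))
      = 2 ^ n * f * (((m+1 : ℕ):ℝ) + 2) ^ (-(((m+1 : ℕ):ℝ)/2)) := by
        rw [← mul_assoc (√f), hs]; ring
    _ ≤ _ := h4
    _ = _ := by
        field_simp
        rw [hgood, mul_comm]

/-- general bound, by perturbing to a spanning family -/
theorem general_bound {m n : ℕ} (hn : m + 1 ≤ n) (v : Fin n → EE (m+1)) (hv : ∀ i, ‖v i‖ ≤ 1) :
    lowC (m+1) ≤ prob v (√((m+1 : ℕ):ℝ)) * (n:ℝ) ^ (((m+1 : ℕ):ℝ)/2) := by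
  classical
  set b := sb (m+1) with hb
  let e : Fin n → EE (m+1) := fun i => if h : i.val < m + 1 then b ⟨i.val, h⟩ else 0
  have he : ∀ i, ‖e i‖ ≤ 1 := by
    intro i
    simp only [e]
    split_ifs
    · rw [b.norm_eq_one]
    · simp
  let vt : ℝ → Fin n → EE (m+1) := fun t i => (1 + t)⁻¹ • (v i + t • e i)
  -- norms
  have hvt : ∀ t : ℝ, 0 < t → ∀ i, ‖vt t i‖ ≤ 1 := by
    intro t ht i
    simp only [vt]
    rw [norm_smul, norm_inv, Real.norm_of_nonneg (by positivity), inv_mul_le_iff₀ (by positivity)]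
    calc ‖v i + t • e i‖ ≤ ‖v i‖ + ‖t • e i‖ := norm_add_le _ _
      _ = ‖v i‖ + t * ‖e i‖ := by rw [norm_smul, Real.norm_of_nonneg ht.le]
      _ ≤ 1 + t * 1 := add_le_add (hv i) (mul_le_mul_of_nonneg_left (he i) ht.le)
      _ = (1 + t) * 1 := by ring
  -- spanning
  let c : Fin (m+1) → Fin n := Fin.castLE hn
  have hc : ∀ j, e (c j) = b j := by
    intro j
    simp only [e, c]
    have : (Fin.castLE hn j).val < m + 1 := j.isLt
    rw [dif_pos this]
    congr 1
  let M : Matrix (Fin (m+1)) (Fin (m+1)) ℝ := b.toBasis.toMatrix (v ∘ c)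
  have hM : ∀ t : ℝ, b.toBasis.toMatrix (fun j => v (c j) + t • e (c j)) = Matrix.scalar _ t - (-M) := by
    intro t
    ext i j
    simp only [Module.Basis.toMatrix_apply, hc, map_add, map_smul, M, Matrix.sub_apply,
      Matrix.neg_apply, Matrix.scalar_apply, Matrix.diagonal_apply, Finsupp.add_apply,
      Finsupp.smul_apply]
    have : b.toBasis.repr (b j) i = if i = j then 1 else 0 := by
      have h1 : (b j : EE (m+1)) = b.toBasis j := by simp
      rw [h1, Module.Basis.repr_self, Finsupp.single_apply]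
      simp only [eq_comm]
    rw [this]
    split_ifs with h
    · simp; ring
    · simp
  have hspan : ∀ᶠ t in 𝓝[>] (0:ℝ), Submodule.span ℝ (Set.range (vt t)) = ⊤ := by
    set p := (-M).charpoly with hp
    have hp0 : p ≠ 0 := (Matrix.charpoly_monic _).ne_zero
    have hfin : ({t : ℝ | p.IsRoot t} \ {0}).Finite :=
      (Polynomial.finite_setOfPred_isRoot hp0).subset Set.sdiff_subset
    have hev : ∀ᶠ t in 𝓝 (0:ℝ), t ∉ ({t : ℝ | p.IsRoot t} \ {0}) :=
      hfin.isClosed.isOpen_compl.mem_nhds (by simp)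
    filter_upwards [nhdsWithin_le_nhds hev, self_mem_nhdsWithin] with t ht ht0
    have ht0' : (0:ℝ) < t := ht0
    have hroot : ¬ p.IsRoot t := fun h => ht ⟨h, by simpa using ht0'.ne'⟩
    have hdet : b.toBasis.det (fun j => v (c j) + t • e (c j)) ≠ 0 := by
      rw [Module.Basis.det_apply, hM, ← Matrix.eval_charpoly]
      exact hroot
    have hu : IsUnit (b.toBasis.det (fun j => v (c j) + t • e (c j))) := isUnit_iff_ne_zero.2 hdet
    have hsp := (b.toBasis.is_basis_iff_det.2 hu).2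
    rw [eq_top_iff, ← hsp, Submodule.span_le]
    rintro x ⟨j, rfl⟩
    have h1 : vt t (c j) ∈ Submodule.span ℝ (Set.range (vt t)) :=
      Submodule.subset_span ⟨c j, rfl⟩
    have h2 : (1 + t) • vt t (c j) = v (c j) + t • e (c j) := by
      simp only [vt]
      rw [smul_smul, mul_inv_cancel₀ (by positivity), one_smul]
    have h3 := Submodule.smul_mem _ (1 + t) h1
    rw [h2] at h3
    exact h3
  -- semicontinuity
  have hcont : ∀ ε : Fin n → Bool, ∀ᶠ t in 𝓝[>] (0:ℝ),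
      ‖∑ i, sgn (ε i) • vt t i‖ ≤ √((m+1 : ℕ):ℝ) → ‖∑ i, sgn (ε i) • v i‖ ≤ √((m+1 : ℕ):ℝ) := by
    intro ε
    by_cases h : ‖∑ i, sgn (ε i) • v i‖ ≤ √((m+1 : ℕ):ℝ)
    · exact Filter.Eventually.of_forall fun _ _ => h
    · push Not at h
      have hct : ContinuousAt (fun t => ‖∑ i, sgn (ε i) • vt t i‖) 0 := by
        have h1 : ContinuousAt (fun t : ℝ => (1 + t)⁻¹) 0 := by
          refine ContinuousAt.inv₀ (by fun_prop) (by norm_num)
        simp only [vt]
        fun_prop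
      have h0 : ‖∑ i, sgn (ε i) • vt 0 i‖ = ‖∑ i, sgn (ε i) • v i‖ := by simp [vt]
      have hlt : √((m+1 : ℕ):ℝ) < (fun t => ‖∑ i, sgn (ε i) • vt t i‖) 0 := by
        simp only [h0]; exact h
      have := hct.eventually (lt_mem_nhds hlt)
      filter_upwards [nhdsWithin_le_nhds this] with t ht hle
      exact absurd hle (not_le.2 ht)
  have hall : ∀ᶠ t in 𝓝[>] (0:ℝ), ∀ ε : Fin n → Bool,
      ‖∑ i, sgn (ε i) • vt t i‖ ≤ √((m+1 : ℕ):ℝ) → ‖∑ i, sgn (ε i) • v i‖ ≤ √((m+1 : ℕ):ℝ) :=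
    Filter.eventually_all.2 hcont
  obtain ⟨t, h1, h2, h3⟩ := (hspan.and (hall.and self_mem_nhdsWithin)).exists
  have h4 := spanning_bound (vt t) (hvt t h3) h1
  refine h4.trans (mul_le_mul_of_nonneg_right ?_ (by positivity))
  rw [prob_eq, prob_eq]
  refine div_le_div_of_nonneg_right ?_ (by positivity)
  have : (Finset.univ.filter (fun ε : Fin n → Bool => ‖∑ i, sgn (ε i) • vt t i‖ ≤ √((m+1 : ℕ):ℝ))).card
    ≤ (Finset.univ.filter (fun ε : Fin n → Bool => ‖∑ i, sgn (ε i) • v i‖ ≤ √((m+1 : ℕ):ℝ))).card := by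
    refine Finset.card_le_card fun ε => ?_
    simp only [Finset.mem_filter, Finset.mem_univ, true_and]
    exact h2 ε
  exact_mod_cast this

end MP087bf0
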