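import Mathlib
open Set Filter Topology MeasureTheory
open scoped Real

namespace MP087bf0

lemma integral_exp_sinc (γ b : ℝ) :
    ∫ x in -b..b, Complex.exp ((γ * x : ℝ) * Complex.I) = 2 * b * Real.sinc (γ * b) := by
  rcases eq_or_ne γ 0 with h | h
  · subst h
    simp
    ring
  · have h1 := intervalIntegral.integral_comp_mul_left (a := -b) (b := b)
      (fun t : ℝ => Complex.exp ((t : ℝ) * Complex.I)) h
    rw [h1, mul_neg, integral_exp_mul_I_eq_sinc]
    rw [Complex.real_smul]
    push_cast
    have : (γ:ℂ) ≠ 0 := by exact_mod_cast h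
    field_simp

/-- Bessel's inequality for the exponential of the interval `[-b,b]`. -/
lemma sinc_periodization {b : ℝ} (hb : 0 < b) (hbπ : b < π) (θ : ℝ) (S : Finset ℤ) :
    ∑ z ∈ S, Real.sinc (θ + b * z) ^ 2 ≤ π / b := by
  have hπ := Real.pi_pos
  have hab : -π < π := by linarith
  set β := θ / b with hβ
  set f : ℝ → ℂ := (Icc (-b) b).indicator (fun x => Complex.exp ((β * x : ℝ) * Complex.I)) with hf
  have hmeas : Measurable f := by
    refine Measurable.indicator ?_ measurableSet_Icc
    fun_prop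
  have hnorm : ∀ x, ‖f x‖ = (Icc (-b) b).indicator (fun _ => (1:ℝ)) x := by
    intro x
    by_cases hx : x ∈ Icc (-b) b
    · rw [hf, indicator_of_mem hx, indicator_of_mem hx, Complex.norm_exp_ofReal_mul_I]
    · rw [hf, indicator_of_notMem hx, indicator_of_notMem hx, norm_zero]
  have hL2 : MemLp f 2 (volume.restrict (Ioc (-π) π)) := by
    refine MemLp.of_bound hmeas.aestronglyMeasurable 1 (Eventually.of_forall fun x => ?_)
    rw [hnorm]
    by_cases hx : x ∈ Icc (-b) b
    · rw [indicator_of_mem hx]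
    · rw [indicator_of_notMem hx]; norm_num
  have hsum := hasSum_sq_fourierCoeffOn hab hL2
  -- restricting the integrals
  have hrestrict : ∀ g : ℝ → ℂ, ∫ x in (-π)..π, (Icc (-b) b).indicator g x = ∫ x in (-b)..b, g x := by
    intro g
    rw [intervalIntegral.integral_of_le hab.le, intervalIntegral.integral_of_le (by linarith),
      ← integral_Icc_eq_integral_Ioc (x := -b), setIntegral_indicator measurableSet_Icc]
    congr 2
    ext x
    simp only [mem_inter_iff, mem_Ioc, mem_Icc]
    constructor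
    · rintro ⟨_, h⟩; exact h
    · intro h; exact ⟨⟨by linarith [h.1], by linarith [h.2]⟩, h⟩
  have hcoef : ∀ n : ℤ, ‖fourierCoeffOn hab f n‖ ^ 2 = (b / π) ^ 2 * Real.sinc (θ - b * n) ^ 2 := by
    intro n
    rw [fourierCoeffOn_eq_integral]
    have h1 : ∀ x : ℝ, (fourier (-n)) (x : AddCircle (π - -π)) • f x
        = (Icc (-b) b).indicator (fun x => Complex.exp (((β - n) * x : ℝ) * Complex.I)) x := by
      intro x
      by_cases hx : x ∈ Icc (-b) b
      · rw [hf, indicator_of_mem hx, indicator_of_mem hx, fourier_coe_apply, smul_eq_mul,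
          ← Complex.exp_add]
        congr 1
        push_cast
        have : (π:ℂ) ≠ 0 := by exact_mod_cast hπ.ne'
        field_simp
        ring
      · rw [hf, indicator_of_notMem hx, indicator_of_notMem hx, smul_zero]
    simp_rw [h1]
    rw [hrestrict, integral_exp_sinc]
    have h2 : (β - n) * b = θ - b * n := by rw [hβ]; field_simp
    rw [h2, norm_smul]
    have h3 : ‖(2 * (b:ℂ) * (Real.sinc (θ - b * n) : ℂ))‖ = 2 * b * |Real.sinc (θ - b * n)| := by
      rw [norm_mul, norm_mul, Complex.norm_real, Complex.norm_real, Real.norm_of_nonneg hb.le]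
      simp
    rw [h3]
    have h4 : ‖(1 / (π - -π) : ℝ)‖ = 1 / (2 * π) := by
      rw [Real.norm_of_nonneg (by positivity)]
      congr 1; ring
    rw [h4]
    have h5 : (1 / (2 * π) * (2 * b * |Real.sinc (θ - b * n)|)) ^ 2
        = (b / π) ^ 2 * |Real.sinc (θ - b * n)| ^ 2 := by
      field_simp
    rw [h5, sq_abs]
  have hint : ∫ x in (-π)..π, ‖f x‖ ^ 2 = 2 * b := by
    have h1 : ∀ x, ‖f x‖ ^ 2 = (Icc (-b) b).indicator (fun _ => (1:ℝ)) x := by
      intro x
      rw [hnorm]
      by_cases hx : x ∈ Icc (-b) b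
      · rw [indicator_of_mem hx]; norm_num
      · rw [indicator_of_notMem hx]; norm_num
    simp_rw [h1]
    rw [intervalIntegral.integral_of_le hab.le, setIntegral_indicator measurableSet_Icc]
    have h2 : Ioc (-π) π ∩ Icc (-b) b = Icc (-b) b := by
      ext x
      simp only [mem_inter_iff, mem_Ioc, mem_Icc]
      constructor
      · rintro ⟨_, h⟩; exact h
      · intro h; exact ⟨⟨by linarith [h.1], by linarith [h.2]⟩, h⟩
    rw [h2]
    simp [Real.volume_real_Icc_of_le (show -b ≤ b by linarith)]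
    ring
  rw [hint] at hsum
  have hle := sum_le_hasSum (S.map (Equiv.neg ℤ).toEmbedding) (fun n _ => by positivity) hsum
  simp_rw [hcoef] at hle
  rw [Finset.sum_map, ← Finset.mul_sum] at hle
  have h6 : ∀ z : ℤ, θ - b * (((Equiv.neg ℤ).toEmbedding z : ℤ) : ℝ) = θ + b * z := by
    intro z
    simp
  simp_rw [h6] at hle
  have h7 : (π - -π)⁻¹ • (2 * b) = b / π := by
    rw [smul_eq_mul]; field_simp; ring
  rw [h7] at hle
  have h8 : 0 < b / π := by positivity
  have h9 : (b / π) ^ 2 * ∑ z ∈ S, Real.sinc (θ + b * z) ^ 2 ≤ (b / π) ^ 2 * (π / b) := by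
    refine hle.trans (le_of_eq ?_)
    field_simp
  exact le_of_mul_le_mul_left h9 (by positivity)

/-- the one-dimensional kernel -/
noncomputable def hk (a s : ℝ) : ℝ := Real.sinc (a * s / 2) ^ 2

lemma hk_nonneg (a s : ℝ) : 0 ≤ hk a s := sq_nonneg _

lemma hk_le_one (a s : ℝ) : hk a s ≤ 1 := by
  unfold hk
  rw [← sq_abs]
  have := Real.abs_sinc_le_one (a * s / 2)
  have := abs_nonneg (Real.sinc (a * s / 2))
  nlinarith

lemma hk_decay {a s : ℝ} (ha : 0 < a) (hs : s ≠ 0) : hk a s ≤ 4 / (a ^ 2 * s ^ 2) := by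
  unfold hk
  have h0 : a * s / 2 ≠ 0 := by
    have := ha.ne'
    positivity
  rw [Real.sinc_of_ne_zero h0, div_pow]
  have h1 : Real.sin (a * s / 2) ^ 2 ≤ 1 := Real.sin_sq_le_one _
  have h2 : 0 < (a * s / 2) ^ 2 := by positivity
  calc Real.sin (a * s / 2) ^ 2 / (a * s / 2) ^ 2 ≤ 1 / (a * s / 2) ^ 2 :=
        div_le_div_of_nonneg_right h1 h2.le
    _ = 4 / (a ^ 2 * s ^ 2) := by field_simp; norm_num

lemma hk_lower {a s : ℝ} (ha : 0 < a) (ha1 : a ≤ 1) (hs : |s| ≤ 1) : 1 / 2 ≤ hk a s := by
  unfold hk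
  set x := a * s / 2 with hx
  have hx1 : |x| ≤ 1 / 2 := by
    rw [hx, abs_div, abs_mul, abs_of_pos ha, abs_of_pos (by norm_num : (0:ℝ) < 2)]
    have : a * |s| ≤ 1 * 1 := mul_le_mul ha1 hs (abs_nonneg _) zero_le_one
    linarith
  have hlow : 9 / 10 ≤ Real.sinc x := by
    rcases eq_or_ne x 0 with h | h
    · rw [h, Real.sinc_zero]; norm_num
    · -- sinc is even: reduce to positive
      have key : ∀ y : ℝ, 0 < y → y ≤ 1 / 2 → 9 / 10 ≤ Real.sinc y := by
        intro y hy hy1
        rw [Real.sinc_of_ne_zero hy.ne', le_div_iff₀ hy]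
        have h1 := Real.sin_gt_sub_cube hy
        have h2 : y ^ 2 ≤ 1 / 4 := by nlinarith
        have h3 : y ^ 3 ≤ y * (1 / 4) := by
          have : y ^ 3 = y * y ^ 2 := by ring
          rw [this]; exact mul_le_mul_of_nonneg_left h2 hy.le
        linarith
      rcases lt_or_gt_of_ne h with h1 | h1
      · rw [← Real.sinc_neg]
        exact key _ (by linarith) (by rw [abs_of_neg h1] at hx1; exact hx1)
      · exact key _ h1 (by rw [abs_of_pos h1] at hx1; exact hx1)
  nlinarith

/-- periodization bound for the kernel -/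
lemma hk_periodization {a l : ℝ} (ha : 0 < a) (ha1 : a ≤ 1) (hl : 0 < l) (hl1 : l ≤ 1) (c : ℝ)
    (S : Finset ℤ) : ∑ z ∈ S, hk a (c + 2 * l * z) ≤ π / (a * l) := by
  have h := sinc_periodization (b := a * l) (by positivity)
    (by have := Real.pi_gt_three; nlinarith) (a * c / 2) S
  refine le_trans (le_of_eq ?_) h
  refine Finset.sum_congr rfl fun z _ => ?_
  unfold hk
  congr 2
  ring

/-- the triangular Fourier density of the kernel -/
noncomputable def tent (a τ : ℝ) : ℝ := max 0 (1 - |τ| / a) / a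

lemma tent_nonneg {a : ℝ} (ha : 0 < a) (τ : ℝ) : 0 ≤ tent a τ :=
  div_nonneg (le_max_left _ _) ha.le

lemma tent_le {a : ℝ} (ha : 0 < a) (τ : ℝ) : tent a τ ≤ 1 / a := by
  unfold tent
  refine div_le_div_of_nonneg_right (max_le (by norm_num) ?_) ha.le
  have : 0 ≤ |τ| / a := by positivity
  linarith

lemma tent_zero {a : ℝ} (ha : 0 < a) {τ : ℝ} (h : a ≤ |τ|) : tent a τ = 0 := by
  unfold tent
  have : 1 - |τ| / a ≤ 0 := by
    rw [sub_nonpos, le_div_iff₀ ha]; linarith
  rw [max_eq_left this, zero_div]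

lemma tent_cont {a : ℝ} : Continuous (tent a) := by
  unfold tent; fun_prop

lemma tent_even {a : ℝ} (τ : ℝ) : tent a (-τ) = tent a τ := by
  unfold tent; rw [abs_neg]

lemma tent_support {a : ℝ} (ha : 0 < a) : Function.support (tent a) ⊆ Icc (-a) a := by
  intro τ hτ
  rw [Function.mem_support] at hτ
  by_contra h
  apply hτ
  apply tent_zero ha
  rw [mem_Icc, ← abs_le] at h
  exact (not_le.1 h).le

lemma tent_compact {a : ℝ} (ha : 0 < a) : HasCompactSupport (tent a) :=
  HasCompactSupport.of_support_subset_isCompact isCompact_Icc (tent_support ha)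

lemma tent_eq {a τ : ℝ} (ha : 0 < a) (h0 : 0 ≤ τ) (h1 : τ ≤ a) : tent a τ = (1 - τ / a) / a := by
  unfold tent
  rw [abs_of_nonneg h0, max_eq_right]
  rw [sub_nonneg, div_le_one ha]; exact h1

lemma half_integral {a : ℝ} (ha : 0 < a) (s : ℝ) :
    ∫ τ in (0:ℝ)..a, tent a τ * Real.cos (τ * s) = hk a s / 2 := by
  have h1 : ∫ τ in (0:ℝ)..a, tent a τ * Real.cos (τ * s)
      = ∫ τ in (0:ℝ)..a, (1 - τ / a) / a * Real.cos (τ * s) := by
    refine intervalIntegral.integral_congr fun τ hτ => ?_
    rw [uIcc_of_le ha.le] at hτ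
    rw [tent_eq ha hτ.1 hτ.2]
  rw [h1]
  rcases eq_or_ne s 0 with h | h
  · subst h
    have hd : ∀ τ ∈ uIcc (0:ℝ) a, HasDerivAt (fun τ : ℝ => (τ - τ ^ 2 / (2 * a)) / a)
        ((1 - τ / a) / a * Real.cos (τ * 0)) τ := by
      intro τ _
      have := (((hasDerivAt_id τ).sub ((hasDerivAt_pow 2 τ).div_const (2 * a))).div_const a)
      refine this.congr_deriv ?_
      simp
      field_simp
    rw [intervalIntegral.integral_eq_sub_of_hasDerivAt hd (by
      apply Continuous.intervalIntegrable; fun_prop)]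
    unfold hk
    simp
    field_simp
    ring
  · have hd : ∀ τ ∈ uIcc (0:ℝ) a, HasDerivAt (fun τ : ℝ => ((1 - τ / a) * Real.sin (τ * s) / s
        - Real.cos (τ * s) / (a * s ^ 2)) / a)
        ((1 - τ / a) / a * Real.cos (τ * s)) τ := by
      intro τ _
      have d0 : HasDerivAt (fun τ : ℝ => τ * s) s τ := by
        simpa using (hasDerivAt_id τ).mul_const s
      have d1 := (Real.hasDerivAt_sin (τ * s)).comp τ d0
      have d2 := (Real.hasDerivAt_cos (τ * s)).comp τ d0
      have d3 : HasDerivAt (fun τ : ℝ => 1 - τ / a) (-(1 / a)) τ := by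
        have := ((hasDerivAt_id τ).div_const a).const_sub 1
        simpa using this
      have := ((((d3.mul d1).div_const s).sub (d2.div_const (a * s ^ 2))).div_const a)
      refine this.congr_deriv ?_
      simp only [Function.comp]
      field_simp
      ring
    rw [intervalIntegral.integral_eq_sub_of_hasDerivAt hd (by
      apply Continuous.intervalIntegrable; fun_prop)]
    unfold hk
    have h0 : a * s / 2 ≠ 0 := by
      have := ha.ne'
      positivity
    rw [Real.sinc_of_ne_zero h0, div_pow]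
    have h2 : Real.sin (a * s / 2) ^ 2 = (1 - Real.cos (a * s)) / 2 := by
      have h3 := Real.cos_two_mul (a * s / 2)
      have h4 := Real.sin_sq_add_cos_sq (a * s / 2)
      have h5 : 2 * (a * s / 2) = a * s := by ring
      rw [h5] at h3
      linarith
    rw [h2]
    simp
    field_simp
    ring

lemma tent_cos_integral {a : ℝ} (ha : 0 < a) (s : ℝ) :
    ∫ τ : ℝ, tent a τ * Real.cos (τ * s) = hk a s := by
  have hsupp : Function.support (fun τ : ℝ => tent a τ * Real.cos (τ * s)) ⊆ Ioc (-a) a := by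
    intro τ hτ
    rw [Function.mem_support] at hτ
    have h1 : tent a τ ≠ 0 := left_ne_zero_of_mul hτ
    have h2 : |τ| < a := by
      by_contra h
      exact h1 (tent_zero ha (not_lt.1 h))
    rw [abs_lt] at h2
    exact ⟨h2.1, h2.2.le⟩
  rw [← intervalIntegral.integral_eq_integral_of_support_subset hsupp]
  have hcont : Continuous (fun τ : ℝ => tent a τ * Real.cos (τ * s)) := by
    have := tent_cont (a := a); fun_prop
  rw [← intervalIntegral.integral_add_adjacent_intervals (b := 0) (hcont.intervalIntegrable _ _)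
    (hcont.intervalIntegrable _ _)]
  have h1 : ∫ τ in (-a)..0, tent a τ * Real.cos (τ * s) = ∫ τ in (0:ℝ)..a, tent a τ * Real.cos (τ * s) := by
    have h2 := intervalIntegral.integral_comp_neg (a := 0) (b := a) (fun τ : ℝ => tent a τ * Real.cos (τ * s))
    rw [neg_zero] at h2
    rw [← h2]
    refine intervalIntegral.integral_congr fun τ _ => ?_
    simp only [tent_even, neg_mul, Real.cos_neg]
  rw [h1, half_integral ha]
  ring

lemma tent_integral {a : ℝ} (ha : 0 < a) (s : ℝ) :
    ∫ τ : ℝ, (tent a τ : ℂ) * Complex.exp ((τ * s : ℝ) * Complex.I) = (hk a s : ℂ) := by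
  have hc := tent_cont (a := a)
  have hcomp : HasCompactSupport (tent a) := tent_compact ha
  have hi1 : Integrable (fun τ : ℝ => tent a τ * Real.cos (τ * s)) := by
    refine Continuous.integrable_of_hasCompactSupport (by fun_prop) ?_
    exact hcomp.mul_right
  have hi2 : Integrable (fun τ : ℝ => tent a τ * Real.sin (τ * s)) := by
    refine Continuous.integrable_of_hasCompactSupport (by fun_prop) ?_
    exact hcomp.mul_right
  have hodd : ∫ τ : ℝ, tent a τ * Real.sin (τ * s) = 0 := by
    have h1 := integral_neg_eq_self (fun τ : ℝ => tent a τ * Real.sin (τ * s)) volume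
    have h2 : ∀ τ : ℝ, tent a (-τ) * Real.sin (-τ * s) = - (tent a τ * Real.sin (τ * s)) := by
      intro τ
      rw [tent_even, neg_mul, Real.sin_neg]; ring
    simp_rw [h2] at h1
    rw [integral_neg] at h1
    linarith
  have h1 : ∀ τ : ℝ, (tent a τ : ℂ) * Complex.exp ((τ * s : ℝ) * Complex.I)
      = ((tent a τ * Real.cos (τ * s) : ℝ) : ℂ) + ((tent a τ * Real.sin (τ * s) : ℝ) : ℂ) * Complex.I := by
    intro τ
    rw [Complex.exp_mul_I, ← Complex.ofReal_cos, ← Complex.ofReal_sin]
    push_cast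
    ring
  simp_rw [h1]
  rw [integral_add hi1.ofReal (hi2.ofReal.mul_const _), integral_mul_const, integral_complex_ofReal,
    integral_complex_ofReal, hodd, tent_cos_integral ha]
  simp

end MP087bf0
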