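import Mathlib
import Pool.Agent.Lib.MP_087bf0_co.FourierOne
import Pool.Agent.Lib.MP_087bf0_co.Kernel
open Set Filter Topology MeasureTheory
open scoped Real

namespace MP087bf0

/-- product kernel -/
noncomputable def Hk (a : ℝ) {d : ℕ} (x : EE d) : ℝ := ∏ j, hk a (x j)

lemma Hk_nonneg (a : ℝ) {d : ℕ} (x : EE d) : 0 ≤ Hk a x :=
  Finset.prod_nonneg fun _ _ => hk_nonneg _ _

/-- pairing -/
noncomputable def dot {d : ℕ} (ξ : Fin d → ℝ) (v : EE d) : ℝ := ∑ j, ξ j * v j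

lemma dot_add {d : ℕ} (ξ : Fin d → ℝ) (v w : EE d) : dot ξ (v + w) = dot ξ v + dot ξ w := by
  unfold dot; rw [← Finset.sum_add_distrib]
  refine Finset.sum_congr rfl fun j _ => ?_
  simp [mul_add]

lemma dot_smul {d : ℕ} (ξ : Fin d → ℝ) (c : ℝ) (v : EE d) : dot ξ (c • v) = c * dot ξ v := by
  unfold dot; rw [Finset.mul_sum]
  refine Finset.sum_congr rfl fun j _ => ?_
  simp; ring

lemma dot_sum {d n : ℕ} (ξ : Fin d → ℝ) (v : Fin n → EE d) :
    dot ξ (∑ i, v i) = ∑ i, dot ξ (v i) := by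
  unfold dot
  rw [Finset.sum_comm]
  refine Finset.sum_congr rfl fun j _ => ?_
  simp [Finset.mul_sum]

lemma dot_sq_le {d : ℕ} (ξ : Fin d → ℝ) (v : EE d) (hv : ‖v‖ ≤ 1) : dot ξ v ^ 2 ≤ ∑ j, ξ j ^ 2 := by
  unfold dot
  have h1 := Finset.sum_mul_sq_le_sq_mul_sq Finset.univ ξ (fun j => v j)
  have h2 : ∑ j, v j ^ 2 ≤ 1 := by
    have h3 := EuclideanSpace.norm_sq_eq v
    simp only [Real.norm_eq_abs, sq_abs] at h3
    rw [← h3]
    have := norm_nonneg v
    nlinarith
  have h4 : 0 ≤ ∑ j, ξ j ^ 2 := Finset.sum_nonneg fun _ _ => sq_nonneg _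
  nlinarith

lemma Hk_integral {a : ℝ} (ha : 0 < a) {d : ℕ} (x : EE d) :
    (Hk a x : ℂ) = ∫ ξ : Fin d → ℝ, (∏ j, (tent a (ξ j) : ℂ)) * Complex.exp ((dot ξ x : ℝ) * Complex.I) := by
  have h1 := integral_fintype_prod_volume_eq_prod (ι := Fin d) (E := fun _ => ℝ) (𝕜 := ℂ)
    (fun j τ => (tent a τ : ℂ) * Complex.exp ((τ * x j : ℝ) * Complex.I))
  simp_rw [tent_integral ha] at h1
  unfold Hk
  push_cast
  rw [← h1]
  congr 1
  ext ξ
  rw [Finset.prod_mul_distrib, ← Complex.exp_sum]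
  congr 2
  unfold dot
  push_cast
  rw [Finset.sum_mul]

lemma tentprod_integrable {a : ℝ} (ha : 0 < a) (d : ℕ) :
    Integrable (fun ξ : Fin d → ℝ => ∏ j, tent a (ξ j)) :=
  Integrable.fintype_prod (f := fun _ τ => tent a τ) fun _ =>
    tent_cont.integrable_of_hasCompactSupport (tent_compact ha)

lemma avg_exp {d n : ℕ} (ξ : Fin d → ℝ) (c : EE d) (v : Fin n → EE d) :
    ∑ ε : Fin n → Bool, Complex.exp ((dot ξ (c + ∑ i, sgn (ε i) • v i) : ℝ) * Complex.I)
      = 2 ^ n * (Complex.exp ((dot ξ c : ℝ) * Complex.I) * ∏ i, ((Real.cos (dot ξ (v i)) : ℝ) : ℂ)) := by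
  have h1 : ∀ ε : Fin n → Bool, Complex.exp ((dot ξ (c + ∑ i, sgn (ε i) • v i) : ℝ) * Complex.I)
      = Complex.exp ((dot ξ c : ℝ) * Complex.I)
        * ∏ i, Complex.exp ((sgn (ε i) * dot ξ (v i) : ℝ) * Complex.I) := by
    intro ε
    rw [dot_add, dot_sum, ← Complex.exp_sum, ← Complex.exp_add]
    congr 1
    push_cast
    rw [add_mul, Finset.sum_mul]
    congr 1
    refine Finset.sum_congr rfl fun i _ => ?_
    rw [dot_smul]; push_cast; ring
  simp_rw [h1]
  rw [← Finset.mul_sum]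
  have h2 := (Finset.prod_univ_sum (fun _ : Fin n => (Finset.univ : Finset Bool))
      (fun i b => Complex.exp ((sgn b * dot ξ (v i) : ℝ) * Complex.I)))
  rw [Fintype.piFinset_univ] at h2
  rw [← h2]
  have h3 : ∀ i, ∑ b, Complex.exp ((sgn b * dot ξ (v i) : ℝ) * Complex.I)
      = 2 * ((Real.cos (dot ξ (v i)) : ℝ) : ℂ) := by
    intro i
    rw [Fintype.sum_bool, sgn_true, sgn_false]
    rw [Complex.exp_mul_I, Complex.exp_mul_I]
    push_cast
    rw [one_mul, neg_one_mul, Complex.cos_neg, Complex.sin_neg]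
    ring
  simp_rw [h3]
  rw [Finset.prod_mul_distrib]
  simp
  ring

/-- expected kernel value -/
noncomputable def EHk (a : ℝ) {d n : ℕ} (v : Fin n → EE d) (c : EE d) : ℝ :=
  (∑ ε : Fin n → Bool, Hk a (c + ∑ i, sgn (ε i) • v i)) / 2 ^ n

lemma EHk_integral {a : ℝ} (ha : 0 < a) {d n : ℕ} (v : Fin n → EE d) (c : EE d) :
    (EHk a v c : ℂ) = ∫ ξ : Fin d → ℝ, (∏ j, (tent a (ξ j) : ℂ)) *
      (Complex.exp ((dot ξ c : ℝ) * Complex.I) * ∏ i, ((Real.cos (dot ξ (v i)) : ℝ) : ℂ)) := by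
  unfold EHk
  push_cast
  simp_rw [Hk_integral ha]
  rw [← integral_finsetSum]
  · have h1 : ∀ ξ : Fin d → ℝ, ∑ ε : Fin n → Bool, (∏ j, (tent a (ξ j) : ℂ)) *
        Complex.exp ((dot ξ (c + ∑ i, sgn (ε i) • v i) : ℝ) * Complex.I)
        = 2 ^ n * ((∏ j, (tent a (ξ j) : ℂ)) *
      (Complex.exp ((dot ξ c : ℝ) * Complex.I) * ∏ i, ((Real.cos (dot ξ (v i)) : ℝ) : ℂ))) := by
      intro ξ
      rw [← Finset.mul_sum, avg_exp]; ring
    simp_rw [h1]
    rw [integral_const_mul, mul_div_cancel_left₀ _ (pow_ne_zero n two_ne_zero)]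
    simp only [Complex.ofReal_cos]
  · intro ε _
    have hi : Integrable (fun ξ : Fin d → ℝ => ((∏ j, tent a (ξ j) : ℝ) : ℂ)) :=
      (tentprod_integrable ha d).ofReal
    have hb := hi.bdd_mul (c := 1) (f := fun ξ : Fin d → ℝ =>
        Complex.exp ((dot ξ (c + ∑ i, sgn (ε i) • v i) : ℝ) * Complex.I))
      (by
        apply Continuous.aestronglyMeasurable
        unfold dot
        fun_prop)
      (Eventually.of_forall fun ξ => by rw [Complex.norm_exp_ofReal_mul_I])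
    refine hb.congr (Eventually.of_forall fun ξ => ?_)
    push_cast
    ring

lemma abs_dot_le_one {a : ℝ} {d : ℕ} (had : a ^ 2 * d ≤ 1) {ξ : Fin d → ℝ}
    (hξ : ∀ j, |ξ j| ≤ a) (v : EE d) (hv : ‖v‖ ≤ 1) : |dot ξ v| ≤ 1 := by
  have h1 := dot_sq_le ξ v hv
  have h2 : ∑ j, ξ j ^ 2 ≤ a ^ 2 * d := by
    have : ∀ j ∈ (Finset.univ : Finset (Fin d)), ξ j ^ 2 ≤ a ^ 2 := by
      intro j _
      rw [← sq_abs]
      exact pow_le_pow_left₀ (abs_nonneg _) (hξ j) 2
    refine (Finset.sum_le_sum this).trans (le_of_eq ?_)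
    simp; ring
  rw [← sq_le_one_iff_abs_le_one]
  linarith

lemma cos_le_exp {t : ℝ} (ht : |t| ≤ 1) : |Real.cos t| ≤ Real.exp (-(t ^ 2 / 5)) := by
  have hπ := Real.pi_lt_d2
  have hπ3 := Real.pi_gt_three
  have h0 : 0 ≤ Real.cos t := by
    apply Real.cos_nonneg_of_mem_Icc
    obtain ⟨h1, h2⟩ := abs_le.1 ht
    constructor <;> linarith
  rw [abs_of_nonneg h0]
  have h1 := Real.cos_le_one_sub_mul_cos_sq (x := t) (by linarith)
  have h2 := Real.add_one_le_exp (-(t ^ 2 / 5))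
  have h3 : 1 / 5 ≤ 2 / π ^ 2 := by
    rw [div_le_div_iff₀ (by norm_num) (by positivity)]
    nlinarith
  nlinarith [sq_nonneg t]

/-- upper bound for the expected kernel -/
theorem EHk_le {a : ℝ} (ha : 0 < a) {d n : ℕ} (had : a ^ 2 * d ≤ 1) (v : Fin n → EE d)
    (hv : ∀ i, ‖v i‖ ≤ 1) {L : ℝ} (hL : 0 < L)
    (hlow : ∀ ξ : Fin d → ℝ, L * ∑ j, ξ j ^ 2 ≤ ∑ i, dot ξ (v i) ^ 2) (c : EE d) :
    EHk a v c ≤ (1 / a * √(5 * π / L)) ^ d := by
  have hπ := Real.pi_pos
  have h1 : EHk a v c ≤ ‖(EHk a v c : ℂ)‖ := by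
    rw [Complex.norm_real]; exact Real.le_norm_self _
  refine h1.trans ?_
  rw [EHk_integral ha]
  set g : ℝ → ℝ := fun τ => 1 / a * Real.exp (-(L / 5) * τ ^ 2) with hg
  have hgi : Integrable g := (integrable_exp_neg_mul_sq (by positivity)).const_mul _
  have h2 : ∫ ξ : Fin d → ℝ, ∏ j, g (ξ j) = (1 / a * √(5 * π / L)) ^ d := by
    have := integral_fintype_prod_volume_eq_pow (ι := Fin d) (E := ℝ) g
    rw [this, Fintype.card_fin]
    congr 1
    simp only [hg]
    rw [integral_const_mul, integral_gaussian]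
    congr 2
    field_simp
  rw [← h2]
  refine (norm_integral_le_integral_norm _).trans ?_
  refine integral_mono_of_nonneg (Eventually.of_forall fun ξ => norm_nonneg _)
    (Integrable.fintype_prod (f := fun _ τ => g τ) fun _ => hgi) (Eventually.of_forall fun ξ => ?_)
  beta_reduce
  rw [norm_mul, norm_mul, Complex.norm_exp_ofReal_mul_I, one_mul, norm_prod, norm_prod]
  simp_rw [Complex.norm_real, Real.norm_eq_abs]
  have hg0 : ∀ j, 0 ≤ g (ξ j) := fun j => by simp only [hg]; positivity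
  by_cases hξ : ∀ j, |ξ j| ≤ a
  · have h3 : ∏ i, |Real.cos (dot ξ (v i))| ≤ Real.exp (-(L / 5) * ∑ j, ξ j ^ 2) := by
      have h4 : ∏ i, |Real.cos (dot ξ (v i))| ≤ ∏ i, Real.exp (-(dot ξ (v i) ^ 2 / 5)) :=
        Finset.prod_le_prod (fun i _ => abs_nonneg _) fun i _ =>
          cos_le_exp (abs_dot_le_one had hξ (v i) (hv i))
      refine h4.trans ?_
      rw [← Real.exp_sum]
      apply Real.exp_le_exp.2
      rw [Finset.sum_neg_distrib, ← Finset.sum_div]
      have := hlow ξ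
      linarith
    have h5 : ∏ j, |tent a (ξ j)| ≤ ∏ _j : Fin d, (1 / a) := by
      refine Finset.prod_le_prod (fun j _ => abs_nonneg _) fun j _ => ?_
      rw [abs_of_nonneg (tent_nonneg ha _)]
      exact tent_le ha _
    have h6 : ∏ j, g (ξ j) = (∏ _j : Fin d, (1 / a)) * Real.exp (-(L / 5) * ∑ j, ξ j ^ 2) := by
      simp only [hg]
      rw [Finset.prod_mul_distrib, ← Real.exp_sum, Finset.mul_sum]
    rw [h6]
    exact mul_le_mul h5 h3 (Finset.prod_nonneg fun _ _ => abs_nonneg _)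
      (Finset.prod_nonneg fun _ _ => by positivity)
  · push Not at hξ
    obtain ⟨j, hj⟩ := hξ
    have h3 : ∏ j, |tent a (ξ j)| = 0 := by
      refine Finset.prod_eq_zero (Finset.mem_univ j) ?_
      rw [tent_zero ha hj.le, abs_zero]
    rw [h3, zero_mul]
    exact Finset.prod_nonneg fun j _ => hg0 j

lemma exp_le_cos {t : ℝ} (ht : t ^ 2 ≤ 4 / 5) : Real.exp (-(t ^ 2 / 2 + t ^ 4 / 4)) ≤ Real.cos t := by
  have h1 := Real.one_sub_sq_div_two_le_cos (x := t)
  refine le_trans ?_ h1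
  set u := t ^ 2 / 2 with hu
  have hu0 : 0 ≤ u := by positivity
  have hu1 : u ≤ 2 / 5 := by rw [hu]; linarith
  have e : t ^ 4 / 4 = u ^ 2 := by rw [hu]; ring
  rw [e, Real.exp_neg]
  have h2 := Real.quadratic_le_exp_of_nonneg (x := u + u ^ 2) (by positivity)
  have h3 : 0 < 1 - u := by linarith
  rw [inv_le_comm₀ (Real.exp_pos _) h3, inv_le_iff_one_le_mul₀ h3]
  refine le_trans ?_ (mul_le_mul_of_nonneg_right h2 h3.le)
  nlinarith [mul_nonneg hu0 hu0, mul_nonneg (mul_nonneg hu0 hu0) hu0,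
    mul_nonneg (mul_nonneg hu0 hu0) (sub_nonneg.2 hu1)]

/-- second moments of an even product weight -/
lemma weight_moment {d n : ℕ} (e : ℝ → ℝ) (he0 : Integrable e) (he1 : Integrable (fun τ => e τ * τ))
    (he2 : Integrable (fun τ => e τ * τ ^ 2)) (hodd : ∫ τ, e τ * τ = 0) (v : Fin n → EE d)
    (hv : ∀ i, ‖v i‖ = 1) :
    Integrable (fun ξ : Fin d → ℝ => (∏ j, e (ξ j)) * ((n:ℝ) * ∑ j, ξ j ^ 2 - d * ∑ i, dot ξ (v i) ^ 2)) ∧
    ∫ ξ : Fin d → ℝ, (∏ j, e (ξ j)) * ((n:ℝ) * ∑ j, ξ j ^ 2 - d * ∑ i, dot ξ (v i) ^ 2) = 0 := by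
  classical
  -- mixed moments
  set f : Fin d → Fin d → Fin d → ℝ → ℝ := fun k l j τ =>
    e τ * ((if j = k then τ else 1) * (if j = l then τ else 1)) with hf
  have hfi : ∀ k l j, Integrable (f k l j) := by
    intro k l j
    simp only [hf]
    by_cases h1 : j = k <;> by_cases h2 : j = l
    · simp only [h1, if_true]
      refine he2.congr (Eventually.of_forall fun τ => ?_)
      by_cases h3 : k = l
      · simp only [h3, if_true]; ring
      · exact absurd (h1.symm.trans h2) h3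
    · have h3 : ¬ k = l := fun h => h2 (h1.trans h)
      simp only [h1, h3, if_true, if_false, mul_one]
      exact he1
    · have h3 : ¬ l = k := fun h => h1 (h2.trans h)
      simp only [h2, h3, if_true, if_false, one_mul]
      exact he1
    · simp only [h1, h2, if_false, mul_one]
      exact he0
  have hprod : ∀ (k l : Fin d) (ξ : Fin d → ℝ), ∏ j, f k l j (ξ j) = (∏ j, e (ξ j)) * (ξ k * ξ l) := by
    intro k l ξ
    simp only [hf]
    rw [Finset.prod_mul_distrib, Finset.prod_mul_distrib]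
    simp
  have hI : ∀ k l, Integrable (fun ξ : Fin d → ℝ => (∏ j, e (ξ j)) * (ξ k * ξ l)) := by
    intro k l
    have := Integrable.fintype_prod_dep (ι := Fin d) (E := fun _ => ℝ) (μ := fun _ => (volume : Measure ℝ))
      (f := f k l) (hfi k l)
    refine Integrable.congr (μ := volume) this (Eventually.of_forall fun ξ => hprod k l ξ)
  set m0 := ∫ τ, e τ with hm0
  set m2 := ∫ τ, e τ * τ ^ 2 with hm2
  have hval : ∀ k l, ∫ ξ : Fin d → ℝ, (∏ j, e (ξ j)) * (ξ k * ξ l)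
      = if k = l then m2 * m0 ^ (d - 1) else 0 := by
    intro k l
    have h1 := integral_fintype_prod_volume_eq_prod (ι := Fin d) (E := fun _ => ℝ) (f k l)
    simp_rw [hprod] at h1
    rw [h1]
    split_ifs with h
    · subst h
      rw [← Finset.mul_prod_erase _ _ (Finset.mem_univ k)]
      have h2 : ∫ τ, f k k k τ = m2 := by
        simp only [hf, if_true, hm2]
        refine integral_congr_ae (Eventually.of_forall fun τ => ?_)
        simp only; ring
      have h3 : ∀ j ∈ Finset.univ.erase k, ∫ τ, f k k j τ = m0 := by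
        intro j hj
        have hjk := Finset.ne_of_mem_erase hj
        simp only [hf, hjk, if_false, mul_one, hm0]
      rw [h2, Finset.prod_congr rfl h3, Finset.prod_const, Finset.card_erase_of_mem (Finset.mem_univ _),
        Finset.card_univ, Fintype.card_fin]
    · refine Finset.prod_eq_zero (Finset.mem_univ k) ?_
      simp only [hf, if_true, h, if_false, mul_one]
      exact hodd
  -- expand
  have hexp : ∀ ξ : Fin d → ℝ, (∏ j, e (ξ j)) * ((n:ℝ) * ∑ j, ξ j ^ 2 - d * ∑ i, dot ξ (v i) ^ 2)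
      = n * ∑ j, (∏ j, e (ξ j)) * (ξ j * ξ j)
        - d * ∑ i, ∑ k, ∑ l, (v i k * v i l) * ((∏ j, e (ξ j)) * (ξ k * ξ l)) := by
    intro ξ
    have h1 : ∀ i, dot ξ (v i) ^ 2 = ∑ k, ∑ l, (v i k * v i l) * (ξ k * ξ l) := by
      intro i
      unfold dot
      rw [sq, Finset.sum_mul_sum]
      refine Finset.sum_congr rfl fun k _ => Finset.sum_congr rfl fun l _ => ?_
      ring
    simp_rw [h1]
    rw [mul_sub]
    congr 1
    · rw [Finset.mul_sum, Finset.mul_sum, Finset.mul_sum]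
      refine Finset.sum_congr rfl fun j _ => ?_
      ring
    · rw [mul_left_comm]
      congr 1
      rw [Finset.mul_sum]
      refine Finset.sum_congr rfl fun i _ => ?_
      rw [Finset.mul_sum]
      refine Finset.sum_congr rfl fun k _ => ?_
      rw [Finset.mul_sum]
      refine Finset.sum_congr rfl fun l _ => ?_
      ring
  have hI1 : Integrable (fun ξ : Fin d → ℝ => (n:ℝ) * ∑ j, (∏ j, e (ξ j)) * (ξ j * ξ j)) :=
    (integrable_finsetSum _ fun j _ => hI j j).const_mul _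
  have hI2 : Integrable (fun ξ : Fin d → ℝ => (d:ℝ) * ∑ i, ∑ k, ∑ l, (v i k * v i l) * ((∏ j, e (ξ j)) * (ξ k * ξ l))) :=
    (integrable_finsetSum _ fun i _ => integrable_finsetSum _ fun k _ =>
      integrable_finsetSum _ fun l _ => (hI k l).const_mul _).const_mul _
  constructor
  · refine (hI1.sub hI2).congr (Eventually.of_forall fun ξ => ?_)
    exact (hexp ξ).symm
  · simp_rw [hexp]
    rw [integral_sub hI1 hI2, integral_const_mul, integral_const_mul, integral_finsetSum _ fun j _ => hI j j]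
    rw [integral_finsetSum _ fun i _ => integrable_finsetSum _ fun k _ =>
      integrable_finsetSum _ fun l _ => (hI k l).const_mul _]
    have h1 : ∀ i, ∫ ξ : Fin d → ℝ, ∑ k, ∑ l, (v i k * v i l) * ((∏ j, e (ξ j)) * (ξ k * ξ l))
        = m2 * m0 ^ (d - 1) := by
      intro i
      rw [integral_finsetSum _ fun k _ => integrable_finsetSum _ fun l _ => (hI k l).const_mul _]
      have h2 : ∀ k, ∫ ξ : Fin d → ℝ, ∑ l, (v i k * v i l) * ((∏ j, e (ξ j)) * (ξ k * ξ l))
          = v i k ^ 2 * (m2 * m0 ^ (d - 1)) := by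
        intro k
        rw [integral_finsetSum _ fun l _ => (hI k l).const_mul _]
        simp_rw [integral_const_mul, hval]
        simp only [mul_ite, mul_zero, Finset.sum_ite_eq, Finset.mem_univ, if_true]
        ring
      simp_rw [h2]
      rw [← Finset.sum_mul]
      have h3 := EuclideanSpace.norm_sq_eq (v i)
      simp only [Real.norm_eq_abs, sq_abs] at h3
      rw [← h3, hv i]; ring
    simp_rw [h1, hval]
    simp
    ring

/-- lower bound on the expected kernel, explicit form -/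
lemma EHk_ge_explicit {a ρ : ℝ} (ha : 0 < a) (hρ : 0 < ρ) (hρa : ρ ≤ a) {d n : ℕ} (hd : 1 ≤ d)
    (hn : 1 ≤ n) (had : a ^ 2 * d ≤ 1) (hρd : ρ ^ 2 * d ≤ 4 / 5) (v : Fin n → EE d) (hv : ∀ i, ‖v i‖ = 1) :
    ((1 - ρ / a) / a) ^ d * Real.exp (-(n * (ρ ^ 2 * d) ^ 2 / 4)) *
      (∫ τ in (-ρ)..ρ, Real.exp (-(n / (2 * d)) * τ ^ 2)) ^ d ≤ EHk a v 0 := by
  have hd0 : (0:ℝ) < d := by exact_mod_cast hd
  have hn0 : (0:ℝ) < n := by exact_mod_cast hn
  set b : ℝ := n / (2 * d) with hb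
  have hb0 : 0 < b := by positivity
  set e : ℝ → ℝ := (Icc (-ρ) ρ).indicator (fun τ => Real.exp (-b * τ ^ 2)) with he
  have hcontI : ∀ g : ℝ → ℝ, Continuous g → Integrable (fun τ => (Icc (-ρ) ρ).indicator g τ) := by
    intro g hg
    rw [integrable_indicator_iff measurableSet_Icc]
    exact hg.continuousOn.integrableOn_Icc
  have he0 : Integrable e := hcontI _ (by fun_prop)
  have hmul : ∀ (g : ℝ → ℝ) τ, e τ * g τ = (Icc (-ρ) ρ).indicator (fun τ => Real.exp (-b * τ ^ 2) * g τ) τ := by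
    intro g τ
    by_cases h : τ ∈ Icc (-ρ) ρ
    · rw [he, indicator_of_mem h, indicator_of_mem h]
    · rw [he, indicator_of_notMem h, indicator_of_notMem h, zero_mul]
  have he1 : Integrable (fun τ => e τ * τ) := by
    simp_rw [hmul (fun τ => τ)]
    exact hcontI _ (by fun_prop)
  have he2 : Integrable (fun τ => e τ * τ ^ 2) := by
    simp_rw [hmul (fun τ => τ ^ 2)]
    exact hcontI _ (by fun_prop)
  have heven : ∀ τ, e (-τ) = e τ := by
    intro τ
    by_cases h : τ ∈ Icc (-ρ) ρ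
    · have h' : -τ ∈ Icc (-ρ) ρ := ⟨by linarith [h.2], by linarith [h.1]⟩
      rw [he, indicator_of_mem h, indicator_of_mem h']; congr 1; ring
    · have h' : -τ ∉ Icc (-ρ) ρ := fun h' => h ⟨by linarith [h'.2], by linarith [h'.1]⟩
      rw [he, indicator_of_notMem h, indicator_of_notMem h']
  have hodd : ∫ τ, e τ * τ = 0 := by
    have h1 := integral_neg_eq_self (fun τ => e τ * τ) volume
    simp_rw [heven] at h1
    have h2 : ∀ τ : ℝ, e τ * -τ = -(e τ * τ) := fun τ => by ring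
    simp_rw [h2] at h1
    rw [integral_neg] at h1
    linarith
  obtain ⟨hWi, hW⟩ := weight_moment e he0 he1 he2 hodd v hv
  -- real integral formula
  have hreal : EHk a v 0 = ∫ ξ : Fin d → ℝ, (∏ j, tent a (ξ j)) * ∏ i, Real.cos (dot ξ (v i)) := by
    have h1 := EHk_integral ha v 0
    have h2 : ∀ ξ : Fin d → ℝ, (∏ j, (tent a (ξ j) : ℂ)) *
      (Complex.exp ((dot ξ 0 : ℝ) * Complex.I) * ∏ i, ((Real.cos (dot ξ (v i)) : ℝ) : ℂ))
      = (((∏ j, tent a (ξ j)) * ∏ i, Real.cos (dot ξ (v i)) : ℝ) : ℂ) := by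
      intro ξ
      have : dot ξ (0 : EE d) = 0 := by simp [dot]
      rw [this]
      push_cast
      simp
    simp_rw [h2] at h1
    rw [integral_complex_ofReal] at h1
    exact_mod_cast h1
  rw [hreal]
  -- pointwise inequality
  set A : ℝ := ((1 - ρ / a) / a) ^ d * Real.exp (-(n * (ρ ^ 2 * d) ^ 2 / 4)) with hA
  have hρa' : 0 ≤ 1 - ρ / a := by rw [sub_nonneg, div_le_one ha]; exact hρa
  have hA0 : 0 ≤ A := by rw [hA]; positivity
  have he_nonneg : ∀ τ, 0 ≤ e τ := by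
    intro τ
    rw [he]; exact indicator_nonneg (fun _ _ => (Real.exp_pos _).le) τ
  have hpt : ∀ ξ : Fin d → ℝ, A * ((∏ j, e (ξ j)) +
      1 / (2 * d) * ((∏ j, e (ξ j)) * ((n:ℝ) * ∑ j, ξ j ^ 2 - d * ∑ i, dot ξ (v i) ^ 2)))
      ≤ (∏ j, tent a (ξ j)) * ∏ i, Real.cos (dot ξ (v i)) := by
    intro ξ
    have hcos0 : (∀ j, |ξ j| ≤ a) → ∀ i, 0 ≤ Real.cos (dot ξ (v i)) := by
      intro h i
      have h1 := abs_dot_le_one had h (v i) (hv i).le
      obtain ⟨h2, h3⟩ := abs_le.1 h1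
      have := Real.pi_gt_three
      apply Real.cos_nonneg_of_mem_Icc
      constructor <;> linarith
    by_cases hξ : ∀ j, ξ j ∈ Icc (-ρ) ρ
    · have hξ' : ∀ j, |ξ j| ≤ ρ := fun j => abs_le.2 (hξ j)
      have hE : ∏ j, e (ξ j) = Real.exp (-b * ∑ j, ξ j ^ 2) := by
        have : ∀ j ∈ (Finset.univ : Finset (Fin d)), e (ξ j) = Real.exp (-b * ξ j ^ 2) := by
          intro j _; rw [he, indicator_of_mem (hξ j)]
        rw [Finset.prod_congr rfl this, ← Real.exp_sum, Finset.mul_sum]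
      set N2 := ∑ j, ξ j ^ 2 with hN2
      set Q := ∑ i, dot ξ (v i) ^ 2 with hQ
      have hN2le : N2 ≤ ρ ^ 2 * d := by
        have : ∀ j ∈ (Finset.univ : Finset (Fin d)), ξ j ^ 2 ≤ ρ ^ 2 := by
          intro j _
          rw [← sq_abs]
          exact pow_le_pow_left₀ (abs_nonneg _) (hξ' j) 2
        refine (Finset.sum_le_sum this).trans (le_of_eq ?_)
        simp; ring
      have hdot : ∀ i, dot ξ (v i) ^ 2 ≤ ρ ^ 2 * d := fun i => (dot_sq_le ξ (v i) (hv i).le).trans hN2le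
      have hcos : Real.exp (-(Q / 2)) * Real.exp (-(n * (ρ ^ 2 * d) ^ 2 / 4))
          ≤ ∏ i, Real.cos (dot ξ (v i)) := by
        have h1 : ∏ i, Real.exp (-(dot ξ (v i) ^ 2 / 2 + dot ξ (v i) ^ 4 / 4)) ≤ ∏ i, Real.cos (dot ξ (v i)) :=
          Finset.prod_le_prod (fun i _ => (Real.exp_pos _).le) fun i _ => exp_le_cos ((hdot i).trans hρd)
        refine le_trans ?_ h1
        rw [← Real.exp_sum, ← Real.exp_add]
        apply Real.exp_le_exp.2
        rw [Finset.sum_neg_distrib, Finset.sum_add_distrib, ← Finset.sum_div, ← hQ]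
        have h2 : ∑ i, dot ξ (v i) ^ 4 / 4 ≤ n * (ρ ^ 2 * d) ^ 2 / 4 := by
          have h3 : ∀ i ∈ (Finset.univ : Finset (Fin n)), dot ξ (v i) ^ 4 / 4 ≤ (ρ ^ 2 * d) ^ 2 / 4 := by
            intro i _
            have h4 : dot ξ (v i) ^ 4 = (dot ξ (v i) ^ 2) ^ 2 := by ring
            rw [h4]
            have := pow_le_pow_left₀ (sq_nonneg _) (hdot i) 2
            linarith
          refine (Finset.sum_le_sum h3).trans (le_of_eq ?_)
          simp; ring
        linarith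
      have htent : ((1 - ρ / a) / a) ^ d ≤ ∏ j, tent a (ξ j) := by
        have h1 : ∏ _j : Fin d, ((1 - ρ / a) / a) = ((1 - ρ / a) / a) ^ d := by
          rw [Finset.prod_const, Finset.card_univ, Fintype.card_fin]
        rw [← h1]
        refine Finset.prod_le_prod (fun _ _ => by positivity) fun j _ => ?_
        unfold tent
        refine div_le_div_of_nonneg_right (le_trans ?_ (le_max_right _ _)) ha.le
        have : |ξ j| / a ≤ ρ / a := div_le_div_of_nonneg_right (hξ' j) ha.le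
        linarith
      have hmain : A * Real.exp (-(Q / 2)) ≤ (∏ j, tent a (ξ j)) * ∏ i, Real.cos (dot ξ (v i)) := by
        have h1 := mul_le_mul htent hcos (by positivity) (Finset.prod_nonneg fun _ _ => tent_nonneg ha _)
        refine le_trans (le_of_eq ?_) h1
        rw [hA]; ring
      refine le_trans ?_ hmain
      refine mul_le_mul_of_nonneg_left ?_ hA0
      rw [hE]
      have h2 : Real.exp (-(Q / 2)) = Real.exp (-b * N2) * Real.exp (b * N2 - Q / 2) := by
        rw [← Real.exp_add]; congr 1; ring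
      rw [h2]
      have h3 := Real.add_one_le_exp (b * N2 - Q / 2)
      have h4 : Real.exp (-b * N2) + 1 / (2 * d) * (Real.exp (-b * N2) * ((n:ℝ) * N2 - d * Q))
          = Real.exp (-b * N2) * (b * N2 - Q / 2 + 1) := by
        rw [hb]; field_simp; ring
      rw [h4]
      exact mul_le_mul_of_nonneg_left h3 (Real.exp_pos _).le
    · push Not at hξ
      obtain ⟨j, hj⟩ := hξ
      have h1 : ∏ j, e (ξ j) = 0 := by
        refine Finset.prod_eq_zero (Finset.mem_univ j) ?_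
        rw [he, indicator_of_notMem hj]
      rw [h1]
      simp only [zero_mul, mul_zero, add_zero]
      by_cases h2 : ∀ j, |ξ j| ≤ a
      · exact mul_nonneg (Finset.prod_nonneg fun _ _ => tent_nonneg ha _)
          (Finset.prod_nonneg fun i _ => hcos0 h2 i)
      · push Not at h2
        obtain ⟨k, hk⟩ := h2
        have : ∏ j, tent a (ξ j) = 0 := Finset.prod_eq_zero (Finset.mem_univ k) (tent_zero ha hk.le)
        rw [this, zero_mul]
  -- integrate
  have hprodI : Integrable (fun ξ : Fin d → ℝ => ∏ j, e (ξ j)) :=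
    Integrable.fintype_prod (f := fun _ τ => e τ) fun _ => he0
  have hrI : Integrable (fun ξ : Fin d → ℝ => (∏ j, tent a (ξ j)) * ∏ i, Real.cos (dot ξ (v i))) := by
    have hb := (tentprod_integrable ha d).bdd_mul (c := 1) (f := fun ξ : Fin d → ℝ =>
        ∏ i, Real.cos (dot ξ (v i)))
      (by
        apply Continuous.aestronglyMeasurable
        unfold dot
        fun_prop)
      (Eventually.of_forall fun ξ => by
        rw [norm_prod]
        exact Finset.prod_le_one (fun _ _ => norm_nonneg _) fun i _ => Real.abs_cos_le_one _)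
    refine hb.congr (Eventually.of_forall fun ξ => ?_)
    exact mul_comm _ _
  have hint := integral_mono ((hprodI.add (hWi.const_mul (1 / (2 * d)))).const_mul A) hrI hpt
  refine le_trans (le_of_eq ?_) hint
  rw [integral_const_mul]
  have h1 : ∫ ξ : Fin d → ℝ, ((fun ξ : Fin d → ℝ => ∏ j, e (ξ j)) + fun ξ : Fin d → ℝ => 1 / (2 * (d:ℝ)) *
      ((∏ j, e (ξ j)) * ((n:ℝ) * ∑ j, ξ j ^ 2 - d * ∑ i, dot ξ (v i) ^ 2))) ξ
      = (∫ τ in (-ρ)..ρ, Real.exp (-b * τ ^ 2)) ^ d := by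
    rw [integral_add' hprodI (hWi.const_mul _), integral_const_mul, hW, mul_zero, add_zero]
    have h2 := integral_fintype_prod_volume_eq_pow (ι := Fin d) (E := ℝ) e
    rw [h2, Fintype.card_fin]
    congr 1
    rw [he, integral_indicator measurableSet_Icc, intervalIntegral.integral_of_le (by linarith),
      integral_Icc_eq_integral_Ioc]
  rw [← h1]

/-- asymptotic lower bound on the expected kernel -/
theorem EHk_ge {a : ℝ} (ha : 0 < a) {d : ℕ} (hd : 1 ≤ d) (had : a ^ 2 * d ≤ 1) :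
    ∀ᶠ n : ℕ in atTop, ∀ v : Fin n → EE d, (∀ i, ‖v i‖ = 1) →
      1 / 2 * (1 / a * √(2 * π * d / n)) ^ d ≤ EHk a v 0 := by
  have hπ := Real.pi_pos
  have hd0 : (0:ℝ) < d := by exact_mod_cast hd
  -- choose `R`
  set b1 : ℝ := 1 / (2 * d) with hb1
  have hb10 : 0 < b1 := by positivity
  have hGint : Integrable (fun τ : ℝ => Real.exp (-b1 * τ ^ 2)) := integrable_exp_neg_mul_sq hb10
  have hlim : Tendsto (fun R : ℝ => (∫ τ in (-R)..R, Real.exp (-b1 * τ ^ 2)) ^ d) atTop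
      (𝓝 ((∫ τ : ℝ, Real.exp (-b1 * τ ^ 2)) ^ d)) :=
    (intervalIntegral_tendsto_integral hGint tendsto_neg_atTop_atBot tendsto_id).pow d
  have hval : ∫ τ : ℝ, Real.exp (-b1 * τ ^ 2) = √(2 * π * d) := by
    rw [integral_gaussian]; congr 1; rw [hb1]; field_simp
  rw [hval] at hlim
  have hsq : 0 < √(2 * π * d) := Real.sqrt_pos.2 (by positivity)
  have hR := (hlim.eventually (lt_mem_nhds (show 3 / 4 * √(2 * π * d) ^ d < √(2 * π * d) ^ d by
    have : 0 < √(2 * π * d) ^ d := by positivity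
    linarith))).and (eventually_gt_atTop 0)
  obtain ⟨R, hR1, hR0⟩ := hR.exists
  -- choose `n`
  have hsqrt : Tendsto (fun n : ℕ => √(n:ℝ)) atTop atTop :=
    Real.tendsto_sqrt_atTop.comp tendsto_natCast_atTop_atTop
  have hρ0 : Tendsto (fun n : ℕ => R / √(n:ℝ)) atTop (𝓝 0) := hsqrt.const_div_atTop R
  have hfac : Tendsto (fun n : ℕ => (1 - (R / √(n:ℝ)) / a) ^ d *
      Real.exp (-(R ^ 2 * d ^ 2 * (R / √(n:ℝ)) ^ 2 / 4))) atTop (𝓝 ((1 - 0 / a) ^ d *
      Real.exp (-(R ^ 2 * d ^ 2 * 0 ^ 2 / 4)))) := by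
    have h1 : Continuous (fun ρ : ℝ => (1 - ρ / a) ^ d * Real.exp (-(R ^ 2 * d ^ 2 * ρ ^ 2 / 4))) := by
      fun_prop
    exact (h1.tendsto 0).comp hρ0
  have hone : (1 - 0 / a) ^ d * Real.exp (-(R ^ 2 * (d:ℝ) ^ 2 * 0 ^ 2 / 4)) = 1 := by simp
  rw [hone] at hfac
  have hs : ∀ᶠ ρ : ℝ in 𝓝 0, ρ < a ∧ ρ ^ 2 * d < 4 / 5 := by
    refine (gt_mem_nhds ha).and ?_
    have h1 : Continuous (fun ρ : ℝ => ρ ^ 2 * d) := by fun_prop
    exact (h1.tendsto 0).eventually (gt_mem_nhds (by norm_num))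
  filter_upwards [hfac.eventually (lt_mem_nhds (show (3/4 : ℝ) < 1 by norm_num)), hρ0.eventually hs,
    eventually_ge_atTop 1] with n h1 h2 hn v hv
  have hn0 : (0:ℝ) < n := by exact_mod_cast hn
  have hsn : 0 < √(n:ℝ) := Real.sqrt_pos.2 hn0
  set ρ := R / √(n:ℝ) with hρ
  have hρp : 0 < ρ := by positivity
  have hexpl := EHk_ge_explicit ha hρp h2.1.le hd hn had h2.2.le v hv
  refine le_trans ?_ hexpl
  have hρn : ρ ^ 2 * n = R ^ 2 := by
    rw [hρ, div_pow, Real.sq_sqrt hn0.le]; field_simp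
  have hexp : n * (ρ ^ 2 * d) ^ 2 / 4 = R ^ 2 * d ^ 2 * ρ ^ 2 / 4 := by
    rw [← hρn]; ring
  rw [hexp]
  have hI : ∫ τ in (-ρ)..ρ, Real.exp (-(n / (2 * d)) * τ ^ 2)
      = (1 / √(n:ℝ)) * ∫ τ in (-R)..R, Real.exp (-b1 * τ ^ 2) := by
    have h3 := intervalIntegral.integral_comp_mul_left (a := -ρ) (b := ρ)
      (fun t : ℝ => Real.exp (-b1 * t ^ 2)) hsn.ne'
    have h4 : √(n:ℝ) * ρ = R := by rw [hρ]; field_simp
    rw [mul_neg, h4, smul_eq_mul] at h3
    rw [one_div, ← h3]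
    refine intervalIntegral.integral_congr fun τ _ => ?_
    beta_reduce
    congr 1
    rw [mul_pow, Real.sq_sqrt hn0.le, hb1]
    ring
  rw [hI, mul_pow (1 / √(n:ℝ))]
  have e1 : (1 / a * √(2 * π * d / n)) ^ d = (1 / a) ^ d * ((1 / √(n:ℝ)) ^ d * √(2 * π * d) ^ d) := by
    rw [Real.sqrt_div (by positivity), mul_pow, ← mul_pow (1 / √(n:ℝ))]
    congr 2
    field_simp
  have e2 : ((1 - ρ / a) / a) ^ d = (1 - ρ / a) ^ d * (1 / a) ^ d := by
    rw [← mul_pow]; congr 1; ring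
  rw [e1, e2]
  set F := (1 - ρ / a) ^ d * Real.exp (-(R ^ 2 * d ^ 2 * ρ ^ 2 / 4)) with hF
  set I := (∫ τ in (-R)..R, Real.exp (-b1 * τ ^ 2)) ^ d with hIdef
  set S := √(2 * π * d) ^ d with hS
  set X := (1 / a) ^ d * (1 / √(n:ℝ)) ^ d with hX
  have hX0 : 0 < X := by positivity
  have hS0 : 0 < S := by positivity
  have h5 : 1 / 2 * S ≤ F * I := by
    have : 3 / 4 * (3 / 4 * S) ≤ F * I := mul_le_mul h1.le hR1.le (by positivity) (by linarith)
    linarith
  have h6 := mul_le_mul_of_nonneg_left h5 hX0.le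
  calc 1 / 2 * ((1 / a) ^ d * ((1 / √(n:ℝ)) ^ d * S)) = X * (1 / 2 * S) := by rw [hX]; ring
    _ ≤ X * (F * I) := h6
    _ = _ := by rw [hX, hF]; ring

end MP087bf0
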