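import Mathlib
import Pool.Agent.Lib.MP_087bf0_co.Binom
import Pool.Agent.Lib.MP_087bf0_co.Core
import Pool.Agent.Lib.MP_087bf0_co.Kernel
open Set Filter Topology
open scoped Real

namespace MP087bf0

lemma avg_extend {α β : Type*} [Fintype α] [Fintype β] [DecidableEq α] [DecidableEq β] (ι : β → α)
    (hι : Function.Injective ι) (F : (α → Bool) → ℝ) :
    ∑ ρ : α → Bool, ∑ ε : β → Bool, F (Function.extend ι ε ρ) = 2 ^ (Fintype.card β) * ∑ ρ, F ρ := by
  rw [← Fintype.sum_prod_type' (f := fun (ρ : α → Bool) (ε : β → Bool) => F (Function.extend ι ε ρ))]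
  have hinv : ∀ x : (α → Bool) × (β → Bool),
      ((Function.extend ι ((Function.extend ι x.2 x.1, x.1 ∘ ι) : (α → Bool) × (β → Bool)).2
        (Function.extend ι x.2 x.1)), (Function.extend ι x.2 x.1) ∘ ι) = x := by
    rintro ⟨ρ, ε⟩
    simp only [Prod.mk.injEq]
    constructor
    · ext a
      by_cases ha : ∃ b, ι b = a
      · obtain ⟨b, rfl⟩ := ha
        rw [hι.extend_apply]; rfl
      · rw [Function.extend_apply' _ _ _ ha, Function.extend_apply' _ _ _ ha]
    · ext b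
      simp only [Function.comp]
      rw [hι.extend_apply]
  let e : ((α → Bool) × (β → Bool)) ≃ ((α → Bool) × (β → Bool)) :=
    { toFun := fun x => (Function.extend ι x.2 x.1, x.1 ∘ ι)
      invFun := fun x => (Function.extend ι x.2 x.1, x.1 ∘ ι)
      left_inv := hinv
      right_inv := hinv }
  have h1 : ∑ x : (α → Bool) × (β → Bool), F (Function.extend ι x.2 x.1)
      = ∑ x : (α → Bool) × (β → Bool), F x.1 :=
    Fintype.sum_equiv e _ _ fun x => rfl
  rw [h1, Fintype.sum_prod_type]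
  simp only [Finset.sum_const, Finset.card_univ, Fintype.card_fun, Fintype.card_bool, nsmul_eq_mul]
  rw [← Finset.mul_sum]
  push_cast
  rfl

/-- inverse bound for echelon systems -/
lemma UT.inv_bound {l0 : ℝ} (hl0 : 0 < l0) : ∀ m : ℕ, ∃ C : ℝ, 0 < C ∧ ∀ W : Fin m → Fin m → ℝ, UT W →
    (∀ i, l0 ≤ W i i) → ∀ (a : Fin m → ℝ) (i : Fin m), |a i| ≤ C * ‖∑ j, a j • row W j‖
  | 0 => ⟨1, one_pos, fun W _ _ a i => i.elim0⟩
  | m + 1 => by
      obtain ⟨C, hC, H⟩ := UT.inv_bound hl0 m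
      refine ⟨1 / l0 + C * (1 + 1 / l0), by positivity, ?_⟩
      intro W hW hl a i
      set z := ∑ j, a j • row W j with hz
      have hzj : ∀ j, z j = ∑ i, a i * W i j := by
        intro j; rw [hz]; simp [row]
      have hz0 : z 0 = a 0 * W 0 0 := by
        rw [hzj, Fin.sum_univ_succ]
        have : ∀ i : Fin m, W i.succ 0 = 0 := fun i => hW.tri _ _ (Fin.succ_pos i)
        simp [this]
      have ha0 : |a 0| ≤ 1 / l0 * ‖z‖ := by
        have h1 : |z 0| ≤ ‖z‖ := by
          rw [← Real.norm_eq_abs]; exact PiLp.norm_apply_le z 0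
        rw [hz0, abs_mul, abs_of_pos (hW.pos 0)] at h1
        have h2 : |a 0| * l0 ≤ |a 0| * W 0 0 := mul_le_mul_of_nonneg_left (hl 0) (abs_nonneg _)
        rw [one_div, ← div_eq_inv_mul, le_div_iff₀ hl0]
        linarith
      refine Fin.cases ?_ (fun i => ?_) i
      · refine ha0.trans (mul_le_mul_of_nonneg_right ?_ (norm_nonneg _))
        have : 0 ≤ C * (1 + 1 / l0) := by positivity
        linarith
      · have h1 := H (fun i j => W i.succ j.succ) hW.tail (fun i => hl _) (fun i => a i.succ) i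
        set u : EuclideanSpace ℝ (Fin m) := WithLp.toLp 2 (fun j => z j.succ) with hu
        set v : EuclideanSpace ℝ (Fin m) := WithLp.toLp 2 (fun j => W 0 j.succ) with hv
        have huz : ‖u‖ ≤ ‖z‖ := by
          rw [← pow_le_pow_iff_left₀ (norm_nonneg _) (norm_nonneg _) two_ne_zero,
            EuclideanSpace.norm_sq_eq, EuclideanSpace.norm_sq_eq, Fin.sum_univ_succ]
          have : 0 ≤ ‖z 0‖ ^ 2 := by positivity
          simp only [hu]
          linarith
        have hv1 : ‖v‖ ≤ 1 := by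
          rw [← pow_le_pow_iff_left₀ (norm_nonneg _) zero_le_one two_ne_zero,
            EuclideanSpace.norm_sq_eq]
          have h2 := hW.unit 0
          rw [Fin.sum_univ_succ] at h2
          simp only [hv, Real.norm_eq_abs, sq_abs]
          have := sq_nonneg (W 0 0)
          linarith
        have htail : ∑ i, a i.succ • row (fun i j : Fin m => W i.succ j.succ) i = u - a 0 • v := by
          ext j
          simp only [row, hu, hv]
          simp only [WithLp.ofLp_sum, WithLp.ofLp_smul, Finset.sum_apply, Pi.smul_apply, smul_eq_mul,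
            WithLp.ofLp_sub, Pi.sub_apply]
          rw [hzj, Fin.sum_univ_succ]
          ring
        rw [htail] at h1
        have h2 : ‖u - a 0 • v‖ ≤ ‖z‖ + 1 / l0 * ‖z‖ := by
          refine (norm_sub_le _ _).trans ?_
          rw [norm_smul, Real.norm_eq_abs]
          have h3 : |a 0| * ‖v‖ ≤ |a 0| * 1 := mul_le_mul_of_nonneg_left hv1 (abs_nonneg _)
          linarith
        have h3 := mul_le_mul_of_nonneg_left h2 hC.le
        have h4 : 0 ≤ 1 / l0 * ‖z‖ := by positivity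
        calc |a i.succ| ≤ C * (‖z‖ + 1 / l0 * ‖z‖) := h1.trans h3
          _ ≤ _ := by nlinarith

lemma sum_prod_curry {d K : ℕ} (F : Fin d → (Fin K → Bool) → ℝ) :
    ∑ ρ : Fin d × Fin K → Bool, ∏ i, F i (fun k => ρ (i, k)) = ∏ i, ∑ r : Fin K → Bool, F i r := by
  have h2 := (Finset.prod_univ_sum (fun _ : Fin d => (Finset.univ : Finset (Fin K → Bool))) F)
  rw [Fintype.piFinset_univ] at h2
  rw [h2]
  exact Fintype.sum_equiv (Equiv.curry (Fin d) (Fin K) Bool) _ _ fun ρ => rfl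

lemma count_prod {d K : ℕ} (s : Fin d → ℤ) :
    open Classical in
    ((Finset.univ.filter (fun ρ : Fin d × Fin K → Bool => ∀ i, ∑ k, sgn (ρ (i, k)) = (s i : ℝ))).card : ℝ)
      = ∏ i, (cK K (s i) : ℝ) := by
  classical
  have h := sum_prod_curry (d := d) (K := K) (fun i r => if ∑ k, sgn (r k) = (s i : ℝ) then (1:ℝ) else 0)
  have h1 : ∀ i, ∑ r : Fin K → Bool, (if ∑ k, sgn (r k) = (s i : ℝ) then (1:ℝ) else 0) = (cK K (s i) : ℝ) := by
    intro i
    rw [Finset.sum_boole, cK]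
  simp_rw [h1] at h
  rw [← h, ← Finset.sum_boole]
  refine Finset.sum_congr rfl fun ρ _ => ?_
  rw [Finset.prod_ite_zero]
  simp

lemma tot_eq {d K : ℕ} (W : Fin d → Fin d → ℝ) (v : Fin d × Fin K → EE d) (c : Fin d → ℝ)
    (ρ : Fin d × Fin K → Bool) :
    ∑ i, c i • row W i + ∑ p, sgn (ρ p) • v p
      = ∑ i, (c i + ∑ k, sgn (ρ (i, k))) • row W i + ∑ p, sgn (ρ p) • (v p - row W p.1) := by
  have h1 : ∑ p : Fin d × Fin K, sgn (ρ p) • (v p - row W p.1)
      = ∑ p, sgn (ρ p) • v p - ∑ i, (∑ k, sgn (ρ (i, k))) • row W i := by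
    simp_rw [smul_sub]
    rw [Finset.sum_sub_distrib]
    congr 1
    rw [Fintype.sum_prod_type]
    refine Finset.sum_congr rfl fun i _ => ?_
    rw [Finset.sum_smul]
  rw [h1]
  simp_rw [add_smul]
  rw [Finset.sum_add_distrib]
  abel

lemma err_le {d K : ℕ} (W : Fin d → Fin d → ℝ) (v : Fin d × Fin K → EE d) {δ : ℝ}
    (hv : ∀ p, ‖v p - row W p.1‖ ≤ δ) (ρ : Fin d × Fin K → Bool) :
    ‖∑ p, sgn (ρ p) • (v p - row W p.1)‖ ≤ d * K * δ := by
  refine (norm_sum_le _ _).trans ?_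
  have h1 : ∀ p : Fin d × Fin K, ‖sgn (ρ p) • (v p - row W p.1)‖ ≤ δ := by
    intro p
    rw [norm_smul]
    have : ‖sgn (ρ p)‖ = 1 := by cases ρ p <;> simp [sgn]
    rw [this, one_mul]
    exact hv p
  refine (Finset.sum_le_sum fun p _ => h1 p).trans (le_of_eq ?_)
  simp [Fintype.card_prod]

/-- the local count: number of reserved sign patterns that bring the sum into the ball -/
noncomputable def goodC {d K : ℕ} (v : Fin d × Fin K → EE d) (y : EE d) : ℝ :=
  open Classical in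
  ((Finset.univ.filter (fun ρ : Fin d × Fin K → Bool => ‖y + ∑ p, sgn (ρ p) • v p‖ ≤ √(d:ℝ))).card : ℝ)

lemma local_a {d K : ℕ} (W : Fin d → Fin d → ℝ) (v : Fin d × Fin K → EE d) {δ : ℝ}
    (hv : ∀ p, ‖v p - row W p.1‖ ≤ δ) (κ : Fin d → ℤ) (x : Fin d → ℝ) (M : Finset (Fin d → ℤ))
    (hM : ∀ k ∈ M, En W (fun j => ∑ i, (1 - x i) * W i j) k ≤ d - 1 / 2)
    (hδ : √((d:ℝ) - 1 / 2) + d * K * δ ≤ √(d:ℝ)) :
    ∑ k ∈ M, ∏ i, (cK K (κ i + 1 + 2 * k i) : ℝ) ≤ goodC v (∑ i, (-(κ i + x i)) • row W i) := by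
  classical
  unfold goodC
  have hdisj : Set.PairwiseDisjoint (M : Set (Fin d → ℤ)) (fun k => Finset.univ.filter
      (fun ρ : Fin d × Fin K → Bool => ∀ i, ∑ j, sgn (ρ (i, j)) = ((κ i + 1 + 2 * k i : ℤ) : ℝ))) := by
    intro k _ k' _ hne
    show Disjoint _ _
    rw [Finset.disjoint_left]
    intro ρ h1 h2
    rw [Finset.mem_filter] at h1 h2
    apply hne
    ext i
    have h3 := (h1.2 i).symm.trans (h2.2 i)
    have h4 : κ i + 1 + 2 * k i = κ i + 1 + 2 * k' i := by exact_mod_cast h3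
    omega
  have h1 : ∑ k ∈ M, ∏ i, (cK K (κ i + 1 + 2 * k i) : ℝ)
      = ((M.biUnion (fun k => Finset.univ.filter
      (fun ρ : Fin d × Fin K → Bool => ∀ i, ∑ j, sgn (ρ (i, j)) = ((κ i + 1 + 2 * k i : ℤ) : ℝ)))).card : ℝ) := by
    rw [Finset.card_biUnion hdisj]
    push_cast
    refine Finset.sum_congr rfl fun k _ => ?_
    have := count_prod (d := d) (K := K) (fun i => κ i + 1 + 2 * k i)
    rw [← this]
    congr 2
    ext ρ
    push_cast
    rfl
  rw [h1]
  have h2 : (M.biUnion (fun k => Finset.univ.filter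
      (fun ρ : Fin d × Fin K → Bool => ∀ i, ∑ j, sgn (ρ (i, j)) = ((κ i + 1 + 2 * k i : ℤ) : ℝ))))
      ⊆ Finset.univ.filter (fun ρ : Fin d × Fin K → Bool =>
        ‖∑ i, (-(κ i + x i)) • row W i + ∑ p, sgn (ρ p) • v p‖ ≤ √(d:ℝ)) := by
    intro ρ hρ
    rw [Finset.mem_biUnion] at hρ
    obtain ⟨k, hk, hρ⟩ := hρ
    rw [Finset.mem_filter] at hρ ⊢
    refine ⟨Finset.mem_univ _, ?_⟩
    rw [tot_eq]
    refine (norm_add_le _ _).trans (le_trans (add_le_add ?_ (err_le W v hv ρ)) hδ)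
    have h3 := hM k hk
    rw [En_eq_norm] at h3
    apply Real.le_sqrt_of_sq_le
    refine le_trans (le_of_eq ?_) h3
    congr 2
    refine Finset.sum_congr rfl fun i _ => ?_
    congr 1
    rw [hρ.2 i]
    push_cast; ring
  exact_mod_cast Finset.card_le_card h2

lemma solve_of_low {d : ℕ} (u : Fin d → EE d) {C : ℝ}
    (hlow : ∀ (a : Fin d → ℝ) i, |a i| ≤ C * ‖∑ j, a j • u j‖) (z : EE d) :
    ∃ a : Fin d → ℝ, z = ∑ j, a j • u j := by
  let L : (Fin d → ℝ) →ₗ[ℝ] EE d :=
    { toFun := fun a => ∑ j, a j • u j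
      map_add' := fun a b => by
        simp only [Pi.add_apply, add_smul, Finset.sum_add_distrib]
      map_smul' := fun c a => by
        simp only [Pi.smul_apply, smul_eq_mul, mul_smul, RingHom.id_apply, Finset.smul_sum] }
  have hinj : Function.Injective L := by
    rw [injective_iff_map_eq_zero]
    intro a ha
    ext i
    have h1 := hlow a i
    have h2 : ∑ j, a j • u j = 0 := ha
    rw [h2, norm_zero, mul_zero] at h1
    exact abs_nonpos_iff.1 h1
  have hfr : Module.finrank ℝ (Fin d → ℝ) = Module.finrank ℝ (EE d) := by simp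
  obtain ⟨a, ha⟩ := (LinearMap.injective_iff_surjective_of_finrank_eq_finrank hfr).1 hinj z
  exact ⟨a, ha.symm⟩

lemma pert_low {d : ℕ} {w u : Fin d → EE d} {C δ : ℝ} (hC : 0 < C)
    (hw : ∀ (a : Fin d → ℝ) i, |a i| ≤ C * ‖∑ j, a j • w j‖) (hu : ∀ i, ‖u i - w i‖ ≤ δ)
    (hδ : C * d * δ ≤ 1 / 2) (a : Fin d → ℝ) (i : Fin d) : |a i| ≤ 2 * C * ‖∑ j, a j • u j‖ := by
  classical
  have hne : (Finset.univ : Finset (Fin d)).Nonempty := ⟨i, Finset.mem_univ _⟩
  obtain ⟨i0, -, hmax⟩ := Finset.exists_max_image Finset.univ (fun i => |a i|) hne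
  have h1 : |a i0| ≤ 2 * C * ‖∑ j, a j • u j‖ := by
    have h2 := hw a i0
    have h3 : ∑ j, a j • w j = ∑ j, a j • u j - ∑ j, a j • (u j - w j) := by
      rw [← Finset.sum_sub_distrib]
      refine Finset.sum_congr rfl fun j _ => ?_
      rw [smul_sub]; abel
    have h4 : ‖∑ j, a j • (u j - w j)‖ ≤ d * (|a i0| * δ) := by
      refine (norm_sum_le _ _).trans ?_
      have h5 : ∀ j ∈ (Finset.univ : Finset (Fin d)), ‖a j • (u j - w j)‖ ≤ |a i0| * δ := by
        intro j hj
        rw [norm_smul, Real.norm_eq_abs]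
        exact mul_le_mul (hmax j hj) (hu j) (norm_nonneg _) (abs_nonneg _)
      refine (Finset.sum_le_sum h5).trans (le_of_eq ?_)
      simp
    have h5 : ‖∑ j, a j • w j‖ ≤ ‖∑ j, a j • u j‖ + d * (|a i0| * δ) := by
      rw [h3]
      exact (norm_sub_le _ _).trans (add_le_add le_rfl h4)
    have h6 := mul_le_mul_of_nonneg_left h5 hC.le
    have h7 : C * (d * (|a i0| * δ)) ≤ 1 / 2 * |a i0| := by
      have : C * (d * (|a i0| * δ)) = (C * d * δ) * |a i0| := by ring
      rw [this]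
      exact mul_le_mul_of_nonneg_right hδ (abs_nonneg _)
    linarith
  exact (hmax i (Finset.mem_univ _)).trans h1

end MP087bf0
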