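import Mathlib
import Pool.Agent.Lib.MP_087bf0_co.Local
open Set Filter Topology
open scoped Real

namespace MP087bf0

/-- sum of the signs other than the `k`-th -/
noncomputable def oth {K : ℕ} (r : Fin K → Bool) (k : Fin K) : ℝ := ∑ k', sgn (r k') - sgn (r k)

lemma card_true {K : ℕ} (r : Fin K → Bool) :
    2 * ((Finset.univ.filter (fun k => r k = true)).card : ℝ) = ∑ k, sgn (r k) + K := by
  rw [sum_sgn_eq]; ring

lemma card_false {K : ℕ} (r : Fin K → Bool) :
    2 * ((Finset.univ.filter (fun k => r k = false)).card : ℝ) = K - ∑ k, sgn (r k) := by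
  have h := Finset.card_filter_add_card_filter_not (s := (Finset.univ : Finset (Fin K))) (fun k => r k = true)
  have h2 : (Finset.univ.filter (fun k => ¬ r k = true)) = Finset.univ.filter (fun k => r k = false) := by
    ext k; simp
  rw [h2] at h
  have h3 : ((Finset.univ.filter (fun k => r k = true)).card : ℝ)
      + ((Finset.univ.filter (fun k => r k = false)).card : ℝ) = K := by
    have := congrArg (Nat.cast : ℕ → ℝ) h
    push_cast at this
    simpa using this
  have h4 := card_true r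
  linarith

open Classical in
lemma mult_le {K : ℕ} (κ : ℤ) (r : Fin K → Bool) :
    ((Finset.univ.filter (fun k => oth r k = (κ:ℝ))).card : ℝ) ≤ (K + |(κ:ℝ)| + 1) / 2 := by
  by_cases h : ∃ k, oth r k = (κ:ℝ)
  · obtain ⟨k, hk⟩ := h
    unfold oth at hk
    cases hb : r k
    · -- sum = κ - 1, all such indices carry `false`
      rw [hb, sgn_false] at hk
      have hsum : ∑ k', sgn (r k') = κ - 1 := by linarith
      have hsub : Finset.univ.filter (fun k => oth r k = (κ:ℝ)) ⊆ Finset.univ.filter (fun k => r k = false) := by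
        intro k' hk'
        rw [Finset.mem_filter] at hk' ⊢
        refine ⟨Finset.mem_univ _, ?_⟩
        have h1 := hk'.2
        unfold oth at h1
        rw [hsum] at h1
        cases h2 : r k'
        · rfl
        · rw [h2, sgn_true] at h1; linarith
      have h1 : ((Finset.univ.filter (fun k => oth r k = (κ:ℝ))).card : ℝ)
          ≤ ((Finset.univ.filter (fun k => r k = false)).card : ℝ) := by
        exact_mod_cast Finset.card_le_card hsub
      have h2 := card_false r
      rw [hsum] at h2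
      have h3 := neg_abs_le (κ:ℝ)
      linarith
    · rw [hb, sgn_true] at hk
      have hsum : ∑ k', sgn (r k') = κ + 1 := by linarith
      have hsub : Finset.univ.filter (fun k => oth r k = (κ:ℝ)) ⊆ Finset.univ.filter (fun k => r k = true) := by
        intro k' hk'
        rw [Finset.mem_filter] at hk' ⊢
        refine ⟨Finset.mem_univ _, ?_⟩
        have h1 := hk'.2
        unfold oth at h1
        rw [hsum] at h1
        cases h2 : r k'
        · rw [h2, sgn_false] at h1; linarith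
        · rfl
      have h1 : ((Finset.univ.filter (fun k => oth r k = (κ:ℝ))).card : ℝ)
          ≤ ((Finset.univ.filter (fun k => r k = true)).card : ℝ) := by
        exact_mod_cast Finset.card_le_card hsub
      have h2 := card_true r
      rw [hsum] at h2
      have h3 := le_abs_self (κ:ℝ)
      linarith
  · push Not at h
    have : Finset.univ.filter (fun k => oth r k = (κ:ℝ)) = ∅ := by
      ext k; simp [h k]
    rw [this]
    simp
    positivity

open Classical in
lemma pair_count {K : ℕ} {κ : ℤ} (hpar : (κ - K) % 2 = 1) (hκ : |κ| < K) :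
    (cK K (κ + 1) : ℝ) * (K + κ + 1)
      ≤ ∑ r : Fin K → Bool, ((Finset.univ.filter (fun k => oth r k = (κ:ℝ))).card : ℝ) := by
  have hratio := cK_ratio hpar hκ
  set A := Finset.univ.filter (fun r : Fin K → Bool => ∑ i, sgn (r i) = ((κ + 1 : ℤ):ℝ)) with hA
  set B := Finset.univ.filter (fun r : Fin K → Bool => ∑ i, sgn (r i) = ((κ - 1 : ℤ):ℝ)) with hB
  have hAc : cK K (κ + 1) = A.card := by rw [cK]
  have hBc : cK K (κ - 1) = B.card := by rw [cK]
  have hdisj : Disjoint A B := by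
    rw [Finset.disjoint_left]
    intro r h1 h2
    rw [hA, Finset.mem_filter] at h1
    rw [hB, Finset.mem_filter] at h2
    have h3 := h1.2.symm.trans h2.2
    have h4 : κ + 1 = κ - 1 := by exact_mod_cast h3
    omega
  have h1 : ∑ r ∈ A ∪ B, ((Finset.univ.filter (fun k => oth r k = (κ:ℝ))).card : ℝ)
      ≤ ∑ r : Fin K → Bool, ((Finset.univ.filter (fun k => oth r k = (κ:ℝ))).card : ℝ) :=
    Finset.sum_le_sum_of_subset_of_nonneg (Finset.subset_univ _) fun _ _ _ => by positivity
  refine le_trans ?_ h1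
  rw [Finset.sum_union hdisj]
  have hAv : ∀ r ∈ A, ((K:ℝ) + κ + 1) / 2 ≤ ((Finset.univ.filter (fun k => oth r k = (κ:ℝ))).card : ℝ) := by
    intro r hr
    rw [hA, Finset.mem_filter] at hr
    have hsub : Finset.univ.filter (fun k => r k = true) ⊆ Finset.univ.filter (fun k => oth r k = (κ:ℝ)) := by
      intro k hk
      rw [Finset.mem_filter] at hk ⊢
      refine ⟨Finset.mem_univ _, ?_⟩
      unfold oth
      rw [hr.2, hk.2, sgn_true]; push_cast; ring
    have h2 : ((Finset.univ.filter (fun k => r k = true)).card : ℝ)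
          ≤ ((Finset.univ.filter (fun k => oth r k = (κ:ℝ))).card : ℝ) := by
      exact_mod_cast Finset.card_le_card hsub
    have h3 := card_true r
    rw [hr.2] at h3
    push_cast at h3
    linarith
  have hBv : ∀ r ∈ B, ((K:ℝ) - κ + 1) / 2 ≤ ((Finset.univ.filter (fun k => oth r k = (κ:ℝ))).card : ℝ) := by
    intro r hr
    rw [hB, Finset.mem_filter] at hr
    have hsub : Finset.univ.filter (fun k => r k = false) ⊆ Finset.univ.filter (fun k => oth r k = (κ:ℝ)) := by
      intro k hk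
      rw [Finset.mem_filter] at hk ⊢
      refine ⟨Finset.mem_univ _, ?_⟩
      unfold oth
      rw [hr.2, hk.2, sgn_false]; push_cast; ring
    have h2 : ((Finset.univ.filter (fun k => r k = false)).card : ℝ)
          ≤ ((Finset.univ.filter (fun k => oth r k = (κ:ℝ))).card : ℝ) := by
      exact_mod_cast Finset.card_le_card hsub
    have h3 := card_false r
    rw [hr.2] at h3
    push_cast at h3
    linarith
  have h2 := Finset.card_nsmul_le_sum A _ _ hAv
  have h3 := Finset.card_nsmul_le_sum B _ _ hBv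
  rw [nsmul_eq_mul] at h2 h3
  rw [← hAc] at h2
  rw [← hBc] at h3
  linarith

lemma extend_curry {d K : ℕ} (j : Fin d → Fin K) (ε : Fin d → Bool) (ρ : Fin d × Fin K → Bool) (i : Fin d)
    (k : Fin K) : Function.extend (fun i => (i, j i)) ε ρ (i, k) = if k = j i then ε i else ρ (i, k) := by
  have hinj : Function.Injective (fun i : Fin d => (i, j i)) := fun a b h => (Prod.mk.inj h).1
  by_cases h : k = j i
  · rw [if_pos h, h]
    exact hinj.extend_apply ε ρ i
  · rw [if_neg h, Function.extend_apply']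
    rintro ⟨a, ha⟩
    rw [Prod.mk.injEq] at ha
    obtain ⟨h1, h2⟩ := ha
    subst h1
    exact h h2.symm

/-- `oth` at the replaced slot does not change. -/
lemma oth_extend {d K : ℕ} (j : Fin d → Fin K) (ε : Fin d → Bool) (ρ : Fin d × Fin K → Bool) (i : Fin d) :
    oth (fun k => Function.extend (fun i => (i, j i)) ε ρ (i, k)) (j i) = oth (fun k => ρ (i, k)) (j i) := by
  classical
  unfold oth
  rw [← Finset.add_sum_erase _ _ (Finset.mem_univ (j i)),
    ← Finset.add_sum_erase _ (fun k => sgn (ρ (i, k))) (Finset.mem_univ (j i))]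
  rw [add_sub_cancel_left, add_sub_cancel_left]
  refine Finset.sum_congr rfl fun k hk => ?_
  beta_reduce
  rw [extend_curry, if_neg (Finset.ne_of_mem_erase hk)]

lemma sigma_extend' {F α β : Type*} [NormedAddCommGroup F] [NormedSpace ℝ F] [Fintype α] [Fintype β]
    (v : α → F) (ι : β → α) (hι : Function.Injective ι) (ρ : α → Bool) (ε : β → Bool) :
    open Classical in
    ∑ a, sgn (Function.extend ι ε ρ a) • v a
      = ∑ a, (if a ∈ Set.range ι then 0 else sgn (ρ a) • v a) + ∑ b, sgn (ε b) • v (ι b) := by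
  classical
  have e1 : ∑ b, sgn (ε b) • v (ι b)
      = ∑ a, (if a ∈ Set.range ι then sgn (Function.extend ι ε ρ a) • v a else 0) := by
    rw [← Finset.sum_filter]
    have : (Finset.univ.filter (fun a => a ∈ Set.range ι)) = Finset.univ.image ι := by
      ext i; simp
    rw [this, Finset.sum_image (fun x _ y _ h => hι h)]
    refine Finset.sum_congr rfl fun j _ => ?_
    rw [hι.extend_apply]
  rw [e1, ← Finset.sum_add_distrib]
  refine Finset.sum_congr rfl fun i _ => ?_
  by_cases hi : i ∈ Set.range ι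
  · simp [hi]
  · simp only [hi, if_false, add_zero]
    rw [Function.extend_apply']
    simpa using hi

open Classical in
/-- flips of one reserved vector in every cluster -/
lemma flip_count {d K : ℕ} (hd : 1 ≤ d) (W : Fin d → Fin d → ℝ) {C : ℝ} (hC : 0 < C)
    (hinv : ∀ (a : Fin d → ℝ) i, |a i| ≤ C * ‖∑ j, a j • row W j‖)
    (v : Fin d × Fin K → EE d) (hv1 : ∀ p, ‖v p‖ = 1) {δ : ℝ}
    (hv : ∀ p, ‖v p - row W p.1‖ ≤ δ) (hδ1 : C * d * δ ≤ 1 / 2)
    (hδ2 : 2 * C * (2 * d * δ + d * K * δ) ≤ 1 / (8 * d))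
    (κ : Fin d → ℤ) (x : Fin d → ℝ) (hx2 : ∑ i, x i ^ 2 < 1 / 2) (j : Fin d → Fin K)
    (ρ : Fin d × Fin K → Bool) (hρ : ∀ i, oth (fun k => ρ (i, k)) (j i) = (κ i : ℝ)) :
    cR 1 * 2 ^ d ≤ ((Finset.univ.filter (fun ε : Fin d → Bool =>
      ‖∑ i, (-(κ i + x i)) • row W i + ∑ p, sgn (Function.extend (fun i => (i, j i)) ε ρ p) • v p‖
        ≤ √(d:ℝ))).card : ℝ) := by
  have hd0 : (0:ℝ) < d := by exact_mod_cast hd
  have hinj : Function.Injective (fun i : Fin d => (i, j i)) := fun a b h => (Prod.mk.inj h).1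
  set u : Fin d → EE d := fun i => v (i, j i) with hu
  have hu1 : ∀ i, ‖u i‖ = 1 := fun i => hv1 _
  have huw : ∀ i, ‖u i - row W i‖ ≤ δ := fun i => hv (i, j i)
  have hlow := pert_low hC hinv huw hδ1
  set y : EE d := ∑ i, (-(κ i + x i)) • row W i with hy
  -- the value of `z0`
  have hself : Function.extend (fun i => (i, j i)) (fun i => ρ (i, j i)) ρ = ρ := by
    ext ⟨i, k⟩
    rw [extend_curry]
    split_ifs with h
    · rw [h]
    · rfl
  set z0 : EE d := y + ∑ p, sgn (ρ p) • v p - ∑ i, sgn (ρ (i, j i)) • u i with hz0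
  have htot : ∀ ε : Fin d → Bool,
      y + ∑ p, sgn (Function.extend (fun i => (i, j i)) ε ρ p) • v p = z0 + ∑ i, sgn (ε i) • u i := by
    intro ε
    have h := sigma_extend' v (fun i : Fin d => (i, j i)) hinj ρ ε
    have h0 := sigma_extend' v (fun i : Fin d => (i, j i)) hinj ρ (fun i => ρ (i, j i))
    rw [hself] at h0
    rw [hz0, h, h0]
    abel
  set err : EE d := ∑ i, sgn (ρ (i, j i)) • (row W i - u i) + ∑ p, sgn (ρ p) • (v p - row W p.1) with herr
  have hz0' : z0 = ∑ i, (-(x i)) • row W i + err := by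
    have h2 : z0 = ∑ i, (-(κ i + x i) + ∑ k, sgn (ρ (i, k))) • row W i
        + ∑ p, sgn (ρ p) • (v p - row W p.1) - ∑ i, sgn (ρ (i, j i)) • u i := by
      rw [hz0, hy, tot_eq]
    have h3 : ∀ i, (-(κ i + x i) + ∑ k, sgn (ρ (i, k))) • row W i
        = (-(x i)) • row W i + sgn (ρ (i, j i)) • row W i := by
      intro i
      rw [← add_smul]
      congr 1
      have := hρ i
      unfold oth at this
      linarith
    have h4 : ∑ i, sgn (ρ (i, j i)) • (row W i - u i)
        = ∑ i, sgn (ρ (i, j i)) • row W i - ∑ i, sgn (ρ (i, j i)) • u i := by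
      simp_rw [smul_sub]
      rw [Finset.sum_sub_distrib]
    rw [h2, herr, Finset.sum_congr rfl (fun i _ => h3 i), Finset.sum_add_distrib, h4]
    abel
  have herrn : ‖err‖ ≤ d * δ + d * K * δ := by
    refine (norm_add_le _ _).trans (add_le_add ?_ (err_le W v hv ρ))
    refine (norm_sum_le _ _).trans ?_
    have h1 : ∀ i ∈ (Finset.univ : Finset (Fin d)), ‖sgn (ρ (i, j i)) • (row W i - u i)‖ ≤ δ := by
      intro i _
      rw [norm_smul, norm_sub_rev]
      have : ‖sgn (ρ (i, j i))‖ = 1 := by cases ρ (i, j i) <;> simp [sgn]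
      rw [this, one_mul]
      exact huw i
    refine (Finset.sum_le_sum h1).trans (le_of_eq ?_)
    simp
  obtain ⟨x', hx'⟩ := solve_of_low u hlow (-z0)
  have hxle : ∀ i, |x i| ≤ 1 := by
    intro i
    have h1 : x i ^ 2 ≤ ∑ i, x i ^ 2 :=
      Finset.single_le_sum (f := fun i => x i ^ 2) (fun i _ => sq_nonneg _) (Finset.mem_univ i)
    rw [← sq_le_one_iff_abs_le_one]
    linarith
  set τ : ℝ := 1 / (8 * d) with hτ
  have hτ0 : 0 < τ := by rw [hτ]; positivity
  have hdiff : ∀ i, |x' i - x i| ≤ τ := by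
    intro i
    refine le_trans (hlow (fun i => x' i - x i) i) (le_trans ?_ hδ2)
    refine mul_le_mul_of_nonneg_left ?_ (by positivity)
    have h1 : ∑ j, (x' j - x j) • u j = ∑ j, x j • (row W j - u j) - err := by
      simp_rw [sub_smul, smul_sub]
      rw [Finset.sum_sub_distrib, Finset.sum_sub_distrib, ← hx', hz0']
      simp_rw [neg_smul]
      rw [Finset.sum_neg_distrib]
      abel
    rw [h1]
    have h2 : ‖∑ j, x j • (row W j - u j)‖ ≤ d * δ := by
      refine (norm_sum_le _ _).trans ?_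
      have h3 : ∀ i ∈ (Finset.univ : Finset (Fin d)), ‖x i • (row W i - u i)‖ ≤ δ := by
        intro i _
        rw [norm_smul, norm_sub_rev, Real.norm_eq_abs]
        calc |x i| * ‖u i - row W i‖ ≤ 1 * δ := mul_le_mul (hxle i) (huw i) (norm_nonneg _) zero_le_one
          _ = δ := one_mul _
      refine (Finset.sum_le_sum h3).trans (le_of_eq ?_)
      simp
    calc ‖∑ j, x j • (row W j - u j) - err‖ ≤ ‖∑ j, x j • (row W j - u j)‖ + ‖err‖ := norm_sub_le _ _
      _ ≤ d * δ + (d * δ + d * K * δ) := add_le_add h2 herrn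
      _ = _ := by ring
  have hdτ : (d:ℝ) * τ = 1 / 8 := by rw [hτ]; field_simp
  have hτ8 : τ ≤ 1 / 8 := by
    have h1 : (1:ℝ) ≤ d := by exact_mod_cast hd
    nlinarith
  have hx'sq : ∑ i, x' i ^ 2 ≤ 1 := by
    have h1 : ∀ i ∈ (Finset.univ : Finset (Fin d)), x' i ^ 2 ≤ x i ^ 2 + 3 * τ := by
      intro i _
      have h2 := hdiff i
      have h3 := hxle i
      have h4 : |x' i| ≤ |x i| + τ := by
        have := abs_add_le (x' i - x i) (x i)
        rw [sub_add_cancel] at this
        linarith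
      have h5 : x' i ^ 2 ≤ (|x i| + τ) ^ 2 := by
        rw [← sq_abs (x' i)]
        exact pow_le_pow_left₀ (abs_nonneg _) h4 2
      have h6 : (|x i| + τ) ^ 2 = x i ^ 2 + 2 * |x i| * τ + τ ^ 2 := by
        rw [add_sq, sq_abs]
      nlinarith
    refine (Finset.sum_le_sum h1).trans ?_
    rw [Finset.sum_add_distrib, Finset.sum_const, Finset.card_univ, Fintype.card_fin, nsmul_eq_mul]
    linarith
  have hx'le : ∀ i, |x' i| ≤ 1 := by
    intro i
    have h1 : x' i ^ 2 ≤ ∑ i, x' i ^ 2 :=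
      Finset.single_le_sum (f := fun i => x' i ^ 2) (fun i _ => sq_nonneg _) (Finset.mem_univ i)
    rw [← sq_le_one_iff_abs_le_one]
    linarith
  have hR := lemmaR u hu1 x' hx'le
  refine le_trans (mul_le_mul_of_nonneg_right (cR_anti hx'sq) (by positivity)) (hR.trans ?_)
  have hsub : (Finset.univ.filter (fun ε : Fin d → Bool =>
      ‖∑ i, (sgn (ε i) - x' i) • u i‖ ^ 2 ≤ d - ∑ i, x' i ^ 2)) ⊆
      (Finset.univ.filter (fun ε : Fin d → Bool =>
      ‖y + ∑ p, sgn (Function.extend (fun i => (i, j i)) ε ρ p) • v p‖ ≤ √(d:ℝ))) := by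
    intro ε hε
    rw [Finset.mem_filter] at hε ⊢
    refine ⟨Finset.mem_univ _, ?_⟩
    rw [htot]
    have h1 : z0 + ∑ i, sgn (ε i) • u i = ∑ i, (sgn (ε i) - x' i) • u i := by
      simp_rw [sub_smul]
      rw [Finset.sum_sub_distrib, ← hx']
      abel
    rw [h1]
    apply Real.le_sqrt_of_sq_le
    have h2 : 0 ≤ ∑ i, x' i ^ 2 := Finset.sum_nonneg fun i _ => sq_nonneg _
    linarith [hε.2]
  exact_mod_cast Finset.card_le_card hsub

open Classical in
lemma local_b {d K : ℕ} (hd : 1 ≤ d) (W : Fin d → Fin d → ℝ) {C : ℝ} (hC : 0 < C)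
    (hinv : ∀ (a : Fin d → ℝ) i, |a i| ≤ C * ‖∑ j, a j • row W j‖)
    (v : Fin d × Fin K → EE d) (hv1 : ∀ p, ‖v p‖ = 1) {δ : ℝ}
    (hv : ∀ p, ‖v p - row W p.1‖ ≤ δ) (hδ1 : C * d * δ ≤ 1 / 2)
    (hδ2 : 2 * C * (2 * d * δ + d * K * δ) ≤ 1 / (8 * d))
    (κ : Fin d → ℤ) (hpar : ∀ i, (κ i - K) % 2 = 1) (hκ : ∀ i, |κ i| < K)
    (x : Fin d → ℝ) (hx2 : ∑ i, x i ^ 2 < 1 / 2) :
    cR 1 * ∏ i, ((cK K (κ i + 1) : ℝ) * (K + κ i + 1))
      ≤ goodC v (∑ i, (-(κ i + x i)) • row W i) * ∏ i, (((K:ℝ) + |(κ i:ℝ)| + 1) / 2) := by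
  set y : EE d := ∑ i, (-(κ i + x i)) • row W i with hy
  set g : (Fin d × Fin K → Bool) → ℝ := fun ρ => if ‖y + ∑ p, sgn (ρ p) • v p‖ ≤ √(d:ℝ) then 1 else 0 with hg
  set mult : Fin d → (Fin K → Bool) → ℝ := fun i r =>
    ((Finset.univ.filter (fun k => oth r k = (κ i:ℝ))).card : ℝ) with hmult
  have hgood : goodC v y = ∑ ρ, g ρ := by
    unfold goodC
    simp only [hg]
    rw [Finset.sum_boole]
  -- indicator of `A j`
  set I : (Fin d → Fin K) → (Fin d × Fin K → Bool) → ℝ := fun j ρ =>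
    ∏ i, (if oth (fun k => ρ (i, k)) (j i) = (κ i : ℝ) then (1:ℝ) else 0) with hI
  have hI0 : ∀ j ρ, 0 ≤ I j ρ := fun j ρ => Finset.prod_nonneg fun i _ => by split_ifs <;> norm_num
  have hsumj : ∀ ρ, ∑ j, I j ρ = ∏ i, mult i (fun k => ρ (i, k)) := by
    intro ρ
    have h2 := (Finset.prod_univ_sum (fun _ : Fin d => (Finset.univ : Finset (Fin K)))
      (fun i k => if oth (fun k => ρ (i, k)) k = (κ i : ℝ) then (1:ℝ) else 0))
    rw [Fintype.piFinset_univ] at h2
    simp only [hI]
    rw [← h2]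
    refine Finset.prod_congr rfl fun i _ => ?_
    rw [Finset.sum_boole]
  -- lower bound for fixed `j`
  have hlow : ∀ j, cR 1 * ∑ ρ, I j ρ ≤ ∑ ρ, g ρ * I j ρ := by
    intro j
    have hinj : Function.Injective (fun i : Fin d => (i, j i)) := fun a b h => (Prod.mk.inj h).1
    have havg := avg_extend (fun i : Fin d => (i, j i)) hinj (fun ρ => g ρ * I j ρ)
    rw [Fintype.card_fin] at havg
    have h1 : ∀ ρ : Fin d × Fin K → Bool, (cR 1 * 2 ^ d) * I j ρ
        ≤ ∑ ε : Fin d → Bool, g (Function.extend (fun i => (i, j i)) ε ρ) * I j (Function.extend (fun i => (i, j i)) ε ρ) := by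
      intro ρ
      have hIe : ∀ ε : Fin d → Bool, I j (Function.extend (fun i => (i, j i)) ε ρ) = I j ρ := by
        intro ε
        simp only [hI]
        refine Finset.prod_congr rfl fun i _ => ?_
        rw [oth_extend]
      simp_rw [hIe]
      rw [← Finset.sum_mul]
      by_cases hA : ∀ i, oth (fun k => ρ (i, k)) (j i) = (κ i : ℝ)
      · refine mul_le_mul_of_nonneg_right ?_ (hI0 _ _)
        have h2 := flip_count hd W hC hinv v hv1 hv hδ1 hδ2 κ x hx2 j ρ hA
        refine h2.trans (le_of_eq ?_)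
        simp only [hg]
        rw [Finset.sum_boole]
      · push Not at hA
        obtain ⟨i, hi⟩ := hA
        have : I j ρ = 0 := by
          simp only [hI]
          exact Finset.prod_eq_zero (Finset.mem_univ i) (if_neg hi)
        rw [this]; simp
    have h2 := Finset.sum_le_sum fun ρ (_ : ρ ∈ (Finset.univ : Finset (Fin d × Fin K → Bool))) => h1 ρ
    rw [← Finset.mul_sum, havg] at h2
    have h3 : (0:ℝ) < 2 ^ d := by positivity
    have h4 : 2 ^ d * (cR 1 * ∑ ρ, I j ρ) ≤ 2 ^ d * ∑ ρ, g ρ * I j ρ := by linarith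
    exact le_of_mul_le_mul_left h4 h3
  have hsum := Finset.sum_le_sum fun j (_ : j ∈ (Finset.univ : Finset (Fin d → Fin K))) => hlow j
  rw [← Finset.mul_sum, Finset.sum_comm, Finset.sum_comm (f := fun j ρ => g ρ * I j ρ)] at hsum
  simp_rw [← Finset.mul_sum, hsumj] at hsum
  rw [sum_prod_curry] at hsum
  have hleft : cR 1 * ∏ i, ((cK K (κ i + 1) : ℝ) * (K + κ i + 1)) ≤ cR 1 * ∏ i, ∑ r, mult i r := by
    refine mul_le_mul_of_nonneg_left ?_ (cR_pos 1).le
    refine Finset.prod_le_prod (fun i _ => ?_) fun i _ => pair_count (hpar i) (hκ i)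
    have h1 := (abs_lt.1 (hκ i)).1
    have h2 : -(K:ℝ) < κ i := by exact_mod_cast h1
    have h3 : (0:ℝ) ≤ K + κ i + 1 := by linarith
    positivity
  refine hleft.trans (hsum.trans ?_)
  rw [hgood, Finset.sum_mul]
  refine Finset.sum_le_sum fun ρ _ => ?_
  refine mul_le_mul_of_nonneg_left ?_ (by simp only [hg]; split_ifs <;> norm_num)
  exact Finset.prod_le_prod (fun i _ => by simp only [hmult]; positivity) fun i _ => mult_le _ _

/-- Local lemma -/
theorem local_lemma : ∃ c : ℝ, 0 < c ∧ ∀ d : ℕ, 1 ≤ d → ∀ l0 : ℝ, 0 < l0 →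
    ∃ η : ℝ, 0 < η ∧ ∃ K0 : ℕ, ∀ K : ℕ, K0 ≤ K → ∃ δ : ℝ, 0 < δ ∧
    ∀ W : Fin d → Fin d → ℝ, UT W → (∀ i, l0 ≤ W i i) →
    ∀ v : Fin d × Fin K → EE d, (∀ p, ‖v p‖ = 1) → (∀ p, ‖v p - row W p.1‖ ≤ δ) →
    ∀ (κ : Fin d → ℤ) (x : Fin d → ℝ), (∀ i, (κ i - K) % 2 = 1) → (∀ i, |(κ i : ℝ)| ≤ η * K) →
      (∀ i, |x i| ≤ 1) →
      c * (∏ i, (2 / W i i)) * ∏ i, (cK K (κ i + 1) : ℝ)
        ≤ goodC v (∑ i, (-(κ i + x i)) • row W i) := by
  obtain ⟨c, cb, hc, hcb, HC⟩ := core
  obtain ⟨c', hc'0, hc'1, hc'2⟩ : ∃ c' : ℝ, 0 < c' ∧ c' ≤ c / 2 ∧ c' ≤ cR 1 * cb / 2 :=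
    ⟨min (c / 2) (cR 1 * cb / 2), lt_min (by positivity) (by have := cR_pos 1; positivity),
      min_le_left _ _, min_le_right _ _⟩
  refine ⟨c', hc'0, ?_⟩
  intro d hd l0 hl0
  obtain ⟨C, hC, hinvC⟩ := UT.inv_bound hl0 d
  have hd0 : (0:ℝ) < d := by exact_mod_cast hd
  have hd1 : (1:ℝ) ≤ d := by exact_mod_cast hd
  set R : ℕ := ⌈C * √(d:ℝ) + 2⌉₊ with hR
  have hR0 : (0:ℝ) < R := by
    have : C * √(d:ℝ) + 2 ≤ R := Nat.le_ceil _
    have : 0 ≤ C * √(d:ℝ) := by positivity
    linarith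
  have hR2 : (2:ℝ) ≤ R := by
    have : C * √(d:ℝ) + 2 ≤ R := Nat.le_ceil _
    have : 0 ≤ C * √(d:ℝ) := by positivity
    linarith
  set η : ℝ := 1 / (48 * R * d) with hη
  have hη0 : 0 < η := by rw [hη]; positivity
  have hηRd : η * R * d = 1 / 48 := by rw [hη]; field_simp
  have hηs : η ≤ 1 / 96 := by
    rw [hη, div_le_div_iff₀ (by positivity) (by norm_num)]
    nlinarith
  have hηd : η * d ≤ 1 / 96 := by
    have : η * 2 * d ≤ η * R * d := by
      have := mul_le_mul_of_nonneg_left hR2 hη0.le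
      nlinarith
    linarith
  refine ⟨η, hη0, ⌈2 * R / η⌉₊ + 1, ?_⟩
  intro K hK
  have hKr : 2 * R / η ≤ K := by
    have h1 := Nat.le_ceil (2 * (R:ℝ) / η)
    have h2 : (⌈2 * (R:ℝ) / η⌉₊ : ℝ) ≤ K := by
      have : ⌈2 * (R:ℝ) / η⌉₊ ≤ K := by omega
      exact_mod_cast this
    linarith
  have hK0 : (0:ℝ) < K := lt_of_lt_of_le (by positivity) hKr
  have hK1 : 1 ≤ η * K := by
    rw [div_le_iff₀ hη0] at hKr
    nlinarith
  -- choose δ
  set D : ℝ := √(d:ℝ) - √((d:ℝ) - 1 / 2) with hD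
  have hD0 : 0 < D := by
    rw [hD, sub_pos]
    exact Real.sqrt_lt_sqrt (by linarith) (by linarith)
  set δ : ℝ := min (D / (d * K)) (min (1 / (2 * C * d)) (1 / (8 * d * (2 * C * (2 * d + d * K))))) with hδ
  have hδ0 : 0 < δ := by
    rw [hδ]
    refine lt_min (by positivity) (lt_min (by positivity) (by positivity))
  have hδa : d * K * δ ≤ D := by
    have : δ ≤ D / (d * K) := min_le_left _ _
    rw [le_div_iff₀ (by positivity)] at this
    linarith
  have hδb : C * d * δ ≤ 1 / 2 := by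
    have : δ ≤ 1 / (2 * C * d) := (min_le_right _ _).trans (min_le_left _ _)
    rw [le_div_iff₀ (by positivity)] at this
    linarith
  have hδc : 2 * C * (2 * d * δ + d * K * δ) ≤ 1 / (8 * d) := by
    have : δ ≤ 1 / (8 * d * (2 * C * (2 * d + d * K))) := (min_le_right _ _).trans (min_le_right _ _)
    rw [le_div_iff₀ (by positivity)] at this ⊢
    linarith
  refine ⟨δ, hδ0, ?_⟩
  intro W hW hl v hv1 hv κ x hpar hκ hx
  have hprod : 0 < ∏ i, (2 / W i i) := Finset.prod_pos fun i _ => by have := hW.pos i; positivity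
  have hprodK : 0 ≤ ∏ i, (cK K (κ i + 1) : ℝ) := Finset.prod_nonneg fun i _ => by positivity
  rcases HC d W hW x hx with ⟨M, hM, hcard⟩ | ⟨hcbl, hx2⟩
  · -- margin case
    have h1 := local_a W v hv κ x M hM (by rw [hD] at hδa; linarith)
    refine le_trans ?_ h1
    have h2 : ∀ k ∈ M, (1 / 2) * ∏ i, (cK K (κ i + 1) : ℝ) ≤ ∏ i, (cK K (κ i + 1 + 2 * k i) : ℝ) := by
      intro k hk
      have hEn := hM k hk
      rw [En_eq_norm] at hEn
      have hnorm : ‖∑ i, ((1 - x i) + 2 * (k i : ℝ)) • row W i‖ ≤ √(d:ℝ) := by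
        apply Real.le_sqrt_of_sq_le
        linarith
      have hki : ∀ i, |k i| ≤ (R:ℤ) := by
        intro i
        have h3 := hinvC W hW hl (fun i => (1 - x i) + 2 * (k i : ℝ)) i
        have h4 : |(1 - x i) + 2 * (k i : ℝ)| ≤ C * √(d:ℝ) := h3.trans (mul_le_mul_of_nonneg_left hnorm hC.le)
        have h5 : |(k i : ℝ)| ≤ R := by
          have h6 : C * √(d:ℝ) + 2 ≤ R := Nat.le_ceil _
          obtain ⟨a1, a2⟩ := abs_le.1 h4
          obtain ⟨b1, b2⟩ := abs_le.1 (hx i)
          have h7 : 0 ≤ C * √(d:ℝ) := by positivity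
          rw [abs_le]
          constructor <;> linarith
        exact_mod_cast h5
      have h3 : ∀ i ∈ (Finset.univ : Finset (Fin d)), (1 - 12 * η * R) * (cK K (κ i + 1) : ℝ)
          ≤ (cK K (κ i + 1 + 2 * k i) : ℝ) := by
        intro i _
        have h4 := cK_compare (K := K) (k := κ i + 1) (by have := hpar i; omega) (η := 2 * η)
          (by positivity) (by linarith) R (by
            refine le_trans ?_ hKr
            rw [div_le_div_iff₀ (by positivity) hη0]
            nlinarith) (by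
            refine le_trans ?_ hKr
            apply div_le_div_of_nonneg_left (by positivity) hη0 (by linarith)) (by
            push_cast
            have := hκ i
            calc |(κ i : ℝ) + 1| ≤ |(κ i : ℝ)| + |(1:ℝ)| := abs_add_le _ _
              _ = |(κ i : ℝ)| + 1 := by rw [abs_one]
              _ ≤ _ := by linarith) (k i) (hki i)
        have e : 1 - 6 * (2 * η) * R = 1 - 12 * η * R := by ring
        rw [e] at h4
        exact h4
      have h12 : 12 * η * R * d = 1 / 4 := by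
        have : 12 * η * R * d = 12 * (η * R * d) := by ring
        rw [this, hηRd]; norm_num
      have h12' : 12 * η * R ≤ 1 / 4 := by
        have h8 : 0 < 12 * η * R := by positivity
        nlinarith
      have h5 : 1 / 2 ≤ (1 - 12 * η * R) ^ d := by
        have h6 := one_add_mul_le_pow (a := -(12 * η * R)) (by linarith) d
        have e : (1 + -(12 * η * R)) = 1 - 12 * η * R := by ring
        rw [e] at h6
        refine le_trans ?_ h6
        linarith
      calc (1 / 2) * ∏ i, (cK K (κ i + 1) : ℝ) ≤ (1 - 12 * η * R) ^ d * ∏ i, (cK K (κ i + 1) : ℝ) :=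
            mul_le_mul_of_nonneg_right h5 hprodK
        _ = ∏ i, ((1 - 12 * η * R) * (cK K (κ i + 1) : ℝ)) := by
            rw [Finset.prod_mul_distrib, Finset.prod_const, Finset.card_univ, Fintype.card_fin]
        _ ≤ _ := Finset.prod_le_prod (fun i _ => mul_nonneg (by linarith) (by positivity)) h3
    have h3 := Finset.card_nsmul_le_sum M _ _ h2
    rw [nsmul_eq_mul] at h3
    refine le_trans ?_ h3
    calc c' * (∏ i, (2 / W i i)) * ∏ i, (cK K (κ i + 1) : ℝ)
        ≤ (c / 2) * (∏ i, (2 / W i i)) * ∏ i, (cK K (κ i + 1) : ℝ) := by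
          refine mul_le_mul_of_nonneg_right (mul_le_mul_of_nonneg_right hc'1 hprod.le) hprodK
      _ = (c * (∏ i, (2 / W i i))) * ((1 / 2) * ∏ i, (cK K (κ i + 1) : ℝ)) := by ring
      _ ≤ _ := mul_le_mul_of_nonneg_right hcard (by positivity)
  · -- exact case
    have hκK : ∀ i, |κ i| < (K:ℤ) := by
      intro i
      have h1 : |(κ i : ℝ)| < K := by
        have := hκ i
        nlinarith
      exact_mod_cast h1
    have h1 := local_b hd W hC (hinvC W hW hl) v hv1 hv hδb hδc κ hpar hκK x hx2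
    set G := goodC v (∑ i, (-(κ i + x i)) • row W i) with hG
    have hG0 : 0 ≤ G := by rw [hG]; unfold goodC; positivity
    set Q := ∏ i, (((K:ℝ) + |(κ i:ℝ)| + 1) / 2) with hQ
    have hQ0 : 0 < Q := Finset.prod_pos fun i _ => by positivity
    -- `K + κ + 1 ≥ (1 - 2η)·(K + |κ| + 1)`
    have h2 : ∀ i ∈ (Finset.univ : Finset (Fin d)), (1 - 2 * η) * (2 * ((((K:ℝ) + |(κ i:ℝ)| + 1) / 2) * (cK K (κ i + 1) : ℝ)))
        ≤ (cK K (κ i + 1) : ℝ) * (K + κ i + 1) := by
      intro i _
      have h3 := hκ i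
      have h4 := neg_abs_le (κ i : ℝ)
      have h5 : (0:ℝ) ≤ cK K (κ i + 1) := by positivity
      have h6 : (1 - 2 * η) * (((K:ℝ) + |(κ i:ℝ)| + 1)) ≤ K + κ i + 1 := by
        have h7 : 0 ≤ η * |(κ i : ℝ)| := by positivity
        nlinarith
      have := mul_le_mul_of_nonneg_right h6 h5
      linarith
    have h3 := Finset.prod_le_prod (fun i _ => mul_nonneg (by linarith) (by positivity)) h2
    rw [Finset.prod_mul_distrib, Finset.prod_const, Finset.card_univ, Fintype.card_fin,
      Finset.prod_mul_distrib, Finset.prod_const, Finset.card_univ, Fintype.card_fin,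
      Finset.prod_mul_distrib, ← hQ] at h3
    have h4 : 1 / 2 ≤ (1 - 2 * η) ^ d := by
      have h6 := one_add_mul_le_pow (a := -(2 * η)) (by linarith) d
      have e : (1 + -(2 * η)) = 1 - 2 * η := by ring
      rw [e] at h6
      refine le_trans ?_ h6
      linarith
    set PK := ∏ i, (cK K (κ i + 1) : ℝ) with hPK
    have hX : 0 ≤ (2:ℝ) ^ d * (Q * PK) := mul_nonneg (by positivity) (mul_nonneg hQ0.le hprodK)
    have hcR := cR_pos 1
    have h5' : 1 / 2 * (2 ^ d * (Q * PK)) ≤ ∏ i, ((cK K (κ i + 1) : ℝ) * (K + κ i + 1)) :=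
      le_trans (mul_le_mul_of_nonneg_right h4 hX) h3
    have h5 : cR 1 * (1 / 2 * (2 ^ d * (Q * PK))) ≤ G * Q :=
      (mul_le_mul_of_nonneg_left h5' hcR.le).trans h1
    have h6 : cR 1 * (1 / 2 * (2 ^ d * PK)) ≤ G := by
      have : cR 1 * (1 / 2 * (2 ^ d * (Q * PK))) = (cR 1 * (1 / 2 * (2 ^ d * PK))) * Q := by ring
      rw [this] at h5
      exact le_of_mul_le_mul_right h5 hQ0
    refine le_trans ?_ h6
    have h7 : cb * ∏ i, (2 / W i i) ≤ 2 ^ d := by
      have h8 : (∏ i, W i i) * ∏ i, (2 / W i i) = 2 ^ d := by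
        rw [← Finset.prod_mul_distrib]
        have : ∀ i, W i i * (2 / W i i) = 2 := fun i => mul_div_cancel₀ _ (hW.pos i).ne'
        simp [this]
      rw [← h8]
      exact mul_le_mul_of_nonneg_right hcbl hprod.le
    clear_value PK
    generalize ∏ i, (2 / W i i) = P2 at *
    generalize cR 1 = r at *
    have h8 : c' * P2 * PK ≤ (r * cb / 2) * P2 * PK :=
      mul_le_mul_of_nonneg_right (mul_le_mul_of_nonneg_right hc'2 hprod.le) hprodK
    have h9 : (cb * P2) * PK ≤ 2 ^ d * PK := mul_le_mul_of_nonneg_right h7 hprodK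
    have h10 := mul_le_mul_of_nonneg_left h9 hcR.le
    linarith

end MP087bf0
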