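import Mathlib
import Pool.Agent.Lib.MP_087bf0_co.FourierMulti
import Pool.Agent.Lib.MP_087bf0_co.LocalB
open Set Filter Topology MeasureTheory
open scoped Real

namespace MP087bf0

/-- periodization bound for echelon systems -/
lemma Hk_period {a : ℝ} (ha : 0 < a) (ha1 : a ≤ 1) : ∀ {m : ℕ} {W : Fin m → Fin m → ℝ} (_ : UT W)
    (q : Fin m → ℝ) (S : Finset (Fin m → ℤ)),
    ∑ z ∈ S, ∏ j, hk a (q j + 2 * ∑ i, (z i : ℝ) * W i j) ≤ ∏ i, (π / (a * W i i))
  | 0, W, hW, q, S => by
      simp only [Finset.univ_eq_empty, Finset.prod_empty, Finset.sum_const, nsmul_eq_mul, mul_one]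
      have : S.card ≤ 1 := Finset.card_le_one_of_subsingleton S
      exact_mod_cast this
  | m + 1, W, hW, q, S => by
      classical
      have hπ := Real.pi_pos
      set F : (Fin (m+1) → ℤ) → ℝ := fun z => ∏ j, hk a (q j + 2 * ∑ i, (z i : ℝ) * W i j) with hF
      set S0 := S.image (fun z => z 0) with hS0
      set S1 := S.image (fun z i => z (Fin.succ i)) with hS1
      have hF0 : ∀ z, 0 ≤ F z := fun z => Finset.prod_nonneg fun _ _ => hk_nonneg _ _
      have h1 : ∑ z ∈ S, F z ≤ ∑ k0 ∈ S0, ∑ k ∈ S1, F (Fin.cons k0 k) := by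
        rw [← Finset.sum_product']
        have hinj : Set.InjOn (fun z : Fin (m+1) → ℤ => (z 0, fun i => z (Fin.succ i))) S := by
          intro z _ z' _ h
          rw [Prod.mk.injEq] at h
          ext i
          refine Fin.cases h.1 (fun i => congrFun h.2 i) i
        have h2 : ∑ z ∈ S, F z = ∑ p ∈ S.image (fun z : Fin (m+1) → ℤ => (z 0, fun i => z (Fin.succ i))),
            F (Fin.cons p.1 p.2) := by
          rw [Finset.sum_image hinj]
          refine Finset.sum_congr rfl fun z _ => ?_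
          congr 1
          ext i
          refine Fin.cases ?_ (fun i => ?_) i <;> simp
        rw [h2]
        refine Finset.sum_le_sum_of_subset_of_nonneg ?_ fun _ _ _ => hF0 _
        intro p hp
        rw [Finset.mem_image] at hp
        obtain ⟨z, hz, rfl⟩ := hp
        rw [Finset.mem_product]
        exact ⟨Finset.mem_image_of_mem _ hz, Finset.mem_image_of_mem _ hz⟩
      refine h1.trans ?_
      have h2 : ∀ (k0 : ℤ) (k : Fin m → ℤ), F (Fin.cons k0 k) = hk a (q 0 + 2 * W 0 0 * k0) *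
          ∏ j : Fin m, hk a ((q j.succ + 2 * (k0 * W 0 j.succ)) + 2 * ∑ i : Fin m, (k i : ℝ) * W i.succ j.succ) := by
        intro k0 k
        simp only [hF]
        rw [Fin.prod_univ_succ]
        congr 1
        · rw [Fin.sum_univ_succ]
          have : ∀ i : Fin m, W i.succ 0 = 0 := fun i => hW.tri _ _ (Fin.succ_pos i)
          simp only [Fin.cons_zero, Fin.cons_succ, this, mul_zero, Finset.sum_const_zero, add_zero]
          congr 1; ring
        · refine Finset.prod_congr rfl fun j _ => ?_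
          rw [Fin.sum_univ_succ]
          simp only [Fin.cons_zero, Fin.cons_succ]
          congr 1; ring
      simp_rw [h2, ← Finset.mul_sum]
      rw [Fin.prod_univ_succ]
      set P := ∏ i : Fin m, (π / (a * W i.succ i.succ)) with hP
      have hP0 : 0 ≤ P := Finset.prod_nonneg fun i _ => by have := hW.pos i.succ; positivity
      have h3 : ∀ k0 ∈ S0, hk a (q 0 + 2 * W 0 0 * k0) * ∑ k ∈ S1, ∏ j : Fin m, hk a ((q j.succ +
          2 * (k0 * W 0 j.succ)) + 2 * ∑ i : Fin m, (k i : ℝ) * W i.succ j.succ)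
          ≤ hk a (q 0 + 2 * W 0 0 * k0) * P := by
        intro k0 _
        exact mul_le_mul_of_nonneg_left (Hk_period ha ha1 hW.tail _ S1) (hk_nonneg _ _)
      refine (Finset.sum_le_sum h3).trans ?_
      rw [← Finset.sum_mul]
      exact mul_le_mul_of_nonneg_right (hk_periodization ha ha1 (hW.pos 0) (hW.le_one 0) _ _) hP0

lemma EHk_nonneg (a : ℝ) {d n : ℕ} (v : Fin n → EE d) (c : EE d) : 0 ≤ EHk a v c :=
  div_nonneg (Finset.sum_nonneg fun _ _ => Hk_nonneg _ _) (by positivity)

/-- pointwise tail domination in direction `j`, positive side -/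
lemma Hk_tail_pos {a : ℝ} (ha : 0 < a) (ha1 : a ≤ 1) {d : ℕ} (j : Fin d) (x : EE d) {k Q : ℕ}
    (hk1 : 1 ≤ k) (hx : (k:ℝ) + 1 ≤ x j) (hxQ : x j < Q + 1) :
    Hk a x ≤ ∑ q ∈ Finset.Ioc k Q, 8 / (a ^ 2 * (q:ℝ) ^ 2) *
      Hk a (x - EuclideanSpace.single j (q:ℝ)) := by
  classical
  have hx0 : 0 ≤ x j := by linarith [show (0:ℝ) ≤ k by positivity]
  set q := ⌊x j⌋₊ with hq
  have hq1 : (q:ℝ) ≤ x j := Nat.floor_le hx0
  have hq2 : x j < q + 1 := Nat.lt_floor_add_one _
  have hkq : k < q := by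
    have : k + 1 ≤ q := Nat.le_floor (by push_cast; exact hx)
    omega
  have hqQ : q ≤ Q := by
    have : (q:ℝ) < Q + 1 := lt_of_le_of_lt hq1 hxQ
    have : q < Q + 1 := by exact_mod_cast this
    omega
  have hq0 : (0:ℝ) < q := by
    have : 0 < q := by omega
    exact_mod_cast this
  refine le_trans ?_ (Finset.single_le_sum (f := fun q : ℕ => 8 / (a ^ 2 * (q:ℝ) ^ 2) *
      Hk a (x - EuclideanSpace.single j (q:ℝ))) (fun q _ => mul_nonneg (by positivity) (Hk_nonneg _ _))
      (Finset.mem_Ioc.2 ⟨hkq, hqQ⟩))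
  unfold Hk
  rw [← Finset.mul_prod_erase _ _ (Finset.mem_univ j),
    ← Finset.mul_prod_erase _ (fun i => hk a ((x - EuclideanSpace.single j (q:ℝ)) i)) (Finset.mem_univ j)]
  have h1 : ∏ i ∈ Finset.univ.erase j, hk a ((x - EuclideanSpace.single j (q:ℝ)) i)
      = ∏ i ∈ Finset.univ.erase j, hk a (x i) := by
    refine Finset.prod_congr rfl fun i hi => ?_
    have := Finset.ne_of_mem_erase hi
    simp [this]
  rw [h1, ← mul_assoc]
  refine mul_le_mul_of_nonneg_right ?_ (Finset.prod_nonneg fun _ _ => hk_nonneg _ _)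
  have h2 : (x - EuclideanSpace.single j (q:ℝ)) j = x j - q := by simp
  rw [h2]
  have h3 := hk_lower ha ha1 (s := x j - q) (by rw [abs_le]; constructor <;> linarith)
  have h4 := hk_decay ha (s := x j) (by linarith)
  refine h4.trans ?_
  have h5 : 4 / (a ^ 2 * (x j) ^ 2) ≤ 4 / (a ^ 2 * (q:ℝ) ^ 2) := by
    apply div_le_div_of_nonneg_left (by norm_num) (by positivity)
    exact mul_le_mul_of_nonneg_left (pow_le_pow_left₀ hq0.le hq1 2) (by positivity)
  refine h5.trans ?_
  have h6 : 4 / (a ^ 2 * (q:ℝ) ^ 2) = 8 / (a ^ 2 * (q:ℝ) ^ 2) * (1 / 2) := by ring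
  rw [h6]
  exact mul_le_mul_of_nonneg_left h3 (by positivity)

end MP087bf0
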