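import Mathlib
import Pool.Agent.Lib.MP_087bf0_co.Global
open Set Filter Topology MeasureTheory
open scoped Real

namespace MP087bf0

lemma hk_even (a s : ℝ) : hk a (-s) = hk a s := by
  unfold hk
  have : a * -s / 2 = -(a * s / 2) := by ring
  rw [this, Real.sinc_neg]

lemma Hk_even (a : ℝ) {d : ℕ} (x : EE d) : Hk a (-x) = Hk a x := by
  unfold Hk
  refine Finset.prod_congr rfl fun j _ => ?_
  have : (-x) j = -(x j) := by simp
  rw [this, hk_even]

lemma Hk_le_one (a : ℝ) {d : ℕ} (x : EE d) : Hk a x ≤ 1 :=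
  Finset.prod_le_one (fun _ _ => hk_nonneg _ _) fun _ _ => hk_le_one _ _

/-- pointwise tail domination in direction `j`, negative side -/
lemma Hk_tail_neg {a : ℝ} (ha : 0 < a) (ha1 : a ≤ 1) {d : ℕ} (j : Fin d) (x : EE d) {k Q : ℕ}
    (hk1 : 1 ≤ k) (hx : (k:ℝ) + 1 ≤ -(x j)) (hxQ : -(x j) < Q + 1) :
    Hk a x ≤ ∑ q ∈ Finset.Ioc k Q, 8 / (a ^ 2 * (q:ℝ) ^ 2) *
      Hk a (x + EuclideanSpace.single j (q:ℝ)) := by
  have e : ((-x : EE d)) j = -(x j) := by simp
  have h := Hk_tail_pos ha ha1 j (-x) (k := k) (Q := Q) hk1 (by rw [e]; exact hx) (by rw [e]; exact hxQ)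
  rw [Hk_even] at h
  refine h.trans (le_of_eq (Finset.sum_congr rfl fun q _ => ?_))
  rw [← Hk_even a (x + _)]
  congr 2
  abel

lemma far_le {a : ℝ} (ha : 0 < a) (ha1 : a ≤ 1) {d n : ℕ} (v : Fin n → EE d) {U : ℝ}
    (hU : ∀ c, EHk a v c ≤ U) (c : EE d) {k : ℕ} (hk : 1 ≤ k) :
    open Classical in
    (∑ ε : Fin n → Bool, (if ∃ j, (k:ℝ) + 1 ≤ |(c + ∑ i, sgn (ε i) • v i) j| then
      Hk a (c + ∑ i, sgn (ε i) • v i) else 0)) / 2 ^ n ≤ 16 * d / (a ^ 2 * k) * U := by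
  classical
  have hU0 : 0 ≤ U := (EHk_nonneg a v 0).trans (hU 0)
  have hk0 : (0:ℝ) < k := by exact_mod_cast hk
  set X : (Fin n → Bool) → EE d := fun ε => c + ∑ i, sgn (ε i) • v i with hX
  set Q : ℕ := ⌈∑ ε, ∑ j, |X ε j|⌉₊ with hQ
  have hQb : ∀ ε j, |X ε j| < Q + 1 := by
    intro ε j
    have h1 : |X ε j| ≤ ∑ ε, ∑ j, |X ε j| := by
      refine le_trans ?_ (Finset.single_le_sum (f := fun ε => ∑ j, |X ε j|)
        (fun _ _ => Finset.sum_nonneg fun _ _ => abs_nonneg _) (Finset.mem_univ ε))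
      exact Finset.single_le_sum (f := fun j => |X ε j|) (fun _ _ => abs_nonneg _) (Finset.mem_univ j)
    have h2 := Nat.le_ceil (∑ ε, ∑ j, |X ε j|)
    rw [← hQ] at h2
    linarith
  set B : (Fin n → Bool) → Fin d → ℕ → ℝ := fun ε j q => 8 / (a ^ 2 * (q:ℝ) ^ 2) *
      (Hk a (X ε - EuclideanSpace.single j (q:ℝ)) + Hk a (X ε + EuclideanSpace.single j (q:ℝ))) with hB
  have hB0 : ∀ ε j q, 0 ≤ B ε j q := fun ε j q =>
    mul_nonneg (by positivity) (add_nonneg (Hk_nonneg _ _) (Hk_nonneg _ _))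
  have hpt : ∀ ε, (if ∃ j, (k:ℝ) + 1 ≤ |X ε j| then Hk a (X ε) else 0)
      ≤ ∑ j, ∑ q ∈ Finset.Ioc k Q, B ε j q := by
    intro ε
    split_ifs with h
    · obtain ⟨j, hj⟩ := h
      have hQj := hQb ε j
      have h1 : Hk a (X ε) ≤ ∑ q ∈ Finset.Ioc k Q, B ε j q := by
        rcases le_abs'.1 hj with h | h
        · have h2 : -(X ε j) < Q + 1 := lt_of_le_of_lt (neg_le_abs _) hQj
          refine (Hk_tail_neg ha ha1 j (X ε) hk (by linarith) h2).trans ?_
          refine Finset.sum_le_sum fun q _ => ?_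
          refine mul_le_mul_of_nonneg_left ?_ (by positivity)
          have := Hk_nonneg a (X ε - EuclideanSpace.single j (q:ℝ))
          linarith
        · have h2 : X ε j < Q + 1 := lt_of_le_of_lt (le_abs_self _) hQj
          refine (Hk_tail_pos ha ha1 j (X ε) hk h h2).trans ?_
          refine Finset.sum_le_sum fun q _ => ?_
          refine mul_le_mul_of_nonneg_left ?_ (by positivity)
          have := Hk_nonneg a (X ε + EuclideanSpace.single j (q:ℝ))
          linarith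
      refine h1.trans (Finset.single_le_sum (f := fun j => ∑ q ∈ Finset.Ioc k Q, B ε j q)
        (fun _ _ => Finset.sum_nonneg fun _ _ => hB0 _ _ _) (Finset.mem_univ j))
    · exact Finset.sum_nonneg fun _ _ => Finset.sum_nonneg fun _ _ => hB0 _ _ _
  have hE : ∀ (j : Fin d) (q : ℕ), (∑ ε, B ε j q) / 2 ^ n ≤ 8 / (a ^ 2 * (q:ℝ) ^ 2) * (2 * U) := by
    intro j q
    simp only [hB]
    rw [← Finset.mul_sum, mul_div_assoc]
    refine mul_le_mul_of_nonneg_left ?_ (by positivity)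
    rw [Finset.sum_add_distrib, add_div]
    have e1 := hU (c - EuclideanSpace.single j (q:ℝ))
    have e2 := hU (c + EuclideanSpace.single j (q:ℝ))
    unfold EHk at e1 e2
    have e3 : ∀ ε, X ε - EuclideanSpace.single j (q:ℝ)
        = c - EuclideanSpace.single j (q:ℝ) + ∑ i, sgn (ε i) • v i := by
      intro ε; simp only [hX]; abel
    have e4 : ∀ ε, X ε + EuclideanSpace.single j (q:ℝ)
        = c + EuclideanSpace.single j (q:ℝ) + ∑ i, sgn (ε i) • v i := by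
      intro ε; simp only [hX]; abel
    simp_rw [e3, e4]
    linarith
  have h1 : (∑ ε, (if ∃ j, (k:ℝ) + 1 ≤ |X ε j| then Hk a (X ε) else 0)) / 2 ^ n
      ≤ ∑ j : Fin d, ∑ q ∈ Finset.Ioc k Q, 8 / (a ^ 2 * (q:ℝ) ^ 2) * (2 * U) := by
    have h2 : (∑ ε, (if ∃ j, (k:ℝ) + 1 ≤ |X ε j| then Hk a (X ε) else 0)) / 2 ^ n
        ≤ (∑ ε, ∑ j, ∑ q ∈ Finset.Ioc k Q, B ε j q) / 2 ^ n :=
      div_le_div_of_nonneg_right (Finset.sum_le_sum fun ε _ => hpt ε) (by positivity)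
    refine h2.trans ?_
    rw [Finset.sum_comm, Finset.sum_div]
    refine Finset.sum_le_sum fun j _ => ?_
    rw [Finset.sum_comm, Finset.sum_div]
    exact Finset.sum_le_sum fun q _ => hE j q
  refine h1.trans ?_
  have h3 : ∑ q ∈ Finset.Ioc k Q, 1 / ((q:ℝ) ^ 2) ≤ 1 / (k:ℝ) := by
    rcases le_or_gt k Q with h | h
    · have h4 := sum_Ioc_inv_sq_le_sub (α := ℝ) (k := k) (n := Q) (by omega) h
      have h5 : ∑ q ∈ Finset.Ioc k Q, 1 / ((q:ℝ) ^ 2) = ∑ i ∈ Finset.Ioc k Q, ((i:ℝ) ^ 2)⁻¹ :=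
        Finset.sum_congr rfl fun q _ => by rw [one_div]
      rw [h5, one_div]
      have h6 : (0:ℝ) ≤ (Q:ℝ)⁻¹ := by positivity
      linarith
    · rw [Finset.Ioc_eq_empty (by omega), Finset.sum_empty]; positivity
  have h4 : ∑ j : Fin d, ∑ q ∈ Finset.Ioc k Q, 8 / (a ^ 2 * (q:ℝ) ^ 2) * (2 * U)
      = 16 * d / a ^ 2 * U * ∑ q ∈ Finset.Ioc k Q, 1 / ((q:ℝ) ^ 2) := by
    rw [Finset.sum_const, Finset.card_univ, Fintype.card_fin, nsmul_eq_mul, Finset.mul_sum,
      Finset.mul_sum]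
    refine Finset.sum_congr rfl fun q _ => ?_
    rw [← div_div]
    ring
  rw [h4]
  refine (mul_le_mul_of_nonneg_left h3 (by positivity)).trans (le_of_eq ?_)
  rw [← div_div]
  ring

lemma second_moment {d K : ℕ} (i : Fin d) :
    ∑ ρ : Fin d × Fin K → Bool, (∑ k, sgn (ρ (i, k))) ^ 2 = K * 2 ^ (d * K) := by
  classical
  have h := sum_prod_curry (d := d) (K := K) (fun i' r => if i' = i then (∑ k, sgn (r k)) ^ 2 else 1)
  have h1 : ∀ ρ : Fin d × Fin K → Bool, ∏ i', (if i' = i then (∑ k, sgn (ρ (i', k))) ^ 2 else 1)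
      = (∑ k, sgn (ρ (i, k))) ^ 2 := by
    intro ρ
    rw [Finset.prod_ite_eq' Finset.univ i (fun i' => (∑ k, sgn (ρ (i', k))) ^ 2)]
    simp
  have h2 : ∀ i' : Fin d, ∑ r : Fin K → Bool, (if i' = i then (∑ k, sgn (r k)) ^ 2 else 1)
      = (if i' = i then (K:ℝ) else 1) * 2 ^ K := by
    intro i'
    split_ifs with hi
    · have := rademacher_two K (fun _ => 1) 0
      simp only [mul_one, zero_add, ne_eq, OfNat.ofNat_ne_zero, not_false_eq_true, zero_pow, one_pow,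
        Finset.sum_const, Finset.card_univ, Fintype.card_fin, nsmul_eq_mul] at this
      rw [this]; ring
    · simp
  simp_rw [h1, h2] at h
  rw [h, Finset.prod_mul_distrib, Finset.prod_ite_eq' Finset.univ i (fun _ => (K:ℝ))]
  simp only [Finset.mem_univ, if_true, Finset.prod_const, Finset.card_univ, Fintype.card_fin]
  rw [← pow_mul, mul_comm K d]

lemma cheb {d K : ℕ} {η : ℝ} (hη : 0 < η) (hK : 1 ≤ K) :
    open Classical in
    ((Finset.univ.filter (fun ρ : Fin d × Fin K → Bool => ∃ i, η * K < |∑ k, sgn (ρ (i, k))|)).card : ℝ)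
      ≤ d / (η ^ 2 * K) * 2 ^ (d * K) := by
  classical
  have hK0 : (0:ℝ) < K := by exact_mod_cast hK
  have h1 : ((Finset.univ.filter (fun ρ : Fin d × Fin K → Bool =>
      ∃ i, η * K < |∑ k, sgn (ρ (i, k))|)).card : ℝ)
      ≤ ∑ ρ : Fin d × Fin K → Bool, ∑ i, (∑ k, sgn (ρ (i, k))) ^ 2 / (η * K) ^ 2 := by
    rw [← Finset.sum_boole]
    refine Finset.sum_le_sum fun ρ _ => ?_
    split_ifs with h
    · obtain ⟨i, hi⟩ := h
      refine le_trans ?_ (Finset.single_le_sum (f := fun i => (∑ k, sgn (ρ (i, k))) ^ 2 / (η * K) ^ 2)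
        (fun _ _ => by positivity) (Finset.mem_univ i))
      rw [le_div_iff₀ (by positivity), one_mul, ← sq_abs (∑ k, sgn (ρ (i, k)))]
      exact pow_le_pow_left₀ (by positivity) hi.le 2
    · positivity
  refine h1.trans (le_of_eq ?_)
  rw [Finset.sum_comm]
  simp_rw [← Finset.sum_div, second_moment]
  rw [Finset.sum_const, Finset.card_univ, Fintype.card_fin, nsmul_eq_mul]
  field_simp

end MP087bf0
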