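import Mathlib
import Pool.Agent.Lib.MP_087bf0_co.Far
open Set Filter Topology MeasureTheory
open scoped Real

namespace MP087bf0

lemma norm_le_of_coord {d : ℕ} (y : EE d) {A : ℝ} (hA : 0 ≤ A) (h : ∀ j, |y j| ≤ A) :
    ‖y‖ ≤ √(d:ℝ) * A := by
  have h1 : ‖y‖ ^ 2 ≤ (√(d:ℝ) * A) ^ 2 := by
    rw [EuclideanSpace.norm_sq_eq, mul_pow, Real.sq_sqrt (by positivity)]
    have : ∀ j ∈ (Finset.univ : Finset (Fin d)), ‖y j‖ ^ 2 ≤ A ^ 2 := fun j _ =>
      pow_le_pow_left₀ (norm_nonneg _) (by rw [Real.norm_eq_abs]; exact h j) 2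
    refine (Finset.sum_le_sum this).trans (le_of_eq ?_)
    simp
  exact le_of_sq_le_sq h1 (by positivity)

lemma near_le {d K : ℕ} {W : Fin d → Fin d → ℝ} (hW : UT W) {C : ℝ} (hC : 0 < C)
    (hinv : ∀ (b : Fin d → ℝ) i, |b i| ≤ C * ‖∑ j, b j • row W j‖) {a : ℝ} (ha : 0 < a) (ha1 : a ≤ 1)
    {η1 η : ℝ} (hη1 : 0 < η1) (hη16 : η1 ≤ 1 / 6) (R k : ℕ)
    (hR : C * (√(d:ℝ) * (k + 1)) + 2 ≤ 2 * R) (hK : 2 / η1 ≤ K) (hKR : 2 * R / η1 ≤ K)
    (hhalf : 1 / 2 ≤ (1 - 6 * η1 * R) ^ d) (hR1 : 0 ≤ 1 - 6 * η1 * R) (hηη : η1 * K + 2 * R + 1 ≤ η * K)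
    (κ : Fin d → ℤ) (x : Fin d → ℝ) (hpar : ∀ i, (κ i - K) % 2 = 1) (hx : ∀ i, |x i| ≤ 1) :
    open Classical in
    ∑ ρ : Fin d × Fin K → Bool, (if (∀ i, |∑ k, sgn (ρ (i, k))| ≤ η1 * K) ∧
        (∀ j, |(∑ i, (-(κ i + x i)) • row W i + ∑ i, (∑ k, sgn (ρ (i, k))) • row W i) j| < k + 1) then
        Hk a (∑ i, (-(κ i + x i)) • row W i + ∑ i, (∑ k, sgn (ρ (i, k))) • row W i) else 0)
      ≤ if ∀ i, |(κ i : ℝ)| ≤ η * K then
          2 * (∏ i, (cK K (κ i + 1) : ℝ)) * ∏ i, (π / (a * W i i)) else 0 := by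
  classical
  have hπ := Real.pi_pos
  set s : (Fin d × Fin K → Bool) → Fin d → ℝ := fun ρ i => ∑ k, sgn (ρ (i, k)) with hs
  set z : (Fin d × Fin K → Bool) → Fin d → ℤ := fun ρ i =>
    ((Finset.univ.filter (fun k => ρ (i, k) = true)).card : ℤ) - (K + κ i + 1) / 2 with hz
  have hsz : ∀ ρ i, s ρ i = ((κ i + 1 + 2 * z ρ i : ℤ) : ℝ) := by
    intro ρ i
    have h1 := sum_sgn_eq (fun k => ρ (i, k))
    have h2 : κ i + 1 + 2 * z ρ i
        = 2 * ((Finset.univ.filter (fun k => ρ (i, k) = true)).card : ℤ) - K := by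
      simp only [hz]
      have := hpar i
      omega
    rw [h2]
    push_cast
    exact h1
  set Y : (Fin d × Fin K → Bool) → EE d := fun ρ =>
    ∑ i, (-(κ i + x i)) • row W i + ∑ i, (s ρ i) • row W i with hY
  have hYz : ∀ ρ, Y ρ = ∑ i, (1 - x i + 2 * z ρ i) • row W i := by
    intro ρ
    simp only [hY]
    rw [← Finset.sum_add_distrib]
    refine Finset.sum_congr rfl fun i _ => ?_
    rw [← add_smul]
    congr 1
    rw [hsz]
    push_cast
    ring
  set h : (Fin d → ℤ) → ℝ := fun z => ∏ j, hk a (∑ i, (1 - x i) * W i j + 2 * ∑ i, (z i : ℝ) * W i j)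
    with hh
  have hh0 : ∀ z, 0 ≤ h z := fun z => Finset.prod_nonneg fun _ _ => hk_nonneg _ _
  have hHk : ∀ ρ, Hk a (Y ρ) = h (z ρ) := by
    intro ρ
    rw [hYz]
    unfold Hk
    simp only [hh]
    refine Finset.prod_congr rfl fun j _ => ?_
    congr 1
    rw [Finset.mul_sum, ← Finset.sum_add_distrib]
    simp only [row, WithLp.ofLp_sum, WithLp.ofLp_smul, Finset.sum_apply, Pi.smul_apply, smul_eq_mul]
    refine Finset.sum_congr rfl fun i _ => ?_
    ring
  set G : Finset (Fin d × Fin K → Bool) := Finset.univ.filter (fun ρ =>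
    (∀ i, |s ρ i| ≤ η1 * K) ∧ (∀ j, |(Y ρ) j| < k + 1)) with hG
  have hzR : ∀ ρ ∈ G, ∀ i, |2 * (z ρ i : ℝ)| ≤ 2 * R := by
    intro ρ hρ i
    rw [hG, Finset.mem_filter] at hρ
    have h1 : ‖Y ρ‖ ≤ √(d:ℝ) * (k + 1) :=
      norm_le_of_coord _ (by positivity) fun j => (hρ.2.2 j).le
    have h2 := hinv (fun i => 1 - x i + 2 * z ρ i) i
    rw [← hYz] at h2
    have h3 : C * ‖Y ρ‖ ≤ C * (√(d:ℝ) * (k + 1)) := mul_le_mul_of_nonneg_left h1 hC.le
    have h4 := abs_le.1 (hx i)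
    have h5 := abs_le.1 (h2.trans h3)
    rw [abs_le]
    constructor <;> linarith [h5.1, h5.2, h4.1, h4.2]
  have hLHS : (∑ ρ : Fin d × Fin K → Bool, (if (∀ i, |s ρ i| ≤ η1 * K) ∧ (∀ j, |(Y ρ) j| < k + 1) then
        Hk a (Y ρ) else 0)) = ∑ ρ ∈ G, h (z ρ) := by
    rw [hG, Finset.sum_filter]
    refine Finset.sum_congr rfl fun ρ _ => ?_
    rw [hHk]
  refine (le_of_eq hLHS).trans ?_
  split_ifs with hbal
  · have h1 : ∑ ρ ∈ G, h (z ρ) = ∑ y ∈ G.image z, ((G.filter (fun ρ => z ρ = y)).card : ℝ) * h y := by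
      rw [← Finset.sum_fiberwise_of_maps_to (s := G) (t := G.image z) (g := z)
        (fun ρ hρ => Finset.mem_image_of_mem _ hρ)]
      refine Finset.sum_congr rfl fun y _ => ?_
      rw [← nsmul_eq_mul, ← Finset.sum_const]
      refine Finset.sum_congr rfl fun ρ hρ => ?_
      rw [(Finset.mem_filter.1 hρ).2]
    rw [h1]
    have h2 : ∀ y ∈ G.image z, ((G.filter (fun ρ => z ρ = y)).card : ℝ) * h y
        ≤ 2 * (∏ i, (cK K (κ i + 1) : ℝ)) * h y := by
      intro y hy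
      refine mul_le_mul_of_nonneg_right ?_ (hh0 _)
      have h3 : ((G.filter (fun ρ => z ρ = y)).card : ℝ) ≤ ∏ i, (cK K (κ i + 1 + 2 * y i) : ℝ) := by
        rw [← count_prod]
        have : (G.filter (fun ρ => z ρ = y)) ⊆ Finset.univ.filter (fun ρ : Fin d × Fin K → Bool =>
            ∀ i, ∑ k, sgn (ρ (i, k)) = ((κ i + 1 + 2 * y i : ℤ) : ℝ)) := by
          intro ρ hρ
          rw [Finset.mem_filter] at hρ ⊢
          refine ⟨Finset.mem_univ _, fun i => ?_⟩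
          rw [← hρ.2]
          exact hsz ρ i
        exact_mod_cast Finset.card_le_card this
      refine h3.trans ?_
      obtain ⟨ρ, hρ, rfl⟩ := Finset.mem_image.1 hy
      have hρG := hρ
      rw [hG, Finset.mem_filter] at hρ
      have h4 : ∀ i, (1 - 6 * η1 * R) * cK K (κ i + 1 + 2 * z ρ i) ≤ cK K (κ i + 1) := by
        intro i
        have h5 := cK_compare (K := K) (k := κ i + 1 + 2 * z ρ i) (by have := hpar i; omega) hη1 hη16 R
          hK hKR (by rw [← hsz]; exact hρ.2.1 i) (-(z ρ i)) (by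
            have h6 := hzR ρ hρG i
            rw [abs_mul] at h6
            have h7 : |(z ρ i : ℝ)| ≤ R := by
              rw [abs_of_pos (by norm_num : (0:ℝ) < 2)] at h6; linarith
            rw [abs_neg]
            have h8 : ((|z ρ i| : ℤ) : ℝ) ≤ ((R : ℤ) : ℝ) := by push_cast; exact h7
            exact_mod_cast h8)
        have e : κ i + 1 + 2 * z ρ i + 2 * -(z ρ i) = κ i + 1 := by ring
        rw [e] at h5
        exact h5
      have h5 : (1 - 6 * η1 * R) ^ d * ∏ i, (cK K (κ i + 1 + 2 * z ρ i) : ℝ)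
          ≤ ∏ i, (cK K (κ i + 1) : ℝ) := by
        have e : (1 - 6 * η1 * R) ^ d = ∏ _i : Fin d, (1 - 6 * η1 * R) := by simp
        rw [e, ← Finset.prod_mul_distrib]
        exact Finset.prod_le_prod (fun i _ => mul_nonneg hR1 (by positivity)) fun i _ => h4 i
      have h6 : 0 ≤ ∏ i, (cK K (κ i + 1 + 2 * z ρ i) : ℝ) := Finset.prod_nonneg fun _ _ => by positivity
      have h7 := mul_le_mul_of_nonneg_right hhalf h6
      linarith
    refine (Finset.sum_le_sum h2).trans ?_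
    rw [← Finset.mul_sum]
    refine mul_le_mul_of_nonneg_left ?_ (mul_nonneg zero_le_two (Finset.prod_nonneg fun _ _ => by positivity))
    exact Hk_period ha ha1 hW (fun j => ∑ i, (1 - x i) * W i j) (G.image z)
  · push Not at hbal
    obtain ⟨i, hi⟩ := hbal
    have hGe : G = ∅ := by
      rw [Finset.eq_empty_iff_forall_notMem]
      intro ρ hρ
      have h1 := hzR ρ hρ i
      rw [hG, Finset.mem_filter] at hρ
      have h2 := hρ.2.1 i
      rw [hsz] at h2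
      push_cast at h2
      have h3 := abs_le.1 h1
      have h4 := abs_le.1 h2
      have h5 : |(κ i : ℝ)| ≤ η1 * K + 2 * R + 1 := by
        rw [abs_le]
        constructor <;> linarith [h3.1, h3.2, h4.1, h4.2]
      linarith
    rw [hGe, Finset.sum_empty]

end MP087bf0
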