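import Mathlib
import Pool.Agent.Lib.MP_087bf0_co.Near
open Set Filter Topology MeasureTheory
open scoped Real

namespace MP087bf0

/-- the system `V` with the members in the slots `J` removed (replaced with `0`) -/
noncomputable def remV {β : Type*} {d n : ℕ} (J : β → Fin n) (V : Fin n → EE d) (i : Fin n) : EE d :=
  open Classical in if i ∈ Set.range J then 0 else V i

lemma remV_norm {β : Type*} {d n : ℕ} (J : β → Fin n) (V : Fin n → EE d) (hV : ∀ i, ‖V i‖ = 1)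
    (i : Fin n) : ‖remV J V i‖ ≤ 1 := by
  unfold remV
  split_ifs
  · simp
  · exact (hV i).le

lemma block_sum {d K : ℕ} (W : Fin d → Fin d → ℝ) (ρ : Fin d × Fin K → Bool) :
    ∑ p : Fin d × Fin K, sgn (ρ p) • row W p.1 = ∑ i, (∑ k, sgn (ρ (i, k))) • row W i := by
  rw [Fintype.sum_prod_type]
  refine Finset.sum_congr rfl fun i _ => ?_
  rw [Finset.sum_smul]

/-- the exchange formula: average over all signs = double average -/
lemma double_sum {d K n : ℕ} (W : Fin d → Fin d → ℝ) (J : Fin d × Fin K → Fin n)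
    (hJ : Function.Injective J) (V : Fin n → EE d) (G : EE d → ℝ) :
    ∑ ε : Fin n → Bool, ∑ ρ : Fin d × Fin K → Bool,
      G (∑ i, sgn (ε i) • remV J V i + ∑ i, (∑ k, sgn (ρ (i, k))) • row W i)
      = 2 ^ (d * K) * ∑ ε : Fin n → Bool,
          G (∑ i, sgn (ε i) • Function.extend J (fun p => row W p.1) V i) := by
  classical
  have h := avg_extend J hJ (fun ε => G (∑ i, sgn (ε i) • Function.extend J (fun p => row W p.1) V i))
  rw [Fintype.card_prod, Fintype.card_fin, Fintype.card_fin] at h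
  rw [← h]
  refine Finset.sum_congr rfl fun ε _ => Finset.sum_congr rfl fun ρ _ => ?_
  congr 1
  rw [sigma_extend' _ J hJ ε ρ]
  congr 1
  · refine Finset.sum_congr rfl fun i _ => ?_
    unfold remV
    by_cases hi : i ∈ Set.range J
    · simp only [if_pos hi, smul_zero]
    · simp only [if_neg hi]
      rw [Function.extend_apply']
      exact hi
  · rw [← block_sum]
    refine Finset.sum_congr rfl fun p _ => ?_
    rw [hJ.extend_apply]

lemma EHk_sum_le {a U : ℝ} {d n : ℕ} {v : Fin n → EE d} (hU : ∀ c, EHk a v c ≤ U) (c : EE d) :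
    ∑ ε : Fin n → Bool, Hk a (∑ i, sgn (ε i) • v i + c) ≤ 2 ^ n * U := by
  have h2 := hU c
  unfold EHk at h2
  rw [div_le_iff₀ (by positivity), mul_comm] at h2
  refine le_trans (le_of_eq ?_) h2
  exact Finset.sum_congr rfl fun ε _ => by rw [add_comm]

theorem global_bound {d : ℕ} (hd : 1 ≤ d) {l0 lam η : ℝ} (hl0 : 0 < l0) (hlam : 0 < lam) (hη : 0 < η) :
    ∃ K1 N : ℕ, ∀ K : ℕ, K1 ≤ K → ∀ n : ℕ, N ≤ n → ∀ W : Fin d → Fin d → ℝ, UT W → (∀ i, l0 ≤ W i i) →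
    ∀ J : Fin d × Fin K → Fin n, Function.Injective J → ∀ V : Fin n → EE d, (∀ i, ‖V i‖ = 1) →
    (∀ ξ : Fin d → ℝ, lam * n * ∑ j, ξ j ^ 2 ≤ ∑ i, dot ξ (remV J V i) ^ 2) →
    ∀ (κ : (Fin n → Bool) → Fin d → ℤ) (x : (Fin n → Bool) → Fin d → ℝ),
    (∀ ε i, (κ ε i - K) % 2 = 1) → (∀ ε i, |x ε i| ≤ 1) →
    (∀ ε, ∑ i, sgn (ε i) • remV J V i = ∑ i, (-(κ ε i + x ε i)) • row W i) →
    open Classical in
    1 / 8 * (∏ i, W i i) * (√(2 * d / (π * n))) ^ d ≤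
      (∑ ε, (if ∀ i, |(κ ε i : ℝ)| ≤ η * K then ∏ i, (cK K (κ ε i + 1) : ℝ) else 0))
        / (2 ^ (d * K) * 2 ^ n) := by
  classical
  have hπ := Real.pi_pos
  have hd0 : (0:ℝ) < d := by exact_mod_cast hd
  have hsd : 0 < √(d:ℝ) := Real.sqrt_pos.2 hd0
  obtain ⟨a, ha⟩ : ∃ a : ℝ, a = 1 / √(d:ℝ) := ⟨_, rfl⟩
  have ha0 : 0 < a := by rw [ha]; positivity
  have had2 : a ^ 2 * d = 1 := by
    rw [ha, div_pow, one_pow, Real.sq_sqrt hd0.le]; field_simp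
  have ha2 : a ^ 2 = 1 / d := by field_simp; linarith
  have ha1 : a ≤ 1 := by
    rw [ha, div_le_one hsd, Real.one_le_sqrt]
    exact_mod_cast hd
  obtain ⟨N1, hN1⟩ := eventually_atTop.1 (EHk_ge ha0 hd had2.le)
  obtain ⟨C, hC, hinv⟩ := UT.inv_bound hl0 d
  obtain ⟨R0, hR0⟩ : ∃ R0 : ℝ, R0 = 2 * (√(5 / (2 * d * lam))) ^ d := ⟨_, rfl⟩
  have hR00 : 0 ≤ R0 := by rw [hR0]; positivity
  obtain ⟨k, hk1, hkR⟩ : ∃ k : ℕ, 1 ≤ k ∧ 128 * (d:ℝ) ^ 2 * R0 ≤ k := by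
    refine ⟨⌈128 * (d:ℝ) ^ 2 * R0⌉₊ + 1, by omega, ?_⟩
    have := Nat.le_ceil (128 * (d:ℝ) ^ 2 * R0)
    push_cast; linarith
  have hk0 : (0:ℝ) < k := by exact_mod_cast hk1
  obtain ⟨R, hRC⟩ : ∃ R : ℕ, C * (√(d:ℝ) * (k + 1)) + 2 ≤ R := ⟨_, Nat.le_ceil _⟩
  have hCk : 0 < C * (√(d:ℝ) * (k + 1)) := by positivity
  have hR2 : (2:ℝ) ≤ R := by linarith
  have hR0' : (0:ℝ) < R := by linarith
  obtain ⟨η1, hη10, hη1a, hη1b⟩ : ∃ η1 : ℝ, 0 < η1 ∧ η1 ≤ η / 2 ∧ η1 ≤ 1 / (12 * d * R) :=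
    ⟨min (η / 2) (1 / (12 * d * R)), lt_min (by positivity) (by positivity), min_le_left _ _,
      min_le_right _ _⟩
  have hd1 : (1:ℝ) ≤ d := by exact_mod_cast hd
  have hη1R : η1 * R * (12 * d) ≤ 1 := by
    rw [le_div_iff₀ (by positivity)] at hη1b
    calc η1 * R * (12 * d) = η1 * (12 * d * R) := by ring
      _ ≤ 1 := hη1b
  have hη1R' : η1 * R * 12 ≤ 1 := by
    have h1 : 0 ≤ η1 * R * 12 := by positivity
    calc η1 * R * 12 = η1 * R * 12 * 1 := by ring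
      _ ≤ η1 * R * 12 * d := mul_le_mul_of_nonneg_left hd1 h1
      _ = η1 * R * (12 * d) := by ring
      _ ≤ 1 := hη1R
  have hη16 : η1 ≤ 1 / 6 := by
    have h1 : η1 * 2 ≤ η1 * R := mul_le_mul_of_nonneg_left hR2 hη10.le
    linarith
  have hR1 : 0 ≤ 1 - 6 * η1 * R := by linarith
  have hhalf : 1 / 2 ≤ (1 - 6 * η1 * R) ^ d := by
    have h1 := one_add_mul_le_pow (a := -(6 * η1 * R)) (by linarith) d
    have e : 1 + -(6 * η1 * R) = 1 - 6 * η1 * R := by ring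
    rw [e] at h1
    refine le_trans ?_ h1
    have : (d:ℝ) * (6 * η1 * R) = η1 * R * (12 * d) / 2 := by ring
    linarith [this, hη1R, mul_neg (d:ℝ) (6 * η1 * R)]
  refine ⟨1 + ⌈2 / η1⌉₊ + ⌈2 * R / η1⌉₊ + ⌈2 * (2 * R + 1) / η⌉₊ + ⌈8 * d * R0 / η1 ^ 2⌉₊, max N1 1, ?_⟩
  intro K hK n hn W hW hWl J hJ V hV hlow κ x hpar hx hX
  have hKc : 1 + (⌈2 / η1⌉₊ : ℝ) + ⌈2 * R / η1⌉₊ + ⌈2 * (2 * R + 1) / η⌉₊ + ⌈8 * d * R0 / η1 ^ 2⌉₊ ≤ K := by
    exact_mod_cast hK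
  have c1 := Nat.le_ceil (2 / η1)
  have c2 := Nat.le_ceil (2 * R / η1)
  have c3 := Nat.le_ceil (2 * (2 * R + 1) / η)
  have c4 := Nat.le_ceil (8 * d * R0 / η1 ^ 2)
  have p1 : (0:ℝ) ≤ ⌈2 / η1⌉₊ := by positivity
  have p2 : (0:ℝ) ≤ ⌈2 * R / η1⌉₊ := by positivity
  have p3 : (0:ℝ) ≤ ⌈2 * (2 * R + 1) / η⌉₊ := by positivity
  have p4 : (0:ℝ) ≤ ⌈8 * d * R0 / η1 ^ 2⌉₊ := by positivity
  have hK1 : 1 ≤ (K:ℝ) := by linarith
  have hK0 : 0 < (K:ℝ) := by linarith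
  have hKa : 2 / η1 ≤ K := by linarith
  have hKb : 2 * R / η1 ≤ K := by linarith
  have hKc' : 2 * (2 * R + 1) / η ≤ K := by linarith
  have hKd : 8 * d * R0 / η1 ^ 2 ≤ K := by linarith
  have hηη : η1 * K + 2 * R + 1 ≤ η * K := by
    rw [div_le_iff₀ hη] at hKc'
    have h1 : η1 * K ≤ η / 2 * K := mul_le_mul_of_nonneg_right hη1a hK0.le
    linarith [mul_comm (K:ℝ) η]
  have hnN : N1 ≤ n := (le_max_left _ _).trans hn
  have hn1 : 1 ≤ n := (le_max_right _ _).trans hn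
  have hn0 : (0:ℝ) < n := by exact_mod_cast hn1
  -- the two main quantities
  obtain ⟨Lb, hLb⟩ : ∃ Lb : ℝ, Lb = 1 / 2 * (1 / a * √(2 * π * d / n)) ^ d := ⟨_, rfl⟩
  obtain ⟨Ub, hUb⟩ : ∃ Ub : ℝ, Ub = (1 / a * √(5 * π / (lam * n))) ^ d := ⟨_, rfl⟩
  have hUb0 : 0 ≤ Ub := by rw [hUb]; positivity
  have hLb0 : 0 < Lb := by
    have : 0 < √(2 * π * d / n) := Real.sqrt_pos.2 (by positivity)
    rw [hLb]
    positivity
  have hUL : Ub = R0 * Lb := by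
    have e1 : √(5 * π / (lam * n)) = √(5 / (2 * d * lam)) * √(2 * π * d / n) := by
      rw [← Real.sqrt_mul (by positivity)]
      congr 1
      field_simp
    rw [hUb, hR0, hLb, e1]
    rw [show 1 / a * (√(5 / (2 * d * lam)) * √(2 * π * d / n))
      = √(5 / (2 * d * lam)) * (1 / a * √(2 * π * d / n)) by ring, mul_pow]
    ring
  have hEU : ∀ c, EHk a (remV J V) c ≤ Ub := fun c => by
    rw [hUb]
    exact EHk_le ha0 had2.le _ (remV_norm J V hV) (by positivity) hlow c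
  set Xf : (Fin n → Bool) → EE d := fun ε => ∑ i, sgn (ε i) • remV J V i with hXf
  set Sf : (Fin d × Fin K → Bool) → EE d := fun ρ => ∑ i, (∑ k, sgn (ρ (i, k))) • row W i with hSf
  -- lower bound for the total
  have hVt : ∀ i, ‖Function.extend J (fun p => row W p.1) V i‖ = 1 := by
    intro i
    by_cases hi : ∃ p, J p = i
    · obtain ⟨p, rfl⟩ := hi
      rw [hJ.extend_apply]
      exact row_norm W _ (hW.unit _)
    · rw [Function.extend_apply' _ _ _ hi]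
      exact hV i
  have hlowT : 2 ^ (d * K) * 2 ^ n * Lb ≤ ∑ ε, ∑ ρ, Hk a (Xf ε + Sf ρ) := by
    have h1 := hN1 n hnN _ hVt
    rw [← hLb] at h1
    have h2 := double_sum W J hJ V (fun y => Hk a y)
    simp only [hXf, hSf]
    rw [h2]
    have h3 : 2 ^ n * EHk a (Function.extend J (fun p => row W p.1) V) 0
        = ∑ ε : Fin n → Bool, Hk a (∑ i, sgn (ε i) • Function.extend J (fun p => row W p.1) V i) := by
      unfold EHk
      simp only [zero_add]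
      field_simp
    rw [← h3, mul_assoc]
    exact mul_le_mul_of_nonneg_left (mul_le_mul_of_nonneg_left h1 (by positivity)) (by positivity)
  -- pointwise splitting
  have hsplit : ∀ ε ρ, Hk a (Xf ε + Sf ρ) ≤
      (if ∃ i, η1 * K < |∑ k, sgn (ρ (i, k))| then Hk a (Xf ε + Sf ρ) else 0)
      + (if ∃ j, (k:ℝ) + 1 ≤ |(Sf ρ + Xf ε) j| then Hk a (Sf ρ + Xf ε) else 0)
      + (if (∀ i, |∑ k, sgn (ρ (i, k))| ≤ η1 * K) ∧ (∀ j, |(Xf ε + Sf ρ) j| < k + 1) then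
          Hk a (Xf ε + Sf ρ) else 0) := by
    intro ε ρ
    have h0 := Hk_nonneg a (Xf ε + Sf ρ)
    rw [add_comm (Sf ρ) (Xf ε)]
    by_cases h1 : ∃ i, η1 * K < |∑ k, sgn (ρ (i, k))|
    · rw [if_pos h1]
      have h2 : 0 ≤ (if ∃ j, (k:ℝ) + 1 ≤ |(Xf ε + Sf ρ) j| then Hk a (Xf ε + Sf ρ) else 0) := by
        split_ifs <;> simp [h0]
      have h3 : 0 ≤ (if (∀ i, |∑ k, sgn (ρ (i, k))| ≤ η1 * K) ∧ (∀ j, |(Xf ε + Sf ρ) j| < k + 1) then
          Hk a (Xf ε + Sf ρ) else 0) := by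
        split_ifs <;> simp [h0]
      linarith
    · rw [if_neg h1]
      by_cases h2 : ∃ j, (k:ℝ) + 1 ≤ |(Xf ε + Sf ρ) j|
      · rw [if_pos h2]
        have h3 : 0 ≤ (if (∀ i, |∑ k, sgn (ρ (i, k))| ≤ η1 * K) ∧ (∀ j, |(Xf ε + Sf ρ) j| < k + 1) then
            Hk a (Xf ε + Sf ρ) else 0) := by
          split_ifs <;> simp [h0]
        linarith
      · rw [if_neg h2]
        push Not at h1 h2
        rw [if_pos ⟨h1, h2⟩]
        linarith
  -- unbalanced part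
  have hunb : ∑ ε, ∑ ρ, (if ∃ i, η1 * K < |∑ k, sgn (ρ (i, k))| then Hk a (Xf ε + Sf ρ) else 0)
      ≤ 1 / 8 * (2 ^ (d * K) * 2 ^ n * Lb) := by
    rw [Finset.sum_comm]
    have h1 : ∀ ρ : Fin d × Fin K → Bool,
        ∑ ε, (if ∃ i, η1 * K < |∑ k, sgn (ρ (i, k))| then Hk a (Xf ε + Sf ρ) else 0)
        ≤ (if ∃ i, η1 * K < |∑ k, sgn (ρ (i, k))| then 1 else 0) * (2 ^ n * Ub) := by
      intro ρ
      split_ifs with h
      · rw [one_mul]
        exact EHk_sum_le hEU (Sf ρ)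
      · simp
    refine (Finset.sum_le_sum fun ρ _ => h1 ρ).trans ?_
    rw [← Finset.sum_mul, Finset.sum_boole]
    have h2 := cheb (d := d) (K := K) hη10 (by exact_mod_cast hK1)
    have h3 : 0 ≤ 2 ^ n * Ub := by positivity
    refine (mul_le_mul_of_nonneg_right h2 h3).trans ?_
    rw [hUL]
    have h4 : d / (η1 ^ 2 * K) * R0 ≤ 1 / 8 := by
      rw [div_mul_eq_mul_div, div_le_iff₀ (by positivity)]
      rw [div_le_iff₀ (by positivity)] at hKd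
      linarith [mul_comm (K:ℝ) (η1 ^ 2)]
    calc d / (η1 ^ 2 * K) * 2 ^ (d * K) * (2 ^ n * (R0 * Lb))
        = (d / (η1 ^ 2 * K) * R0) * (2 ^ (d * K) * 2 ^ n * Lb) := by ring
      _ ≤ _ := mul_le_mul_of_nonneg_right h4 (by positivity)
  -- far part
  have hfar : ∑ ε, ∑ ρ, (if ∃ j, (k:ℝ) + 1 ≤ |(Sf ρ + Xf ε) j| then Hk a (Sf ρ + Xf ε) else 0)
      ≤ 1 / 8 * (2 ^ (d * K) * 2 ^ n * Lb) := by
    rw [Finset.sum_comm]
    have h1 : ∀ ρ : Fin d × Fin K → Bool,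
        ∑ ε, (if ∃ j, (k:ℝ) + 1 ≤ |(Sf ρ + Xf ε) j| then Hk a (Sf ρ + Xf ε) else 0)
        ≤ 16 * d / (a ^ 2 * k) * Ub * 2 ^ n := by
      intro ρ
      have h2 := far_le ha0 ha1 (remV J V) hEU (Sf ρ) hk1
      rw [div_le_iff₀ (by positivity)] at h2
      exact h2
    refine (Finset.sum_le_sum fun ρ _ => h1 ρ).trans ?_
    rw [Finset.sum_const, Finset.card_univ, Fintype.card_pi, Finset.prod_const, Fintype.card_bool,
      Finset.card_univ, Fintype.card_prod, Fintype.card_fin, Fintype.card_fin, nsmul_eq_mul, hUL]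
    push_cast
    have h4 : 16 * d / (a ^ 2 * k) * R0 ≤ 1 / 8 := by
      rw [ha2, div_mul_eq_mul_div, div_le_iff₀ (by positivity)]
      have e : 1 / 8 * (1 / (d:ℝ) * k) = (1 / 8 * k) / d := by ring
      rw [e, le_div_iff₀ hd0]
      linarith
    calc 2 ^ (d * K) * (16 * d / (a ^ 2 * k) * (R0 * Lb) * 2 ^ n)
        = (16 * d / (a ^ 2 * k) * R0) * (2 ^ (d * K) * 2 ^ n * Lb) := by ring
      _ ≤ _ := mul_le_mul_of_nonneg_right h4 (by positivity)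
  -- near part
  set S : ℝ := ∑ ε, (if ∀ i, |(κ ε i : ℝ)| ≤ η * K then ∏ i, (cK K (κ ε i + 1) : ℝ) else 0) with hS
  set PW : ℝ := ∏ i, W i i with hPW
  have hPW0 : 0 < PW := Finset.prod_pos fun i _ => hW.pos i
  have hPi : ∏ i, (π / (a * W i i)) = (π / a) ^ d / PW := by
    rw [hPW, ← Fin.prod_const, ← Finset.prod_div_distrib]
    refine Finset.prod_congr rfl fun i _ => ?_
    rw [div_div]
  have hnear : ∑ ε, ∑ ρ, (if (∀ i, |∑ k, sgn (ρ (i, k))| ≤ η1 * K) ∧ (∀ j, |(Xf ε + Sf ρ) j| < k + 1) then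
          Hk a (Xf ε + Sf ρ) else 0) ≤ 2 * ((π / a) ^ d / PW) * S := by
    rw [hS, Finset.mul_sum]
    refine Finset.sum_le_sum fun ε _ => ?_
    have h1 := near_le hW hC (hinv W hW hWl) ha0 ha1 hη10 hη16 R k (by linarith) hKa hKb hhalf hR1 hηη
      (κ ε) (x ε) (hpar ε) (hx ε)
    rw [← hX ε, hPi] at h1
    refine h1.trans (le_of_eq ?_)
    split_ifs
    · ring
    · ring
  have htot : 2 ^ (d * K) * 2 ^ n * Lb ≤ 1 / 8 * (2 ^ (d * K) * 2 ^ n * Lb)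
      + 1 / 8 * (2 ^ (d * K) * 2 ^ n * Lb) + 2 * ((π / a) ^ d / PW) * S := by
    refine hlowT.trans ?_
    refine (Finset.sum_le_sum fun ε _ => Finset.sum_le_sum fun ρ _ => hsplit ε ρ).trans ?_
    simp_rw [Finset.sum_add_distrib]
    linarith
  have hS0 : 2 ^ (d * K) * 2 ^ n * Lb / 4 ≤ ((π / a) ^ d / PW) * S := by
    have : 0 ≤ 2 ^ (d * K) * 2 ^ n * Lb := by positivity
    linarith
  rw [le_div_iff₀ (by positivity)]
  have hfin : 2 ^ (d * K) * 2 ^ n * Lb / 4 * (PW / (π / a) ^ d) ≤ S := by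
    have h1 : 0 < PW / (π / a) ^ d := by positivity
    have h2 := mul_le_mul_of_nonneg_right hS0 h1.le
    refine h2.trans (le_of_eq ?_)
    field_simp
  refine le_trans (le_of_eq ?_) hfin
  have e2 : √(2 * d / (π * n)) = √(2 * π * d / n) / π := by
    rw [eq_div_iff hπ.ne', ← Real.sqrt_sq hπ.le, ← Real.sqrt_mul (by positivity)]
    rw [Real.sqrt_sq hπ.le]
    congr 1
    field_simp
  rw [hLb, e2, div_pow, mul_pow, div_pow, div_pow, one_pow]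
  field_simp
  ring

end MP087bf0
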