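import Mathlib
import Pool.Agent.Lib.MP_087bf0_co.GlobalBound
import Pool.Agent.Lib.MP_087bf0_co.General
open Set Filter Topology MeasureTheory
open scoped Real

namespace MP087bf0

lemma double_prob {d K n : ℕ} (J : Fin d × Fin K → Fin n)
    (hJ : Function.Injective J) (V : Fin n → EE d) :
    ∑ ε : Fin n → Bool, goodC (fun p => V (J p)) (∑ i, sgn (ε i) • remV J V i)
      = 2 ^ (d * K) * (2 ^ n * prob V (√(d:ℝ))) := by
  classical
  have h := avg_extend J hJ (fun ε => if ‖∑ i, sgn (ε i) • V i‖ ≤ √(d:ℝ) then (1:ℝ) else 0)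
  rw [Fintype.card_prod, Fintype.card_fin, Fintype.card_fin] at h
  have h1 : 2 ^ n * prob V (√(d:ℝ)) = ∑ ε : Fin n → Bool, (if ‖∑ i, sgn (ε i) • V i‖ ≤ √(d:ℝ) then (1:ℝ) else 0) := by
    rw [prob_eq, Finset.sum_boole]
    field_simp
  rw [h1, ← h]
  refine Finset.sum_congr rfl fun ε _ => ?_
  rw [goodC, ← Finset.sum_boole]
  refine Finset.sum_congr rfl fun ρ _ => ?_
  have h2 : ∑ i, sgn (ε i) • remV J V i + ∑ p, sgn (ρ p) • V (J p)
      = ∑ i, sgn (Function.extend J ρ ε i) • V i := by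
    rw [sigma_extend' V J hJ ε ρ]
    congr 1
    refine Finset.sum_congr rfl fun i _ => ?_
    unfold remV
    split_ifs
    · rw [smul_zero]
    · rfl
  rw [h2]

lemma exists_parity (K : ℕ) (β : ℝ) : ∃ (κ : ℤ) (x : ℝ), (κ - K) % 2 = 1 ∧ |x| ≤ 1 ∧ β = -(κ + x) := by
  set r := round ((-β - (K + 1)) / 2) with hr
  refine ⟨2 * r + K + 1, -β - (2 * r + K + 1), by omega, ?_, by push_cast; ring⟩
  have h := abs_sub_round ((-β - (K + 1)) / 2)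
  rw [← hr] at h
  have e : -β - (2 * (r:ℝ) + K + 1) = 2 * ((-β - (K + 1)) / 2 - r) := by ring
  rw [e, abs_mul, abs_of_pos (by norm_num : (0:ℝ) < 2)]
  linarith

theorem nondeg_prob : ∃ c : ℝ, 0 < c ∧ ∀ d : ℕ, 1 ≤ d → ∀ l0 : ℝ, 0 < l0 → ∀ lam : ℝ, 0 < lam →
    ∃ K N : ℕ, ∃ δ : ℝ, 0 < δ ∧ ∀ n : ℕ, N ≤ n → ∀ W : Fin d → Fin d → ℝ, UT W → (∀ i, l0 ≤ W i i) →
    ∀ J : Fin d × Fin K → Fin n, Function.Injective J → ∀ V : Fin n → EE d, (∀ i, ‖V i‖ = 1) →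
    (∀ p, ‖V (J p) - row W p.1‖ ≤ δ) →
    (∀ ξ : Fin d → ℝ, lam * n * ∑ j, ξ j ^ 2 ≤ ∑ i, dot ξ (remV J V i) ^ 2) →
    c * (√(8 * d / (π * n))) ^ d ≤ prob V (√(d:ℝ)) := by
  classical
  obtain ⟨c, hc, HL⟩ := local_lemma
  refine ⟨c / 8, by positivity, fun d hd l0 hl0 lam hlam => ?_⟩
  obtain ⟨η, hη, K0, HK⟩ := HL d hd l0 hl0
  obtain ⟨K1, N, HG⟩ := global_bound hd hl0 hlam hη
  obtain ⟨K, hKa, hKb⟩ : ∃ K : ℕ, K0 ≤ K ∧ K1 ≤ K := ⟨max K0 K1, le_max_left _ _, le_max_right _ _⟩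
  obtain ⟨δ, hδ, HD⟩ := HK K hKa
  refine ⟨K, max N 1, δ, hδ, ?_⟩
  intro n hn W hW hWl J hJ V hV hVJ hlow
  have hπ := Real.pi_pos
  have hn1 : 1 ≤ n := (le_max_right _ _).trans hn
  have hn0 : (0:ℝ) < n := by exact_mod_cast hn1
  have hd0 : (0:ℝ) < d := by exact_mod_cast hd
  have hex : ∀ ε : Fin n → Bool, ∃ (κ : Fin d → ℤ) (x : Fin d → ℝ), (∀ i, (κ i - K) % 2 = 1) ∧
      (∀ i, |x i| ≤ 1) ∧ ∑ i, sgn (ε i) • remV J V i = ∑ i, (-(κ i + x i)) • row W i := by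
    intro ε
    obtain ⟨β, hβ⟩ := hW.solve (fun j => (∑ i, sgn (ε i) • remV J V i) j)
    choose κ x h1 h2 h3 using fun i => exists_parity K (β i)
    refine ⟨κ, x, h1, h2, ?_⟩
    ext j
    rw [hβ j]
    simp only [row, WithLp.ofLp_sum, WithLp.ofLp_smul, Finset.sum_apply, Pi.smul_apply, smul_eq_mul]
    exact Finset.sum_congr rfl fun i _ => by rw [← h3]
  choose κ x hpar hx hX using hex
  have hG := HG K hKb n ((le_max_left _ _).trans hn) W hW hWl J hJ V hV hlow κ x hpar hx hX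
  have hL : ∀ ε, c * (∏ i, (2 / W i i)) *
      (if ∀ i, |(κ ε i : ℝ)| ≤ η * K then ∏ i, (cK K (κ ε i + 1) : ℝ) else 0)
      ≤ goodC (fun p => V (J p)) (∑ i, sgn (ε i) • remV J V i) := by
    intro ε
    split_ifs with hbal
    · rw [hX ε]
      exact HD W hW hWl (fun p => V (J p)) (fun p => hV _) hVJ (κ ε) (x ε) (hpar ε) hbal (hx ε)
    · rw [mul_zero]
      unfold goodC
      positivity
  have hsum := Finset.sum_le_sum (s := Finset.univ) fun ε _ => hL ε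
  rw [double_prob J hJ V, ← Finset.mul_sum] at hsum
  generalize hS : (∑ ε, (if ∀ i, |(κ ε i : ℝ)| ≤ η * K then ∏ i, (cK K (κ ε i + 1) : ℝ) else 0)) = S
    at hsum hG
  generalize prob V (√(d:ℝ)) = P at hsum ⊢
  have hPW0 : 0 < ∏ i, W i i := Finset.prod_pos fun i _ => hW.pos i
  have hPi : ∏ i, (2 / W i i) = 2 ^ d / ∏ i, W i i := by
    rw [← Fin.prod_const, ← Finset.prod_div_distrib]
  rw [hPi] at hsum
  generalize (∏ i, W i i) = PW at hPW0 hsum hG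
  have hpow : (0:ℝ) < 2 ^ (d * K) * 2 ^ n := by positivity
  rw [le_div_iff₀ hpow] at hG
  have h1 : c * (2 ^ d / PW) * (1 / 8 * PW * √(2 * d / (π * n)) ^ d * (2 ^ (d * K) * 2 ^ n))
      ≤ 2 ^ (d * K) * (2 ^ n * P) :=
    le_trans (mul_le_mul_of_nonneg_left hG (by positivity)) hsum
  have h2 : √(8 * d / (π * n)) = 2 * √(2 * d / (π * n)) := by
    rw [show 8 * (d:ℝ) / (π * n) = 2 ^ 2 * (2 * d / (π * n)) by ring,
      Real.sqrt_mul (by norm_num), Real.sqrt_sq (by norm_num)]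
  have h3 : (c / 8 * (√(8 * d / (π * n))) ^ d) * (2 ^ (d * K) * 2 ^ n) ≤ P * (2 ^ (d * K) * 2 ^ n) := by
    rw [h2, mul_pow]
    generalize (2:ℝ) ^ d = t2 at h1 ⊢
    generalize √(2 * d / (π * n)) ^ d = t3 at h1 ⊢
    generalize (2:ℝ) ^ (d * K) = t4 at h1 ⊢
    generalize (2:ℝ) ^ n = t5 at h1 ⊢
    calc c / 8 * (t2 * t3) * (t4 * t5) = c * (t2 / PW) * (1 / 8 * PW * t3 * (t4 * t5)) := by
          field_simp
      _ ≤ t4 * (t5 * P) := h1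
      _ = P * (t4 * t5) := by ring
  exact le_of_mul_le_mul_right h3 hpow

end MP087bf0
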