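import Mathlib
import Pool.Agent.Lib.MP_087bf0_co.Nondeg
open Set Filter Topology
open scoped Real

namespace MP087bf0

/-- residual of `x` after removing its components along the family `b` -/
noncomputable def res {d m : ℕ} (b : Fin m → EE d) (x : EE d) : EE d := x - ∑ j, inner ℝ (b j) x • b j

lemma inner_res {d m : ℕ} {b : Fin m → EE d} (hb : Orthonormal ℝ b) (x : EE d) (i : Fin m) :
    inner ℝ (b i) (res b x) = 0 := by
  classical
  unfold res
  rw [inner_sub_right, inner_sum]
  simp_rw [inner_smul_right]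
  have h := orthonormal_iff_ite.1 hb
  simp_rw [h i]
  simp

lemma inner_res_self {d m : ℕ} {b : Fin m → EE d} (hb : Orthonormal ℝ b) (x : EE d) :
    inner ℝ (res b x) x = ‖res b x‖ ^ 2 := by
  rw [← real_inner_self_eq_norm_sq]
  conv_rhs => rw [res, inner_sub_right, inner_sum]
  have h : ∑ i, inner ℝ (x - ∑ j, inner ℝ (b j) x • b j) (inner ℝ (b i) x • b i) = 0 := by
    refine Finset.sum_eq_zero fun i _ => ?_
    have := inner_res hb x i
    unfold res at this
    rw [real_inner_comm] at this
    rw [inner_smul_right, this, mul_zero]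
  rw [h, sub_zero]
  rfl

lemma inner_perp_res {d m : ℕ} {b : Fin m → EE d} (x u : EE d) (hu : ∀ j, inner ℝ (b j) u = 0) :
    inner ℝ u (res b x) = inner ℝ u x := by
  unfold res
  rw [inner_sub_right, inner_sum]
  have : ∑ i, inner ℝ u (inner ℝ (b i) x • b i) = 0 := by
    refine Finset.sum_eq_zero fun i _ => ?_
    have h := hu i
    rw [real_inner_comm] at h
    rw [inner_smul_right, h, mul_zero]
  rw [this, sub_zero]

lemma exists_perp {d m : ℕ} (hm : m < d) (b : Fin m → EE d) :
    ∃ u : EE d, ‖u‖ = 1 ∧ ∀ j, inner ℝ (b j) u = 0 := by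
  have h1 : Submodule.span ℝ (Set.range b) ≠ ⊤ := by
    intro h
    have h2 := finrank_range_le_card (R := ℝ) b
    rw [Set.finrank, h, finrank_top] at h2
    simp at h2
    omega
  have h2 : (Submodule.span ℝ (Set.range b))ᗮ ≠ ⊥ := by
    intro h
    exact h1 (Submodule.orthogonal_eq_bot_iff.1 h)
  obtain ⟨x, hx, hx0⟩ := Submodule.exists_mem_ne_zero_of_ne_bot h2
  have hn : 0 < ‖x‖ := norm_pos_iff.2 hx0
  refine ⟨‖x‖⁻¹ • x, ?_, fun j => ?_⟩
  · rw [norm_smul, norm_inv, norm_norm]
    field_simp
  · rw [inner_smul_right]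
    have : inner ℝ (b j) x = 0 := hx _ (Submodule.subset_span ⟨j, rfl⟩)
    rw [this, mul_zero]

/-- greedy choice -/
lemma greedy {d n : ℕ} (V : Fin n → EE d) (H : Finset (Fin n)) {l0 : ℝ} (hl0 : 0 < l0)
    (hH : ∀ u : EE d, ‖u‖ = 1 → ∃ h ∈ H, l0 ≤ |inner ℝ u (V h)|) :
    ∀ m : ℕ, m ≤ d → ∃ (b : Fin m → EE d) (w : Fin m → Fin n), Orthonormal ℝ b ∧ (∀ i, w i ∈ H) ∧
      (∀ i j, j < i → inner ℝ (b j) (V (w i)) = 0) ∧
      (∀ i, l0 ≤ inner ℝ (b i) (V (w i))) ∧
      (∀ i j, i ≤ j → inner ℝ (b i) (V (w i)) ≤ inner ℝ (b j) (V (w j))) ∧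
      (∀ i, res b (V (w i)) = 0) ∧
      (∀ g ∈ H, ∀ i, ‖res b (V g)‖ ≤ inner ℝ (b i) (V (w i))) := by
  intro m
  induction m with
  | zero =>
    intro _
    refine ⟨fun i => i.elim0, fun i => i.elim0, ⟨fun i => i.elim0, fun i => i.elim0⟩, fun i => i.elim0, fun i => i.elim0, fun i => i.elim0,
      fun i => i.elim0, fun i => i.elim0, fun g _ i => i.elim0⟩
  | succ m ih =>
    intro hm
    obtain ⟨b, w, hb, hwH, htri, hdiag, hmono, hres, hmax⟩ := ih (by omega)
    obtain ⟨u, hu1, hu⟩ := exists_perp (by omega) b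
    obtain ⟨h0, hh0, hh0l⟩ := hH u hu1
    obtain ⟨h, hh, hhmax⟩ := Finset.exists_max_image H (fun g => ‖res b (V g)‖) ⟨h0, hh0⟩
    set r := ‖res b (V h)‖ with hr
    have hrl : l0 ≤ r := by
      refine hh0l.trans ?_
      rw [← inner_perp_res (V h0) u hu]
      refine (abs_real_inner_le_norm _ _).trans ?_
      rw [hu1, one_mul]
      exact hhmax h0 hh0
    have hr0 : 0 < r := lt_of_lt_of_le hl0 hrl
    set b0 : EE d := r⁻¹ • res b (V h) with hb0
    have hb0n : ‖b0‖ = 1 := by
      rw [hb0, norm_smul, norm_inv, Real.norm_eq_abs, abs_of_pos hr0, ← hr]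
      field_simp
    have hb0p : ∀ j, inner ℝ (b j) b0 = 0 := by
      intro j
      rw [hb0, inner_smul_right, inner_res hb, mul_zero]
    have hb0h : inner ℝ b0 (V h) = r := by
      rw [hb0, real_inner_smul_left, inner_res_self hb, ← hr]
      field_simp
    set b' : Fin (m+1) → EE d := Fin.cons b0 b with hb'
    have hb's : ∀ i : Fin m, b' i.succ = b i := fun i => by simp [hb']
    have hb'0 : b' 0 = b0 := by simp [hb']
    have hb'o : Orthonormal ℝ b' := by
      classical
      rw [orthonormal_iff_ite]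
      intro i j
      refine Fin.cases ?_ (fun i => ?_) i <;> refine Fin.cases ?_ (fun j => ?_) j
      · rw [hb'0, real_inner_self_eq_norm_sq, hb0n]; simp
      · rw [hb'0, hb's, real_inner_comm, hb0p]
        simp [(Fin.succ_ne_zero j).symm]
      · rw [hb'0, hb's, hb0p]
        simp
      · rw [hb's, hb's, orthonormal_iff_ite.1 hb i j]
        simp
    have hres' : ∀ x, res b' x = res b x - inner ℝ b0 x • b0 := by
      intro x
      unfold res
      rw [Fin.sum_univ_succ]
      simp only [hb'0, hb's]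
      abel
    have hb0w : ∀ i, inner ℝ b0 (V (w i)) = 0 := by
      intro i
      rw [← inner_perp_res (V (w i)) b0 hb0p, hres i, inner_zero_right]
    refine ⟨b', Fin.cons h w, hb'o, ?_, ?_, ?_, ?_, ?_, ?_⟩
    · intro i
      refine Fin.cases ?_ (fun i => ?_) i
      · simpa using hh
      · simpa using hwH i
    · intro i j
      refine Fin.cases ?_ (fun i => ?_) i
      · intro hj; exact absurd hj (Fin.not_lt_zero j)
      · refine Fin.cases ?_ (fun j => ?_) j
        · intro _
          simp only [Fin.cons_succ, hb'0]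
          exact hb0w i
        · intro hij
          simp only [Fin.cons_succ, hb's]
          exact htri i j (by simpa using hij)
    · intro i
      refine Fin.cases ?_ (fun i => ?_) i
      · simp only [Fin.cons_zero, hb'0, hb0h]; exact hrl
      · simp only [Fin.cons_succ, hb's]; exact hdiag i
    · intro i j
      refine Fin.cases ?_ (fun i => ?_) i
      · refine Fin.cases ?_ (fun j => ?_) j
        · intro _; exact le_rfl
        · intro _
          simp only [Fin.cons_zero, Fin.cons_succ, hb'0, hb's, hb0h]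
          exact hmax h hh j
      · refine Fin.cases ?_ (fun j => ?_) j
        · intro hij
          exact absurd (Fin.le_zero_iff.1 hij) (Fin.succ_ne_zero i)
        · intro hij
          simp only [Fin.cons_succ, hb's]
          exact hmono i j (by simpa using hij)
    · intro i
      refine Fin.cases ?_ (fun i => ?_) i
      · simp only [Fin.cons_zero]
        rw [hres', hb0h, hb0, smul_smul, mul_inv_cancel₀ hr0.ne', one_smul, sub_self]
      · simp only [Fin.cons_succ]
        rw [hres', hres, hb0w, zero_smul, sub_zero]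
    · intro g hg i
      have h1 : ‖res b' (V g)‖ ≤ ‖res b (V g)‖ := by
        have e1 : inner ℝ b0 (V g) = inner ℝ b0 (res b (V g)) := (inner_perp_res _ _ hb0p).symm
        have h2 : ‖res b' (V g)‖ ^ 2 ≤ ‖res b (V g)‖ ^ 2 := by
          rw [hres', e1, @norm_sub_sq_real, inner_smul_right, norm_smul, hb0n, mul_one,
            Real.norm_eq_abs, sq_abs, real_inner_comm (res b (V g)) b0]
          nlinarith [sq_nonneg (inner ℝ b0 (res b (V g)) : ℝ)]
        exact le_of_sq_le_sq h2 (norm_nonneg _)
      refine h1.trans ?_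
      refine Fin.cases ?_ (fun i => ?_) i
      · simp only [Fin.cons_zero, hb'0, hb0h]
        exact hhmax g hg
      · simp only [Fin.cons_succ, hb's]
        exact hmax g hg i

end MP087bf0
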