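import Mathlib
import Pool.Agent.Lib.MP_087bf0_co.Select
open Set Filter Topology
open scoped Real

namespace MP087bf0

lemma coloring (d : ℕ) {δ : ℝ} (hδ : 0 < δ) : ∃ (T : Finset (EE d)) (χ : EE d → EE d),
    (∀ x, ‖x‖ = 1 → χ x ∈ T) ∧ ∀ x y, ‖x‖ = 1 → ‖y‖ = 1 → χ x = χ y → ‖x - y‖ ≤ δ := by
  classical
  obtain ⟨t, -, htf, ht⟩ := (isCompact_sphere (0 : EE d) 1).finite_cover_balls (half_pos hδ)
  have hex : ∀ x : EE d, ∃ c : EE d, ‖x‖ = 1 → c ∈ t ∧ ‖x - c‖ < δ / 2 := by
    intro x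
    by_cases hx : ‖x‖ = 1
    · have h1 : x ∈ Metric.sphere (0 : EE d) 1 := by simpa using hx
      have h2 := ht h1
      rw [mem_iUnion₂] at h2
      obtain ⟨c, hc, hxc⟩ := h2
      refine ⟨c, fun _ => ⟨hc, ?_⟩⟩
      rw [← dist_eq_norm]
      exact hxc
    · exact ⟨0, fun h => absurd h hx⟩
  choose χ hχ using hex
  refine ⟨htf.toFinset, χ, fun x hx => by simpa using (hχ x hx).1, ?_⟩
  intro x y hx hy hxy
  have h1 := (hχ x hx).2
  have h2 := (hχ y hy).2
  rw [← hxy] at h2
  have h3 : x - y = (x - χ x) - (y - χ x) := by abel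
  rw [h3]
  refine (norm_sub_le _ _).trans ?_
  linarith

lemma prob_repr {d n : ℕ} (b : OrthonormalBasis (Fin d) ℝ (EE d)) (V : Fin n → EE d) (r : ℝ) :
    prob (fun i => b.repr (V i)) r = prob V r := by
  classical
  rw [prob_eq, prob_eq]
  congr 3
  ext ε
  have h : ∑ i, sgn (ε i) • b.repr (V i) = b.repr (∑ i, sgn (ε i) • V i) := by
    rw [map_sum]
    exact Finset.sum_congr rfl fun i _ => by rw [map_smul]
  rw [Finset.mem_filter, Finset.mem_filter]
  show _ ∧ ‖∑ i, sgn (ε i) • b.repr (V i)‖ ≤ r ↔ _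
  rw [h, LinearIsometryEquiv.norm_map]

lemma quad_hom {d n : ℕ} {V : Fin n → EE d} {L : ℝ}
    (hnd : ∀ u : EE d, ‖u‖ = 1 → L ≤ ∑ j, inner ℝ u (V j) ^ 2) (y : EE d) :
    L * ‖y‖ ^ 2 ≤ ∑ j, inner ℝ y (V j) ^ 2 := by
  rcases eq_or_ne y 0 with h | h
  · subst h
    simp
  · have hn : 0 < ‖y‖ := norm_pos_iff.2 h
    have h1 := hnd (‖y‖⁻¹ • y) (by rw [norm_smul, norm_inv, norm_norm]; field_simp)
    simp_rw [real_inner_smul_left, mul_pow] at h1
    rw [← Finset.mul_sum] at h1
    have h2 := mul_le_mul_of_nonneg_right h1 (sq_nonneg ‖y‖)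
    refine h2.trans (le_of_eq ?_)
    field_simp

theorem selection {d : ℕ} {lam0 : ℝ} (hlam0 : 0 < lam0) (K : ℕ) {δ : ℝ} (hδ : 0 < δ) :
    ∃ N : ℕ, ∀ n, N ≤ n → ∀ V : Fin n → EE d, (∀ i, ‖V i‖ = 1) →
    (∀ u : EE d, ‖u‖ = 1 → lam0 * n ≤ ∑ j, inner ℝ u (V j) ^ 2) →
    ∃ (b : OrthonormalBasis (Fin d) ℝ (EE d)) (W : Fin d → Fin d → ℝ) (J : Fin d × Fin K → Fin n),
      UT W ∧ (∀ i, √(lam0 / 2) ≤ W i i) ∧ Function.Injective J ∧
      (∀ p, ‖b.repr (V (J p)) - row W p.1‖ ≤ δ) ∧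
      ∀ ξ : Fin d → ℝ, lam0 / 2 * n * ∑ j, ξ j ^ 2 ≤ ∑ i, dot ξ (remV J (fun i => b.repr (V i)) i) ^ 2 := by
  classical
  obtain ⟨T, χ, hχT, hχ⟩ := coloring d hδ
  refine ⟨⌈(T.card + 1) * (d * K) * 2 / lam0⌉₊ + 1, ?_⟩
  intro n hn V hV hnd
  have hn1 : 1 ≤ n := by omega
  have hn0 : (0:ℝ) < n := by exact_mod_cast hn1
  have hnb : ((T.card:ℝ) + 1) * (d * K) < lam0 / 2 * n := by
    have h1 := Nat.le_ceil (((T.card:ℝ) + 1) * (d * K) * 2 / lam0)
    have h2 : (⌈((T.card:ℝ) + 1) * (d * K) * 2 / lam0⌉₊ : ℝ) + 1 ≤ n := by exact_mod_cast hn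
    have h3 : ((T.card:ℝ) + 1) * (d * K) * 2 / lam0 < n := by linarith
    rw [div_lt_iff₀ hlam0] at h3
    linarith
  have hdK : (0:ℝ) ≤ d * K := by positivity
  have hTc : (0:ℝ) ≤ T.card * (d * K) := by positivity
  -- heavy indices
  set cls : EE d → Finset (Fin n) := fun c => Finset.univ.filter (fun j => χ (V j) = c) with hcls
  set H : Finset (Fin n) := Finset.univ.filter (fun j => d * K ≤ (cls (χ (V j))).card) with hH
  have hsmall : ((Hᶜ).card : ℝ) ≤ T.card * (d * K) := by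
    have h1 : (Hᶜ).card ≤ (d * K) * ((Hᶜ).image (fun j => χ (V j))).card := by
      refine Finset.card_le_mul_card_image _ _ ?_
      intro c hc
      obtain ⟨j, hj, rfl⟩ := Finset.mem_image.1 hc
      rw [hH, Finset.mem_compl, Finset.mem_filter, not_and] at hj
      have h2 := hj (Finset.mem_univ _)
      refine le_trans (Finset.card_le_card ?_) (not_le.1 h2).le
      intro i hi
      rw [Finset.mem_filter] at hi
      rw [hcls, Finset.mem_filter]
      exact ⟨Finset.mem_univ _, hi.2⟩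
    have h2 : ((Hᶜ).image (fun j => χ (V j))).card ≤ T.card := by
      refine Finset.card_le_card ?_
      intro c hc
      obtain ⟨j, hj, rfl⟩ := Finset.mem_image.1 hc
      exact hχT _ (hV j)
    have h3 : (Hᶜ).card ≤ T.card * (d * K) := by
      calc (Hᶜ).card ≤ (d * K) * ((Hᶜ).image (fun j => χ (V j))).card := h1
        _ ≤ (d * K) * T.card := Nat.mul_le_mul_left _ h2
        _ = _ := mul_comm _ _
    exact_mod_cast h3
  have hl0 : 0 < √(lam0 / 2) := Real.sqrt_pos.2 (by positivity)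
  have hHu : ∀ u : EE d, ‖u‖ = 1 → ∃ h ∈ H, √(lam0 / 2) ≤ |inner ℝ u (V h)| := by
    intro u hu
    by_contra hcon
    push Not at hcon
    have h1 := hnd u hu
    have h2 : ∑ j ∈ H, inner ℝ u (V j) ^ 2 ≤ lam0 / 2 * n := by
      have h3 : ∀ j ∈ H, inner ℝ u (V j) ^ 2 ≤ lam0 / 2 := by
        intro j hj
        rw [← sq_abs, ← Real.sq_sqrt (show 0 ≤ lam0 / 2 by positivity)]
        exact pow_le_pow_left₀ (abs_nonneg _) (hcon j hj).le 2
      refine (Finset.sum_le_sum h3).trans ?_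
      rw [Finset.sum_const, nsmul_eq_mul, mul_comm]
      refine mul_le_mul_of_nonneg_left ?_ (by positivity)
      have := Finset.card_le_univ H
      rw [Fintype.card_fin] at this
      exact_mod_cast this
    have h4 : ∑ j ∈ Hᶜ, inner ℝ u (V j) ^ 2 ≤ T.card * (d * K) := by
      have h3 : ∀ j ∈ Hᶜ, inner ℝ u (V j) ^ 2 ≤ 1 := by
        intro j _
        have h5 := abs_real_inner_le_norm u (V j)
        rw [hu, hV, mul_one] at h5
        rw [← sq_abs]
        exact pow_le_one₀ (abs_nonneg _) h5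
      refine (Finset.sum_le_sum h3).trans ?_
      rw [Finset.sum_const, nsmul_eq_mul, mul_one]
      exact hsmall
    rw [← Finset.sum_add_sum_compl H] at h1
    linarith
  obtain ⟨b, w, hb, hwH, htri, hdiag, hmono, -, -⟩ := greedy V H hl0 hHu d le_rfl
  have hsp : ⊤ ≤ Submodule.span ℝ (Set.range b) := by
    rw [hb.linearIndependent.span_eq_top_of_card_eq_finrank' (by simp)]
  set B : OrthonormalBasis (Fin d) ℝ (EE d) := OrthonormalBasis.mk hb hsp with hB
  have hBb : ∀ j, B j = b j := fun j => by rw [hB, OrthonormalBasis.coe_mk]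
  set W : Fin d → Fin d → ℝ := fun i j => inner ℝ (b j) (V (w i)) with hW
  have hrow : ∀ i, row W i = B.repr (V (w i)) := by
    intro i
    ext j
    rw [OrthonormalBasis.repr_apply_apply, hBb]
    simp [row, hW]
  -- the indices
  have hJex : ∀ c : EE d, ∃ e : Fin d × Fin K → Fin n, d * K ≤ (cls c).card →
      Function.Injective e ∧ ∀ p, χ (V (e p)) = c := by
    intro c
    by_cases hc : d * K ≤ (cls c).card
    · have h1 : Fintype.card (Fin d × Fin K) ≤ Fintype.card (cls c) := by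
        rw [Fintype.card_prod, Fintype.card_fin, Fintype.card_fin, Fintype.card_coe]; exact hc
      obtain ⟨e⟩ := Function.Embedding.nonempty_of_card_le h1
      refine ⟨fun p => (e p : Fin n), fun _ => ⟨fun p q hpq => e.injective (Subtype.ext hpq), fun p => ?_⟩⟩
      have := (e p).2
      exact (Finset.mem_filter.1 this).2
    · exact ⟨fun _ => ⟨0, hn1⟩, fun h => absurd h hc⟩
  choose e he using hJex
  set J : Fin d × Fin K → Fin n := fun p => e (χ (V (w p.1))) p with hJ
  have hheavy : ∀ i, d * K ≤ (cls (χ (V (w i)))).card := by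
    intro i
    have := hwH i
    rw [hH, Finset.mem_filter] at this
    exact this.2
  have hJχ : ∀ p, χ (V (J p)) = χ (V (w p.1)) := fun p => (he _ (hheavy p.1)).2 p
  have hJinj : Function.Injective J := by
    intro p q hpq
    have h1 : χ (V (w p.1)) = χ (V (w q.1)) := by rw [← hJχ p, ← hJχ q, hpq]
    have h2 : e (χ (V (w p.1))) p = e (χ (V (w p.1))) q := by
      have := hpq
      simp only [hJ] at this
      rw [h1]
      rw [h1] at this
      exact this
    exact (he _ (hheavy p.1)).1 h2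
  refine ⟨B, W, J, ⟨fun i j hij => htri i j hij, fun i => lt_of_lt_of_le hl0 (hdiag i), fun i => ?_,
    fun i j hij => hmono i j hij⟩, hdiag, hJinj, fun p => ?_, fun ξ => ?_⟩
  · have h1 := B.sum_sq_inner_right (V (w i))
    simp_rw [hBb] at h1
    rw [hV, one_pow] at h1
    exact h1
  · rw [hrow, ← map_sub, LinearIsometryEquiv.norm_map]
    exact hχ _ _ (hV _) (hV _) (hJχ p)
  · set y : EE d := ∑ j, ξ j • b j with hy
    have hdot : ∀ x : EE d, dot ξ (B.repr x) = inner ℝ y x := by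
      intro x
      unfold dot
      rw [hy, sum_inner]
      refine Finset.sum_congr rfl fun j _ => ?_
      rw [OrthonormalBasis.repr_apply_apply, hBb, real_inner_smul_left]
    have hyn : ‖y‖ ^ 2 = ∑ j, ξ j ^ 2 := by
      have h1 : B.repr y = WithLp.toLp 2 ξ := by
        ext j
        rw [OrthonormalBasis.repr_apply_apply, hBb, hy, inner_sum]
        simp_rw [inner_smul_right, orthonormal_iff_ite.1 hb j]
        simp
      rw [← LinearIsometryEquiv.norm_map B.repr y, h1, EuclideanSpace.norm_sq_eq]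
      refine Finset.sum_congr rfl fun j _ => ?_
      simp
    rw [← hyn]
    have h1 : ∀ i, dot ξ (remV J (fun i => B.repr (V i)) i) ^ 2
        = inner ℝ y (V i) ^ 2 - (if i ∈ Set.range J then inner ℝ y (V i) ^ 2 else 0) := by
      intro i
      unfold remV
      split_ifs
      · rw [sub_self]
        have : dot ξ (0 : EE d) = 0 := by unfold dot; simp
        rw [this]; simp
      · rw [hdot, sub_zero]
    simp_rw [h1]
    rw [Finset.sum_sub_distrib]
    have h2 := quad_hom hnd y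
    have h3 : ∑ i, (if i ∈ Set.range J then inner ℝ y (V i) ^ 2 else 0) ≤ (d * K) * ‖y‖ ^ 2 := by
      rw [← Finset.sum_filter]
      have h4 : (Finset.univ.filter (fun i => i ∈ Set.range J)) = Finset.univ.image J := by
        ext i; simp
      rw [h4, Finset.sum_image (fun p _ q _ h => hJinj h)]
      have h5 : ∀ p ∈ (Finset.univ : Finset (Fin d × Fin K)), inner ℝ y (V (J p)) ^ 2 ≤ ‖y‖ ^ 2 := by
        intro p _
        have h6 := abs_real_inner_le_norm y (V (J p))
        rw [hV, mul_one] at h6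
        rw [← sq_abs]
        exact pow_le_pow_left₀ (abs_nonneg _) h6 2
      refine (Finset.sum_le_sum h5).trans (le_of_eq ?_)
      simp
    have h4 : (d * K) * ‖y‖ ^ 2 ≤ lam0 / 2 * n * ‖y‖ ^ 2 := by
      refine mul_le_mul_of_nonneg_right ?_ (sq_nonneg _)
      linarith
    linarith

end MP087bf0
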