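import Mathlib
import Pool.Agent.Lib.MP_087bf0_co.General
import Pool.Agent.Lib.MP_087bf0_co.Selection
open Set Filter Topology
open scoped Real

namespace MP087bf0

lemma rounding_one_sharp {F : Type*} [NormedAddCommGroup F] [InnerProductSpace ℝ F] (w y : F)
    {s : ℝ} (hs : |s| ≤ 1) :
    ∃ b : Bool, ‖y + (sgn b - s) • w‖ ^ 2 ≤ ‖y‖ ^ 2 + (1 - s ^ 2) * ‖w‖ ^ 2 := by
  obtain ⟨hs1, hs2⟩ := abs_le.1 hs
  rcases lt_or_eq_of_le hs2 with h2 | h2
  · rcases lt_or_eq_of_le hs1 with h1 | h1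
    · by_contra hcon
      push Not at hcon
      have e1 := hcon true
      have e2 := hcon false
      rw [sgn_true, norm_add_sq_real, inner_smul_right, norm_smul, mul_pow, Real.norm_eq_abs,
        sq_abs] at e1
      rw [sgn_false, norm_add_sq_real, inner_smul_right, norm_smul, mul_pow, Real.norm_eq_abs,
        sq_abs] at e2
      generalize ‖w‖ ^ 2 = W at e1 e2
      generalize inner ℝ y w = i at e1 e2
      have e3 := mul_lt_mul_of_pos_left (show (1 - s ^ 2) * W < 2 * ((1 - s) * i) + (1 - s) ^ 2 * W by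
        linarith) (show 0 < 1 + s by linarith)
      have e4 := mul_lt_mul_of_pos_left (show (1 - s ^ 2) * W < 2 * ((-1 - s) * i) + (-1 - s) ^ 2 * W by
        linarith) (show 0 < 1 - s by linarith)
      have e5 : (1 + s) * ((1 - s ^ 2) * W) + (1 - s) * ((1 - s ^ 2) * W)
          = (1 + s) * (2 * ((1 - s) * i) + (1 - s) ^ 2 * W)
          + (1 - s) * (2 * ((-1 - s) * i) + (-1 - s) ^ 2 * W) := by ring
      linarith
    · refine ⟨false, ?_⟩
      rw [← h1, sgn_false]
      simp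
  · refine ⟨true, ?_⟩
    rw [h2, sgn_true]
    simp

lemma rounding_sharp {F : Type*} [NormedAddCommGroup F] [InnerProductSpace ℝ F] :
    ∀ (m : ℕ) (w : Fin m → F) (s : Fin m → ℝ) (_ : ∀ j, |s j| ≤ 1) (y : F),
      ∃ η : Fin m → Bool, ‖y + ∑ j, (sgn (η j) - s j) • w j‖ ^ 2
        ≤ ‖y‖ ^ 2 + ∑ j, (1 - s j ^ 2) * ‖w j‖ ^ 2
  | 0, w, s, _, y => ⟨fun _ => true, by simp⟩
  | m + 1, w, s, hs, y => by
      obtain ⟨b, hb⟩ := rounding_one_sharp (w 0) y (hs 0)
      obtain ⟨η, hη⟩ := rounding_sharp m (fun j => w j.succ) (fun j => s j.succ)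
        (fun j => hs _) (y + (sgn b - s 0) • w 0)
      refine ⟨Fin.cons b η, ?_⟩
      rw [Fin.sum_univ_succ, Fin.sum_univ_succ]
      simp only [Fin.cons_zero, Fin.cons_succ]
      rw [← add_assoc]
      linarith

/-- nearly coplanar unit vectors -/
lemma coplanar {d : ℕ} (w : Fin d → EE d) (hw : ∀ j, ‖w j‖ = 1) (e : EE d) (he : ‖e‖ = 1)
    (hμ : d * ∑ j, inner ℝ e (w j) ^ 2 ≤ 1 / 4) (b : EE d) (hb : ‖b‖ ≤ 1 / 2) :
    ∃ η : Fin d → Bool, ‖b + ∑ j, sgn (η j) • w j‖ ^ 2 ≤ d := by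
  classical
  set p : Fin d → EE d := fun j => w j - inner ℝ e (w j) • e with hp
  have hpe : ∀ j, inner ℝ (p j) e = 0 := by
    intro j
    simp only [hp]
    rw [inner_sub_left, real_inner_smul_left, real_inner_self_eq_norm_sq, he, real_inner_comm]
    ring
  have hdep : ¬ LinearIndependent ℝ p := by
    intro hli
    have hspan := hli.span_eq_top_of_card_eq_finrank' (by simp)
    have h4 : ∀ y ∈ Submodule.span ℝ (Set.range p), inner ℝ y e = 0 := by
      intro y hy
      induction hy using Submodule.span_induction with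
      | mem y hy => obtain ⟨i, rfl⟩ := hy; exact hpe i
      | zero => simp
      | add y z _ _ hy hz => rw [inner_add_left, hy, hz, add_zero]
      | smul c y _ hy => rw [inner_smul_left, hy, mul_zero]
    have h5 := h4 e (by rw [hspan]; trivial)
    rw [real_inner_self_eq_norm_sq, he] at h5
    norm_num at h5
  obtain ⟨g, hg0, i, hi⟩ := Fintype.not_linearIndependent_iff.1 hdep
  obtain ⟨k, -, hk⟩ := Finset.exists_max_image Finset.univ (fun j => |g j|) ⟨i, Finset.mem_univ _⟩
  have hgk : 0 < |g k| := lt_of_lt_of_le (abs_pos.2 hi) (hk i (Finset.mem_univ _))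
  set s : Fin d → ℝ := fun j => g j / |g k| with hs
  have hs1 : ∀ j, |s j| ≤ 1 := by
    intro j
    simp only [hs]
    rw [abs_div, abs_abs, div_le_one hgk]
    exact hk j (Finset.mem_univ _)
  have hsk : s k ^ 2 = 1 := by
    simp only [hs]
    rw [div_pow, sq_abs]
    exact div_self (by rw [← sq_abs]; positivity)
  have hsp : ∑ j, s j • p j = 0 := by
    have : ∑ j, s j • p j = |g k|⁻¹ • ∑ j, g j • p j := by
      rw [Finset.smul_sum]
      refine Finset.sum_congr rfl fun j _ => ?_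
      rw [smul_smul]
      simp only [hs]
      congr 1
      ring
    rw [this, hg0, smul_zero]
  set κ : ℝ := ∑ j, s j * inner ℝ e (w j) with hκ
  have hsw : ∑ j, s j • w j = κ • e := by
    have h1 : ∑ j, s j • p j = ∑ j, s j • w j - κ • e := by
      rw [hκ, Finset.sum_smul, ← Finset.sum_sub_distrib]
      refine Finset.sum_congr rfl fun j _ => ?_
      simp only [hp]
      rw [smul_sub, smul_smul]
    rw [hsp] at h1
    exact (sub_eq_zero.1 h1.symm)
  have hκ2 : |κ| ≤ 1 / 2 := by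
    have h1 := Finset.sum_mul_sq_le_sq_mul_sq Finset.univ s (fun j => inner ℝ e (w j))
    rw [← hκ] at h1
    have h2 : ∑ j, s j ^ 2 ≤ d := by
      have : ∀ j ∈ (Finset.univ : Finset (Fin d)), s j ^ 2 ≤ 1 := fun j _ => by
        rw [← sq_abs]; exact pow_le_one₀ (abs_nonneg _) (hs1 j)
      refine (Finset.sum_le_sum this).trans (le_of_eq ?_)
      simp
    have h3 : 0 ≤ ∑ j, (inner ℝ e (w j) : ℝ) ^ 2 := Finset.sum_nonneg fun _ _ => sq_nonneg _
    have h4 : κ ^ 2 ≤ 1 / 4 := h1.trans ((mul_le_mul_of_nonneg_right h2 h3).trans hμ)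
    rw [abs_le]
    constructor <;> nlinarith
  obtain ⟨η, hη⟩ := rounding_sharp d w s hs1 (b + κ • e)
  refine ⟨η, ?_⟩
  have e1 : b + κ • e + ∑ j, (sgn (η j) - s j) • w j = b + ∑ j, sgn (η j) • w j := by
    simp_rw [sub_smul]
    rw [Finset.sum_sub_distrib, hsw]
    abel
  rw [e1] at hη
  refine hη.trans ?_
  have h1 : ‖b + κ • e‖ ≤ 1 := by
    refine (norm_add_le _ _).trans ?_
    rw [norm_smul, he, mul_one, Real.norm_eq_abs]
    linarith
  have h2 : ‖b + κ • e‖ ^ 2 ≤ 1 := pow_le_one₀ (norm_nonneg _) h1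
  have h3 : ∑ j, (1 - s j ^ 2) * ‖w j‖ ^ 2 ≤ (d:ℝ) - 1 := by
    simp_rw [hw, one_pow, mul_one]
    rw [Finset.sum_sub_distrib]
    have : s k ^ 2 ≤ ∑ j, s j ^ 2 :=
      Finset.single_le_sum (f := fun j => s j ^ 2) (fun _ _ => sq_nonneg _) (Finset.mem_univ k)
    rw [hsk] at this
    simp
    linarith
  linarith

lemma avg_norm_sq {d m : ℕ} (w : Fin m → EE d) :
    ∑ η : Fin m → Bool, ‖∑ j, sgn (η j) • w j‖ ^ 2 = 2 ^ m * ∑ j, ‖w j‖ ^ 2 := by
  have h := rademacher_four m (fun _ => 0) w 1 0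
  simpa using h

lemma small_shift {d : ℕ} (hd : 1 ≤ d) (w : Fin d → EE d) (hw : ∀ j, ‖w j‖ = 1) (b : EE d)
    (hb : ‖b‖ ≤ 1 / (2 * (d:ℝ) ^ 2)) : ∃ η : Fin d → Bool, ‖b + ∑ j, sgn (η j) • w j‖ ^ 2 ≤ d := by
  classical
  have hd0 : (0:ℝ) < d := by exact_mod_cast hd
  have hd1 : (1:ℝ) ≤ d := by exact_mod_cast hd
  have hb2 : ‖b‖ ≤ 1 / 2 := by
    refine hb.trans ?_
    rw [div_le_div_iff₀ (by positivity) (by norm_num)]
    nlinarith
  rcases eq_or_ne b 0 with hb0 | hb0
  · subst hb0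
    obtain ⟨η, hη⟩ := rounding_sharp d w (fun _ => 0) (fun _ => by simp) 0
    refine ⟨η, ?_⟩
    simp only [sub_zero] at hη
    refine hη.trans (le_of_eq ?_)
    simp [hw]
  · have hbn : 0 < ‖b‖ := norm_pos_iff.2 hb0
    set e : EE d := ‖b‖⁻¹ • b with he
    have he1 : ‖e‖ = 1 := by rw [he, norm_smul, norm_inv, norm_norm]; field_simp
    by_cases hμ : d * ∑ j, inner ℝ e (w j) ^ 2 ≤ 1 / 4
    · exact coplanar w hw e he1 hμ b hb2
    · push Not at hμ
      -- averaging
      have hbe : ∀ y : EE d, inner ℝ b y = ‖b‖ * inner ℝ e y := by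
        intro y
        rw [he, real_inner_smul_left]
        field_simp
      have key : ∃ η : Fin d → Bool, ‖∑ j, sgn (η j) • w j‖ ^ 2 + ‖b‖ ^ 2
          - 2 * |inner ℝ b (∑ j, sgn (η j) • w j)| ≤ d := by
        by_contra hcon
        push Not at hcon
        have h1 : ∀ η : Fin d → Bool, (d:ℝ) < ‖∑ j, sgn (η j) • w j‖ ^ 2 + ‖b‖ ^ 2
            - 2 * ‖b‖ / d * (∑ j, sgn (η j) * inner ℝ e (w j)) ^ 2 := by
          intro η
          refine lt_of_lt_of_le (hcon η) ?_
          rw [hbe]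
          have h2 : inner ℝ e (∑ j, sgn (η j) • w j) = ∑ j, sgn (η j) * inner ℝ e (w j) := by
            rw [inner_sum]
            exact Finset.sum_congr rfl fun j _ => inner_smul_right _ _ _
          rw [h2]
          have h3 : |∑ j, sgn (η j) * inner ℝ e (w j)| ≤ d := by
            rw [← h2]
            refine (abs_real_inner_le_norm _ _).trans ?_
            rw [he1, one_mul]
            refine (norm_sum_le _ _).trans ?_
            have : ∀ j ∈ (Finset.univ : Finset (Fin d)), ‖sgn (η j) • w j‖ ≤ 1 := by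
              intro j _
              rw [norm_smul, hw, mul_one]
              cases η j <;> simp [sgn]
            refine (Finset.sum_le_sum this).trans (le_of_eq ?_)
            simp
          generalize (∑ j, sgn (η j) * inner ℝ e (w j)) = x at h3 ⊢
          rw [abs_mul, abs_of_pos hbn]
          have h4 : 2 * ‖b‖ / d * x ^ 2 ≤ 2 * (‖b‖ * |x|) := by
            rw [← sq_abs x]
            have h5 : |x| ^ 2 ≤ d * |x| := by
              rw [sq]; exact mul_le_mul_of_nonneg_right h3 (abs_nonneg _)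
            calc 2 * ‖b‖ / d * |x| ^ 2 ≤ 2 * ‖b‖ / d * (d * |x|) :=
                  mul_le_mul_of_nonneg_left h5 (by positivity)
              _ = _ := by field_simp
          linarith
        have h2 : ∑ η : Fin d → Bool, (d:ℝ) < ∑ η : Fin d → Bool, (‖∑ j, sgn (η j) • w j‖ ^ 2 + ‖b‖ ^ 2
            - 2 * ‖b‖ / d * (∑ j, sgn (η j) * inner ℝ e (w j)) ^ 2) :=
          Finset.sum_lt_sum_of_nonempty ⟨fun _ => true, Finset.mem_univ _⟩ fun η _ => h1 η
        have h3 := rademacher_two d (fun j => inner ℝ e (w j)) 0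
        simp only [zero_add, ne_eq, OfNat.ofNat_ne_zero, not_false_eq_true, zero_pow] at h3
        rw [Finset.sum_sub_distrib, Finset.sum_add_distrib, avg_norm_sq, ← Finset.mul_sum, h3] at h2
        simp only [hw, one_pow, Finset.sum_const, Finset.card_univ, Fintype.card_pi, Finset.prod_const,
          Fintype.card_bool, Fintype.card_fin, nsmul_eq_mul, mul_one] at h2
        push_cast at h2
        set S := ∑ j, (inner ℝ e (w j) : ℝ) ^ 2 with hS
        have h2d : (0:ℝ) < 2 ^ d := by positivity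
        have h4 : 2 ^ d * (2 * ‖b‖ / d * S) < 2 ^ d * ‖b‖ ^ 2 := by
          have e1 : 2 * ‖b‖ / d * (2 ^ d * S) = 2 ^ d * (2 * ‖b‖ / d * S) := by ring
          linarith
        have h5 := lt_of_mul_lt_mul_left h4 h2d.le
        have h6 : 2 * ‖b‖ / d * (1 / (4 * d)) < 2 * ‖b‖ / d * S := by
          refine mul_lt_mul_of_pos_left ?_ (by positivity)
          rw [div_lt_iff₀ (by positivity)]
          linarith
        have h7 : 2 * ‖b‖ / d * (1 / (4 * d)) = ‖b‖ * (1 / (2 * (d:ℝ) ^ 2)) := by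
          field_simp
          ring
        have h8 : ‖b‖ * ‖b‖ ≤ ‖b‖ * (1 / (2 * (d:ℝ) ^ 2)) := mul_le_mul_of_nonneg_left hb hbn.le
        have h9 : ‖b‖ ^ 2 = ‖b‖ * ‖b‖ := sq _
        linarith
      obtain ⟨η, hη⟩ := key
      rcases le_total 0 (inner ℝ b (∑ j, sgn (η j) • w j)) with h | h
      · refine ⟨fun j => !(η j), ?_⟩
        have e1 : ∑ j, sgn (!(η j)) • w j = - ∑ j, sgn (η j) • w j := by
          simp_rw [sgn_not, neg_smul]
          rw [Finset.sum_neg_distrib]
        rw [e1, ← sub_eq_add_neg, norm_sub_sq_real]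
        rw [abs_of_nonneg h] at hη
        linarith
      · refine ⟨η, ?_⟩
        rw [norm_add_sq_real]
        rw [abs_of_nonpos h] at hη
        linarith

lemma lemmaX {d : ℕ} (hd : 1 ≤ d) (w : Fin d → EE d) (hw : ∀ j, ‖w j‖ = 1 ∨ w j = 0)
    (s : Fin d → ℝ) (hs : ∀ j, |s j| ≤ 1) (b : EE d) (hb : ‖b‖ ≤ 1 / (2 * (d:ℝ) ^ 2 * (1 + d))) :
    ∃ η : Fin d → Bool, ‖b + ∑ j, (sgn (η j) - s j) • w j‖ ^ 2 ≤ d := by
  classical
  have hd0 : (0:ℝ) < d := by exact_mod_cast hd
  have hd1 : (1:ℝ) ≤ d := by exact_mod_cast hd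
  have hb1 : ‖b‖ ≤ 1 := by
    refine hb.trans ?_
    rw [div_le_one (by positivity)]
    have : (1:ℝ) ≤ (d:ℝ) ^ 2 := one_le_pow₀ hd1
    nlinarith
  have hb2 : ‖b‖ ^ 2 ≤ 1 := pow_le_one₀ (norm_nonneg _) hb1
  obtain ⟨η, hη⟩ := rounding_sharp d w s hs b
  have hs2 : ∀ j, s j ^ 2 ≤ 1 := fun j => by
    rw [← sq_abs]; exact pow_le_one₀ (abs_nonneg _) (hs j)
  by_cases h0 : ∃ j, w j = 0
  · obtain ⟨k, hk⟩ := h0
    refine ⟨η, hη.trans ?_⟩
    have h1 : ∑ j, (1 - s j ^ 2) * ‖w j‖ ^ 2 ≤ (d:ℝ) - 1 := by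
      rw [← Finset.add_sum_erase _ _ (Finset.mem_univ k), hk, norm_zero]
      have h2 : ∀ j ∈ Finset.univ.erase k, (1 - s j ^ 2) * ‖w j‖ ^ 2 ≤ 1 := by
        intro j _
        have h3 := hs2 j
        have h4 := sq_nonneg (s j)
        rcases hw j with h | h
        · rw [h]; linarith
        · rw [h, norm_zero]; linarith
      have h3 := Finset.sum_le_sum h2
      rw [Finset.sum_const, Finset.card_erase_of_mem (Finset.mem_univ _), Finset.card_univ,
        Fintype.card_fin, nsmul_eq_mul, mul_one, Nat.cast_sub hd] at h3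
      push_cast at h3
      linarith
    linarith
  · push Not at h0
    have hw1 : ∀ j, ‖w j‖ = 1 := fun j => (hw j).resolve_right (h0 j)
    by_cases hsb : ‖b‖ ^ 2 ≤ ∑ j, s j ^ 2
    · refine ⟨η, hη.trans ?_⟩
      simp_rw [hw1, one_pow, mul_one]
      rw [Finset.sum_sub_distrib]
      simp
      linarith
    · push Not at hsb
      have hsj : ∀ j, |s j| ≤ ‖b‖ := by
        intro j
        have h1 : s j ^ 2 ≤ ∑ j, s j ^ 2 :=
          Finset.single_le_sum (f := fun j => s j ^ 2) (fun _ _ => sq_nonneg _) (Finset.mem_univ j)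
        exact abs_le_of_sq_le_sq (by linarith) (norm_nonneg _)
      obtain ⟨η', hη'⟩ := small_shift hd w hw1 (b - ∑ j, s j • w j) (by
        refine (norm_sub_le _ _).trans ?_
        have h1 : ‖∑ j, s j • w j‖ ≤ d * ‖b‖ := by
          refine (norm_sum_le _ _).trans ?_
          have : ∀ j ∈ (Finset.univ : Finset (Fin d)), ‖s j • w j‖ ≤ ‖b‖ := by
            intro j _
            rw [norm_smul, hw1, mul_one, Real.norm_eq_abs]
            exact hsj j
          refine (Finset.sum_le_sum this).trans (le_of_eq ?_)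
          simp
        rw [← div_div, le_div_iff₀ (by positivity)] at hb
        linarith)
      refine ⟨η', ?_⟩
      have e1 : b + ∑ j, (sgn (η' j) - s j) • w j = b - ∑ j, s j • w j + ∑ j, sgn (η' j) • w j := by
        simp_rw [sub_smul]
        rw [Finset.sum_sub_distrib]
        abel
      rw [e1]
      exact hη'

end MP087bf0
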