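import Mathlib
import Pool.Agent.Lib.MP_087bf0_co.LemmaX
open MeasureTheory Set Filter Topology
open scoped ENNReal Real

namespace MP087bf0

open Classical in
theorem weighted {m N : ℕ} (v : Fin N → EE (m+1)) (hspan : Submodule.span ℝ (Set.range v) = ⊤)
    {A θ : ℝ} (hA : 0 ≤ A) (hθ : 0 ≤ θ) (F : Finset (Fin (m+1) → Fin N))
    (h1 : ∀ ι : Fin (m+1) → Fin N, Function.Injective ι →
      ((Finset.univ.filter (fun ε => Hit v ι ε)).card : ℝ) ≤ 2 ^ (m+1) * A)
    (h2 : ∀ ι ∈ F, Function.Injective ι →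
      ((Finset.univ.filter (fun ε => Hit v ι ε)).card : ℝ) ≤ 2 ^ (m+1) * (A * θ)) :
    2 ^ N * ((m+1).factorial : ℝ) * ((m:ℝ) + 3) ^ (-(((m:ℝ)+1)/2))
      ≤ omega (m+1) * A * (θ * √(((m+1).factorial : ℝ) * (N:ℝ) ^ (m+1))
        + √(((m+1).factorial : ℝ) * ((Fᶜ).card : ℝ))) := by
  obtain ⟨Q, hQ, hu⟩ := exists_parseval v hspan
  have h0 := frame_bound (fun i => Q (v i)) hu
  set u : Fin N → EE (m+1) := fun i => Q (v i) with hudef
  set D := (sb (m+1)).toBasis.det with hD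
  have hω := omega_pos (m+1)
  have hsub : ∀ ι : Fin (m+1) → Fin N, ((Finset.univ.filter (fun ε => Hit u ι ε)).card : ℝ)
      ≤ ((Finset.univ.filter (fun ε => Hit v ι ε)).card : ℝ) := by
    intro ι
    have : (Finset.univ.filter (fun ε => Hit u ι ε)).card
          ≤ (Finset.univ.filter (fun ε => Hit v ι ε)).card := by
      refine Finset.card_le_card fun ε => ?_
      simp only [Finset.mem_filter, Finset.mem_univ, true_and]
      exact hit_map v Q hQ ι ε
    exact_mod_cast this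
  have h3 : ∀ ι : Fin (m+1) → Fin N,
      |D (u ∘ ι)| * ((Finset.univ.filter (fun ε => Hit u ι ε)).card : ℝ)
        ≤ |D (u ∘ ι)| * (2 ^ (m+1) * A * (if ι ∈ F then θ else 1)) := by
    intro ι
    by_cases h0 : D (u ∘ ι) = 0
    · rw [h0]; simp
    · have hinj : Function.Injective ι := by
        by_contra hni
        apply h0
        refine D.map_eq_zero_of_not_injective _ fun h => hni h.of_comp
      refine mul_le_mul_of_nonneg_left ?_ (abs_nonneg _)
      refine (hsub ι).trans ?_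
      split_ifs with hF
      · refine (h2 ι hF hinj).trans (le_of_eq (by ring))
      · rw [mul_one]; exact h1 ι hinj
  have hf0 : (0:ℝ) < ((m+1).factorial : ℝ) := by exact_mod_cast Nat.factorial_pos _
  have hsumD := sum_det_parseval (sb (m+1)) hu
  rw [← hD] at hsumD
  set f := ((m+1).factorial : ℝ) with hf
  have hCS : ∀ S : Finset (Fin (m+1) → Fin N), ∑ ι ∈ S, |D (u ∘ ι)| ≤ √(f * (S.card : ℝ)) := by
    intro S
    apply Real.le_sqrt_of_sq_le
    have := Finset.sum_mul_sq_le_sq_mul_sq S (fun ι : Fin (m+1) → Fin N => |D (u ∘ ι)|)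
      (fun _ => 1)
    simp only [mul_one, one_pow, Finset.sum_const, sq_abs, nsmul_eq_mul] at this
    refine this.trans ?_
    refine mul_le_mul_of_nonneg_right ?_ (by positivity)
    rw [← hsumD]
    exact Finset.sum_le_sum_of_subset_of_nonneg (Finset.subset_univ _) fun _ _ _ => sq_nonneg _
  have h4 : ∑ ι : Fin (m+1) → Fin N, |D (u ∘ ι)| * (2 ^ (m+1) * A * (if ι ∈ F then θ else 1))
      = 2 ^ (m+1) * A * (θ * ∑ ι ∈ F, |D (u ∘ ι)| + ∑ ι ∈ Fᶜ, |D (u ∘ ι)|) := by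
    rw [← Finset.sum_add_sum_compl F]
    rw [mul_add, Finset.mul_sum, Finset.mul_sum, Finset.mul_sum]
    congr 1
    · refine Finset.sum_congr rfl fun ι hι => ?_
      rw [if_pos hι]; ring
    · refine Finset.sum_congr rfl fun ι hι => ?_
      rw [if_neg (Finset.mem_compl.1 hι)]; ring
  have h5 : ∑ ι ∈ F, |D (u ∘ ι)| ≤ √(f * (N:ℝ) ^ (m+1)) := by
    refine (hCS F).trans (Real.sqrt_le_sqrt (mul_le_mul_of_nonneg_left ?_ hf0.le))
    have := Finset.card_le_univ F
    rw [Fintype.card_fun, Fintype.card_fin, Fintype.card_fin] at this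
    exact_mod_cast this
  refine h0.trans ?_
  calc (1/2) ^ (m+1) * omega (m+1) * ∑ ι : Fin (m+1) → Fin N,
          |D (u ∘ ι)| * ((Finset.univ.filter (fun ε => Hit u ι ε)).card : ℝ)
        ≤ (1/2) ^ (m+1) * omega (m+1) * ∑ ι : Fin (m+1) → Fin N,
          |D (u ∘ ι)| * (2 ^ (m+1) * A * (if ι ∈ F then θ else 1)) :=
          mul_le_mul_of_nonneg_left (Finset.sum_le_sum fun ι _ => h3 ι) (by positivity)
      _ = (1/2) ^ (m+1) * omega (m+1) * (2 ^ (m+1) * A * (θ * ∑ ι ∈ F, |D (u ∘ ι)|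
          + ∑ ι ∈ Fᶜ, |D (u ∘ ι)|)) := by rw [h4]
      _ = omega (m+1) * A * (θ * ∑ ι ∈ F, |D (u ∘ ι)| + ∑ ι ∈ Fᶜ, |D (u ∘ ι)|) := by
          have : ((1:ℝ)/2) ^ (m+1) * 2 ^ (m+1) = 1 := by
            rw [← mul_pow]; norm_num
          calc (1/2) ^ (m+1) * omega (m+1) * (2 ^ (m+1) * A * (θ * ∑ ι ∈ F, |D (u ∘ ι)|
                + ∑ ι ∈ Fᶜ, |D (u ∘ ι)|))
              = ((1/2) ^ (m+1) * 2 ^ (m+1)) * (omega (m+1) * A * (θ * ∑ ι ∈ F, |D (u ∘ ι)|
                + ∑ ι ∈ Fᶜ, |D (u ∘ ι)|)) := by ring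
            _ = _ := by rw [this, one_mul]
      _ ≤ _ := by
          refine mul_le_mul_of_nonneg_left ?_ (mul_nonneg hω.le hA)
          exact add_le_add (mul_le_mul_of_nonneg_left h5 hθ) (hCS _)

/-- dyadic sign sums are separated -/
lemma dyadic_bound : ∀ (L : ℕ) (c : Fin L → ℝ) (_ : ∀ l, |c l| ≤ 2),
    |∑ l, c l / 2 ^ ((l:ℕ) + 1)| ≤ 2 - 2 / 2 ^ L
  | 0, c, _ => by simp
  | L + 1, c, hc => by
      have ih := dyadic_bound L (fun l => c l.succ) (fun l => hc _)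
      rw [Fin.sum_univ_succ]
      have e1 : ∑ l : Fin L, c l.succ / 2 ^ ((l.succ : ℕ) + 1)
          = (∑ l : Fin L, c l.succ / 2 ^ ((l:ℕ) + 1)) / 2 := by
        rw [Finset.sum_div]
        refine Finset.sum_congr rfl fun l _ => ?_
        rw [Fin.val_succ, pow_succ 2 ((l:ℕ) + 1)]
        field_simp
      rw [e1]
      have h0 := hc 0
      have h1 := abs_le.1 ih
      have h2 := abs_le.1 h0
      have e2 : (2:ℝ) / 2 ^ (L + 1) = 1 / 2 ^ L := by rw [pow_succ]; field_simp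
      rw [e2]
      have e3 : (2:ℝ) / 2 ^ L = 2 * (1 / 2 ^ L) := by ring
      rw [e3] at h1
      have e4 : c 0 / 2 ^ (((0 : Fin (L+1)) : ℕ) + 1) = c 0 / 2 := by simp
      rw [e4, abs_le]
      constructor <;> linarith [h1.1, h1.2, h2.1, h2.2]

lemma dyadic_unique : ∀ (L : ℕ) (ε ε' : Fin L → Bool),
    |∑ l, (sgn (ε l) - sgn (ε' l)) / 2 ^ ((l:ℕ) + 1)| < 2 / 2 ^ L → ε = ε'
  | 0, ε, ε', _ => Subsingleton.elim _ _
  | L + 1, ε, ε', h => by
      rw [Fin.sum_univ_succ] at h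
      have e1 : ∑ l : Fin L, (sgn (ε l.succ) - sgn (ε' l.succ)) / 2 ^ ((l.succ : ℕ) + 1)
          = (∑ l : Fin L, (sgn (ε l.succ) - sgn (ε' l.succ)) / 2 ^ ((l:ℕ) + 1)) / 2 := by
        rw [Finset.sum_div]
        refine Finset.sum_congr rfl fun l _ => ?_
        rw [Fin.val_succ, pow_succ 2 ((l:ℕ) + 1)]
        field_simp
      have e2 : (2:ℝ) / 2 ^ (L + 1) = 1 / 2 ^ L := by rw [pow_succ]; field_simp
      have e4 : (sgn (ε 0) - sgn (ε' 0)) / 2 ^ (((0 : Fin (L+1)) : ℕ) + 1)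
          = (sgn (ε 0) - sgn (ε' 0)) / 2 := by simp
      rw [e1, e2, e4] at h
      have hb := dyadic_bound L (fun l => sgn (ε l.succ) - sgn (ε' l.succ)) (fun l => by
        cases ε l.succ <;> cases ε' l.succ <;> simp [sgn] <;> norm_num)
      have e3 : (2:ℝ) / 2 ^ L = 2 * (1 / 2 ^ L) := by ring
      rw [e3] at hb
      set S := ∑ l : Fin L, (sgn (ε l.succ) - sgn (ε' l.succ)) / 2 ^ ((l:ℕ) + 1) with hS
      have h1 := abs_lt.1 h
      have h2 := abs_le.1 hb
      have h0 : ε 0 = ε' 0 := by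
        cases h3 : ε 0 <;> cases h4 : ε' 0
        · rfl
        · rw [h3, h4, sgn_true, sgn_false] at h1
          linarith [h1.1, h1.2, h2.1, h2.2]
        · rw [h3, h4, sgn_true, sgn_false] at h1
          linarith [h1.1, h1.2, h2.1, h2.2]
        · rfl
      have h5 := dyadic_unique L (fun l => ε l.succ) (fun l => ε' l.succ) (by
        rw [e3, ← hS]
        rw [h0, sub_self, zero_div, zero_add] at h1
        rw [abs_lt]
        constructor <;> linarith [h1.1, h1.2])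
      ext l
      refine Fin.cases ?_ (fun l => ?_) l
      · rw [h0]
      · rw [congrFun h5 l]

end MP087bf0
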