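import Mathlib
import Pool.Agent.Lib.MP_087bf0_co.Weighted
open MeasureTheory Set Filter Topology
open scoped ENNReal Real

namespace MP087bf0

lemma hit_good {d N : ℕ} (hd : 1 ≤ d) (v z : Fin N → EE d) (hz : ∀ i, ‖z i‖ = 1 ∨ z i = 0)
    (hvz : ∑ i, ‖v i - z i‖ ≤ 1 / (2 * (d:ℝ) ^ 2 * (1 + d))) (ι : Fin d → Fin N)
    (hι : Function.Injective ι) (ε : Fin N → Bool) (h : Hit v ι ε) :
    ∃ η : Fin d → Bool, ‖∑ i, sgn (Function.extend ι η ε i) • z i‖ ≤ √(d:ℝ) := by
  classical
  obtain ⟨s, hs, hT⟩ := h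
  set b : EE d := X z ι ε + ∑ j, s j • z (ι j) with hb
  have hs1 : ∀ j, |s j| ≤ 1 := fun j => abs_le.2 ⟨(hs j).1, (hs j).2⟩
  have hbn : ‖b‖ ≤ ∑ i, ‖v i - z i‖ := by
    have e1 : b = ∑ i, (if i ∈ Set.range ι then 0 else sgn (ε i) • (z i - v i))
        + ∑ j, s j • (z (ι j) - v (ι j)) := by
      have e2 : b = b - T v ι ε s := by rw [hT, sub_zero]
      rw [e2, hb, T, X, X]
      simp_rw [smul_sub]
      rw [Finset.sum_sub_distrib]
      have e3 : ∑ i, (if i ∈ Set.range ι then (0 : EE d) else sgn (ε i) • z i - sgn (ε i) • v i)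
          = ∑ i, (if i ∈ Set.range ι then (0 : EE d) else sgn (ε i) • z i)
          - ∑ i, (if i ∈ Set.range ι then (0 : EE d) else sgn (ε i) • v i) := by
        rw [← Finset.sum_sub_distrib]
        refine Finset.sum_congr rfl fun i _ => ?_
        split_ifs <;> simp
      rw [e3]
      abel
    rw [e1]
    have h1 : ‖∑ i, (if i ∈ Set.range ι then (0 : EE d) else sgn (ε i) • (z i - v i))‖
        ≤ ∑ i, (if i ∈ Set.range ι then 0 else ‖v i - z i‖) := by
      refine (norm_sum_le _ _).trans (Finset.sum_le_sum fun i _ => ?_)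
      split_ifs
      · simp
      · rw [norm_smul, norm_sub_rev]
        have : ‖sgn (ε i)‖ = 1 := by cases ε i <;> simp [sgn]
        rw [this, one_mul]
    have h2 : ‖∑ j, s j • (z (ι j) - v (ι j))‖ ≤ ∑ i, (if i ∈ Set.range ι then ‖v i - z i‖ else 0) := by
      have e4 : ∑ i, (if i ∈ Set.range ι then ‖v i - z i‖ else 0) = ∑ j, ‖v (ι j) - z (ι j)‖ := by
        rw [← Finset.sum_filter]
        have : (Finset.univ.filter (fun i => i ∈ Set.range ι)) = Finset.univ.image ι := by
          ext i; simp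
        rw [this, Finset.sum_image (fun x _ y _ h => hι h)]
      rw [e4]
      refine (norm_sum_le _ _).trans (Finset.sum_le_sum fun j _ => ?_)
      rw [norm_smul, norm_sub_rev, Real.norm_eq_abs]
      have := hs1 j
      have h3 := norm_nonneg (v (ι j) - z (ι j))
      calc |s j| * ‖v (ι j) - z (ι j)‖ ≤ 1 * ‖v (ι j) - z (ι j)‖ := mul_le_mul_of_nonneg_right this h3
        _ = _ := one_mul _
    refine (norm_add_le _ _).trans ((add_le_add h1 h2).trans (le_of_eq ?_))
    rw [← Finset.sum_add_distrib]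
    refine Finset.sum_congr rfl fun i _ => ?_
    split_ifs <;> simp
  obtain ⟨η, hη⟩ := lemmaX hd (fun j => z (ι j)) (fun j => hz _) s hs1 b (hbn.trans hvz)
  refine ⟨η, ?_⟩
  rw [sigma_extend z ι hι]
  apply Real.le_sqrt_of_sq_le
  have e : X z ι ε + ∑ j, sgn (η j) • z (ι j) = b + ∑ j, (sgn (η j) - s j) • z (ι j) := by
    rw [hb]
    simp_rw [sub_smul]
    rw [Finset.sum_sub_distrib]
    abel
  rw [e]
  exact hη

open Classical in
lemma hit_card_gen {d N : ℕ} (hd : 1 ≤ d) (v z : Fin N → EE d) (hz : ∀ i, ‖z i‖ = 1 ∨ z i = 0)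
    (hvz : ∑ i, ‖v i - z i‖ ≤ 1 / (2 * (d:ℝ) ^ 2 * (1 + d))) (ι : Fin d → Fin N)
    (hι : Function.Injective ι) :
    (Finset.univ.filter (fun ε => Hit v ι ε)).card
      ≤ 2 ^ d * (Finset.univ.filter
          (fun ε : Fin N → Bool => ‖∑ i, sgn (ε i) • z i‖ ≤ √(d:ℝ))).card := by
  have hround := fun ε => hit_good hd v z hz hvz ι hι ε
  choose! η hη using hround
  have hcard : (Finset.univ.filter (fun ε => Hit v ι ε)).card
      ≤ ((Finset.univ : Finset (Fin d → Bool)) ×ˢ (Finset.univ.filter
          (fun ε : Fin N → Bool => ‖∑ i, sgn (ε i) • z i‖ ≤ √(d:ℝ)))).card := by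
    refine Finset.card_le_card_of_injOn (fun ε => (ε ∘ ι, Function.extend ι (η ε) ε)) ?_ ?_
    · intro ε hε
      simp only [Finset.coe_filter, Finset.mem_univ, true_and, Set.mem_ofPred_eq] at hε
      simp only [Finset.coe_product, Finset.coe_univ, Finset.coe_filter, Finset.mem_univ, true_and,
        Set.mem_prod, Set.mem_univ, Set.mem_ofPred_eq]
      exact hη ε hε
    · intro ε _ ε' _ h
      simp only [Prod.mk.injEq] at h
      obtain ⟨h1, h2⟩ := h
      funext i
      by_cases hi : ∃ j, ι j = i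
      · obtain ⟨j, rfl⟩ := hi
        exact congrFun h1 j
      · have := congrFun h2 i
        rw [Function.extend_apply' _ _ _ hi, Function.extend_apply' _ _ _ hi] at this
        exact this
  refine hcard.trans (le_of_eq ?_)
  rw [Finset.card_product]
  simp

/-- the gain for flat tuples -/
lemma hit_card_flat {d N L : ℕ} (hd : 1 ≤ d) (v z : Fin N → EE d) (hz : ∀ i, ‖z i‖ = 1 ∨ z i = 0)
    (hvz : ∑ i, ‖v i - z i‖ ≤ 1 / (2 * (d:ℝ) ^ 2 * (1 + d))) (ι : Fin d → Fin N)
    (hι : Function.Injective ι) (u0 : EE d) (δ : Fin L → Fin N) (hδ : Function.Injective δ)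
    (hzδ : ∀ l, z (δ l) = 0) {r τ : ℝ} (hr : 0 < r)
    (hvδ : ∀ l, inner ℝ (v (δ l)) u0 = r / 2 ^ ((l:ℕ) + 1))
    (hflat : ∀ j, |inner ℝ (v (ι j)) u0| ≤ τ) (hτ : d * τ < r / 2 ^ L) (hdis : ∀ l j, δ l ≠ ι j) :
    open Classical in
    (Finset.univ.filter (fun ε => Hit v ι ε)).card * 2 ^ L
      ≤ 2 ^ d * (Finset.univ.filter
          (fun ε : Fin N → Bool => ‖∑ i, sgn (ε i) • z i‖ ≤ √(d:ℝ))).card := by
  classical
  have hround := fun ε => hit_good hd v z hz hvz ι hι ε
  choose! η hη using hround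
  have hcard : ((Finset.univ.filter (fun ε => Hit v ι ε)) ×ˢ (Finset.univ : Finset (Fin L → Bool))).card
      ≤ ((Finset.univ : Finset (Fin d → Bool)) ×ˢ (Finset.univ.filter
          (fun ε : Fin N → Bool => ‖∑ i, sgn (ε i) • z i‖ ≤ √(d:ℝ)))).card := by
    refine Finset.card_le_card_of_injOn
      (fun p => (p.1 ∘ ι, Function.extend δ p.2 (Function.extend ι (η p.1) p.1))) ?_ ?_
    · rintro ⟨ε, χ⟩ hε
      simp only [Finset.coe_product, Finset.coe_univ, Finset.coe_filter, Finset.mem_univ, true_and,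
        Set.mem_prod, Set.mem_univ, Set.mem_ofPred_eq, and_true] at hε
      simp only [Finset.coe_product, Finset.coe_univ, Finset.coe_filter, Finset.mem_univ, true_and,
        Set.mem_prod, Set.mem_univ, Set.mem_ofPred_eq]
      have h1 := hη ε hε
      have e : ∑ i, sgn (Function.extend δ χ (Function.extend ι (η ε) ε) i) • z i
          = ∑ i, sgn (Function.extend ι (η ε) ε i) • z i := by
        refine Finset.sum_congr rfl fun i _ => ?_
        by_cases hi : ∃ l, δ l = i
        · obtain ⟨l, rfl⟩ := hi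
          rw [hzδ, smul_zero, smul_zero]
        · rw [Function.extend_apply' _ _ _ hi]
      rw [e]
      exact h1
    · rintro ⟨ε, χ⟩ hε ⟨ε', χ'⟩ hε' h
      simp only [Finset.coe_product, Finset.coe_univ, Finset.coe_filter, Finset.mem_univ, true_and,
        Set.mem_prod, Set.mem_univ, Set.mem_ofPred_eq, and_true] at hε hε'
      simp only [Prod.mk.injEq] at h
      obtain ⟨h1, h2⟩ := h
      have hχ : χ = χ' := by
        funext l
        have := congrFun h2 (δ l)
        rw [hδ.extend_apply, hδ.extend_apply] at this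
        exact this
      have hoff : ∀ i, (∀ l, δ l ≠ i) → ε i = ε' i := by
        intro i hi
        by_cases hj : ∃ j, ι j = i
        · obtain ⟨j, rfl⟩ := hj
          exact congrFun h1 j
        · have := congrFun h2 i
          have hi' : ¬ ∃ l, δ l = i := by push Not; exact hi
          rw [Function.extend_apply' _ _ _ hi', Function.extend_apply' _ _ _ hi',
            Function.extend_apply' _ _ _ hj, Function.extend_apply' _ _ _ hj] at this
          exact this
      obtain ⟨s, hs, hT⟩ := hε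
      obtain ⟨s', hs', hT'⟩ := hε'
      have hin : ∀ (ε : Fin N → Bool) (s : Fin d → ℝ), T v ι ε s = 0 →
          ∑ i, (if i ∈ Set.range ι then 0 else sgn (ε i) * inner ℝ (v i) u0)
          + ∑ j, s j * inner ℝ (v (ι j)) u0 = 0 := by
        intro ε s hT
        have h3 : inner ℝ (T v ι ε s) u0 = (0:ℝ) := by rw [hT, inner_zero_left]
        rw [T, X, inner_add_left, sum_inner, sum_inner] at h3
        refine Eq.trans ?_ h3
        congr 1
        · refine Finset.sum_congr rfl fun i _ => ?_
          split_ifs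
          · rw [inner_zero_left]
          · rw [real_inner_smul_left]
        · refine Finset.sum_congr rfl fun j _ => ?_
          rw [real_inner_smul_left]
      have h3 := hin ε s hT
      have h4 := hin ε' s' hT'
      have h5 : ∑ l, (sgn (ε (δ l)) - sgn (ε' (δ l))) * (r / 2 ^ ((l:ℕ) + 1))
          = ∑ i, (if i ∈ Set.range ι then 0 else sgn (ε i) * inner ℝ (v i) u0)
          - ∑ i, (if i ∈ Set.range ι then 0 else sgn (ε' i) * inner ℝ (v i) u0) := by
        rw [← Finset.sum_sub_distrib]
        have e1 : ∑ i ∈ Finset.univ.image δ, ((if i ∈ Set.range ι then 0 else sgn (ε i) * inner ℝ (v i) u0)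
            - (if i ∈ Set.range ι then 0 else sgn (ε' i) * inner ℝ (v i) u0) : ℝ)
            = ∑ i, ((if i ∈ Set.range ι then 0 else sgn (ε i) * inner ℝ (v i) u0)
            - (if i ∈ Set.range ι then 0 else sgn (ε' i) * inner ℝ (v i) u0) : ℝ) := by
          refine Finset.sum_subset (Finset.subset_univ _) fun i _ hi => ?_
          have : ε i = ε' i := hoff i fun l hl => hi (by rw [← hl]; exact Finset.mem_image_of_mem _ (Finset.mem_univ _))
          rw [this, sub_self]
        rw [← e1, Finset.sum_image (fun x _ y _ h => hδ h)]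
        refine Finset.sum_congr rfl fun l _ => ?_
        have hnr : δ l ∉ Set.range ι := by
          rintro ⟨j, hj⟩
          exact hdis l j hj.symm
        rw [if_neg hnr, if_neg hnr, hvδ]
        ring
      have h6 : ∑ l, (sgn (ε (δ l)) - sgn (ε' (δ l))) * (r / 2 ^ ((l:ℕ) + 1))
          = r * ∑ l, (sgn (ε (δ l)) - sgn (ε' (δ l))) / 2 ^ ((l:ℕ) + 1) := by
        rw [Finset.mul_sum]
        refine Finset.sum_congr rfl fun l _ => ?_
        ring
      have h7 : |∑ j, (s' j - s j) * inner ℝ (v (ι j)) u0| ≤ 2 * (d * τ) := by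
        refine (Finset.abs_sum_le_sum_abs _ _).trans ?_
        have : ∀ j ∈ (Finset.univ : Finset (Fin d)), |(s' j - s j) * inner ℝ (v (ι j)) u0| ≤ 2 * τ := by
          intro j _
          rw [abs_mul]
          have e1 : |s' j - s j| ≤ 2 := by
            rw [abs_le]
            constructor <;> linarith [(hs j).1, (hs j).2, (hs' j).1, (hs' j).2]
          exact mul_le_mul e1 (hflat j) (abs_nonneg _) zero_le_two
        refine (Finset.sum_le_sum this).trans (le_of_eq ?_)
        rw [Finset.sum_const, Finset.card_univ, Fintype.card_fin, nsmul_eq_mul]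
        ring
      have h8 : r * ∑ l, (sgn (ε (δ l)) - sgn (ε' (δ l))) / 2 ^ ((l:ℕ) + 1)
          = ∑ j, (s' j - s j) * inner ℝ (v (ι j)) u0 := by
        rw [← h6, h5]
        simp_rw [sub_mul]
        rw [Finset.sum_sub_distrib]
        linarith
      have h9 : (fun l => ε (δ l)) = fun l => ε' (δ l) := by
        refine dyadic_unique L _ _ ?_
        rw [← mul_lt_mul_iff_right₀ hr]
        have e1 : r * |∑ l, (sgn (ε (δ l)) - sgn (ε' (δ l))) / 2 ^ ((l:ℕ) + 1)|
            = |r * ∑ l, (sgn (ε (δ l)) - sgn (ε' (δ l))) / 2 ^ ((l:ℕ) + 1)| := by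
          rw [abs_mul, abs_of_pos hr]
        rw [e1, h8]
        refine lt_of_le_of_lt h7 ?_
        have e2 : r * (2 / 2 ^ L) = 2 * (r / 2 ^ L) := by ring
        rw [e2]
        linarith
      rw [Prod.mk.injEq]
      refine ⟨?_, hχ⟩
      funext i
      by_cases hi : ∃ l, δ l = i
      · obtain ⟨l, rfl⟩ := hi
        exact congrFun h9 l
      · push Not at hi
        exact hoff i hi
  rw [Finset.card_product, Finset.card_product] at hcard
  simpa using hcard

end MP087bf0
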