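import Mathlib
import Pool.Agent.Lib.MP_087bf0_co.HitGood
open MeasureTheory Set Filter Topology
open scoped ENNReal Real

namespace MP087bf0

lemma prob_append_zero {d n k : ℕ} (V : Fin n → EE d) (r : ℝ) :
    prob (Fin.append V (fun _ : Fin k => (0 : EE d))) r = prob V r := by
  classical
  have h1 : ∀ {N : ℕ} (U : Fin N → EE d), prob U r
      = (∑ ε : Fin N → Bool, if ‖∑ i, sgn (ε i) • U i‖ ≤ r then (1:ℝ) else 0) / 2 ^ N := by
    intro N U
    rw [prob_eq, Finset.sum_boole]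
  rw [h1, h1]
  have h2 : ∑ ε : Fin (n + k) → Bool,
      (if ‖∑ i, sgn (ε i) • (Fin.append V (fun _ : Fin k => (0 : EE d))) i‖ ≤ r then (1:ℝ) else 0)
      = ∑ p : (Fin n → Bool) × (Fin k → Bool), (if ‖∑ i, sgn (p.1 i) • V i‖ ≤ r then (1:ℝ) else 0) := by
    symm
    refine Fintype.sum_equiv (Fin.appendEquiv n k) _ _ fun p => ?_
    have e : ∑ i, sgn ((Fin.appendEquiv n k) p i) • (Fin.append V (fun _ : Fin k => (0 : EE d))) i
        = ∑ i, sgn (p.1 i) • V i := by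
      rw [Fin.sum_univ_add]
      have e1 : ∀ i : Fin n, (Fin.appendEquiv n k) p (Fin.castAdd k i) = p.1 i := fun i => by
        simp [Fin.appendEquiv]
      simp_rw [e1, Fin.append_left, Fin.append_right, smul_zero]
      simp
    rw [e]
  rw [h2, Fintype.sum_prod_type]
  simp only [Finset.sum_const, Finset.card_univ, Fintype.card_pi, Finset.prod_const, Fintype.card_bool,
    Fintype.card_fin, nsmul_eq_mul]
  rw [← Finset.mul_sum, pow_add]
  push_cast
  field_simp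

lemma nonflat_count {N m : ℕ} (S : Finset (Fin N)) :
    open Classical in
    ((Finset.univ.filter (fun ι : Fin (m+1) → Fin N => ∃ j, ι j ∈ S)).card : ℝ)
      ≤ (m + 1) * (S.card : ℝ) * (N:ℝ) ^ m := by
  classical
  have h1 : (Finset.univ.filter (fun ι : Fin (m+1) → Fin N => ∃ j, ι j ∈ S))
      ⊆ Finset.univ.biUnion (fun j : Fin (m+1) => Finset.univ.filter (fun ι : Fin (m+1) → Fin N => ι j ∈ S)) := by
    intro ι hι
    rw [Finset.mem_filter] at hι
    obtain ⟨j, hj⟩ := hι.2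
    rw [Finset.mem_biUnion]
    exact ⟨j, Finset.mem_univ _, by rw [Finset.mem_filter]; exact ⟨Finset.mem_univ _, hj⟩⟩
  have h2 : ∀ j : Fin (m+1), (Finset.univ.filter (fun ι : Fin (m+1) → Fin N => ι j ∈ S)).card = S.card * N ^ m := by
    intro j
    have e : (Finset.univ.filter (fun ι : Fin (m+1) → Fin N => ι j ∈ S)).card
        = (S ×ˢ (Finset.univ : Finset (Fin m → Fin N))).card := by
      refine Finset.card_bij (fun ι _ => (ι j, fun i => ι (j.succAbove i))) ?_ ?_ ?_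
      · intro ι hι
        rw [Finset.mem_filter] at hι
        rw [Finset.mem_product]
        exact ⟨hι.2, Finset.mem_univ _⟩
      · intro ι _ ι' _ h
        rw [Prod.mk.injEq] at h
        funext i
        rcases eq_or_ne i j with hij | hij
        · rw [hij]; exact h.1
        · obtain ⟨k, rfl⟩ := Fin.exists_succAbove_eq hij
          exact congrFun h.2 k
      · rintro ⟨a, b⟩ hab
        rw [Finset.mem_product] at hab
        refine ⟨j.insertNth a b, ?_, ?_⟩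
        · rw [Finset.mem_filter]
          exact ⟨Finset.mem_univ _, by simpa using hab.1⟩
        · simp
    rw [e, Finset.card_product]
    simp
  have h3 := (Finset.card_le_card h1).trans Finset.card_biUnion_le
  simp_rw [h2] at h3
  rw [Finset.sum_const, Finset.card_univ, Fintype.card_fin, smul_eq_mul] at h3
  have h4 : ((Finset.univ.filter (fun ι : Fin (m+1) → Fin N => ∃ j, ι j ∈ S)).card : ℝ)
      ≤ (((m + 1) * (S.card * N ^ m) : ℕ) : ℝ) := by exact_mod_cast h3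
  refine h4.trans (le_of_eq ?_)
  push_cast
  ring

/-- final arithmetic -/
lemma deg_arith {m N n : ℕ} {ω A θ Fc x c0 P β μ B : ℝ} {f : ℝ} (hf : 0 < f) (hω : 0 < ω)
    (hc0 : c0 = √f * x / ω) (hP : P = A / 2 ^ N) (hP0 : 0 ≤ P)
    (h : 2 ^ N * f * x ≤ ω * A * (θ * √(f * (N:ℝ) ^ (m+1)) + √(f * Fc)))
    (hN : (N:ℝ) ≤ 2 * n) (hθβ : θ ≤ β) (hβ0 : 0 < β)
    (hFc : Fc ≤ μ * (2 * n : ℝ) ^ (m+1)) (hμβ : √μ ≤ β)
    (hμ0 : 0 ≤ μ) (hB : 0 < B) (hβB : β = c0 / (2 * √2 ^ (m+1) * B)) (hc00 : 0 < c0) :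
    B ≤ P * √(n:ℝ) ^ (m+1) := by
  have hsf : 0 < √f := Real.sqrt_pos.2 hf
  have h2N : (0:ℝ) < 2 ^ N := by positivity
  have hA : A = P * 2 ^ N := by rw [hP]; field_simp
  have h1 : c0 ≤ P * (θ * √((N:ℝ) ^ (m+1)) + √Fc) := by
    rw [hc0, div_le_iff₀ hω]
    rw [Real.sqrt_mul hf.le, Real.sqrt_mul hf.le] at h
    have hsf2 : √f * √f = f := Real.mul_self_sqrt hf.le
    have h2 : (2 ^ N * √f) * (√f * x) ≤ (2 ^ N * √f) * (P * (θ * √((N:ℝ) ^ (m+1)) + √Fc) * ω) := by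
      calc (2 ^ N * √f) * (√f * x) = 2 ^ N * (√f * √f) * x := by ring
        _ = 2 ^ N * f * x := by rw [hsf2]
        _ ≤ ω * A * (θ * (√f * √((N:ℝ) ^ (m+1))) + √f * √Fc) := h
        _ = _ := by rw [hA]; ring
    exact le_of_mul_le_mul_left h2 (by positivity)
  set M := √((2 * n : ℝ) ^ (m+1)) with hM
  have hM0 : 0 ≤ M := Real.sqrt_nonneg _
  have h2 : √((N:ℝ) ^ (m+1)) ≤ M := Real.sqrt_le_sqrt (pow_le_pow_left₀ (by positivity) hN _)
  have h3 : √Fc ≤ β * M := by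
    calc √Fc ≤ √(μ * (2 * n : ℝ) ^ (m+1)) := Real.sqrt_le_sqrt hFc
      _ = √μ * M := Real.sqrt_mul hμ0 _
      _ ≤ β * M := mul_le_mul_of_nonneg_right hμβ hM0
  have h4 : θ * √((N:ℝ) ^ (m+1)) ≤ β * M := mul_le_mul hθβ h2 (Real.sqrt_nonneg _) hβ0.le
  have h5 : c0 ≤ P * (2 * (β * M)) := by
    refine h1.trans (mul_le_mul_of_nonneg_left ?_ hP0)
    linarith
  have hM2 : M = √2 ^ (m+1) * √(n:ℝ) ^ (m+1) := by
    rw [hM, ← mul_pow, ← Real.sqrt_mul zero_le_two]
    rw [Real.sqrt_eq_iff_mul_self_eq (by positivity) (by positivity), ← mul_pow]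
    rw [Real.mul_self_sqrt (by positivity)]
  rw [hM2, hβB] at h5
  have hs2 : (0:ℝ) < √2 ^ (m+1) := by positivity
  generalize √2 ^ (m+1) = t at h5 hs2
  generalize √(n:ℝ) ^ (m+1) = w at h5 ⊢
  have h6 : P * (2 * (c0 / (2 * t * B) * (t * w))) = c0 * (P * w / B) := by field_simp
  rw [h6] at h5
  have h7 : c0 * 1 ≤ c0 * (P * w / B) := by rw [mul_one]; exact h5
  have h8 := le_of_mul_le_mul_left h7 hc00
  rw [le_div_iff₀ hB] at h8
  linarith

end MP087bf0
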