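import Mathlib
import Pool.Agent.Lib.MP_087bf0_co.Degenerate
open MeasureTheory Set Filter Topology
open scoped ENNReal Real

namespace MP087bf0

/-- the auxiliary vectors -/
noncomputable def plusV {d n : ℕ} (V : Fin n → EE d) (u0 : EE d) (L : ℕ) (r t : ℝ) :
    Fin (n + (L + d)) → EE d :=
  Fin.append V (Fin.append (fun l : Fin L => (r / 2 ^ ((l:ℕ) + 1)) • u0) (fun i : Fin d => t • sb d i))

noncomputable def zeroV {d n : ℕ} (V : Fin n → EE d) (k : ℕ) : Fin (n + k) → EE d :=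
  Fin.append V (fun _ => 0)

/-- position of the dyadic vectors -/
def dyad (n L d : ℕ) (l : Fin L) : Fin (n + (L + d)) := Fin.natAdd n (Fin.castAdd d l)

lemma dyad_inj (n L d : ℕ) : Function.Injective (dyad n L d) := by
  intro a b h
  unfold dyad at h
  have h1 := congrArg Fin.val h
  simp at h1
  exact Fin.ext h1

lemma plusV_left {d n : ℕ} (V : Fin n → EE d) (u0 : EE d) (L : ℕ) (r t : ℝ) (i : Fin n) :
    plusV V u0 L r t (Fin.castAdd _ i) = V i := by unfold plusV; rw [Fin.append_left]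

lemma plusV_mid {d n : ℕ} (V : Fin n → EE d) (u0 : EE d) (L : ℕ) (r t : ℝ) (l : Fin L) :
    plusV V u0 L r t (Fin.natAdd n (Fin.castAdd d l)) = (r / 2 ^ ((l:ℕ) + 1)) • u0 := by
  unfold plusV; rw [Fin.append_right, Fin.append_left]

lemma plusV_right {d n : ℕ} (V : Fin n → EE d) (u0 : EE d) (L : ℕ) (r t : ℝ) (i : Fin d) :
    plusV V u0 L r t (Fin.natAdd n (Fin.natAdd L i)) = t • sb d i := by
  unfold plusV; rw [Fin.append_right, Fin.append_right]

lemma zeroV_left {d n : ℕ} (V : Fin n → EE d) (k : ℕ) (i : Fin n) :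
    zeroV V k (Fin.castAdd k i) = V i := by unfold zeroV; rw [Fin.append_left]

lemma zeroV_right {d n : ℕ} (V : Fin n → EE d) (k : ℕ) (i : Fin k) :
    zeroV V k (Fin.natAdd n i) = 0 := by unfold zeroV; rw [Fin.append_right]

lemma zeroV_unit {d n : ℕ} (V : Fin n → EE d) (hV : ∀ i, ‖V i‖ = 1) (k : ℕ) (i : Fin (n + k)) :
    ‖zeroV V k i‖ = 1 ∨ zeroV V k i = 0 := by
  refine Fin.addCases (fun i => ?_) (fun i => ?_) i
  · left; rw [zeroV_left]; exact hV i
  · right; rw [zeroV_right]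

lemma plusV_dist {d n : ℕ} (V : Fin n → EE d) (u0 : EE d) (hu0 : ‖u0‖ = 1) (L : ℕ) {r t : ℝ}
    (hr : 0 < r) (ht : 0 < t) :
    ∑ i, ‖plusV V u0 L r t i - zeroV V (L + d) i‖ ≤ r + d * t := by
  rw [Fin.sum_univ_add]
  simp_rw [plusV_left, zeroV_left, zeroV_right, sub_self, norm_zero, sub_zero]
  rw [Fin.sum_univ_add]
  simp_rw [plusV_mid, plusV_right]
  rw [Finset.sum_const_zero, zero_add]
  refine add_le_add ?_ ?_
  · have h1 := dyadic_bound L (fun _ => 2) (fun _ => by norm_num)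
    have h2 : ∑ l : Fin L, ‖(r / 2 ^ ((l:ℕ) + 1)) • u0‖ = r / 2 * ∑ l : Fin L, (2:ℝ) / 2 ^ ((l:ℕ) + 1) := by
      rw [Finset.mul_sum]
      refine Finset.sum_congr rfl fun l _ => ?_
      rw [norm_smul, hu0, mul_one, Real.norm_of_nonneg (by positivity)]
      ring
    rw [h2]
    have h3 := (le_abs_self _).trans h1
    have h4 : (0:ℝ) < 2 / 2 ^ L := by positivity
    have h5 : r / 2 * ∑ l : Fin L, (2:ℝ) / 2 ^ ((l:ℕ) + 1) ≤ r / 2 * 2 :=
      mul_le_mul_of_nonneg_left (by linarith) (by positivity)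
    linarith
  · have : ∀ i ∈ (Finset.univ : Finset (Fin d)), ‖t • sb d i‖ ≤ t := by
      intro i _
      rw [norm_smul, (sb d).norm_eq_one, mul_one, Real.norm_of_nonneg ht.le]
    refine (Finset.sum_le_sum this).trans (le_of_eq ?_)
    simp

lemma plusV_span {d n : ℕ} (V : Fin n → EE d) (u0 : EE d) (L : ℕ) {r t : ℝ} (ht : 0 < t) :
    Submodule.span ℝ (Set.range (plusV V u0 L r t)) = ⊤ := by
  rw [eq_top_iff, ← (sb d).toBasis.span_eq, Submodule.span_le]
  rintro _ ⟨i, rfl⟩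
  have h1 : t • sb d i ∈ Submodule.span ℝ (Set.range (plusV V u0 L r t)) :=
    Submodule.subset_span ⟨_, plusV_right V u0 L r t i⟩
  have h2 := Submodule.smul_mem _ t⁻¹ h1
  rw [smul_smul, inv_mul_cancel₀ ht.ne', one_smul] at h2
  simpa using h2

open Classical in
lemma nonflat_index {d n : ℕ} (V : Fin n → EE d) (u0 : EE d) (L : ℕ) (r t : ℝ) {τ lam : ℝ} (hτ : 0 < τ)
    (hlam : ∑ j, inner ℝ u0 (V j) ^ 2 ≤ lam * n) :
    ((Finset.univ.filter (fun i => τ < |inner ℝ (plusV V u0 L r t i) u0|)).card : ℝ)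
      ≤ lam * n / τ ^ 2 + (L + d) := by
  rw [← Finset.sum_boole, Fin.sum_univ_add]
  refine add_le_add ?_ ?_
  · simp_rw [plusV_left]
    rw [le_div_iff₀ (by positivity)]
    refine le_trans ?_ hlam
    rw [Finset.sum_mul]
    refine Finset.sum_le_sum fun i _ => ?_
    rw [real_inner_comm]
    split_ifs with h
    · rw [one_mul, ← sq_abs (inner ℝ u0 (V i))]
      exact pow_le_pow_left₀ hτ.le h.le 2
    · rw [zero_mul]; positivity
  · have : ∀ i ∈ (Finset.univ : Finset (Fin (L + d))),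
        (if τ < |inner ℝ (plusV V u0 L r t (Fin.natAdd n i)) u0| then (1:ℝ) else 0) ≤ 1 := by
      intro i _
      split_ifs <;> norm_num
    refine (Finset.sum_le_sum this).trans (le_of_eq ?_)
    simp

lemma lowC_pos (d : ℕ) : 0 < lowC d := by
  unfold lowC
  have h1 := omega_pos d
  have h2 : (0:ℝ) < (d.factorial : ℝ) := by exact_mod_cast Nat.factorial_pos _
  positivity

theorem degenerate (m : ℕ) {B : ℝ} (hB : 0 < B) : ∃ lam : ℝ, 0 < lam ∧ ∃ n0 : ℕ, ∀ n, n0 ≤ n →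
    ∀ V : Fin n → EE (m+1), (∀ i, ‖V i‖ = 1) → ∀ u0 : EE (m+1), ‖u0‖ = 1 →
    ∑ j, inner ℝ u0 (V j) ^ 2 ≤ lam * n → B ≤ prob V (√((m+1 : ℕ) : ℝ)) * √(n:ℝ) ^ (m+1) := by
  classical
  set d : ℕ := m + 1 with hd
  have hd1 : 1 ≤ d := by omega
  have hd0 : (0:ℝ) < d := by exact_mod_cast hd1
  obtain ⟨β, hβ⟩ : ∃ β : ℝ, β = lowC d / (2 * √2 ^ (m+1) * B) := ⟨_, rfl⟩
  have hc0 := lowC_pos d
  have hβ0 : 0 < β := by rw [hβ]; positivity
  obtain ⟨L, hL⟩ := exists_pow_lt_of_lt_one hβ0 (show (1/2 : ℝ) < 1 by norm_num)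
  obtain ⟨r0, hr0⟩ : ∃ r0 : ℝ, r0 = 1 / (2 * (d:ℝ) ^ 2 * (1 + d)) := ⟨_, rfl⟩
  have hr00 : 0 < r0 := by rw [hr0]; positivity
  obtain ⟨r, hr⟩ : ∃ r : ℝ, r = r0 / 2 := ⟨_, rfl⟩
  have hr' : 0 < r := by rw [hr]; positivity
  obtain ⟨t, ht⟩ : ∃ t : ℝ, t = r0 / (2 * d) := ⟨_, rfl⟩
  have ht' : 0 < t := by rw [ht]; positivity
  obtain ⟨τ, hτ⟩ : ∃ τ : ℝ, τ = r / 2 ^ L / (2 * d) := ⟨_, rfl⟩
  have hτ' : 0 < τ := by rw [hτ]; positivity
  obtain ⟨lam, hlam⟩ : ∃ lam : ℝ, lam = β ^ 2 * τ ^ 2 / (2 * d) := ⟨_, rfl⟩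
  have hlam' : 0 < lam := by rw [hlam]; positivity
  refine ⟨lam, hlam', max (L + d) (⌈2 * d * (L + d) / β ^ 2⌉₊), ?_⟩
  intro n hn V hV u0 hu0 hsum
  have hn1 : L + d ≤ n := (le_max_left _ _).trans hn
  have hn2 : 2 * d * (L + d) / β ^ 2 ≤ n := by
    have h1 := Nat.le_ceil (2 * d * (L + d) / β ^ 2 : ℝ)
    have h2 : (⌈(2 * d * (L + d) / β ^ 2 : ℝ)⌉₊ : ℝ) ≤ n := by exact_mod_cast (le_max_right _ _).trans hn
    linarith
  have hn0 : (0:ℝ) < n := by
    have : 0 < n := by omega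
    exact_mod_cast this
  set v := plusV V u0 L r t with hv
  set z := zeroV V (L + d) with hz
  have hz1 : ∀ i, ‖z i‖ = 1 ∨ z i = 0 := zeroV_unit V hV _
  have hvz : ∑ i, ‖v i - z i‖ ≤ 1 / (2 * (d:ℝ) ^ 2 * (1 + d)) := by
    refine (plusV_dist V u0 hu0 L hr' ht').trans ?_
    rw [← hr0, hr, ht]
    have : (d:ℝ) * (r0 / (2 * d)) = r0 / 2 := by field_simp
    rw [this]
    linarith
  have hspan : Submodule.span ℝ (Set.range v) = ⊤ := plusV_span V u0 L ht'
  set A : ℕ := (Finset.univ.filter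
          (fun ε : Fin (n + (L + d)) → Bool => ‖∑ i, sgn (ε i) • z i‖ ≤ √(d:ℝ))).card with hA
  set F : Finset (Fin (m+1) → Fin (n + (L + d))) :=
    Finset.univ.filter (fun ι => ∀ j, |inner ℝ (v (ι j)) u0| ≤ τ) with hF
  have h1 : ∀ ι : Fin (m+1) → Fin (n + (L + d)), Function.Injective ι →
      ((Finset.univ.filter (fun ε => Hit v ι ε)).card : ℝ) ≤ 2 ^ (m+1) * (A:ℝ) := by
    intro ι hι
    have := hit_card_gen hd1 v z hz1 hvz ι hι
    rw [← hA] at this
    exact_mod_cast this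
  have hvδ : ∀ l, inner ℝ (v (dyad n L d l)) u0 = r / 2 ^ ((l:ℕ) + 1) := by
    intro l
    rw [hv, dyad, plusV_mid, real_inner_smul_left, real_inner_self_eq_norm_sq, hu0]
    ring
  have hτL : d * τ < r / 2 ^ L := by
    rw [hτ]
    have h2 : (0:ℝ) < r / 2 ^ L := by positivity
    have : (d:ℝ) * (r / 2 ^ L / (2 * d)) = r / 2 ^ L / 2 := by field_simp
    rw [this]
    linarith
  have hτL' : τ < r / 2 ^ L := by
    have hd1' : (1:ℝ) ≤ d := by exact_mod_cast hd1
    have : 1 * τ ≤ d * τ := mul_le_mul_of_nonneg_right hd1' hτ'.le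
    linarith
  have h2 : ∀ ι ∈ F, Function.Injective ι →
      ((Finset.univ.filter (fun ε => Hit v ι ε)).card : ℝ) ≤ 2 ^ (m+1) * ((A:ℝ) * (1/2) ^ L) := by
    intro ι hιF hι
    rw [hF, Finset.mem_filter] at hιF
    have h3 := hit_card_flat hd1 v z hz1 hvz ι hι u0 (dyad n L d) (dyad_inj n L d)
      (fun l => by rw [hz, dyad, zeroV_right]) hr' hvδ hιF.2 hτL (by
        intro l j hlj
        have h4 := hιF.2 j
        rw [← hlj, hvδ, abs_of_pos (by positivity)] at h4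
        have h5 : r / 2 ^ L ≤ r / 2 ^ ((l:ℕ) + 1) := by
          apply div_le_div_of_nonneg_left hr'.le (by positivity)
          exact pow_le_pow_right₀ (by norm_num) (by have := l.2; omega)
        linarith)
    rw [← hA] at h3
    have h4 : ((Finset.univ.filter (fun ε => Hit v ι ε)).card : ℝ) * 2 ^ L ≤ 2 ^ (m+1) * (A:ℝ) := by
      exact_mod_cast h3
    have h5 : (0:ℝ) < 2 ^ L := by positivity
    rw [← le_div_iff₀ h5] at h4
    refine h4.trans (le_of_eq ?_)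
    rw [one_div, inv_pow]
    ring
  have hw := weighted v hspan (A := (A:ℝ)) (θ := (1/2) ^ L) (by positivity) (by positivity) F h1 h2
  have hmain := deg_arith (m := m) (N := n + (L + d)) (n := n) (ω := omega (m+1)) (A := (A:ℝ))
    (θ := (1/2) ^ L) (Fc := ((Fᶜ).card : ℝ)) (x := ((m:ℝ) + 3) ^ (-(((m:ℝ)+1)/2))) (c0 := lowC d)
    (P := prob V (√(d:ℝ))) (β := β) (μ := β ^ 2) (B := B) (f := ((m+1).factorial : ℝ))
    (by exact_mod_cast Nat.factorial_pos _) (omega_pos _) (by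
      rw [lowC, hd]
      push_cast
      rw [show (m:ℝ) + 1 + 2 = m + 3 by ring])
    (by rw [← prob_append_zero (k := L + d) V, prob_eq, hA]; rfl)
    (by rw [prob_eq]; positivity) hw (by
      have : ((n + (L + d) : ℕ) : ℝ) ≤ ((2 * n : ℕ) : ℝ) := by exact_mod_cast (by omega)
      push_cast at this ⊢
      exact this) hL.le hβ0 ?_ (by rw [Real.sqrt_sq hβ0.le]) (by positivity) hB hβ hc0
  · exact hmain
  · -- the number of non-flat tuples
    have h3 : ((Fᶜ).card : ℝ) ≤ (m + 1) * (lam * n / τ ^ 2 + (L + d)) * ((n + (L + d) : ℕ) : ℝ) ^ m := by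
      set S := Finset.univ.filter (fun i => τ < |inner ℝ (v i) u0|) with hS
      have h4 := nonflat_count (N := n + (L + d)) (m := m) S
      have h5 : Fᶜ = Finset.univ.filter (fun ι : Fin (m+1) → Fin (n + (L + d)) => ∃ j, ι j ∈ S) := by
        ext ι
        rw [hF, Finset.mem_compl, Finset.mem_filter, Finset.mem_filter]
        simp only [Finset.mem_univ, true_and, hS, Finset.mem_filter]
        push Not
        rfl
      rw [h5]
      refine h4.trans ?_
      have h6 := nonflat_index V u0 L r t hτ' hsum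
      rw [← hv, ← hS] at h6
      exact mul_le_mul_of_nonneg_right (mul_le_mul_of_nonneg_left h6 (by positivity)) (by positivity)
    refine h3.trans ?_
    have h4 : ((m:ℝ) + 1) * (lam * n / τ ^ 2 + (L + d)) ≤ β ^ 2 * n := by
      have e1 : ((m:ℝ) + 1) = d := by rw [hd]; push_cast; ring
      rw [e1]
      have e2 : (d:ℝ) * (lam * n / τ ^ 2) = β ^ 2 / 2 * n := by
        rw [hlam]; field_simp
      have e3 : (d:ℝ) * (L + d) ≤ β ^ 2 / 2 * n := by
        rw [div_le_iff₀ (by positivity)] at hn2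
        linarith
      rw [mul_add, e2]
      linarith
    have h5 : ((n + (L + d) : ℕ) : ℝ) ^ m ≤ (2 * n : ℝ) ^ m := by
      refine pow_le_pow_left₀ (by positivity) ?_ m
      have : ((n + (L + d) : ℕ) : ℝ) ≤ ((2 * n : ℕ) : ℝ) := by exact_mod_cast (by omega)
      push_cast at this ⊢
      exact this
    calc ((m:ℝ) + 1) * (lam * n / τ ^ 2 + (L + d)) * ((n + (L + d) : ℕ) : ℝ) ^ m
        ≤ β ^ 2 * n * (2 * n : ℝ) ^ m := mul_le_mul h4 h5 (by positivity) (by positivity)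
      _ ≤ β ^ 2 * (2 * n) * (2 * n : ℝ) ^ m := by
          refine mul_le_mul_of_nonneg_right ?_ (by positivity)
          have : 0 ≤ β ^ 2 * n := by positivity
          linarith
      _ = β ^ 2 * (2 * n : ℝ) ^ (m+1) := by rw [pow_succ]; ring

end MP087bf0
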