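import Mathlib
import Pool.Agent.Lib.MP_087bf0_co.General
open MeasureTheory Set Filter Topology
open scoped ENNReal Real

namespace MP087bf0

/-- signed count: `∑ sgn = 2 * #true - n` -/
lemma sum_sgn {n : ℕ} (ε : Fin n → Bool) :
    ∑ i, sgn (ε i) = 2 * ((Finset.univ.filter (fun i => ε i = true)).card : ℝ) - n := by
  have h1 : ∀ i, sgn (ε i) = 2 * (if ε i = true then (1:ℝ) else 0) - 1 := by
    intro i; cases ε i <;> simp [sgn]; norm_num
  simp_rw [h1]
  rw [Finset.sum_sub_distrib, ← Finset.mul_sum, Finset.sum_boole]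
  simp

lemma one_le_sq_of_odd {k : ℕ} (ε : Fin (2*k+1) → Bool) : 1 ≤ (∑ i, sgn (ε i)) ^ 2 := by
  rw [sum_sgn]
  set c := (Finset.univ.filter (fun i => ε i = true)).card
  have h : (2 * (c:ℝ) - ((2*k+1 : ℕ):ℝ)) ^ 2 = (((2 * (c:ℤ) - (2*k+1)) ^ 2 : ℤ) : ℝ) := by
    push_cast; ring
  rw [h]
  have h2 : (1:ℤ) ≤ (2 * (c:ℤ) - (2*k+1)) ^ 2 := by
    have h3 : 2 * (c:ℤ) - (2*k+1) ≠ 0 := by omega
    have := sq_pos_of_ne_zero (a := 2 * (c:ℤ) - (2*k+1)) h3
    omega
  exact_mod_cast h2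

open Classical in
lemma card_small {k : ℕ} :
    (Finset.univ.filter (fun ε : Fin (2*k+1) → Bool => (∑ i, sgn (ε i)) ^ 2 ≤ 1)).card
      ≤ 2 * (2*k+1).choose k := by
  have h1 : (Finset.univ.filter (fun ε : Fin (2*k+1) → Bool => (∑ i, sgn (ε i)) ^ 2 ≤ 1)).card
      ≤ (Finset.powersetCard k (Finset.univ : Finset (Fin (2*k+1))) ∪
          Finset.powersetCard (k+1) (Finset.univ : Finset (Fin (2*k+1)))).card := by
    refine Finset.card_le_card_of_injOn (fun ε => Finset.univ.filter (fun i => ε i = true)) ?_ ?_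
    · intro ε hε
      simp only [Finset.coe_filter, Finset.mem_univ, true_and, Set.mem_ofPred_eq] at hε
      simp only [Finset.coe_union, Set.mem_union, Finset.mem_coe, Finset.mem_powersetCard,
        Finset.subset_univ, true_and]
      rw [sum_sgn] at hε
      set c := (Finset.univ.filter (fun i => ε i = true)).card
      have h : (2 * (c:ℝ) - ((2*k+1 : ℕ):ℝ)) ^ 2 = (((2 * (c:ℤ) - (2*k+1)) ^ 2 : ℤ) : ℝ) := by
        push_cast; ring
      rw [h] at hε
      have h2 : (2 * (c:ℤ) - (2*k+1)) ^ 2 ≤ 1 := by exact_mod_cast hε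
      have h3 : |2 * (c:ℤ) - (2*k+1)| ≤ 1 := by
        rw [← sq_le_one_iff_abs_le_one]; exact h2
      rw [abs_le] at h3
      omega
    · intro ε _ ε' _ h
      funext i
      have := congrArg (fun s : Finset (Fin (2*k+1)) => i ∈ s) h
      simp only [Finset.mem_filter, Finset.mem_univ, true_and] at this
      cases h1 : ε i <;> cases h2 : ε' i <;> simp_all
  refine h1.trans ((Finset.card_union_le _ _).trans ?_)
  rw [Finset.card_powersetCard, Finset.card_powersetCard]
  simp only [Finset.card_univ, Fintype.card_fin]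
  have : (2*k+1).choose (k+1) = (2*k+1).choose k := by
    rw [← Nat.choose_symm_of_eq_add (by omega : 2*k+1 = k + (k+1))]
  rw [this]
  omega

/-- the repeated orthonormal basis -/
noncomputable def repV (d k : ℕ) (i : Fin (d * (2*k+1))) : Metric.sphere (0 : EE d) 1 :=
  ⟨sb d (finProdFinEquiv.symm i).1, by simp⟩

lemma prob_repV (d k : ℕ) :
    prob (fun i => (repV d k i : EE d)) (√(d:ℝ)) ≤ (((2*k+1).choose k : ℝ) / 4 ^ k) ^ d := by
  classical
  rw [prob_eq]
  have hsum : ∀ ε : Fin (d * (2*k+1)) → Bool, ‖∑ i, sgn (ε i) • (repV d k i : EE d)‖ ^ 2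
      = ∑ j : Fin d, (∑ l : Fin (2*k+1), sgn (ε (finProdFinEquiv (j, l)))) ^ 2 := by
    intro ε
    have h1 : ∑ i, sgn (ε i) • (repV d k i : EE d)
        = ∑ j : Fin d, (∑ l : Fin (2*k+1), sgn (ε (finProdFinEquiv (j, l)))) • sb d j := by
      rw [← Fintype.sum_equiv finProdFinEquiv
        (fun x : Fin d × Fin (2*k+1) => sgn (ε (finProdFinEquiv x)) • (repV d k (finProdFinEquiv x) : EE d))
        _ (fun x => rfl), Fintype.sum_prod_type]
      refine Finset.sum_congr rfl fun j _ => ?_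
      rw [Finset.sum_smul]
      refine Finset.sum_congr rfl fun l _ => ?_
      simp [repV]
    rw [h1, EuclideanSpace.norm_sq_eq]
    refine Finset.sum_congr rfl fun j _ => ?_
    have h2 : (∑ j : Fin d, (∑ l : Fin (2*k+1), sgn (ε (finProdFinEquiv (j, l)))) • sb d j) j
        = ∑ l : Fin (2*k+1), sgn (ε (finProdFinEquiv (j, l))) := by
      rw [WithLp.ofLp_sum, Finset.sum_apply, Finset.sum_eq_single j]
      · simp
      · intro b _ hb
        simp [hb.symm]
      · simp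
    rw [h2, Real.norm_eq_abs, sq_abs]
  set S := Finset.univ.filter (fun ε : Fin (2*k+1) → Bool => (∑ i, sgn (ε i)) ^ 2 ≤ 1) with hS
  have hcard : (Finset.univ.filter (fun ε : Fin (d * (2*k+1)) → Bool =>
      ‖∑ i, sgn (ε i) • (repV d k i : EE d)‖ ≤ √(d:ℝ))).card ≤ S.card ^ d := by
    have h1 : (Fintype.piFinset (fun _ : Fin d => S)).card = S.card ^ d := by
      rw [Fintype.card_piFinset]; simp
    rw [← h1]
    refine Finset.card_le_card_of_injOn (fun ε j l => ε (finProdFinEquiv (j, l))) ?_ ?_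
    · intro ε hε
      simp only [Finset.coe_filter, Finset.mem_univ, true_and, Set.mem_ofPred_eq] at hε
      simp only [Finset.mem_coe, Fintype.mem_piFinset, hS, Finset.mem_filter, Finset.mem_univ,
        true_and]
      intro j
      have h2 : ‖∑ i, sgn (ε i) • (repV d k i : EE d)‖ ^ 2 ≤ d := by
        have := pow_le_pow_left₀ (norm_nonneg _) hε 2
        rwa [Real.sq_sqrt (by positivity)] at this
      rw [hsum] at h2
      have h3 : ∀ j : Fin d, 1 ≤ (∑ l : Fin (2*k+1), sgn (ε (finProdFinEquiv (j, l)))) ^ 2 :=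
        fun j => one_le_sq_of_odd _
      rw [← Finset.add_sum_erase _ _ (Finset.mem_univ j)] at h2
      have h4 : ((Finset.univ.erase j).card : ℝ) ≤ ∑ x ∈ Finset.univ.erase j,
          (∑ l : Fin (2*k+1), sgn (ε (finProdFinEquiv (x, l)))) ^ 2 := by
        rw [Finset.card_eq_sum_ones]
        push_cast
        exact Finset.sum_le_sum fun x _ => h3 x
      rw [Finset.card_erase_of_mem (Finset.mem_univ j)] at h4
      simp only [Finset.card_univ, Fintype.card_fin] at h4
      have hd : 1 ≤ d := j.pos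
      rw [Nat.cast_sub hd] at h4
      push_cast at h4
      linarith
    · intro ε _ ε' _ h
      funext i
      have := congrFun (congrFun h (finProdFinEquiv.symm i).1) (finProdFinEquiv.symm i).2
      simp only [Prod.mk.eta, Equiv.apply_symm_apply] at this
      exact this
  have hS2 := (card_small (k := k))
  rw [← hS] at hS2
  rw [div_le_iff₀ (by positivity)]
  have h5 : (2:ℝ) ^ (d * (2*k+1)) = (2 * 4 ^ k) ^ d := by
    have : (2:ℝ) * 4 ^ k = 2 ^ (2*k+1) := by
      rw [pow_succ, pow_mul]; norm_num; ring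
    rw [this, ← pow_mul, mul_comm]
  rw [h5, ← mul_pow]
  have h6 : (((2*k+1).choose k : ℝ) / 4 ^ k) * (2 * 4 ^ k) = ((2 * (2*k+1).choose k : ℕ) : ℝ) := by
    push_cast; field_simp
  rw [h6]
  calc _ ≤ ((S.card ^ d : ℕ) : ℝ) := by exact_mod_cast hcard
    _ ≤ _ := by
      push_cast
      refine pow_le_pow_left₀ (by positivity) ?_ d
      exact_mod_cast hS2

lemma wallis_bound (k : ℕ) :
    ((2*k+1 : ℕ):ℝ) * (((2*k+1).choose k : ℝ) / 4 ^ k) ^ 2 ≤ 8 / π := by
  have h1 := Real.Wallis.le_W (k+1)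
  rw [Real.Wallis.W_eq_factorial_ratio] at h1
  set A : ℝ := ((k+1).factorial : ℝ) with hA
  set B : ℝ := ((2*(k+1)).factorial : ℝ) with hB
  have hA0 : 0 < A := by rw [hA]; exact_mod_cast Nat.factorial_pos _
  have hB0 : 0 < B := by rw [hB]; exact_mod_cast Nat.factorial_pos _
  have hc : ((2*k+1).choose k : ℝ) = B / (2 * A ^ 2) := by
    have e1 : (2*k+1).choose k * k.factorial * (k+1).factorial = (2*k+1).factorial := by
      have := Nat.choose_mul_factorial_mul_factorial (n := 2*k+1) (k := k) (by omega)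
      have e : 2*k+1-k = k+1 := by omega
      rwa [e] at this
    have e2 : (2*(k+1)).factorial = (2*k+2) * (2*k+1).factorial := by
      have : 2*(k+1) = (2*k+1)+1 := by ring
      rw [this, Nat.factorial_succ]
    have e3 : (k+1).factorial = (k+1) * k.factorial := Nat.factorial_succ k
    rw [eq_div_iff (by positivity), hA, hB, e2, ← e1]
    push_cast [e3]
    ring
  rw [hc]
  have hπ := Real.pi_pos
  rw [div_pow, div_pow, le_div_iff₀ hπ]
  rw [le_div_iff₀ (by positivity)] at h1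
  have h4 : (2:ℝ) ^ (4 * (k+1)) = 16 * (4 ^ k) ^ 2 := by
    rw [← pow_mul, pow_mul, pow_succ]
    have : (4:ℝ) ^ (k*2) = 16 ^ k := by rw [mul_comm, pow_mul]; norm_num
    rw [this]; norm_num; ring
  rw [h4] at h1
  push_cast at h1 ⊢
  set P : ℝ := (4 ^ k) ^ 2
  have hP : 0 < P := by positivity
  have h5 : (2 * ((k:ℝ) + 1) + 1) / (2 * (k + 1) + 2) * (π / 2) * (B ^ 2 * (2 * (k + 1) + 1)) ≤
      16 * P * A ^ 4 := h1
  have hk : (0:ℝ) ≤ k := by positivity
  have h6 : (2 * (k:ℝ) + 1) * B ^ 2 * π / (4 * A ^ 4 * P) ≤ 8 := by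
    rw [div_le_iff₀ (by positivity)]
    have h7 : (2 * (k:ℝ) + 1) * B ^ 2 * π ≤
        2 * ((2 * ((k:ℝ) + 1) + 1) / (2 * (k + 1) + 2) * (π / 2) * (B ^ 2 * (2 * (k + 1) + 1))) := by
      have h8 : 2 * ((2 * ((k:ℝ) + 1) + 1) / (2 * (k + 1) + 2) * (π / 2) * (B ^ 2 * (2 * (k + 1) + 1)))
          = ((2 * (k:ℝ) + 3) ^ 2 / (2 * k + 4)) * (B ^ 2 * π) := by
        field_simp; ring
      rw [h8]
      have h9 : (2 * (k:ℝ) + 1) ≤ (2 * (k:ℝ) + 3) ^ 2 / (2 * k + 4) := by
        rw [le_div_iff₀ (by positivity)]; nlinarith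
      have : 0 ≤ B ^ 2 * π := by positivity
      nlinarith
    linarith
  calc (2 * (k:ℝ) + 1) * (B ^ 2 / (2 * A ^ 2) ^ 2 / P) * π
      = (2 * (k:ℝ) + 1) * B ^ 2 * π / (4 * A ^ 4 * P) := by
        field_simp; ring
    _ ≤ 8 := h6

/-- bound for the volume of the unit ball by a Gaussian integral -/
lemma omega_le {d : ℕ} (hd : 1 ≤ d) :
    omega d ≤ Real.exp ((d:ℝ)/2) * (2 * π / d) ^ ((d:ℝ)/2) := by
  have hd0 : (0:ℝ) < d := by exact_mod_cast hd
  have hb : (0:ℝ) < (d:ℝ)/2 := by positivity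
  have hG := GaussianFourier.integral_rexp_neg_mul_sq_norm (V := EE d) hb
  have hfr : Module.finrank ℝ (EE d) = d := by simp
  rw [hfr] at hG
  have hval : 0 < (π / ((d:ℝ)/2)) ^ ((d:ℝ)/2) := Real.rpow_pos_of_pos (by positivity) _
  have hint : Integrable (fun v : EE d => Real.exp (-((d:ℝ)/2) * ‖v‖ ^ 2)) := by
    by_contra h
    rw [integral_undef h] at hG
    linarith
  have h1 : ∫ v in Metric.ball (0 : EE d) 1, Real.exp (-((d:ℝ)/2)) ≤
      ∫ v in Metric.ball (0 : EE d) 1, Real.exp (-((d:ℝ)/2) * ‖v‖ ^ 2) := by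
    refine setIntegral_mono_on (integrableOn_const (by exact measure_ball_lt_top.ne))
      hint.integrableOn measurableSet_ball ?_
    intro v hv
    rw [mem_ball_zero_iff] at hv
    apply Real.exp_le_exp.2
    have : ‖v‖ ^ 2 ≤ 1 := by nlinarith [norm_nonneg v]
    nlinarith
  have h2 : ∫ v in Metric.ball (0 : EE d) 1, Real.exp (-((d:ℝ)/2) * ‖v‖ ^ 2)
      ≤ ∫ v : EE d, Real.exp (-((d:ℝ)/2) * ‖v‖ ^ 2) :=
    setIntegral_le_integral hint (Filter.Eventually.of_forall fun v => (Real.exp_pos _).le)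
  rw [setIntegral_const] at h1
  have h3 := h1.trans h2
  rw [hG, smul_eq_mul] at h3
  have e : π / ((d:ℝ)/2) = 2 * π / d := by field_simp
  rw [e] at h3
  have h4 : omega d * Real.exp (-((d:ℝ)/2)) ≤ (2 * π / d) ^ ((d:ℝ)/2) := h3
  have h5 : Real.exp ((d:ℝ)/2) * Real.exp (-((d:ℝ)/2)) = 1 := by
    rw [← Real.exp_add]; simp
  have h6 := mul_le_mul_of_nonneg_left h4 (Real.exp_pos ((d:ℝ)/2)).le
  calc omega d = (Real.exp ((d:ℝ)/2) * Real.exp (-((d:ℝ)/2))) * omega d := by rw [h5, one_mul]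
    _ = Real.exp ((d:ℝ)/2) * (omega d * Real.exp (-((d:ℝ)/2))) := by ring
    _ ≤ _ := h6

lemma lowC_ge {d : ℕ} (hd : 1 ≤ d) :
    Real.exp (-1) * ((d:ℝ) / (2 * π * Real.exp 2)) ^ ((d:ℝ)/2) ≤ lowC d := by
  have hd0 : (0:ℝ) < d := by exact_mod_cast hd
  have hπ := Real.pi_pos
  set h : ℝ := (d:ℝ)/2 with hh
  have hh0 : 0 < h := by positivity
  -- factorial
  have hf : (d:ℝ) ^ h * Real.exp (-h) ≤ √(d.factorial : ℝ) := by
    apply Real.le_sqrt_of_sq_le
    have h1 := Real.pow_div_factorial_le_exp (d:ℝ) hd0.le d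
    have hf0 : (0:ℝ) < (d.factorial : ℝ) := by exact_mod_cast Nat.factorial_pos _
    rw [div_le_iff₀ hf0] at h1
    have e1 : ((d:ℝ) ^ h * Real.exp (-h)) ^ 2 = (d:ℝ) ^ d * Real.exp (-(d:ℝ)) := by
      rw [mul_pow, ← Real.rpow_natCast, ← Real.rpow_mul hd0.le, ← Real.exp_nat_mul,
        ← Real.rpow_natCast (d:ℝ) d]
      congr 1
      · congr 1
        rw [hh]; push_cast; ring
      · congr 1
        rw [hh]; push_cast; ring
    rw [e1]
    calc (d:ℝ) ^ d * Real.exp (-(d:ℝ)) ≤ (Real.exp d * d.factorial) * Real.exp (-(d:ℝ)) :=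
          mul_le_mul_of_nonneg_right h1 (Real.exp_pos _).le
      _ = (Real.exp d * Real.exp (-(d:ℝ))) * d.factorial := by ring
      _ = d.factorial := by rw [← Real.exp_add]; simp
  -- (d+2)^(-h)
  have h2 : Real.exp (-1) * (d:ℝ) ^ (-h) ≤ ((d:ℝ) + 2) ^ (-h) := by
    have e1 : (d:ℝ) + 2 = d * (1 + 2 / d) := by field_simp
    rw [e1, Real.mul_rpow hd0.le (by positivity), mul_comm]
    refine mul_le_mul_of_nonneg_left ?_ (by positivity)
    rw [Real.rpow_neg (by positivity), Real.exp_neg]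
    refine inv_anti₀ (by positivity) ?_
    have h3 : 1 + 2 / (d:ℝ) ≤ Real.exp (2 / d) := by
      have := Real.add_one_le_exp (2 / (d:ℝ))
      linarith
    calc (1 + 2 / (d:ℝ)) ^ h ≤ (Real.exp (2 / d)) ^ h :=
          Real.rpow_le_rpow (by positivity) h3 hh0.le
      _ = Real.exp 1 := by
          rw [← Real.exp_mul]
          congr 1
          rw [hh]; field_simp
  have hω := omega_le hd
  have hω0 := omega_pos d
  rw [← hh] at hω
  have hU : 0 < Real.exp h * (2 * π / d) ^ h := by positivity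
  unfold lowC
  rw [← hh]
  calc Real.exp (-1) * ((d:ℝ) / (2 * π * Real.exp 2)) ^ h
      = ((d:ℝ) ^ h * Real.exp (-h)) * (Real.exp (-1) * (d:ℝ) ^ (-h)) /
          (Real.exp h * (2 * π / d) ^ h) := by
        rw [eq_div_iff hU.ne', Real.div_rpow hd0.le (by positivity),
          Real.mul_rpow (by positivity) (by positivity), Real.div_rpow (by positivity) hd0.le,
          ← Real.exp_mul, Real.rpow_neg hd0.le, Real.exp_neg h]
        have e2 : Real.exp (2 * h) = Real.exp h * Real.exp h := by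
          rw [← Real.exp_add]; congr 1; ring
        rw [e2]
        have a1 : 0 < Real.exp h := Real.exp_pos _
        have a2 : 0 < (d:ℝ) ^ h := by positivity
        have a3 : 0 < (2 * π) ^ h := by positivity
        field_simp
    _ ≤ √(d.factorial : ℝ) * ((d:ℝ) + 2) ^ (-h) / (Real.exp h * (2 * π / d) ^ h) := by
        refine div_le_div_of_nonneg_right ?_ hU.le
        exact mul_le_mul hf h2 (by positivity) (by positivity)
    _ ≤ √(d.factorial : ℝ) * ((d:ℝ) + 2) ^ (-h) / omega d := by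
        exact div_le_div_of_nonneg_left (by positivity) hω0 hω

lemma lowC_eq {d : ℕ} (hd : 1 ≤ d) :
    lowC d = √(d.factorial : ℝ) * Real.Gamma ((d:ℝ)/2 + 1) / (π * ((d:ℝ) + 2)) ^ ((d:ℝ)/2) := by
  have hd0 : (0:ℝ) < d := by exact_mod_cast hd
  have hne : Nonempty (Fin d) := ⟨⟨0, hd⟩⟩
  have hπ := Real.pi_pos
  have hΓ : 0 < Real.Gamma ((d:ℝ)/2 + 1) := Real.Gamma_pos_of_pos (by positivity)
  have hω : omega d = π ^ ((d:ℝ)/2) / Real.Gamma ((d:ℝ)/2 + 1) := by
    unfold omega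
    rw [Measure.real, EuclideanSpace.volume_ball]
    simp only [ENNReal.ofReal_one, one_pow, one_mul, Fintype.card_fin]
    rw [ENNReal.toReal_ofReal (by positivity)]
    congr 1
    rw [Real.sqrt_eq_rpow, ← Real.rpow_natCast, ← Real.rpow_mul hπ.le]
    congr 1
    ring
  unfold lowC
  rw [hω, Real.mul_rpow hπ.le (by positivity), Real.rpow_neg (by positivity)]
  field_simp

end MP087bf0
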