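import Mathlib
import Pool.Agent.Lib.MP_087bf0_co.Upper
open MeasureTheory Set Filter Topology
open scoped ENNReal Real

namespace MP087bf0

theorem nonasymptotic {d n : ℕ} (hd : 1 ≤ d) (hn : d ≤ n) (V : Fin n → EuclideanSpace ℝ (Fin d))
    (hV : ∀ i, ‖V i‖ ≤ 1) :
    √(d.factorial : ℝ) * Real.Gamma ((d:ℝ)/2 + 1) / (π * ((d:ℝ) + 2) * n) ^ ((d:ℝ)/2)
      ≤ prob V (√(d:ℝ)) := by
  obtain ⟨m, rfl⟩ : ∃ m, d = m + 1 := ⟨d - 1, by omega⟩
  have h := general_bound hn V hV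
  rw [lowC_eq hd] at h
  have hn0 : (0:ℝ) < n := by
    have : 0 < n := by omega
    exact_mod_cast this
  have hπ := Real.pi_pos
  rw [Real.mul_rpow (by positivity) hn0.le, ← div_div, div_le_iff₀ (by positivity)]
  exact h

lemma F_ge {d n : ℕ} (hd : 1 ≤ d) (hn : d ≤ n) :
    lowC d ≤ (n:ℝ) ^ ((d:ℝ)/2) * F d (√(d:ℝ)) n := by
  obtain ⟨m, rfl⟩ : ∃ m, d = m + 1 := ⟨d - 1, by omega⟩
  have hn0 : (0:ℝ) < n := by
    have : 0 < n := by omega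
    exact_mod_cast this
  have hpos : (0:ℝ) < (n:ℝ) ^ (((m+1 : ℕ):ℝ)/2) := by positivity
  rw [mul_comm, ← div_le_iff₀ hpos]
  have hne : Nonempty (Fin n → Metric.sphere (0 : EuclideanSpace ℝ (Fin (m+1))) 1) :=
    ⟨fun _ => ⟨sb (m+1) 0, by simp⟩⟩
  refine le_ciInf fun V => ?_
  rw [div_le_iff₀ hpos]
  exact general_bound hn _ (fun i => by
    have := (V i).2
    rw [mem_sphere_zero_iff_norm] at this
    exact this.le)

lemma prob_nonneg {d n : ℕ} (V : Fin n → EuclideanSpace ℝ (Fin d)) (r : ℝ) : 0 ≤ prob V r := by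
  rw [prob_eq]; positivity

lemma F_le {d : ℕ} (hd : 1 ≤ d) (k : ℕ) :
    ((d * (2*k+1) : ℕ):ℝ) ^ ((d:ℝ)/2) * F d (√(d:ℝ)) (d * (2*k+1)) ≤ (8 * d / π) ^ ((d:ℝ)/2) := by
  have hd0 : (0:ℝ) < d := by exact_mod_cast hd
  have hπ := Real.pi_pos
  have h1 : F d (√(d:ℝ)) (d * (2*k+1)) ≤ (((2*k+1).choose k : ℝ) / 4 ^ k) ^ d := by
    refine le_trans (ciInf_le ?_ (repV d k)) (prob_repV d k)
    exact ⟨0, by rintro _ ⟨V, rfl⟩; exact prob_nonneg _ _⟩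
  have h2 := wallis_bound k
  set a : ℝ := ((2*k+1).choose k : ℝ) / 4 ^ k with ha
  have ha0 : 0 ≤ a := by positivity
  calc ((d * (2*k+1) : ℕ):ℝ) ^ ((d:ℝ)/2) * F d (√(d:ℝ)) (d * (2*k+1))
      ≤ ((d * (2*k+1) : ℕ):ℝ) ^ ((d:ℝ)/2) * a ^ d :=
        mul_le_mul_of_nonneg_left h1 (by positivity)
    _ = (d * (((2*k+1 : ℕ):ℝ) * a ^ 2)) ^ ((d:ℝ)/2) := by
        have e : a ^ d = (a ^ 2) ^ ((d:ℝ)/2) := by
          rw [← Real.rpow_natCast a d, ← Real.rpow_natCast a 2, ← Real.rpow_mul ha0]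
          congr 1
          push_cast; ring
        rw [e, ← Real.mul_rpow (by positivity) (by positivity)]
        congr 1
        push_cast; ring
    _ ≤ (d * (8 / π)) ^ ((d:ℝ)/2) :=
        Real.rpow_le_rpow (by positivity) (mul_le_mul_of_nonneg_left h2 hd0.le) (by positivity)
    _ = _ := by congr 1; ring

theorem lower {d : ℕ} (hd : 1 ≤ d) : ENNReal.ofReal (lowC d) ≤ f d (√(d:ℝ)) := by
  have h : ∀ᶠ n : ℕ in atTop, ENNReal.ofReal (lowC d) ≤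
      ENNReal.ofReal ((n : ℝ) ^ ((d : ℝ) / 2) * F d (√(d:ℝ)) n) := by
    filter_upwards [eventually_ge_atTop d] with n hn
    exact ENNReal.ofReal_le_ofReal (F_ge hd hn)
  unfold f f0 f1
  exact le_min (le_liminf_of_le (by isBoundedDefault) (h.filter_mono inf_le_left))
    (le_liminf_of_le (by isBoundedDefault) (h.filter_mono inf_le_left))

theorem upper {d : ℕ} (hd : 1 ≤ d) : f d (√(d:ℝ)) ≤ ENNReal.ofReal ((8 * d / π) ^ ((d:ℝ)/2)) := by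
  unfold f
  refine (min_le_left _ _).trans ?_
  unfold f0
  refine liminf_le_of_frequently_le ?_ (by isBoundedDefault)
  rw [frequently_inf_principal, frequently_atTop]
  intro N
  refine ⟨d * (2*N+1), ?_, ?_, ?_⟩
  · nlinarith
  · show d * (2*N+1) ≡ d [MOD 2]
    have : d * (2*N+1) = d + 2 * (d * N) := by ring
    rw [this]
    simp [Nat.ModEq]
  · exact ENNReal.ofReal_le_ofReal (F_le hd N)

theorem main (d : ℕ) (hd : 2 ≤ d) :
    (∀ n : ℕ, d ≤ n → ∀ V : Fin n → EuclideanSpace ℝ (Fin d), (∀ i, ‖V i‖ = 1) →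
      Real.exp (-1) * ((d:ℝ) / (2 * π * Real.exp 2)) ^ ((d:ℝ)/2) / (n:ℝ) ^ ((d:ℝ)/2)
        ≤ prob V (√(d:ℝ))) ∧
    ENNReal.ofReal (Real.exp (-1) * ((d:ℝ) / (2 * π * Real.exp 2)) ^ ((d:ℝ)/2)) ≤ f d (√(d:ℝ)) ∧
    f d (√(d:ℝ)) ≤ ENNReal.ofReal ((8 * (d:ℝ) / π) ^ ((d:ℝ)/2)) := by
  have hd1 : 1 ≤ d := by omega
  refine ⟨?_, ?_, upper hd1⟩
  · intro n hn V hV
    obtain ⟨m, rfl⟩ : ∃ m, d = m + 1 := ⟨d - 1, by omega⟩
    have h := general_bound hn V (fun i => (hV i).le)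
    have hn0 : (0:ℝ) < n := by
      have : 0 < n := by omega
      exact_mod_cast this
    rw [div_le_iff₀ (by positivity)]
    exact (lowC_ge hd1).trans h
  · exact (ENNReal.ofReal_le_ofReal (lowC_ge hd1)).trans (lower hd1)

end MP087bf0
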