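import Mathlib
import Pool.Agent.Lib.MP_087bf0_co.DegThm
import Pool.Agent.Lib.MP_087bf0_co.Final
open MeasureTheory Set Filter Topology
open scoped ENNReal Real

namespace MP087bf0

/-- non-degenerate systems -/
theorem nondeg : ∃ c : ℝ, 0 < c ∧ ∀ d : ℕ, 1 ≤ d → ∀ lam : ℝ, 0 < lam → ∃ N : ℕ, ∀ n : ℕ, N ≤ n →
    ∀ V : Fin n → EE d, (∀ i, ‖V i‖ = 1) →
    (∀ u : EE d, ‖u‖ = 1 → lam * n ≤ ∑ j, inner ℝ u (V j) ^ 2) →
    c * (√(8 * d / (π * n))) ^ d ≤ prob V (√(d:ℝ)) := by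
  obtain ⟨c, hc, H⟩ := nondeg_prob
  refine ⟨c, hc, fun d hd lam hlam => ?_⟩
  obtain ⟨K, N1, δ, hδ, H1⟩ := H d hd (√(lam / 2)) (Real.sqrt_pos.2 (by positivity)) (lam / 2) (by positivity)
  obtain ⟨N2, H2⟩ := selection (d := d) hlam K hδ
  refine ⟨max N1 N2, fun n hn V hV hnd => ?_⟩
  obtain ⟨b, W, J, hW, hWl, hJ, hVJ, hlow⟩ := H2 n ((le_max_right _ _).trans hn) V hV hnd
  have h := H1 n ((le_max_left _ _).trans hn) W hW hWl J hJ (fun i => b.repr (V i))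
    (fun i => by rw [LinearIsometryEquiv.norm_map]; exact hV i) hVJ hlow
  rw [prob_repr] at h
  exact h

/-- the exact order, pointwise in `V` -/
theorem exact_order : ∃ c : ℝ, 0 < c ∧ ∀ d : ℕ, 1 ≤ d → ∃ N : ℕ, ∀ n : ℕ, N ≤ n →
    ∀ V : Fin n → EE d, (∀ i, ‖V i‖ = 1) →
    c * (8 * d / π) ^ ((d:ℝ)/2) / (n:ℝ) ^ ((d:ℝ)/2) ≤ prob V (√(d:ℝ)) := by
  obtain ⟨c, hc, H⟩ := nondeg
  refine ⟨c, hc, fun d hd => ?_⟩
  have hπ := Real.pi_pos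
  have hd0 : (0:ℝ) < d := by exact_mod_cast hd
  have hBpos : 0 < c * (8 * d / π) ^ ((d:ℝ)/2) := by positivity
  obtain ⟨m, rfl⟩ : ∃ m, d = m + 1 := ⟨d - 1, by omega⟩
  obtain ⟨lam, hlam, n0, HD⟩ := degenerate m hBpos
  obtain ⟨N, HN⟩ := H (m+1) hd lam hlam
  refine ⟨max (max n0 N) 1, fun n hn V hV => ?_⟩
  have hn1 : 1 ≤ n := (le_max_right _ _).trans hn
  have hn0 : (0:ℝ) < n := by exact_mod_cast hn1
  have hsq : √(n:ℝ) ^ (m+1) = (n:ℝ) ^ (((m+1 : ℕ):ℝ)/2) := by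
    rw [Real.sqrt_eq_rpow, ← Real.rpow_natCast, ← Real.rpow_mul hn0.le]
    congr 1
    ring
  rw [div_le_iff₀ (by positivity)]
  by_cases hdeg : ∃ u0 : EE (m+1), ‖u0‖ = 1 ∧ ∑ j, inner ℝ u0 (V j) ^ 2 ≤ lam * n
  · obtain ⟨u0, hu0, hs⟩ := hdeg
    have h := HD n ((le_max_left _ _).trans ((le_max_left _ _).trans hn)) V hV u0 hu0 hs
    rw [hsq] at h
    exact h
  · push Not at hdeg
    have h := HN n ((le_max_right _ _).trans ((le_max_left _ _).trans hn)) V hV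
      (fun u hu => (hdeg u hu).le)
    have e : (√(8 * ((m+1 : ℕ):ℝ) / (π * n))) ^ (m+1)
        = (8 * ((m+1 : ℕ):ℝ) / π) ^ (((m+1 : ℕ):ℝ)/2) / (n:ℝ) ^ (((m+1 : ℕ):ℝ)/2) := by
      rw [← Real.div_rpow (by positivity) hn0.le, div_div, Real.sqrt_eq_rpow, ← Real.rpow_natCast,
        ← Real.rpow_mul (by positivity)]
      congr 1
      ring
    rw [e, mul_div_assoc', div_le_iff₀ (by positivity)] at h
    exact h

theorem exact_main : ∃ c : ℝ, 0 < c ∧ ∀ d : ℕ, 2 ≤ d →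
    (∀ᶠ n : ℕ in atTop, ∀ V : Fin n → EuclideanSpace ℝ (Fin d), (∀ i, ‖V i‖ = 1) →
      c * (8 * (d:ℝ) / π) ^ ((d:ℝ)/2) / (n:ℝ) ^ ((d:ℝ)/2) ≤ prob V (√(d:ℝ))) ∧
    ENNReal.ofReal (c * (8 * (d:ℝ) / π) ^ ((d:ℝ)/2)) ≤ f d (√(d:ℝ)) ∧
    f d (√(d:ℝ)) ≤ ENNReal.ofReal ((8 * (d:ℝ) / π) ^ ((d:ℝ)/2)) := by
  obtain ⟨c, hc, H⟩ := exact_order
  refine ⟨c, hc, fun d hd => ?_⟩
  have hd1 : 1 ≤ d := by omega
  obtain ⟨N, HN⟩ := H d hd1
  refine ⟨?_, ?_, upper hd1⟩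
  · filter_upwards [eventually_ge_atTop N] with n hn V hV
    exact HN n hn V hV
  · have h : ∀ᶠ n : ℕ in atTop, ENNReal.ofReal (c * (8 * (d:ℝ) / π) ^ ((d:ℝ)/2)) ≤
        ENNReal.ofReal ((n : ℝ) ^ ((d : ℝ) / 2) * F d (√(d:ℝ)) n) := by
      filter_upwards [eventually_ge_atTop (max N 1)] with n hn
      have hn1 : 1 ≤ n := (le_max_right _ _).trans hn
      have hn0 : (0:ℝ) < n := by exact_mod_cast hn1
      refine ENNReal.ofReal_le_ofReal ?_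
      have hpos : (0:ℝ) < (n:ℝ) ^ ((d:ℝ)/2) := by positivity
      rw [mul_comm _ (F d (√(d:ℝ)) n), ← div_le_iff₀ hpos]
      have hne : Nonempty (Fin n → Metric.sphere (0 : EuclideanSpace ℝ (Fin d)) 1) :=
        ⟨fun _ => ⟨sb d ⟨0, hd1⟩, by simp⟩⟩
      refine le_ciInf fun V => ?_
      exact HN n ((le_max_left _ _).trans hn) _ (fun i => by
        have := (V i).2
        rw [mem_sphere_zero_iff_norm] at this
        exact this)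
    unfold f f0 f1
    exact le_min (le_liminf_of_le (by isBoundedDefault) (h.filter_mono inf_le_left))
      (le_liminf_of_le (by isBoundedDefault) (h.filter_mono inf_le_left))

end MP087bf0
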